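import Mathlib

/-! T-INF, block F, leaf FT1: an eigenbasis. -/

namespace TI

open Polynomial

/-- PROOF. For a semisimple operator on a finite-dimensional space over an algebraically closed field the eigenspaces span
(Module.End.iSup_maxGenEigenspace_eq_top and IsFinitelySemisimple.maxGenEigenspace_eq_eigenspace, or via
Module.End.isSemisimple / squarefree minimal polynomial) and are independent
(Module.End.eigenspaces_iSupIndep), so the direct sum is internal and DirectSum.IsInternal.collectedBasis is an eigenbasis.
Or: IsSemisimple → every invariant subspace has an invariant complement, induction on the dimension. -/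
theorem eigenbasis (V : Type) [AddCommGroup V] [Module ℂ V] [FiniteDimensional ℂ V] (F : V →ₗ[ℂ] V)
    (hF : Module.End.IsSemisimple F) :
    ∃ (ι : Type) (_ : Fintype ι) (b : Module.Basis ι ℂ V) (lam : ι → ℂ),
      (∀ i, F (b i) = lam i • b i) ∧ ∀ i, F.charpoly.eval (lam i) = 0 := by
  classical
  have h1 : ⨆ μ : ℂ, Module.End.eigenspace F μ = ⊤ := by
    rw [← Module.End.iSup_maxGenEigenspace_eq_top F]
    exact iSup_congr fun μ => (hF.isFinitelySemisimple.maxGenEigenspace_eq_eigenspace μ).symm
  have h2 : DirectSum.IsInternal (fun μ : ℂ => Module.End.eigenspace F μ) :=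
    DirectSum.isInternal_submodule_of_iSupIndep_of_iSup_eq_top (Module.End.eigenspaces_iSupIndep F) h1
  let b := h2.collectedBasis fun μ => Module.finBasis ℂ (Module.End.eigenspace F μ)
  have h3 : Finite ((μ : ℂ) × Fin (Module.finrank ℂ (Module.End.eigenspace F μ))) :=
    Module.Finite.finite_basis b
  have h4 : ∀ i, F (b i) = i.1 • b i := fun i =>
    Module.End.mem_eigenspace_iff.1 (h2.collectedBasis_mem _ i)
  refine ⟨_, Fintype.ofFinite _, b, fun i => i.1, h4, fun i => ?_⟩
  have h5 : Module.End.HasEigenvector F i.1 (b i) :=
    ⟨Module.End.mem_eigenspace_iff.2 (h4 i), b.ne_zero i⟩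
  have h6 := Module.End.aeval_apply_of_hasEigenvector (p := F.charpoly) h5
  rw [LinearMap.aeval_self_charpoly, LinearMap.zero_apply] at h6
  exact (smul_eq_zero.1 h6.symm).resolve_right (b.ne_zero i)

end TI
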