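import Mathlib

/-! T-INF, block F, leaf FT2: expansion of a multilinear form in a basis. -/

namespace TI

/-- PROOF. `S ∋` the sum over `a : Fin k → ι` of `T (fun j => b (a j)) • M a`, where `M a` is the form
`v ↦ ∏ j, b.coord (a j) (v j)` (`(MultilinearMap.mkPiAlgebra ℂ (Fin k) ℂ).compLinearMap fun j => b.coord (a j)`); the sum is `T`
(Module.Basis.ext_multilinear, or expand `v j = ∑ i, b.repr (v j) i • b i` with MultilinearMap.map_sum and map_smul_univ). -/
theorem mem_of_coord {k : ℕ} {V ι : Type} [AddCommGroup V] [Module ℂ V] [Fintype ι] (b : Module.Basis ι ℂ V)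
    (T : MultilinearMap ℂ (fun _ : Fin k => V) ℂ) (S : Submodule ℂ (MultilinearMap ℂ (fun _ : Fin k => V) ℂ))
    (hS : ∀ a : Fin k → ι, T (fun j => b (a j)) ≠ 0 → ∀ M : MultilinearMap ℂ (fun _ : Fin k => V) ℂ,
      (∀ v, M v = ∏ j, b.repr (v j) (a j)) → M ∈ S) : T ∈ S := by
  classical
  let M : (Fin k → ι) → MultilinearMap ℂ (fun _ : Fin k => V) ℂ := fun a =>
    (MultilinearMap.mkPiAlgebra ℂ (Fin k) ℂ).compLinearMap fun j => b.coord (a j)
  have hM : ∀ a v, M a v = ∏ j, b.repr (v j) (a j) := fun a v => by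
    simp only [M, MultilinearMap.compLinearMap_apply, MultilinearMap.mkPiAlgebra_apply,
      Module.Basis.coord_apply]
  have hT : T = ∑ a : Fin k → ι, T (fun j => b (a j)) • M a := by
    refine Module.Basis.ext_multilinear (fun _ => b) fun i => ?_
    rw [sum_apply, Finset.sum_eq_single i]
    · rw [smul_apply, hM]
      simp
    · intro a _ hai
      rw [smul_apply, hM]
      obtain ⟨j, hj⟩ := Function.ne_iff.1 hai
      rw [Finset.prod_eq_zero (Finset.mem_univ j), smul_zero]
      rw [Module.Basis.repr_self, Finsupp.single_apply, if_neg (Ne.symm hj)]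
    · intro h
      exact absurd (Finset.mem_univ i) h
  rw [hT]
  refine Submodule.sum_mem _ fun a _ => ?_
  by_cases h : T (fun j => b (a j)) = 0
  · rw [h, zero_smul]
    exact Submodule.zero_mem _
  · exact Submodule.smul_mem _ _ (hS a h (M a) (hM a))

end TI
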