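import Mathlib

/-! T-INF, block F, leaf FM: a balanced family can be matched. -/

namespace TI

private theorem FM_aux {c x v : ℂ} (hc : c ≠ 0) (hx : x ≠ 0) (h : c / x = v) : x = c / v := by
  subst h
  field_simp

/-- PROOF. Fix a linear order on the complex numbers (or on the set of values of `z`; e.g. lexicographic, or any linear order).
`α₊ = {a | z a < c / z a}`, `α₋ = {a | c / z a < z a}`; no third case (`z a ^ 2 ≠ c`). For every `v` the fibre of `z` over `v` in
`α₊` (all of the fibre in `Fin k`, or empty) has the same cardinal as the fibre of `a ↦ c / z a` over `v` in `α₋` (the fibre of `z`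
over `c / v`), so `α₊ ≃ α₋` compatible with `z`, `c / z` (Equiv.ofFiberEquiv, Fintype.equivOfCardEq), `m = card α₊`,
`e : Fin m ⊕ Fin m ≃ α₊ ⊕ α₋ ≃ Fin k`. Or: induction on the size of a finite set, taking away a pair `a`, `b` with `z b = c / z a`. -/
theorem matching {k : ℕ} (z : Fin k → ℂ) (c : ℂ) (hz : ∀ a, z a ≠ 0) (hc : ∀ a, z a ^ 2 ≠ c)
    (hb : ∀ a, (Finset.univ.filter fun b => z b = z a).card = (Finset.univ.filter fun b => z b = c / z a).card) :
    ∃ (m : ℕ) (e : Fin m ⊕ Fin m ≃ Fin k), ∀ i, z (e (Sum.inl i)) * z (e (Sum.inr i)) = c := by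
  classical
  have c0 : ∀ _ : Fin k, c ≠ 0 := by
    intro a hc0
    have h := hb a
    have h1 : (Finset.univ.filter fun b => z b = c / z a) = ∅ := by
      ext b
      simp [hc0, hz b]
    rw [h1, Finset.card_empty, Finset.card_eq_zero] at h
    have : a ∈ (Finset.univ.filter fun b => z b = z a) := by simp
    rw [h] at this
    simp at this
  have hb' : ∀ v : ℂ, v ≠ 0 → (Finset.univ.filter fun b => z b = v).card
      = (Finset.univ.filter fun b => z b = c / v).card := by
    intro v hv
    by_cases h : ∃ a, z a = v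
    · obtain ⟨a, rfl⟩ := h
      exact hb a
    · by_cases h' : ∃ b, z b = c / v
      · obtain ⟨b, hbv⟩ := h'
        have h1 := hb b
        have h2 : c / z b = v := by
          rw [hbv]
          field_simp [c0 b]
        rw [h2, hbv] at h1
        exact h1.symm
      · push Not at h h'
        rw [Finset.filter_eq_empty_iff.2 (fun b _ => h b), Finset.filter_eq_empty_iff.2 (fun b _ => h' b)]
  let r : ℂ → ℂ → Prop := WellOrderingRel
  have tri : ∀ x y : ℂ, x ≠ y → ¬ r x y → r y x := by
    intro x y hxy h
    rcases trichotomous_of (WellOrderingRel : ℂ → ℂ → Prop) x y with h1 | h1 | h1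
    · exact absurd h1 h
    · exact absurd h1 hxy
    · exact h1
  have asy : ∀ x y : ℂ, r x y → ¬ r y x := fun x y h h' => asymm_of (WellOrderingRel : ℂ → ℂ → Prop) h h'
  let p : Fin k → Prop := fun a => r (z a) (c / z a)
  have key : ∀ v : ℂ, Nonempty ({a : {a // p a} // z a.1 = v} ≃ {a : {a // ¬ p a} // c / z a.1 = v}) := by
    intro v
    by_cases hv : v = 0
    · have : IsEmpty {a : {a // p a} // z a.1 = v} := ⟨fun a => hz a.1.1 (a.2.trans hv)⟩
      have : IsEmpty {a : {a // ¬ p a} // c / z a.1 = v} :=
        ⟨fun a => (div_ne_zero (c0 a.1.1) (hz a.1.1)) (a.2.trans hv)⟩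
      exact ⟨Equiv.equivOfIsEmpty _ _⟩
    by_cases hr : r v (c / v)
    · have e1 : {a : {a // p a} // z a.1 = v} ≃ {b : Fin k // z b = v} :=
        { toFun := fun a => ⟨a.1.1, a.2⟩
          invFun := fun b => ⟨⟨b.1, by
            change r (z b.1) (c / z b.1)
            rw [b.2]; exact hr⟩, b.2⟩
          left_inv := fun a => rfl
          right_inv := fun b => rfl }
      have e2 : {a : {a // ¬ p a} // c / z a.1 = v} ≃ {b : Fin k // z b = c / v} :=
        { toFun := fun a => ⟨a.1.1, FM_aux (c0 a.1.1) (hz a.1.1) a.2⟩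
          invFun := fun b => ⟨⟨b.1, by
            change ¬ r (z b.1) (c / z b.1)
            have h2 : c / z b.1 = v := by
              rw [b.2]
              field_simp [c0 b.1]
            rw [h2, b.2]
            exact asy _ _ hr⟩, by
            change c / z b.1 = v
            rw [b.2]
            field_simp [c0 b.1]⟩
          left_inv := fun a => rfl
          right_inv := fun b => rfl }
      have e3 : {b : Fin k // z b = v} ≃ {b : Fin k // z b = c / v} := by
        apply Fintype.equivOfCardEq
        rw [Fintype.card_subtype, Fintype.card_subtype]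
        exact hb' v hv
      exact ⟨e1.trans (e3.trans e2.symm)⟩
    · have : IsEmpty {a : {a // p a} // z a.1 = v} := ⟨fun a => hr (by
        have h1 : r (z a.1.1) (c / z a.1.1) := a.1.2
        rw [a.2] at h1
        exact h1)⟩
      have : IsEmpty {a : {a // ¬ p a} // c / z a.1 = v} := ⟨fun a => hr (by
        have h1 : ¬ r (z a.1.1) (c / z a.1.1) := a.1.2
        have h2 : z a.1.1 = c / v := FM_aux (c0 a.1.1) (hz a.1.1) a.2
        have h3 : c / z a.1.1 = v := a.2
        rw [h3] at h1
        have h4 : z a.1.1 ≠ v := by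
          intro h5
          apply hc a.1.1
          rw [h5] at h2 ⊢
          rw [eq_div_iff hv] at h2
          rw [pow_two, h2]
        rw [← h2]
        exact tri _ _ h4 h1)⟩
      exact ⟨Equiv.equivOfIsEmpty _ _⟩
  let φ : {a // p a} ≃ {a // ¬ p a} :=
    Equiv.ofFiberEquiv (f := fun a : {a // p a} => z a.1) (g := fun a : {a // ¬ p a} => c / z a.1)
      (fun v => (key v).some)
  have hφ : ∀ a, c / z (φ a).1 = z a.1 := fun a =>
    Equiv.ofFiberEquiv_map (f := fun a : {a // p a} => z a.1) (g := fun a : {a // ¬ p a} => c / z a.1)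
      (fun v => (key v).some) a
  let ε := (Fintype.equivFin {a // p a}).symm
  refine ⟨Fintype.card {a // p a}, (Equiv.sumCongr ε (ε.trans φ)).trans (Equiv.sumCompl p), fun i => ?_⟩
  have h1 := hφ (ε i)
  simp only [Equiv.trans_apply, Equiv.sumCongr_apply, Sum.map_inl, Sum.map_inr, Equiv.sumCompl_apply_inl,
    Equiv.sumCompl_apply_inr]
  rw [← h1]
  field_simp [hz (φ (ε i)).1]

end TI
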