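import Mathlib

/-! T-INF, block F, leaf FG: an eigenform has an eigenvalue. -/

namespace TI

open Polynomial

/-- PROOF. Otherwise `X ^ d - C μ` and `G.charpoly` have no common root in `ℂ`, so they are coprime
(Polynomial.isCoprime_iff_aeval_ne_zero_of_isAlgClosed): `a (X ^ d - C μ) + b G.charpoly = 1`. Apply `aeval G` and `φ`:
`φ w = φ ((G ^ d - μ) (a(G) w)) + φ (charpoly(G) (b(G) w)) = 0` for all `w` (LinearMap.aeval_self_charpoly), so `φ = 0`. -/
theorem eig {W : Type} [AddCommGroup W] [Module ℂ W] [FiniteDimensional ℂ W] (G : W →ₗ[ℂ] W) (d : ℕ) (μ : ℂ)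
    (φ : W →ₗ[ℂ] ℂ) (hφ : φ ≠ 0) (h : ∀ w, φ ((G ^ d) w) = μ * φ w) :
    ∃ x : ℂ, G.charpoly.eval x = 0 ∧ x ^ d = μ := by
  by_contra hne
  have hne' : ∀ x : ℂ, G.charpoly.eval x = 0 → x ^ d ≠ μ := fun x h1 h2 => hne ⟨x, h1, h2⟩
  have hc : IsCoprime (X ^ d - C μ : ℂ[X]) G.charpoly := by
    rw [isCoprime_iff_aeval_ne_zero_of_isAlgClosed ℂ ℂ]
    intro x
    by_cases h1 : G.charpoly.eval x = 0
    · left
      rw [coe_aeval_eq_eval, eval_sub, eval_pow, eval_X, eval_C]
      exact sub_ne_zero.2 (hne' x h1)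
    · right
      rw [coe_aeval_eq_eval]
      exact h1
  obtain ⟨a, b, hab⟩ := hc
  apply hφ
  ext w
  have h1 : aeval G ((X ^ d - C μ) * a + b * G.charpoly) w = w := by
    rw [mul_comm (X ^ d - C μ) a, hab, map_one, Module.End.one_apply]
  have h2 : aeval G (b * G.charpoly) w = 0 := by
    rw [map_mul, LinearMap.aeval_self_charpoly, mul_zero, LinearMap.zero_apply]
  have h3 : aeval G ((X ^ d - C μ) * a) w = (G ^ d) (aeval G a w) - μ • (aeval G a w) := by
    rw [map_mul, map_sub, map_pow, aeval_X, aeval_C, Module.End.mul_apply, LinearMap.sub_apply]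
    rfl
  rw [map_add, LinearMap.add_apply, h2, add_zero, h3] at h1
  rw [← h1, map_sub, map_smul, h, smul_eq_mul, sub_self]
  rfl

end TI
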