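import Pool.Agent.Lib.MP_021685_agTI.TDefs

/-! T-INF, block F, leaf FB: the polynomial `X ^ g h(X + q / X)`. -/

namespace TI

open Polynomial

private theorem FB_aeval (q : ℕ) (h : ℤ[X]) (z : ℂ) : aeval z (frobPoly q h) =
    ∑ i ∈ Finset.range (h.natDegree + 1), (h.coeff i : ℂ) * (z ^ 2 + (q : ℂ)) ^ i * z ^ (h.natDegree - i) := by
  unfold frobPoly
  rw [map_sum]
  refine Finset.sum_congr rfl fun i _ => ?_
  simp [map_mul, map_pow, map_add]

private theorem FB_key (q : ℕ) (h : ℤ[X]) (z x : ℂ) (hx : z * x = z ^ 2 + (q : ℂ)) :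
    aeval z (frobPoly q h) = z ^ h.natDegree * aeval x h := by
  rw [FB_aeval, aeval_eq_sum_range, Finset.mul_sum]
  refine Finset.sum_congr rfl fun i hi => ?_
  have hi' : i ≤ h.natDegree := by
    have := Finset.mem_range.1 hi
    omega
  rw [← hx, mul_pow, zsmul_eq_mul]
  calc (h.coeff i : ℂ) * (z ^ i * x ^ i) * z ^ (h.natDegree - i)
      = (h.coeff i : ℂ) * x ^ i * (z ^ (h.natDegree - i) * z ^ i) := by ring
    _ = (h.coeff i : ℂ) * x ^ i * z ^ h.natDegree := by rw [← pow_add, Nat.sub_add_cancel hi']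
    _ = z ^ h.natDegree * ((h.coeff i : ℂ) * x ^ i) := by ring

/-- PROOF. At `z = 0` only the term `i = natDegree h` is left and its value is `q ^ natDegree h ≠ 0` (monic). So `z ≠ 0`,
and the value at `z` is `z ^ n ∑ h_i ((z ^ 2 + q) / z) ^ i = z ^ n h(x)`, `x = (z ^ 2 + q) / z` (aeval_eq_sum_range). -/
theorem frob_root (q : ℕ) (hq : 0 < q) (h : ℤ[X]) (hm : h.Monic) (z : ℂ) (hz : aeval z (frobPoly q h) = 0) :
    ∃ x : ℂ, aeval x h = 0 ∧ z ^ 2 - x * z + (q : ℂ) = 0 := by
  have hq' : (q : ℂ) ≠ 0 := Nat.cast_ne_zero.2 hq.ne'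
  have hz0 : z ≠ 0 := by
    rintro rfl
    rw [FB_aeval, Finset.sum_eq_single h.natDegree] at hz
    · rw [Nat.sub_self, pow_zero, mul_one, hm.coeff_natDegree, Int.cast_one, one_mul] at hz
      have h2 : (0 : ℂ) ^ 2 + (q : ℂ) = q := by ring
      rw [h2] at hz
      exact pow_ne_zero _ hq' hz
    · intro i hi hne
      have hi' : i < h.natDegree + 1 := Finset.mem_range.1 hi
      have : h.natDegree - i ≠ 0 := by omega
      rw [zero_pow this, mul_zero]
    · intro h3
      exact absurd (Finset.mem_range.2 (Nat.lt_succ_self _)) h3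
  have hx : z * ((z ^ 2 + (q : ℂ)) / z) = z ^ 2 + (q : ℂ) := mul_div_cancel₀ _ hz0
  refine ⟨(z ^ 2 + (q : ℂ)) / z, ?_, ?_⟩
  · rw [FB_key q h z _ hx] at hz
    exact (mul_eq_zero.1 hz).resolve_left (pow_ne_zero _ hz0)
  · rw [mul_comm _ z, hx]
    ring

/-- PROOF. The same computation backwards: `z ≠ 0` because `q ≠ 0`, and `x = (z ^ 2 + q) / z`. -/
theorem frob_root' (q : ℕ) (hq : 0 < q) (h : ℤ[X]) (x z : ℂ) (hx : aeval x h = 0)
    (hz : z ^ 2 - x * z + (q : ℂ) = 0) : aeval z (frobPoly q h) = 0 := by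
  have h1 : z * x = z ^ 2 + (q : ℂ) := by linear_combination -hz
  rw [FB_key q h z x h1, hx, mul_zero]

/-- PROOF. Every term has degree at most `2 i + (n - i) ≤ 2 n`; the coefficient of `X ^ (2 n)` is that of the term `i = n`,
one. -/
theorem frob_deg (q : ℕ) (h : ℤ[X]) (hm : h.Monic) :
    (frobPoly q h).natDegree ≤ 2 * h.natDegree ∧ frobPoly q h ≠ 0 := by
  have hterm : ∀ i, (C (h.coeff i) * (X ^ 2 + C (q : ℤ)) ^ i * X ^ (h.natDegree - i) : ℤ[X]).natDegree ≤
      2 * i + (h.natDegree - i) := by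
    intro i
    refine (natDegree_mul_le).trans ?_
    refine add_le_add ((natDegree_C_mul_le _ _).trans ?_) (natDegree_X_pow_le _)
    refine (natDegree_pow_le).trans ?_
    rw [mul_comm]
    refine Nat.mul_le_mul_right i ?_
    refine (natDegree_add_le _ _).trans ?_
    simp
  refine ⟨?_, fun h0 => ?_⟩
  · unfold frobPoly
    refine natDegree_sum_le_of_forall_le _ _ fun i hi => (hterm i).trans ?_
    have := Finset.mem_range.1 hi
    omega
  · have h1 : (frobPoly q h).coeff (2 * h.natDegree) = 1 := by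
      unfold frobPoly
      rw [finsetSum_coeff, Finset.sum_eq_single h.natDegree]
      · rw [Nat.sub_self, pow_zero, mul_one, hm.coeff_natDegree, C_1, one_mul]
        have h2 : ((X ^ 2 + C (q : ℤ) : ℤ[X]) ^ h.natDegree).Monic :=
          (monic_X_pow_add_C (q : ℤ) two_ne_zero).pow _
        have h3 : ((X ^ 2 + C (q : ℤ) : ℤ[X]) ^ h.natDegree).natDegree = 2 * h.natDegree := by
          rw [(monic_X_pow_add_C (q : ℤ) two_ne_zero).natDegree_pow, natDegree_X_pow_add_C, mul_comm]
        rw [← h3]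
        exact h2.coeff_natDegree
      · intro i hi hne
        have hi' : i < h.natDegree + 1 := Finset.mem_range.1 hi
        refine coeff_eq_zero_of_natDegree_lt (lt_of_le_of_lt (hterm i) ?_)
        omega
      · intro h3
        exact absurd (Finset.mem_range.2 (Nat.lt_succ_self _)) h3
    rw [h0, coeff_zero] at h1
    exact zero_ne_one h1

end TI
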