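import Mathlib

/-! Definitions used in the statement of `MP_021685_ag` (one hundred per cent of the abelian varieties over a fixed
finite field).

Dictionary.  `q` is the number of elements of the finite field.  An abelian variety `A` of dimension `g` has the
real Weil polynomial `h`, monic of degree `g` with integer coefficients, whose roots are the `g` real numbers
`π + q/π` (`π` the eigenvalues of Frobenius), and its Frobenius `F` on `V = H¹(A)` has the characteristic polynomial
`X ^ g h(X + q/X)`.  By Tate `F` is semisimple and `h` determines `A` up to isogeny. -/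

namespace TI

open Polynomial

/-- The real Weil polynomials of degree `g` over the field with `q` elements: the monic integer
polynomials of degree `g` all of whose complex roots are real numbers `x` with `x ^ 2 ≤ 4 q`. -/
def Weil (q g : ℕ) : Set ℤ[X] :=
  {h | h.Monic ∧ h.natDegree = g ∧
    ∀ z : ℂ, aeval z h = 0 → ∃ x : ℝ, (x : ℂ) = z ∧ x ^ 2 ≤ 4 * (q : ℝ)}

/-- The polynomial `X ^ n h(X + q / X)`, `n` the degree of `h`: the characteristic polynomial of Frobenius
of an abelian variety with real Weil polynomial `h`. -/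
noncomputable def frobPoly (q : ℕ) (h : ℤ[X]) : ℤ[X] :=
  ∑ i ∈ Finset.range (h.natDegree + 1),
    C (h.coeff i) * (X ^ 2 + C (q : ℤ)) ^ i * X ^ (h.natDegree - i)

/-- Tate forms over the extension of degree `d`: `k`-linear forms `T` on `V` such that
`T(F^d v_1, .., F^d v_k) = (√q)^(d k) T(v_1, .., v_k)`. -/
def IsTate (q d k : ℕ) {V : Type} [AddCommGroup V] [Module ℂ V] (F : V →ₗ[ℂ] V)
    (T : MultilinearMap ℂ (fun _ : Fin k => V) ℂ) : Prop :=
  ∀ v : Fin k → V, T (fun a => (F ^ d) (v a)) = ((Real.sqrt q : ℝ) : ℂ) ^ (d * k) * T v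

/-- Tate pairings over the extension of degree `d`: bilinear forms `b` with `b(F^d v, F^d w) = q^d b(v, w)`
(for an abelian variety these are, by Tate's theorem of 1966, the classes of divisors). -/
def IsPairing (q d : ℕ) {V : Type} [AddCommGroup V] [Module ℂ V] (F : V →ₗ[ℂ] V)
    (b : V →ₗ[ℂ] V →ₗ[ℂ] ℂ) : Prop :=
  ∀ v w : V, b ((F ^ d) v) ((F ^ d) w) = (q : ℂ) ^ d * b v w

/-- The products of Tate pairings: the arguments are matched in `m` pairs, `k = 2 m`. -/
def IsProduct (q d k : ℕ) {V : Type} [AddCommGroup V] [Module ℂ V] (F : V →ₗ[ℂ] V)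
    (T : MultilinearMap ℂ (fun _ : Fin k => V) ℂ) : Prop :=
  ∃ (m : ℕ) (e : Fin m ⊕ Fin m ≃ Fin k) (b : Fin m → V →ₗ[ℂ] V →ₗ[ℂ] ℂ),
    (∀ i, IsPairing q d F (b i)) ∧
      ∀ v : Fin k → V, T v = ∏ i, b i (v (e (Sum.inl i))) (v (e (Sum.inr i)))

/-- For every semisimple operator `F` with characteristic polynomial `P` (on a finite-dimensional complex space)
and for every extension degree `d > 0`, all Tate forms (in any number `k` of arguments) are linear combinations of
products of Tate pairings. -/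
def Full (q : ℕ) (P : ℤ[X]) : Prop :=
  ∀ (V : Type) [AddCommGroup V] [Module ℂ V] [FiniteDimensional ℂ V] (F : V →ₗ[ℂ] V),
    Module.End.IsSemisimple F → F.charpoly = P.map (Int.castRingHom ℂ) →
      ∀ d k : ℕ, 0 < d → ∀ T : MultilinearMap ℂ (fun _ : Fin k => V) ℂ, IsTate q d k F T →
        T ∈ Submodule.span ℂ {T' : MultilinearMap ℂ (fun _ : Fin k => V) ℂ | IsProduct q d k F T'}

/-- `T'(v, w) = T₀(v) c(w)`, `T₀` a product of Tate pairings, `c` a linear form with `c(G^d w) = (√q)^(d b) c(w)` (a Tate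
class of a variety `Z`; `G` is the Frobenius operator on the dual of the cohomology of degree `b` of `Z`). -/
def IsProductWith (q d k b : ℕ) {V W : Type} [AddCommGroup V] [Module ℂ V] [AddCommGroup W] [Module ℂ W]
    (F : V →ₗ[ℂ] V) (G : W →ₗ[ℂ] W) (T' : MultilinearMap ℂ (fun _ : Fin k => V) (W →ₗ[ℂ] ℂ)) : Prop :=
  ∃ (T₀ : MultilinearMap ℂ (fun _ : Fin k => V) ℂ) (c : W →ₗ[ℂ] ℂ), IsProduct q d k F T₀ ∧
    (∀ w, c ((G ^ d) w) = ((Real.sqrt q : ℝ) : ℂ) ^ (d * b) * c w) ∧ ∀ v w, T' v w = T₀ v * c w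

/-- For every semisimple operator `F` on `V` with characteristic polynomial `P`, every operator `G` on `W` with
characteristic polynomial `Q`, every extension degree `d > 0`, all `k` and `b`: all Tate forms on `V^k × W` (total weight
`k + b`) are linear combinations of products of Tate pairings on `V` and one Tate form on `W`. -/
def FullWith (q : ℕ) (P Q : ℤ[X]) : Prop :=
  ∀ (V W : Type) [AddCommGroup V] [Module ℂ V] [FiniteDimensional ℂ V] [AddCommGroup W] [Module ℂ W]
    [FiniteDimensional ℂ W] (F : V →ₗ[ℂ] V) (G : W →ₗ[ℂ] W),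
    Module.End.IsSemisimple F → F.charpoly = P.map (Int.castRingHom ℂ) →
      G.charpoly = Q.map (Int.castRingHom ℂ) →
        ∀ d k b : ℕ, 0 < d → ∀ T : MultilinearMap ℂ (fun _ : Fin k => V) (W →ₗ[ℂ] ℂ),
          (∀ v w, T (fun a => (F ^ d) (v a)) ((G ^ d) w) = ((Real.sqrt q : ℝ) : ℂ) ^ (d * (k + b)) * T v w) →
            T ∈ Submodule.span ℂ {T' : MultilinearMap ℂ (fun _ : Fin k => V) (W →ₗ[ℂ] ℂ) |
              IsProductWith q d k b F G T'}

end TI
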