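import Mathlib

/-! T-INF, block F, file FT2W: expansion of a multilinear map in a basis. -/

namespace TI

/-- Expansion. -/
theorem mem_of_coordW {k : ℕ} {V ι N : Type} [AddCommGroup V] [Module ℂ V] [Fintype ι] [AddCommGroup N] [Module ℂ N]
    (b : Module.Basis ι ℂ V) (T : MultilinearMap ℂ (fun _ : Fin k => V) N)
    (S : Submodule ℂ (MultilinearMap ℂ (fun _ : Fin k => V) N))
    (hS : ∀ a : Fin k → ι, T (fun j => b (a j)) ≠ 0 → ∀ M : MultilinearMap ℂ (fun _ : Fin k => V) ℂ,
      (∀ v, M v = ∏ j, b.repr (v j) (a j)) → M.smulRight (T (fun j => b (a j))) ∈ S) : T ∈ S := by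
  classical
  let M : (Fin k → ι) → MultilinearMap ℂ (fun _ : Fin k => V) ℂ := fun a =>
    (MultilinearMap.mkPiAlgebra ℂ (Fin k) ℂ).compLinearMap fun j => b.coord (a j)
  have hM : ∀ a v, M a v = ∏ j, b.repr (v j) (a j) := fun a v => by
    simp only [M, MultilinearMap.compLinearMap_apply, MultilinearMap.mkPiAlgebra_apply,
      Module.Basis.coord_apply]
  have hT : T = ∑ a : Fin k → ι, (M a).smulRight (T (fun j => b (a j))) := by
    refine Module.Basis.ext_multilinear (fun _ => b) fun i => ?_
    rw [sum_apply, Finset.sum_eq_single i]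
    · rw [MultilinearMap.smulRight_apply, hM]
      simp
    · intro a _ hai
      rw [MultilinearMap.smulRight_apply, hM]
      obtain ⟨j, hj⟩ := Function.ne_iff.1 hai
      rw [Finset.prod_eq_zero (Finset.mem_univ j), zero_smul]
      rw [Module.Basis.repr_self, Finsupp.single_apply, if_neg (Ne.symm hj)]
    · intro h
      exact absurd (Finset.mem_univ i) h
  rw [hT]
  refine Submodule.sum_mem _ fun a _ => ?_
  by_cases h : T (fun j => b (a j)) = 0
  · have h0 : (M a).smulRight (T (fun j => b (a j))) = 0 := by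
      rw [h]
      refine MultilinearMap.ext fun v => ?_
      rw [MultilinearMap.smulRight_apply, smul_zero, zero_apply]
    rw [h0]
    exact Submodule.zero_mem _
  · exact hS a h (M a) (hM a)

end TI
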