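import Pool.Agent.Lib.MP_021685_agTI.TDefs
import Pool.Agent.Lib.MP_021685_agTI.FT1
import Pool.Agent.Lib.MP_021685_agTI.FT2

/-! T-INF, block F, leaf FT: from the matching of eigenvalues to products of pairings. -/

namespace TI

open Polynomial

private theorem FT_pow {V ι : Type} [AddCommGroup V] [Module ℂ V] (F : V →ₗ[ℂ] V) (b : Module.Basis ι ℂ V)
    (lam : ι → ℂ) (hb : ∀ i, F (b i) = lam i • b i) (n : ℕ) (i : ι) : (F ^ n) (b i) = lam i ^ n • b i := by
  induction n with
  | zero => simp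
  | succ n ih => rw [pow_succ', Module.End.mul_apply, ih, map_smul, hb, smul_smul, pow_succ]

private theorem FT_repr {V ι : Type} [AddCommGroup V] [Module ℂ V] (F : V →ₗ[ℂ] V) (b : Module.Basis ι ℂ V)
    (lam : ι → ℂ) (hb : ∀ i, F (b i) = lam i • b i) (n : ℕ) (j : ι) (v : V) :
    b.repr ((F ^ n) v) j = lam j ^ n * b.repr v j := by
  classical
  have h : (b.coord j).comp (F ^ n) = (lam j ^ n) • b.coord j := by
    refine b.ext fun i => ?_
    rw [LinearMap.comp_apply, FT_pow F b lam hb n i, map_smul, LinearMap.smul_apply, Module.Basis.coord_apply,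
      Module.Basis.repr_self, smul_eq_mul, smul_eq_mul]
    by_cases hij : i = j
    · rw [hij]
    · rw [Finsupp.single_apply, if_neg hij, mul_zero, mul_zero]
  have h2 := LinearMap.congr_fun h v
  simpa only [LinearMap.comp_apply, LinearMap.smul_apply, Module.Basis.coord_apply, smul_eq_mul] using h2

/-- PROOF. eigenbasis `b`, `lam`. By mem_of_coord it suffices to take `a : Fin k → ι` with `T (b ∘ a) ≠ 0` and `M` the coordinate form.
`F ^ d (b i) = lam i ^ d • b i`; IsTate at `v = b ∘ a` and multilinearity (map_smul_univ) give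
`∏ j, lam (a j) ^ d = (√q) ^ (d k)`, squared: `(∏ j, lam (a j)) ^ (2 d) = q ^ (d k)` (`(√q) ^ 2 = q`). `hP` for
`z j = lam (a j)` (roots of `P`: eval of the mapped polynomial) gives `m`, `e`. The pairing number `i` is
`(v, w) ↦ b.repr v (a (e (inl i))) * b.repr w (a (e (inr i)))` (LinearMap.mk₂ or smulRight of coord); it is a pairing since
`b.repr (F v) j = lam j * b.repr v j` (Basis.ext on linear maps), so for `F ^ d` the factor is
`(lam .. * lam ..) ^ d = q ^ d`. Finally `∏ j : Fin k, b.repr (v j) (a j) = ∏ i, ..` by Equiv.prod_comp e and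
Fintype.prod_sum_type, Finset.prod_mul_distrib. -/
theorem full_of_match (q : ℕ) (P : ℤ[X])
    (hP : ∀ (k d : ℕ) (z : Fin k → ℂ), 0 < d → (∀ a, aeval (z a) P = 0) →
      (∏ a, z a) ^ (2 * d) = (q : ℂ) ^ (d * k) →
        ∃ (m : ℕ) (e : Fin m ⊕ Fin m ≃ Fin k), ∀ i, z (e (Sum.inl i)) * z (e (Sum.inr i)) = (q : ℂ)) :
    Full q P := by
  intro V _ _ _ F hF hc d k hd T hT
  obtain ⟨ι, _, b, lam, hb, hl⟩ := eigenbasis V F hF
  refine mem_of_coord b T _ fun a ha M hM => ?_
  have h1 := hT (fun j => b (a j))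
  have h2 : (fun j => (F ^ d) (b (a j))) = fun j => (lam (a j)) ^ d • b (a j) := by
    funext j
    exact FT_pow F b lam hb d (a j)
  have h1' : T (fun j => (lam (a j)) ^ d • b (a j)) =
      ((Real.sqrt q : ℝ) : ℂ) ^ (d * k) * T (fun j => b (a j)) := by
    rw [← h2]
    exact h1
  rw [T.map_smul_univ, smul_eq_mul] at h1'
  have h3 : ∏ j, lam (a j) ^ d = ((Real.sqrt q : ℝ) : ℂ) ^ (d * k) := mul_right_cancel₀ ha h1'
  have h4 : (∏ j, lam (a j)) ^ (2 * d) = (q : ℂ) ^ (d * k) := by
    rw [mul_comm 2 d, pow_mul, ← Finset.prod_pow, h3, ← pow_mul, mul_comm (d * k) 2, pow_mul, ← Complex.ofReal_pow,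
      Real.sq_sqrt (Nat.cast_nonneg q), Complex.ofReal_natCast]
  have h5 : ∀ j, aeval (lam (a j)) P = 0 := by
    intro j
    have h := hl (a j)
    rw [hc, Polynomial.eval_map] at h
    rw [Polynomial.aeval_def]
    exact h
  obtain ⟨m, e, he⟩ := hP k d (fun j => lam (a j)) hd h5 h4
  refine Submodule.subset_span ⟨m, e, fun i => (LinearMap.mul ℂ ℂ).compl₁₂ (b.coord (a (e (Sum.inl i))))
    (b.coord (a (e (Sum.inr i)))), fun i v w => ?_, fun v => ?_⟩
  · simp only [LinearMap.compl₁₂_apply, LinearMap.mul_apply', Module.Basis.coord_apply]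
    rw [FT_repr F b lam hb, FT_repr F b lam hb, ← he i, mul_pow]
    ring
  · rw [hM, ← Equiv.prod_comp e, Fintype.prod_sum_type, ← Finset.prod_mul_distrib]
    rfl


end TI
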