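import Pool.Agent.Lib.MP_021685_agTI.FL
import Pool.Agent.Lib.MP_021685_agTI.FM
import Pool.Agent.Lib.MP_021685_agTI.FB
import Pool.Agent.Lib.MP_021685_agTI.FT

/-! T-INF, block F: the criterion. -/

namespace TI

open Polynomial

/-- The criterion. -/
theorem criterion {q g r : ℕ} (hq : 0 < q) (h : Fin r → ℤ[X]) (hm : ∀ i, (h i).Monic)
    (hg : ∀ i, (h i).natDegree = g) (hi : ∀ i, Irreducible (h i)) (l : Fin r → ℕ) (hl : ∀ i, (l i).Prime)
    (hlg : ∀ i, 2 * g + 1 < l i) (hlq : ∀ i, ¬ l i ∣ q) (h1 : ∀ i, (l i : ℤ) ∣ resq q (h i))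
    (h2 : ∀ i, ¬ (l i : ℤ) ^ 2 ∣ resq q (h i))
    (hsep : ∀ i j, ((h j).map (Int.castRingHom (ZMod (l i)))).Separable)
    (hj : ∀ i j, j ≠ i → ¬ (l i : ℤ) ∣ resq q (h j)) :
    Full q (∏ i, frobPoly q (h i)) := by
  apply full_of_match
  intro k d z hd hz hrel
  have hz' : ∀ a, ∃ (j : Fin r) (x : ℂ), aeval x (h j) = 0 ∧ z a ^ 2 - x * z a + (q : ℂ) = 0 := by
    intro a
    have h0 := hz a
    rw [map_prod, Finset.prod_eq_zero_iff] at h0
    obtain ⟨j, -, h0⟩ := h0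
    obtain ⟨x, hx, hx'⟩ := frob_root q hq (h j) (hm j) (z a) h0
    exact ⟨j, x, hx, hx'⟩
  have hq' : (q : ℂ) ≠ 0 := Nat.cast_ne_zero.2 hq.ne'
  apply matching z (q : ℂ)
  · intro a h0
    obtain ⟨j, x, -, hx'⟩ := hz' a
    rw [h0] at hx'
    apply hq'
    simpa using hx'
  · intro a
    obtain ⟨j, x, hx, hx'⟩ := hz' a
    exact sq_ne q hq (h j) (fun h0 => h2 j (by rw [h0]; exact dvd_zero _)) x (z a) hx hx'
  · intro a
    obtain ⟨j, x, hx, hx'⟩ := hz' a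
    exact rel_one hq h hm hg hi j (l j) (hl j) (hlg j) (hlq j) (h1 j) (h2 j) (hsep j) (hj j) k d hd z hz' hrel
      (z a) x hx hx'

end TI
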