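import Pool.Agent.Lib.MP_021685_agTI.Fi

/-! LEAF R1 (easy+).  The reducible members.

PROOF.  Let `h ∈ Weil q g` be not irreducible, `g ≥ 1`.  `h` is monic, not a unit, so `h = a b` with non-units `a, b`; the leading coefficients are `±1` both with the same sign, change signs so that `a`, `b` are monic; non-units, so of degrees `i ≥ 1` and `g - i ≥ 1` (`Polynomial.Monic.irreducible_iff_natDegree` or
`Monic.irreducible_iff_natDegree'`).  The roots of `a` and of `b` are roots of `h`: `a ∈ Weil q i`, `b ∈ Weil q (g - i)`.  So the set is contained in the union over `i ∈ Ico 1 g` of the images of `Weil q i × Weil q (g-i)` under multiplication (finite sets: `Weil_finite`). -/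

namespace TI

open Polynomial

theorem red_count {q g : ℕ} (hg : 1 ≤ g) :
    ({h | h ∈ Weil q g ∧ ¬ Irreducible h} : Set ℤ[X]).ncard ≤
      ∑ i ∈ Finset.Ico 1 g, (Weil q i).ncard * (Weil q (g - i)).ncard := by
  have hfin : ∀ i : ℕ, ((fun p : ℤ[X] × ℤ[X] => p.1 * p.2) '' (Weil q i ×ˢ Weil q (g - i))).Finite := fun i =>
    ((Weil_finite q i).prod (Weil_finite q (g - i))).image _
  have hsub : ({h | h ∈ Weil q g ∧ ¬ Irreducible h} : Set ℤ[X]) ⊆
      ⋃ i ∈ Finset.Ico 1 g, (fun p : ℤ[X] × ℤ[X] => p.1 * p.2) '' (Weil q i ×ˢ Weil q (g - i)) := by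
    rintro h ⟨⟨hm, hd, hr⟩, hi⟩
    have h1 : h ≠ 1 := by
      rintro rfl
      rw [natDegree_one] at hd
      omega
    rw [hm.irreducible_iff_natDegree] at hi
    push Not at hi
    obtain ⟨a, b, ha, hb, hab, hda, hdb⟩ := hi h1
    have h2 : a.natDegree + b.natDegree = g := by
      rw [← hd, ← hab, ha.natDegree_mul hb]
    have h3 : b.natDegree = g - a.natDegree := by omega
    refine Set.mem_biUnion (x := a.natDegree) (Finset.mem_coe.2 (Finset.mem_Ico.2 ⟨by omega, by omega⟩)) ?_
    refine ⟨(a, b), ⟨⟨ha, rfl, fun z hz => hr z ?_⟩, ⟨hb, h3, fun z hz => hr z ?_⟩⟩, hab⟩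
    · rw [← hab, map_mul, hz, zero_mul]
    · rw [← hab, map_mul, hz, mul_zero]
  refine (Set.ncard_le_ncard hsub (Set.Finite.biUnion (Finset.finite_toSet _) fun i _ => hfin i)).trans ?_
  refine (Finset.set_ncard_biUnion_le _ _).trans (Finset.sum_le_sum fun i _ => ?_)
  rw [← Set.ncard_prod]
  exact Set.ncard_image_le ((Weil_finite q i).prod (Weil_finite q (g - i)))

end TI
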