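import Mathlib

/-! LEAF B2 (medium).  Discrete Parseval inequality.

PROOF.  Let `v(j) = β_0 + ∑_{0<i<g} 2 β_i cos(i π j / g)` for integers `j`.  (1) For an integer `n` not divisible by `2g`: `∑_{j < 2g} cos(n π j / g) = 0` (real part of a geometric sum of the root of unity `exp(i π n / g) ≠ 1` of order dividing `2g`).
(2) `cos a cos b = (cos(a-b) + cos(a+b))/2`, so for `0 < i, k < g`: `∑_{j<2g} cos(iπj/g) cos(kπj/g) = g` if `i = k` and `0` otherwise (`0 < i + k < 2g`, `|i-k| < 2g`), and `∑_{j<2g} cos(kπj/g) = 0`.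
So `∑_{j<2g} v(j)² = 2 g β_0² + 4 g ∑_{0<i<g} β_i²`.  (3) `v(2g - j) = v(j)`, so `2 ∑_{0<j<g} v(j)² = ∑_{j<2g} v(j)² - v(0)² - v(g)² ≤ ∑_{j<2g} v(j)²`. -/

namespace TI

private theorem B2_tel (a : ℝ) (m : ℕ) :
    2 * Real.sin (a / 2) * ∑ j ∈ Finset.range m, Real.cos (a * j) =
      Real.sin (a * m - a / 2) + Real.sin (a / 2) := by
  induction m with
  | zero => simp [Real.sin_neg]
  | succ m ih =>
    rw [Finset.sum_range_succ, mul_add, ih]
    have h1 : Real.sin (a * ((m + 1 : ℕ) : ℝ) - a / 2) = Real.sin (a * m + a / 2) := by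
      congr 1
      push_cast
      ring
    rw [h1, Real.sin_add, Real.sin_sub]
    ring

private theorem B2_zero {g : ℕ} (hg : 1 ≤ g) (n : ℤ) (hn : n ≠ 0) (hn1 : |n| < 2 * g) :
    ∑ j ∈ Finset.range (2 * g), Real.cos (n * (Real.pi * j / g)) = 0 := by
  have hg0 : (g : ℝ) ≠ 0 := by positivity
  have h1 := B2_tel (n * Real.pi / g) (2 * g)
  have h2 : (n * Real.pi / g : ℝ) * ((2 * g : ℕ) : ℝ) - n * Real.pi / g / 2 =
      n * (2 * Real.pi) - n * Real.pi / g / 2 := by
    push_cast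
    field_simp
  rw [h2, Real.sin_int_mul_two_pi_sub, neg_add_cancel] at h1
  have h3 : Real.sin (n * Real.pi / g / 2) ≠ 0 := by
    intro h
    rw [Real.sin_eq_zero_iff] at h
    obtain ⟨k, hk⟩ := h
    have h4 : (k : ℝ) * (2 * g) = n := by
      have h5 := Real.pi_ne_zero
      field_simp at hk
      linarith
    have h5 : k * (2 * (g : ℤ)) = n := by exact_mod_cast h4
    have h6 : k = 0 := by
      by_contra hk0
      have h7 : 1 ≤ |k| := Int.one_le_abs hk0
      rw [← h5, abs_mul, abs_of_nonneg (by positivity : (0 : ℤ) ≤ 2 * g)] at hn1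
      nlinarith
    rw [h6, zero_mul] at h5
    exact hn h5.symm
  have h4 : ∑ j ∈ Finset.range (2 * g), Real.cos (n * Real.pi / g * j) = 0 := by
    rcases mul_eq_zero.1 h1 with h5 | h5
    · rcases mul_eq_zero.1 h5 with h6 | h6
      · norm_num at h6
      · exact absurd h6 h3
    · exact h5
  rw [← h4]
  refine Finset.sum_congr rfl fun j _ => ?_
  congr 1
  ring

private theorem B2_orth {g : ℕ} (hg : 1 ≤ g) (i k : ℕ) (hi : i < g) (hk : k < g) :
    ∑ j ∈ Finset.range (2 * g), Real.cos (i * (Real.pi * j / g)) * Real.cos (k * (Real.pi * j / g)) =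
      if i = k then (if i = 0 then 2 * (g : ℝ) else g) else 0 := by
  have h1 : ∀ j : ℕ, Real.cos (i * (Real.pi * j / g)) * Real.cos (k * (Real.pi * j / g)) =
      (Real.cos (((i : ℤ) - k : ℤ) * (Real.pi * j / g)) +
        Real.cos (((i : ℤ) + k : ℤ) * (Real.pi * j / g))) / 2 := by
    intro j
    push_cast
    rw [sub_mul, add_mul, Real.cos_sub, Real.cos_add]
    ring
  rw [Finset.sum_congr rfl fun j _ => h1 j, ← Finset.sum_div, Finset.sum_add_distrib]
  by_cases hik : i = k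
  · rw [if_pos hik, ← hik]
    have h2 : ∑ j ∈ Finset.range (2 * g), Real.cos (((i : ℤ) - i : ℤ) * (Real.pi * j / g)) = 2 * g := by
      simp
    rw [h2]
    by_cases hi0 : i = 0
    · rw [if_pos hi0, hi0]
      simp
    · rw [if_neg hi0, B2_zero hg _ (by omega) (by rw [abs_of_nonneg (by positivity)]; omega)]
      ring
  · rw [if_neg hik, B2_zero hg _ (by omega) (by rw [abs_lt]; omega),
      B2_zero hg _ (by omega) (by rw [abs_of_nonneg (by positivity)]; omega)]
    ring

private theorem B2_full {g : ℕ} (hg : 1 ≤ g) (b : ℕ → ℝ) :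
    ∑ j ∈ Finset.range (2 * g), (∑ i ∈ Finset.range g, b i * Real.cos (i * (Real.pi * j / g))) ^ 2 =
      ∑ i ∈ Finset.range g, b i ^ 2 * (if i = 0 then 2 * (g : ℝ) else g) := by
  have h1 : ∀ j : ℕ, (∑ i ∈ Finset.range g, b i * Real.cos (i * (Real.pi * j / g))) ^ 2 =
      ∑ i ∈ Finset.range g, ∑ k ∈ Finset.range g, b i * b k *
        (Real.cos (i * (Real.pi * j / g)) * Real.cos (k * (Real.pi * j / g))) := by
    intro j
    rw [sq, Finset.sum_mul_sum]
    refine Finset.sum_congr rfl fun i _ => Finset.sum_congr rfl fun k _ => ?_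
    ring
  rw [Finset.sum_congr rfl fun j _ => h1 j, Finset.sum_comm]
  refine Finset.sum_congr rfl fun i hi => ?_
  rw [Finset.sum_comm, Finset.sum_eq_single i]
  · rw [← Finset.mul_sum, B2_orth hg i i (Finset.mem_range.1 hi) (Finset.mem_range.1 hi), if_pos rfl]
    ring
  · intro k hk hki
    rw [← Finset.mul_sum, B2_orth hg i k (Finset.mem_range.1 hi) (Finset.mem_range.1 hk),
      if_neg hki.symm, mul_zero]
  · intro h
    exact absurd hi h

theorem parseval {g : ℕ} (hg : 1 ≤ g) (β : ℕ → ℝ) :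
    ∑ j ∈ Finset.Ioo 0 g,
      (β 0 + ∑ i ∈ Finset.Ico 1 g, 2 * β i * Real.cos (i * (Real.pi * j / g))) ^ 2 ≤
      g * β 0 ^ 2 + 2 * g * ∑ i ∈ Finset.Ico 1 g, β i ^ 2 := by
  have hg0 : (g : ℝ) ≠ 0 := by positivity
  obtain ⟨v, hv⟩ : ∃ v : ℕ → ℝ, ∀ j, v j = β 0 + ∑ i ∈ Finset.Ico 1 g, 2 * β i *
      Real.cos (i * (Real.pi * j / g)) := ⟨_, fun _ => rfl⟩
  have h1 := B2_full hg (fun i => if i = 0 then β 0 else 2 * β i)
  have h2 : ∀ j : ℕ, ∑ i ∈ Finset.range g, (if i = 0 then β 0 else 2 * β i) *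
      Real.cos (i * (Real.pi * j / g)) = v j := by
    intro j
    rw [hv, Finset.range_eq_Ico, Finset.sum_eq_sum_Ico_succ_bot (by omega)]
    congr 1
    · simp
    · refine Finset.sum_congr rfl fun i hi => ?_
      rw [if_neg (by have := (Finset.mem_Ico.1 hi).1; omega)]
  have h3 : ∑ i ∈ Finset.range g, (if i = 0 then β 0 else 2 * β i) ^ 2 *
      (if i = 0 then 2 * (g : ℝ) else g) = 2 * (g * β 0 ^ 2 + 2 * g * ∑ i ∈ Finset.Ico 1 g, β i ^ 2) := by
    rw [Finset.range_eq_Ico, Finset.sum_eq_sum_Ico_succ_bot (by omega), if_pos rfl, if_pos rfl,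
      mul_add, Finset.mul_sum, Finset.mul_sum]
    congr 1
    · ring
    · refine Finset.sum_congr rfl fun i hi => ?_
      rw [if_neg (by have := (Finset.mem_Ico.1 hi).1; omega),
        if_neg (by have := (Finset.mem_Ico.1 hi).1; omega)]
      ring
  rw [Finset.sum_congr rfl fun j _ => by rw [h2 j], h3] at h1
  have h4 : ∑ j ∈ Finset.Ioo g (2 * g), v j ^ 2 = ∑ j ∈ Finset.Ioo 0 g, v j ^ 2 := by
    refine Finset.sum_nbij' (fun j => 2 * g - j) (fun j => 2 * g - j) ?_ ?_ ?_ ?_ ?_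
    · intro j hj
      rw [Finset.mem_Ioo] at hj ⊢
      omega
    · intro j hj
      rw [Finset.mem_Ioo] at hj ⊢
      omega
    · intro j hj
      rw [Finset.mem_Ioo] at hj
      show 2 * g - (2 * g - j) = j
      omega
    · intro j hj
      rw [Finset.mem_Ioo] at hj
      show 2 * g - (2 * g - j) = j
      omega
    · intro j hj
      rw [Finset.mem_Ioo] at hj
      have h5 : v (2 * g - j) = v j := by
        rw [hv, hv]
        congr 1
        refine Finset.sum_congr rfl fun i _ => ?_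
        congr 1
        rw [Nat.cast_sub (by omega)]
        have h6 : (i : ℝ) * (Real.pi * (((2 * g : ℕ) : ℝ) - j) / g) =
            i * (2 * Real.pi) - i * (Real.pi * j / g) := by
          push_cast
          field_simp
        rw [h6, Real.cos_nat_mul_two_pi_sub]
      rw [h5]
  have h5 : ∑ j ∈ Finset.Ioo 0 g, v j ^ 2 + ∑ j ∈ Finset.Ioo g (2 * g), v j ^ 2 ≤
      ∑ j ∈ Finset.range (2 * g), v j ^ 2 := by
    rw [← Finset.sum_union (by
      rw [Finset.disjoint_left]
      intro j h6 h7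
      rw [Finset.mem_Ioo] at h6 h7
      omega)]
    refine Finset.sum_le_sum_of_subset_of_nonneg ?_ fun _ _ _ => sq_nonneg _
    intro j hj
    rw [Finset.mem_union, Finset.mem_Ioo, Finset.mem_Ioo] at hj
    rw [Finset.mem_range]
    omega
  rw [h4] at h5
  have h6 : ∑ j ∈ Finset.Ioo 0 g,
      (β 0 + ∑ i ∈ Finset.Ico 1 g, 2 * β i * Real.cos (i * (Real.pi * j / g))) ^ 2 =
      ∑ j ∈ Finset.Ioo 0 g, v j ^ 2 := Finset.sum_congr rfl fun j _ => by rw [hv]
  rw [h6]
  linarith

end TI
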