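import Mathlib

/-! LEAF B3 (medium).  Counting integer vectors with small weight.

PROOF.  `wt n ≥ |n|²` (`2|n| - 1 ≥ |n|` for `n ≠ 0`), so all entries satisfy `|n_j| ≤ N` and the set is finite, contained in the box `{-N..N}^m`.  Its cardinality is at most
`∑_{n in box} (10/9)^(N) (9/10)^(∑ wt (n j)) = (10/9)^N (∑_{|n| ≤ N} (9/10)^(wt n))^m` (each vector of the set contributes at least `1`; `Finset.prod_univ_sum` / `Finset.sum_prod_piFinset`).
The inner sum is `1 + 2 ∑_{n=1}^{N} (9/10)^((2n-1)²) ≤ 1 + 2 (0.9 + 0.9^9 + 0.9^25 + ∑_{n ≥ 4} 0.9^((2n-1)²))`; for `n ≥ 4`: `(2n-1)² ≥ 49 + 32 (n-4)`, so the tail is at most `0.9^49/(1 - 0.9^32) ≤ 0.006`; total at most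
`1 + 2 (0.9 + 0.38743 + 0.0718 + 0.006) = 3.73046 ≤ 187/50 = 3.74`. -/

namespace TI

/-- weight of an integer -/
def wt (n : ℤ) : ℕ := if n = 0 then 0 else (2 * n.natAbs - 1) ^ 2

private noncomputable def B3_T (n : ℕ) : ℝ := ∑ k ∈ Finset.Icc (-(n : ℤ)) n, (9 / 10 : ℝ) ^ wt k

private theorem B3_natAbs_le_wt (n : ℤ) : n.natAbs ≤ wt n := by
  unfold wt
  split_ifs with h
  · simp [h]
  · have h1 : 1 ≤ n.natAbs := Nat.one_le_iff_ne_zero.2 (Int.natAbs_ne_zero.2 h)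
    have h2 : n.natAbs ≤ 2 * n.natAbs - 1 := by omega
    calc n.natAbs ≤ 2 * n.natAbs - 1 := h2
      _ ≤ (2 * n.natAbs - 1) ^ 2 := Nat.le_self_pow two_ne_zero _

private theorem B3_wt_pos (n : ℕ) : wt ((n : ℤ) + 1) = (2 * n + 1) ^ 2 := by
  unfold wt
  rw [if_neg (by omega)]
  have : ((n : ℤ) + 1).natAbs = n + 1 := by omega
  rw [this]
  congr 1

private theorem B3_wt_neg (n : ℕ) : wt (-((n : ℤ) + 1)) = (2 * n + 1) ^ 2 := by
  unfold wt
  rw [if_neg (by omega)]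
  have : (-((n : ℤ) + 1)).natAbs = n + 1 := by omega
  rw [this]
  congr 1

private theorem B3_succ (n : ℕ) : B3_T (n + 1) = B3_T n + 2 * (9 / 10 : ℝ) ^ ((2 * n + 1) ^ 2) := by
  unfold B3_T
  have h1 : Finset.Icc (-((n + 1 : ℕ) : ℤ)) ((n + 1 : ℕ) : ℤ) =
      insert ((n : ℤ) + 1) (insert (-((n : ℤ) + 1)) (Finset.Icc (-(n : ℤ)) n)) := by
    ext k
    simp only [Finset.mem_Icc, Finset.mem_insert]
    push_cast
    omega
  rw [h1, Finset.sum_insert, Finset.sum_insert, B3_wt_pos, B3_wt_neg]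
  · ring
  · simp only [Finset.mem_Icc]
    omega
  · simp only [Finset.mem_Icc, Finset.mem_insert]
    omega

private theorem B3_zero : B3_T 0 = 1 := by
  simp [B3_T, wt]

private theorem B3_four : B3_T 4 ≤ 373 / 100 := by
  rw [B3_succ, B3_succ, B3_succ, B3_succ, B3_zero]
  norm_num

private theorem B3_bound (k : ℕ) : B3_T (k + 4) ≤ 187 / 50 - (1 / 100) * (1 / 2) ^ k := by
  induction k with
  | zero =>
    have := B3_four
    norm_num
    linarith
  | succ k ih =>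
    have h1 : k + 1 + 4 = (k + 4) + 1 := by ring
    rw [h1, B3_succ]
    have h2 : (9 / 10 : ℝ) ^ ((2 * (k + 4) + 1) ^ 2) ≤ (1 / 400) * (1 / 2) ^ k := by
      calc (9 / 10 : ℝ) ^ ((2 * (k + 4) + 1) ^ 2) ≤ (9 / 10 : ℝ) ^ (81 + 7 * k) := by
            refine pow_le_pow_of_le_one (by norm_num) (by norm_num) ?_
            nlinarith
        _ = (9 / 10 : ℝ) ^ 81 * ((9 / 10 : ℝ) ^ 7) ^ k := by rw [pow_add, pow_mul]
        _ ≤ (1 / 400) * (1 / 2) ^ k := by
            refine mul_le_mul (by norm_num) (pow_le_pow_left₀ (by positivity) (by norm_num) k) (by positivity)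
              (by norm_num)
    have h3 : (1 / 2 : ℝ) ^ (k + 1) = (1 / 2) ^ k * (1 / 2) := pow_succ _ _
    rw [h3]
    linarith

private theorem B3_T_le (n : ℕ) : B3_T n ≤ 187 / 50 := by
  have h1 : B3_T n ≤ B3_T (n + 4) := by
    unfold B3_T
    refine Finset.sum_le_sum_of_subset_of_nonneg ?_ fun _ _ _ => by positivity
    intro k hk
    rw [Finset.mem_Icc] at hk ⊢
    push_cast
    omega
  have h2 := B3_bound n
  have h3 : (0 : ℝ) ≤ (1 / 100) * (1 / 2) ^ n := by positivity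
  linarith

theorem pattern_card (m N : ℕ) :
    ({n : Fin m → ℤ | ∑ j, wt (n j) ≤ N} : Set (Fin m → ℤ)).Finite ∧
      ((({n : Fin m → ℤ | ∑ j, wt (n j) ≤ N} : Set (Fin m → ℤ)).ncard : ℕ) : ℝ) ≤
        (10 / 9) ^ N * (187 / 50) ^ m := by
  classical
  obtain ⟨B, hB⟩ : ∃ B : Finset (Fin m → ℤ), B = Fintype.piFinset (fun _ : Fin m => Finset.Icc (-(N : ℤ)) N) :=
    ⟨_, rfl⟩
  have hS : ({n : Fin m → ℤ | ∑ j, wt (n j) ≤ N} : Set (Fin m → ℤ)) =
      ((B.filter fun n => ∑ j, wt (n j) ≤ N : Finset (Fin m → ℤ)) : Set (Fin m → ℤ)) := by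
    ext n
    rw [Finset.coe_filter]
    constructor
    · intro hn
      refine ⟨?_, hn⟩
      rw [hB, Fintype.mem_piFinset]
      intro j
      have h1 : wt (n j) ≤ ∑ j, wt (n j) :=
        Finset.single_le_sum (f := fun j => wt (n j)) (fun _ _ => Nat.zero_le _) (Finset.mem_univ j)
      have h2 := B3_natAbs_le_wt (n j)
      have h3 : ∑ j, wt (n j) ≤ N := hn
      rw [Finset.mem_Icc]
      omega
    · exact fun hn => hn.2
  rw [hS]
  refine ⟨Finset.finite_toSet _, ?_⟩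
  rw [Set.ncard_coe_finset]
  calc (((B.filter fun n => ∑ j, wt (n j) ≤ N).card : ℕ) : ℝ)
      = ∑ n ∈ B.filter (fun n => ∑ j, wt (n j) ≤ N), (1 : ℝ) := by simp
    _ ≤ ∑ n ∈ B.filter (fun n => ∑ j, wt (n j) ≤ N), (10 / 9 : ℝ) ^ N * (9 / 10) ^ (∑ j, wt (n j)) := by
        refine Finset.sum_le_sum fun n hn => ?_
        have h1 : ∑ j, wt (n j) ≤ N := (Finset.mem_filter.1 hn).2
        calc (1 : ℝ) = (10 / 9 : ℝ) ^ N * (9 / 10) ^ N := by
              rw [← mul_pow]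
              norm_num
          _ ≤ _ := mul_le_mul_of_nonneg_left (pow_le_pow_of_le_one (by norm_num) (by norm_num) h1) (by positivity)
    _ ≤ ∑ n ∈ B, (10 / 9 : ℝ) ^ N * (9 / 10) ^ (∑ j, wt (n j)) :=
        Finset.sum_le_sum_of_subset_of_nonneg (Finset.filter_subset _ _) fun _ _ _ => by positivity
    _ = (10 / 9 : ℝ) ^ N * ∑ n ∈ B, ∏ j, (9 / 10 : ℝ) ^ wt (n j) := by
        rw [Finset.mul_sum]
        refine Finset.sum_congr rfl fun n _ => ?_
        rw [Finset.prod_pow_eq_pow_sum]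
    _ = (10 / 9 : ℝ) ^ N * B3_T N ^ m := by
        rw [hB, ← Finset.prod_univ_sum (fun _ : Fin m => Finset.Icc (-(N : ℤ)) N) (fun _ k => (9 / 10 : ℝ) ^ wt k)]
        simp [B3_T]
    _ ≤ (10 / 9 : ℝ) ^ N * (187 / 50) ^ m := by
        refine mul_le_mul_of_nonneg_left (pow_le_pow_left₀ ?_ (B3_T_le N) m) (by positivity)
        exact Finset.sum_nonneg fun _ _ => by positivity

end TI
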