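import Pool.Agent.Lib.MP_021685_agTI.TDefs

/-! LEAF Fi (easy+).  There are finitely many real Weil polynomials.

PROOF.  For `h ∈ Weil q g` all complex roots have absolute value `≤ 2√q ≤ B := 2 q + 1`; the coefficients of a monic polynomial of degree `g` are elementary symmetric functions of the roots, so `|coeff i| ≤ choose(g, i) B^(g-i)`
(Mathlib: `Polynomial.coeff_le_of_roots_le` applied to `Int.castRingHom ℂ`, `Polynomial.bdd_of_..`, or the finiteness theorem `Embeddings.finite_of_norm_le` pattern).  The set of integer polynomials of degree `≤ g` with coefficients in `[-M, M]` is finite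
(it injects into functions `Fin (g+1) → Icc (-M) M`). -/

namespace TI

open Polynomial

theorem Weil_finite (q g : ℕ) : (Weil q g).Finite := by
  obtain ⟨M, hM⟩ : ∃ M : ℕ, max (2 * (q : ℝ) + 1) 1 ^ g * (g.choose (g / 2) : ℝ) ≤ M := exists_nat_ge _
  have hb : ∀ h ∈ Weil q g, ∀ i, h.coeff i ∈ Set.Icc (-(M : ℤ)) M := by
    rintro h ⟨h1, h2, h3⟩ i
    have h4 : ‖(h.map (Int.castRingHom ℂ)).coeff i‖ ≤ max (2 * (q : ℝ) + 1) 1 ^ g * (g.choose (g / 2) : ℝ) := by
      refine coeff_bdd_of_roots_le (Int.castRingHom ℂ) h1 (IsAlgClosed.splits _) h2.le ?_ i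
      intro z hz
      have h5 : aeval z h = 0 := by
        have h6 := (mem_roots'.1 hz).2
        rw [IsRoot.def, eval_map] at h6
        rw [aeval_def]
        exact h6
      obtain ⟨x, hx, hx2⟩ := h3 z h5
      rw [← hx, Complex.norm_real, Real.norm_eq_abs]
      refine abs_le_of_sq_le_sq (hx2.trans ?_) (by positivity)
      nlinarith [sq_nonneg (2 * (q : ℝ))]
    rw [coeff_map, eq_intCast, Complex.norm_intCast] at h4
    have h7 : |((h.coeff i : ℤ) : ℝ)| ≤ ((M : ℕ) : ℝ) := h4.trans hM
    have h8 : |h.coeff i| ≤ (M : ℤ) := by exact_mod_cast h7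
    exact abs_le.1 h8
  refine Set.Finite.of_injOn (f := fun (h : ℤ[X]) (i : Fin (g + 1)) => h.coeff i)
    (t := Set.pi Set.univ fun _ => Set.Icc (-(M : ℤ)) M) ?_ ?_ (Set.Finite.pi fun _ => Set.finite_Icc _ _)
  · intro h hh i _
    exact hb h hh i
  · rintro h ⟨_, h2, _⟩ h' ⟨_, h2', _⟩ he
    ext i
    by_cases hi : i < g + 1
    · exact congrFun he ⟨i, hi⟩
    · rw [coeff_eq_zero_of_natDegree_lt (by omega), coeff_eq_zero_of_natDegree_lt (by omega)]

end TI
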