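import Pool.Agent.Lib.MP_021685_agTI.B1
import Pool.Agent.Lib.MP_021685_agTI.B2
import Pool.Agent.Lib.MP_021685_agTI.B3
import Pool.Agent.Lib.MP_021685_agTI.Fi

/-! LEAF B4 (medium+).  The lower bound for the number of real Weil polynomials.

PROOF.  `s = √q`, `κ = √2`, `K_i = ⌈2 κ s^(g-i) / √g⌉₊` for `i < g` (so `K_i ≥ 1` and `K_i ≥ 2κ s^(g-i)/√g`), `c_i = (K_i - 1)/2`, `y_j = 2 s cos(π j/g)`, `ω = 2 s^g`.  For `b ∈ ∏_{i<g} {0, .., K_i - 1}` (integers): `|b_i - c_i| ≤ (K_i - 1)/2 ≤ κ s^(g-i)/√g`.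
Put `v_j(b) = ∑_{i<g} (b_i - c_i) E_i(y_j)` (`E_i = bas q i`, real values: `E_0 = 1`, `E_i(y_j) = 2 s^i cos(i π j/g)`), and `n_j(b) = ⌊v_j(b)/ω + 1/2⌋`, `0 ≤ j ≤ g`.
(1) interior `0 < j < g`: `parseval` with `β_0 = b_0 - c_0`, `β_i = (b_i - c_i) s^i`, all `|β_i| ≤ κ s^g/√g`: `∑_{0<j<g} v_j² ≤ g κ² s^(2g)/g + 2g (g-1) κ² s^(2g)/g = 2 s^(2g)(2g - 1) ≤ 4 g s^(2g)`, so `∑ (v_j/ω)² ≤ g`.
For `n = ⌊x + 1/2⌋ ≠ 0`: `|n| - 1/2 ≤ |x|`, so `wt n ≤ 4 x²`: `∑_{0<j<g} wt (n_j) ≤ 4 g`.  By `pattern_card (g-1) (4g)` there are at most `(10/9)^(4g) (187/50)^(g-1)` interior patterns.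
(2) ends `j = 0, g`: `|v_j| ≤ ∑_{i<g} (κ s^(g-i)/√g) 2 s^i = 2 κ √g s^g`, `|v_j/ω| ≤ √(2g)`, `|n_j| ≤ √(2g) + 1/2`: at most `2√(2g) + 2 ≤ 5√g` values each, at most `25 g` pairs.
(3) So the map `b ↦ (n_j(b))_{0≤j≤g}` has at most `25 g (10/9)^(4g) (187/50)^g` values on a set of `∏ K_i ≥ (2√2/√g)^g s^(g(g+1)/2)` elements (`∑_{i<g}(g-i) = g(g+1)/2`); some fiber `𝒞` has at least the quotient many elements (pigeonhole, `Finset.exists_lt_card_fiber..` or
`card ≤ ∑ fibers`).  Fix `b⁰ ∈ 𝒞`; for `b ∈ 𝒞` put `u_b = ∑_{i<g} C(b_i - b⁰_i) E_i`, integer polynomial of degree `< g`, `u_b(y_j) = v_j(b) - v_j(b⁰)`, and `|v_j(b)/ω - v_j(b⁰)/ω| < 1` (both in `[n_j - 1/2, n_j + 1/2)`), so `|u_b(y_j)| < 2 s^g`: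
`small_mem` gives `bas q g + u_b ∈ Weil q g`; `b ↦ u_b` is injective (`bas_inj`).  `Weil q g` is finite (`Weil_finite`), so its `ncard` is at least `|𝒞|`. -/

namespace TI

open Polynomial

private noncomputable def B4_K (q g i : ℕ) : ℕ := ⌈2 * Real.sqrt 2 * Real.sqrt q ^ (g - i) / Real.sqrt g⌉₊

private noncomputable def B4_c (q g i : ℕ) : ℝ := ((B4_K q g i : ℝ) - 1) / 2

private noncomputable def B4_E (q g i j : ℕ) : ℝ :=
  ((bas q i).map (Int.castRingHom ℝ)).eval (2 * Real.sqrt q * Real.cos (Real.pi * j / g))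

private noncomputable def B4_v (q g : ℕ) (b : ℕ → ℤ) (j : ℕ) : ℝ :=
  ∑ i ∈ Finset.range g, ((b i : ℝ) - B4_c q g i) * B4_E q g i j

private noncomputable def B4_n (q g : ℕ) (b : ℕ → ℤ) (j : ℕ) : ℤ :=
  ⌊B4_v q g b j / (2 * Real.sqrt q ^ g) + 1 / 2⌋

private def B4_good (q g : ℕ) (b : ℕ → ℤ) : Prop := ∀ i < g, 0 ≤ b i ∧ b i < (B4_K q g i : ℤ)

private theorem B4_s1 {q : ℕ} (hq : 1 ≤ q) : (1 : ℝ) ≤ Real.sqrt q := by
  rw [Real.one_le_sqrt]
  exact_mod_cast hq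

private theorem B4_sg {g : ℕ} (hg : 1 ≤ g) : (1 : ℝ) ≤ Real.sqrt g := B4_s1 hg

private theorem B4_abs {q g : ℕ} (hq : 1 ≤ q) (hg : 1 ≤ g) {b : ℕ → ℤ} (hb : B4_good q g b) {i : ℕ}
    (hi : i < g) : |(b i : ℝ) - B4_c q g i| ≤ Real.sqrt 2 * Real.sqrt q ^ (g - i) / Real.sqrt g := by
  obtain ⟨h1, h2⟩ := hb i hi
  have h1' : (0 : ℝ) ≤ b i := by exact_mod_cast h1
  have h2' : (b i : ℝ) ≤ (B4_K q g i : ℝ) - 1 := by
    have : b i + 1 ≤ (B4_K q g i : ℤ) := by omega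
    have h3 : ((b i + 1 : ℤ) : ℝ) ≤ ((B4_K q g i : ℤ) : ℝ) := by exact_mod_cast this
    push_cast at h3
    linarith
  have hs := B4_s1 hq
  have hsg := B4_sg hg
  have h0 : (0 : ℝ) ≤ 2 * Real.sqrt 2 * Real.sqrt q ^ (g - i) / Real.sqrt g := by positivity
  have h4 : (B4_K q g i : ℝ) < 2 * Real.sqrt 2 * Real.sqrt q ^ (g - i) / Real.sqrt g + 1 :=
    Nat.ceil_lt_add_one h0
  have h5 : 2 * Real.sqrt 2 * Real.sqrt q ^ (g - i) / Real.sqrt g =
      2 * (Real.sqrt 2 * Real.sqrt q ^ (g - i) / Real.sqrt g) := by ring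
  rw [h5] at h4
  unfold B4_c
  rw [abs_le]
  constructor <;> linarith

private theorem B4_E0 (q g j : ℕ) : B4_E q g 0 j = 1 := by
  unfold B4_E bas
  simp

private theorem B4_Ei (q g i j : ℕ) (hi : 1 ≤ i) :
    B4_E q g i j = 2 * Real.sqrt q ^ i * Real.cos (i * (Real.pi * j / g)) := by
  unfold B4_E
  exact bas_eval q i hi _

private theorem B4_Eabs {q : ℕ} (hq : 1 ≤ q) (g i j : ℕ) : |B4_E q g i j| ≤ 2 * Real.sqrt q ^ i := by
  have hs := B4_s1 hq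
  have hp : (0 : ℝ) < Real.sqrt q ^ i := by positivity
  rcases Nat.eq_zero_or_pos i with rfl | hi
  · rw [B4_E0]
    norm_num
  · rw [B4_Ei q g i j hi, abs_mul, abs_of_pos (by positivity : (0 : ℝ) < 2 * Real.sqrt q ^ i)]
    have := Real.abs_cos_le_one (i * (Real.pi * j / g))
    nlinarith

private theorem B4_vabs {q g : ℕ} (hq : 1 ≤ q) (hg : 1 ≤ g) {b : ℕ → ℤ} (hb : B4_good q g b) (j : ℕ) :
    |B4_v q g b j / (2 * Real.sqrt q ^ g)| ≤ Real.sqrt 2 * Real.sqrt g := by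
  have hs := B4_s1 hq
  have hsg := B4_sg hg
  have hω : (0 : ℝ) < 2 * Real.sqrt q ^ g := by positivity
  rw [abs_div, abs_of_pos hω, div_le_iff₀ hω]
  unfold B4_v
  refine (Finset.abs_sum_le_sum_abs _ _).trans ?_
  have hterm : ∀ i ∈ Finset.range g, |((b i : ℝ) - B4_c q g i) * B4_E q g i j| ≤
      Real.sqrt 2 * (2 * Real.sqrt q ^ g) / Real.sqrt g := by
    intro i hi
    have hi' := Finset.mem_range.1 hi
    rw [abs_mul]
    refine (mul_le_mul (B4_abs hq hg hb hi') (B4_Eabs hq g i j) (abs_nonneg _) (by positivity)).trans ?_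
    have : Real.sqrt q ^ g = Real.sqrt q ^ (g - i) * Real.sqrt q ^ i := by
      rw [← pow_add, Nat.sub_add_cancel hi'.le]
    rw [this]
    apply le_of_eq
    ring
  refine (Finset.sum_le_sum hterm).trans ?_
  rw [Finset.sum_const, Finset.card_range, nsmul_eq_mul]
  have h1 : (g : ℝ) = Real.sqrt g * Real.sqrt g := (Real.mul_self_sqrt (Nat.cast_nonneg g)).symm
  have h2 : (g : ℝ) * (Real.sqrt 2 * (2 * Real.sqrt q ^ g) / Real.sqrt g) =
      Real.sqrt 2 * (2 * Real.sqrt q ^ g) * (g / Real.sqrt g) := by ring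
  rw [h2]
  have h3 : (g : ℝ) / Real.sqrt g = Real.sqrt g := Real.div_sqrt
  rw [h3]
  apply le_of_eq
  ring

private theorem B4_round_abs (x : ℝ) : |((⌊x + 1 / 2⌋ : ℤ) : ℝ)| ≤ |x| + 1 / 2 := by
  have h1 := Int.floor_le (x + 1 / 2)
  have h2 := Int.lt_floor_add_one (x + 1 / 2)
  have h3 := le_abs_self x
  have h4 := neg_abs_le x
  rw [abs_le]
  constructor <;> linarith

private theorem B4_wt (x : ℝ) : ((wt ⌊x + 1 / 2⌋ : ℕ) : ℝ) ≤ 4 * x ^ 2 := by
  unfold wt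
  split_ifs with h
  · push_cast
    positivity
  · have h1 : 1 ≤ (⌊x + 1 / 2⌋).natAbs := Nat.one_le_iff_ne_zero.2 (Int.natAbs_ne_zero.2 h)
    have h2 : (((⌊x + 1 / 2⌋).natAbs : ℕ) : ℝ) = |((⌊x + 1 / 2⌋ : ℤ) : ℝ)| := by
      rw [Nat.cast_natAbs, Int.cast_abs]
    have h3 := B4_round_abs x
    have h4 : (((2 * (⌊x + 1 / 2⌋).natAbs - 1) ^ 2 : ℕ) : ℝ) =
        (2 * |((⌊x + 1 / 2⌋ : ℤ) : ℝ)| - 1) ^ 2 := by
      rw [Nat.cast_pow, Nat.cast_sub (by omega), Nat.cast_mul, h2]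
      norm_num
    rw [h4]
    have h5 : (1 : ℝ) ≤ |((⌊x + 1 / 2⌋ : ℤ) : ℝ)| := by
      rw [← h2]
      exact_mod_cast h1
    have h6 : (2 * |((⌊x + 1 / 2⌋ : ℤ) : ℝ)| - 1) ≤ 2 * |x| := by linarith
    calc (2 * |((⌊x + 1 / 2⌋ : ℤ) : ℝ)| - 1) ^ 2 ≤ (2 * |x|) ^ 2 :=
          pow_le_pow_left₀ (by linarith) h6 2
      _ = 4 * x ^ 2 := by rw [mul_pow, sq_abs]; norm_num

private theorem B4_sumsq {q g : ℕ} (hq : 1 ≤ q) (hg : 1 ≤ g) {b : ℕ → ℤ} (hb : B4_good q g b) :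
    ∑ j ∈ Finset.Ioo 0 g, (B4_v q g b j / (2 * Real.sqrt q ^ g)) ^ 2 ≤ (g : ℝ) := by
  have hs := B4_s1 hq
  have hsg := B4_sg hg
  have hg0 : (0 : ℝ) < g := by exact_mod_cast hg
  have hω : (0 : ℝ) < 2 * Real.sqrt q ^ g := by positivity
  have hβ : ∀ i < g, ((((b i : ℝ) - B4_c q g i)) * Real.sqrt q ^ i) ^ 2 ≤ 2 * (Real.sqrt q ^ g) ^ 2 / g := by
    intro i hi
    have h1 : |(((b i : ℝ) - B4_c q g i)) * Real.sqrt q ^ i| ≤ Real.sqrt 2 * Real.sqrt q ^ g / Real.sqrt g := by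
      rw [abs_mul, abs_of_pos (by positivity : (0 : ℝ) < Real.sqrt q ^ i)]
      refine (mul_le_mul_of_nonneg_right (B4_abs hq hg hb hi) (by positivity)).trans ?_
      have : Real.sqrt q ^ g = Real.sqrt q ^ (g - i) * Real.sqrt q ^ i := by
        rw [← pow_add, Nat.sub_add_cancel hi.le]
      rw [this]
      apply le_of_eq
      ring
    rw [← sq_abs]
    refine (pow_le_pow_left₀ (abs_nonneg _) h1 2).trans ?_
    rw [div_pow, mul_pow, Real.sq_sqrt (by norm_num), Real.sq_sqrt hg0.le]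
  have hP := parseval hg (fun i => ((b i : ℝ) - B4_c q g i) * Real.sqrt q ^ i)
  have hv : ∀ j, B4_v q g b j = ((b 0 : ℝ) - B4_c q g 0) * Real.sqrt q ^ 0 +
      ∑ i ∈ Finset.Ico 1 g, 2 * (((b i : ℝ) - B4_c q g i) * Real.sqrt q ^ i) *
        Real.cos (i * (Real.pi * j / g)) := by
    intro j
    unfold B4_v
    rw [Finset.range_eq_Ico, Finset.sum_eq_sum_Ico_succ_bot (by omega : 0 < g)]
    rw [B4_E0, pow_zero, zero_add]
    refine congrArg _ (Finset.sum_congr rfl fun i hi => ?_)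
    rw [B4_Ei q g i j (Finset.mem_Ico.1 hi).1]
    ring
  have h1 : ∑ j ∈ Finset.Ioo 0 g, (B4_v q g b j) ^ 2 ≤
      g * (2 * (Real.sqrt q ^ g) ^ 2 / g) + 2 * g * ∑ i ∈ Finset.Ico 1 g, (2 * (Real.sqrt q ^ g) ^ 2 / g) := by
    refine le_trans (le_of_eq ?_) (hP.trans (add_le_add ?_ ?_))
    · refine Finset.sum_congr rfl fun j _ => ?_
      rw [hv j]
    · exact mul_le_mul_of_nonneg_left (hβ 0 hg) hg0.le
    · refine mul_le_mul_of_nonneg_left (Finset.sum_le_sum fun i hi => ?_) (by positivity)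
      exact hβ i (Finset.mem_Ico.1 hi).2
  rw [Finset.sum_const, Nat.card_Ico, nsmul_eq_mul, Nat.cast_sub hg] at h1
  have h2 : (g : ℝ) * (2 * (Real.sqrt q ^ g) ^ 2 / g) +
      2 * g * (((g : ℝ) - (1 : ℕ)) * (2 * (Real.sqrt q ^ g) ^ 2 / g)) =
      (4 * g - 2) * (Real.sqrt q ^ g) ^ 2 := by
    field_simp
    push_cast
    ring
  rw [h2] at h1
  have h3 : ∑ j ∈ Finset.Ioo 0 g, (B4_v q g b j / (2 * Real.sqrt q ^ g)) ^ 2 =
      (∑ j ∈ Finset.Ioo 0 g, (B4_v q g b j) ^ 2) / (2 * Real.sqrt q ^ g) ^ 2 := by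
    rw [Finset.sum_div]
    exact Finset.sum_congr rfl fun j _ => div_pow _ _ _
  rw [h3, div_le_iff₀ (by positivity)]
  refine h1.trans ?_
  have : (0 : ℝ) < (Real.sqrt q ^ g) ^ 2 := by positivity
  nlinarith

private theorem B4_sumwt {q g : ℕ} (hq : 1 ≤ q) (hg : 1 ≤ g) {b : ℕ → ℤ} (hb : B4_good q g b) :
    ∑ j : Fin (g - 1), wt (B4_n q g b (j + 1)) ≤ 4 * g := by
  have h1 : ∑ j : Fin (g - 1), wt (B4_n q g b (j + 1)) = ∑ j ∈ Finset.Ioo 0 g, wt (B4_n q g b j) := by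
    have h0 : Finset.Ioo 0 g = Finset.Ico 1 g := by
      ext j
      simp only [Finset.mem_Ioo, Finset.mem_Ico]
      omega
    rw [h0, Finset.sum_Ico_eq_sum_range, Finset.sum_range]
    refine Finset.sum_congr rfl fun j _ => ?_
    rw [add_comm 1 (j : ℕ)]
  rw [h1]
  have h2 : ((∑ j ∈ Finset.Ioo 0 g, wt (B4_n q g b j) : ℕ) : ℝ) ≤ 4 * g := by
    rw [Nat.cast_sum]
    refine (Finset.sum_le_sum fun j _ => B4_wt (B4_v q g b j / (2 * Real.sqrt q ^ g))).trans ?_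
    rw [← Finset.mul_sum]
    exact mul_le_mul_of_nonneg_left (B4_sumsq hq hg hb) (by norm_num)
  exact_mod_cast h2

/-- the polynomial `u_b` -/
private noncomputable def B4_u (q g : ℕ) (b b' : ℕ → ℤ) : ℤ[X] :=
  ∑ i ∈ Finset.range g, C (b i - b' i) * bas q i

private theorem B4_udeg (q g : ℕ) (b b' : ℕ → ℤ) : (B4_u q g b b').degree < (g : WithBot ℕ) := by
  rw [← Polynomial.mem_degreeLT]
  unfold B4_u
  refine Submodule.sum_mem _ fun i hi => ?_
  rw [Polynomial.mem_degreeLT]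
  refine lt_of_le_of_lt Polynomial.degree_le_natDegree ?_
  refine lt_of_le_of_lt (WithBot.coe_le_coe.2 (Polynomial.natDegree_C_mul_le _ _)) ?_
  rw [(bas_monic q i).2]
  exact WithBot.coe_lt_coe.2 (Finset.mem_range.1 hi)

private theorem B4_ueval (q g : ℕ) (b b' : ℕ → ℤ) (j : ℕ) :
    ((B4_u q g b b').map (Int.castRingHom ℝ)).eval (2 * Real.sqrt q * Real.cos (Real.pi * j / g)) =
      B4_v q g b j - B4_v q g b' j := by
  unfold B4_u B4_v
  rw [Polynomial.map_sum, Polynomial.eval_finsetSum, ← Finset.sum_sub_distrib]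
  refine Finset.sum_congr rfl fun i _ => ?_
  rw [Polynomial.map_mul, Polynomial.eval_mul, Polynomial.map_C, Polynomial.eval_C, eq_intCast, Int.cast_sub]
  unfold B4_E
  ring

private theorem B4_mem {q g : ℕ} (hq : 1 ≤ q) (hg : 1 ≤ g) {b b' : ℕ → ℤ}
    (h : ∀ j ≤ g, B4_n q g b j = B4_n q g b' j) : bas q g + B4_u q g b b' ∈ Weil q g := by
  have hs := B4_s1 hq
  have hω : (0 : ℝ) < 2 * Real.sqrt q ^ g := by positivity
  refine small_mem hq hg _ (B4_udeg q g b b') fun j hj => ?_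
  rw [B4_ueval]
  have h0 := h j hj
  unfold B4_n at h0
  have h1 := Int.floor_le (B4_v q g b j / (2 * Real.sqrt q ^ g) + 1 / 2)
  have h2 := Int.lt_floor_add_one (B4_v q g b j / (2 * Real.sqrt q ^ g) + 1 / 2)
  have h3 := Int.floor_le (B4_v q g b' j / (2 * Real.sqrt q ^ g) + 1 / 2)
  have h4 := Int.lt_floor_add_one (B4_v q g b' j / (2 * Real.sqrt q ^ g) + 1 / 2)
  rw [h0] at h1 h2
  have h5 : |(B4_v q g b j - B4_v q g b' j) / (2 * Real.sqrt q ^ g)| < 1 := by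
    rw [sub_div, abs_lt]
    constructor <;> linarith
  rwa [abs_div, abs_of_pos hω, div_lt_one hω] at h5

private theorem B4_uinj (q g : ℕ) (b₁ b₂ b' : ℕ → ℤ) (h : B4_u q g b₁ b' = B4_u q g b₂ b') :
    ∀ i < g, b₁ i = b₂ i := by
  intro i hi
  have h1 : b₁ i - b' i = b₂ i - b' i := bas_inj q g (fun i => b₁ i - b' i) (fun i => b₂ i - b' i) h i hi
  omega

/-- extension by zero -/
private def B4_ext {g : ℕ} (b : Fin g → ℕ) : ℕ → ℤ := fun i => if h : i < g then (b ⟨i, h⟩ : ℤ) else 0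

private theorem B4_extgood {q g : ℕ} {b : Fin g → ℕ}
    (hb : b ∈ Fintype.piFinset fun i : Fin g => Finset.range (B4_K q g i)) : B4_good q g (B4_ext b) := by
  intro i hi
  have h1 := Finset.mem_range.1 (Fintype.mem_piFinset.1 hb ⟨i, hi⟩)
  unfold B4_ext
  rw [dif_pos hi]
  exact ⟨Int.natCast_nonneg _, by exact_mod_cast h1⟩

private theorem B4_extinj {g : ℕ} {b b' : Fin g → ℕ} (h : ∀ i < g, B4_ext b i = B4_ext b' i) : b = b' := by
  ext i
  have := h i i.2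
  unfold B4_ext at this
  rw [dif_pos i.2, dif_pos i.2] at this
  exact_mod_cast this

private theorem B4_prodK {q g : ℕ} (hq : 1 ≤ q) (hg : 1 ≤ g) :
    Real.sqrt q ^ (g * (g + 1) / 2) * (2 * Real.sqrt 2 / Real.sqrt g) ^ g ≤
      (((Fintype.piFinset fun i : Fin g => Finset.range (B4_K q g i)).card : ℕ) : ℝ) := by
  have hs := B4_s1 hq
  have hsg := B4_sg hg
  rw [Fintype.card_piFinset]
  rw [Finset.prod_congr rfl fun (i : Fin g) _ => Finset.card_range (B4_K q g i), Nat.cast_prod]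
  have h1 : Real.sqrt q ^ (g * (g + 1) / 2) * (2 * Real.sqrt 2 / Real.sqrt g) ^ g =
      ∏ i : Fin g, (2 * Real.sqrt 2 * Real.sqrt q ^ (g - (i : ℕ)) / Real.sqrt g) := by
    have h2 : ∀ i : Fin g, (2 * Real.sqrt 2 * Real.sqrt q ^ (g - (i : ℕ)) / Real.sqrt g) =
        Real.sqrt q ^ (g - (i : ℕ)) * (2 * Real.sqrt 2 / Real.sqrt g) := fun i => by ring
    rw [Finset.prod_congr rfl fun i _ => h2 i, Finset.prod_mul_distrib, Finset.prod_const, Finset.card_univ,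
      Fintype.card_fin, Finset.prod_pow_eq_pow_sum]
    have h3 : ∑ i : Fin g, (g - (i : ℕ)) = g * (g + 1) / 2 := by
      rw [← Finset.sum_range (fun i => g - i), ← Finset.sum_range_reflect]
      have h4 : ∀ j ∈ Finset.range g, g - (g - 1 - j) = j + 1 := by
        intro j hj
        have := Finset.mem_range.1 hj
        omega
      rw [Finset.sum_congr rfl h4]
      have h5 := Finset.sum_range_succ' (fun j => j) g
      simp only [add_zero] at h5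
      rw [← h5, Finset.sum_range_id]
      simp only [Nat.add_sub_cancel]
      rw [mul_comm]
    rw [h3]
  rw [h1]
  refine Finset.prod_le_prod (fun i _ => by positivity) fun i _ => ?_
  exact Nat.le_ceil _

/-- the size of the range of the ends -/
private noncomputable def B4_N (g : ℕ) : ℕ := ⌊Real.sqrt 2 * Real.sqrt g + 1 / 2⌋₊

private theorem B4_Nbound {g : ℕ} (hg : 1 ≤ g) : (2 * (B4_N g : ℝ) + 1) ^ 2 ≤ 25 * g := by
  have hsg := B4_sg hg
  have h0 : (0 : ℝ) ≤ Real.sqrt 2 * Real.sqrt g + 1 / 2 := by positivity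
  have h1 : (B4_N g : ℝ) ≤ Real.sqrt 2 * Real.sqrt g + 1 / 2 := Nat.floor_le h0
  have h2 : Real.sqrt 2 ≤ 3 / 2 := by
    rw [Real.sqrt_le_left (by norm_num)]
    norm_num
  have h3 : 2 * (B4_N g : ℝ) + 1 ≤ 5 * Real.sqrt g := by nlinarith
  calc (2 * (B4_N g : ℝ) + 1) ^ 2 ≤ (5 * Real.sqrt g) ^ 2 := pow_le_pow_left₀ (by positivity) h3 2
    _ = 25 * g := by rw [mul_pow, Real.sq_sqrt (Nat.cast_nonneg g)]; norm_num

private theorem B4_end {q g : ℕ} (hq : 1 ≤ q) (hg : 1 ≤ g) {b : ℕ → ℤ} (hb : B4_good q g b) (j : ℕ) :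
    B4_n q g b j ∈ Finset.Icc (-(B4_N g : ℤ)) (B4_N g : ℤ) := by
  have h1 := B4_round_abs (B4_v q g b j / (2 * Real.sqrt q ^ g))
  have h2 := B4_vabs hq hg hb j
  have h3 : (((B4_n q g b j).natAbs : ℕ) : ℝ) ≤ Real.sqrt 2 * Real.sqrt g + 1 / 2 := by
    rw [Nat.cast_natAbs, Int.cast_abs]
    exact h1.trans (by linarith)
  have h4 : (B4_n q g b j).natAbs ≤ B4_N g := Nat.le_floor h3
  rw [Finset.mem_Icc]
  omega

theorem Weil_card_ge {q g : ℕ} (hq : 1 ≤ q) (hg : 1 ≤ g) :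
    Real.sqrt q ^ (g * (g + 1) / 2) * (2 * Real.sqrt 2 / Real.sqrt g) ^ g ≤
      25 * g * (10 / 9) ^ (4 * g) * (187 / 50) ^ g * ((Weil q g).ncard : ℝ) := by
  obtain ⟨hfin, hcard⟩ := pattern_card (g - 1) (4 * g)
  set S := Fintype.piFinset fun i : Fin g => Finset.range (B4_K q g i) with hS
  set I := Finset.Icc (-(B4_N g : ℤ)) (B4_N g : ℤ) with hI
  set P : Finset ((Fin (g - 1) → ℤ) × ℤ × ℤ) := hfin.toFinset ×ˢ I ×ˢ I with hP
  let f : (Fin g → ℕ) → (Fin (g - 1) → ℤ) × ℤ × ℤ := fun b =>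
    (fun j => B4_n q g (B4_ext b) (j + 1), B4_n q g (B4_ext b) 0, B4_n q g (B4_ext b) g)
  have hmaps : ∀ b ∈ S, f b ∈ P := by
    intro b hb
    have hgood := B4_extgood hb
    rw [hP, Finset.mem_product, Finset.mem_product]
    refine ⟨?_, B4_end hq hg hgood 0, B4_end hq hg hgood g⟩
    rw [Set.Finite.mem_toFinset]
    exact B4_sumwt hq hg hgood
  have hfib : ∀ p ∈ P, (S.filter fun b => f b = p).card ≤ (Weil q g).ncard := by
    intro p _
    rcases (S.filter fun b => f b = p).eq_empty_or_nonempty with h0 | ⟨b0, hb0⟩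
    · rw [h0, Finset.card_empty]
      exact Nat.zero_le _
    · rw [Set.ncard_eq_toFinset_card _ (Weil_finite q g)]
      refine Finset.card_le_card_of_injOn (fun b => bas q g + B4_u q g (B4_ext b) (B4_ext b0)) ?_ ?_
      · intro b hb
        rw [Finset.mem_coe, Set.Finite.mem_toFinset]
        refine B4_mem hq hg fun j hj => ?_
        have h1 : f b = f b0 := ((Finset.mem_filter.1 hb).2).trans (Finset.mem_filter.1 hb0).2.symm
        have h2 : (fun j : Fin (g - 1) => B4_n q g (B4_ext b) (j + 1)) =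
            (fun j : Fin (g - 1) => B4_n q g (B4_ext b0) (j + 1)) := congrArg Prod.fst h1
        have h3 : B4_n q g (B4_ext b) 0 = B4_n q g (B4_ext b0) 0 := congrArg (fun x => x.2.1) h1
        have h4 : B4_n q g (B4_ext b) g = B4_n q g (B4_ext b0) g := congrArg (fun x => x.2.2) h1
        rcases Nat.eq_zero_or_pos j with rfl | hj0
        · exact h3
        · rcases hj.eq_or_lt with rfl | hjg
          · exact h4
          · have h5 := congrFun h2 ⟨j - 1, by omega⟩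
            simp only at h5
            rw [Nat.sub_add_cancel hj0] at h5
            exact h5
      · intro b _ b' _ h1
        simp only at h1
        exact B4_extinj (B4_uinj q g _ _ _ (add_left_cancel h1))
  have hle : S.card ≤ (Weil q g).ncard * P.card :=
    Finset.card_le_mul_card_image_of_maps_to hmaps _ hfib
  have hIcard : ((I.card : ℕ) : ℝ) = 2 * (B4_N g : ℝ) + 1 := by
    rw [hI, Int.card_Icc]
    have : ((B4_N g : ℤ) + 1 - -(B4_N g : ℤ)).toNat = 2 * B4_N g + 1 := by omega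
    rw [this]
    push_cast
    ring
  have hPcard : ((P.card : ℕ) : ℝ) ≤ 25 * g * (10 / 9) ^ (4 * g) * (187 / 50) ^ g := by
    rw [hP, Finset.card_product, Finset.card_product, Nat.cast_mul, Nat.cast_mul, hIcard]
    rw [Set.ncard_eq_toFinset_card _ hfin] at hcard
    have h1 : ((10 : ℝ) / 9) ^ (4 * g) * (187 / 50) ^ (g - 1) ≤ (10 / 9) ^ (4 * g) * (187 / 50) ^ g :=
      mul_le_mul_of_nonneg_left (pow_le_pow_right₀ (by norm_num) (Nat.sub_le _ _)) (by positivity)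
    have h2 := B4_Nbound hg
    calc ((hfin.toFinset.card : ℕ) : ℝ) * ((2 * (B4_N g : ℝ) + 1) * (2 * (B4_N g : ℝ) + 1))
        ≤ ((10 / 9) ^ (4 * g) * (187 / 50) ^ g) * (25 * g) := by
          refine mul_le_mul (hcard.trans h1) ?_ (by positivity) (by positivity)
          rw [← sq]
          exact h2
      _ = 25 * g * (10 / 9) ^ (4 * g) * (187 / 50) ^ g := by ring
  refine (B4_prodK hq hg).trans ?_
  have h1 : ((S.card : ℕ) : ℝ) ≤ ((Weil q g).ncard : ℝ) * ((P.card : ℕ) : ℝ) := by exact_mod_cast hle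
  refine h1.trans ?_
  rw [mul_comm]
  exact mul_le_mul_of_nonneg_right hPcard (Nat.cast_nonneg _)

end TI
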