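import Pool.Agent.Lib.MP_021685_agTI.L0

/-! LEAF L2 (easy+).  Irreducible members are strict.

PROOF.  `h` irreducible, monic, so irreducible over `ℚ` (`Polynomial.Monic.irreducible_iff_irreducible_map_fraction_map` or `IsPrimitive.Int.irreducible_iff_irreducible_map_cast`) and separable (characteristic zero), so `h` has `g` distinct complex roots, all real with `x² ≤ 4q` (`h ∈ Weil q g`).  If `x² = 4q` for one root,
then the minimal polynomial of `x` over `ℚ`, which is the image of `h`, of degree `g`, divides `X² - 4q`: `g ≤ 2`, a contradiction to `3 ≤ g`.  List the roots increasingly. -/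

namespace TI

open Polynomial

theorem irreducible_strict {q g : ℕ} (hg : 3 ≤ g) {h : ℤ[X]} (hh : h ∈ Weil q g)
    (hi : Irreducible h) : h ∈ Strict q g := by
  classical
  obtain ⟨hm, hd, hr⟩ := hh
  have hQ : Irreducible (h.map (algebraMap ℤ ℚ)) :=
    (Polynomial.Monic.irreducible_iff_irreducible_map_fraction_map hm).1 hi
  have hs : (h.map (algebraMap ℤ ℚ)).Separable := hQ.separable
  have hmap : (h.map (algebraMap ℤ ℚ)).map (algebraMap ℚ ℂ) = h.map (algebraMap ℤ ℂ) := by
    rw [Polynomial.map_map]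
    congr 1
  have hsC : (h.map (algebraMap ℤ ℂ)).Separable := by
    rw [← hmap]
    exact hs.map
  have hn : (h.map (algebraMap ℤ ℂ)).roots.Nodup := Polynomial.nodup_roots hsC
  have hc : (h.map (algebraMap ℤ ℂ)).roots.card = g := by
    have h1 := (IsAlgClosed.splits (h.map (algebraMap ℤ ℂ))).natDegree_eq_card_roots
    rw [hm.natDegree_map, hd] at h1
    exact h1.symm
  have hroot : ∀ z ∈ (h.map (algebraMap ℤ ℂ)).roots.toFinset,
      aeval z h = 0 ∧ ((z.re : ℝ) : ℂ) = z ∧ z.re ^ 2 ≤ 4 * (q : ℝ) := by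
    intro z hz
    have h1 : aeval z h = 0 := by
      have h2 := Polynomial.isRoot_of_mem_roots (Multiset.mem_toFinset.1 hz)
      rw [Polynomial.IsRoot.def, Polynomial.eval_map] at h2
      exact h2
    obtain ⟨x, hx, hx2⟩ := hr z h1
    have h3 : z.re = x := by
      rw [← hx]
      exact Complex.ofReal_re x
    exact ⟨h1, by rw [h3, hx], by rw [h3]; exact hx2⟩
  obtain ⟨S, hS⟩ : ∃ S : Finset ℝ, S = (h.map (algebraMap ℤ ℂ)).roots.toFinset.image Complex.re :=
    ⟨_, rfl⟩
  have hcard : S.card = g := by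
    rw [hS, Finset.card_image_of_injOn, Multiset.toFinset_card_of_nodup hn, hc]
    intro z hz w hw hzw
    have h1 := (hroot z hz).2.1
    have h2 := (hroot w hw).2.1
    have h3 : z.re = w.re := hzw
    rw [← h1, ← h2, h3]
  refine ⟨⟨hm, hd, hr⟩, S.orderEmbOfFin hcard, (S.orderEmbOfFin hcard).strictMono, fun i => ?_⟩
  have hmem := S.orderEmbOfFin_mem hcard i
  generalize S.orderEmbOfFin hcard i = x at hmem
  rw [hS, Finset.mem_image] at hmem
  obtain ⟨z, hz, hzx⟩ := hmem
  obtain ⟨h1, h2, h3⟩ := hroot z hz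
  rw [hzx] at h2 h3
  rw [← h2] at h1
  have h4 : (h.map (Int.castRingHom ℝ)).eval x = 0 := by
    have h5 : ((aeval x h : ℝ) : ℂ) = 0 := by
      have h6 := Polynomial.aeval_algebraMap_apply ℂ x h
      rw [Complex.coe_algebraMap] at h6
      rw [← h6]
      exact h1
    have h7 : aeval x h = 0 := Complex.ofReal_eq_zero.1 h5
    rw [Polynomial.eval_map]
    exact h7
  refine ⟨lt_of_le_of_ne h3 fun he => ?_, h4⟩
  have h5 : aeval x (h.map (algebraMap ℤ ℚ)) = 0 := by
    rw [Polynomial.aeval_map_algebraMap, Polynomial.aeval_def]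
    rw [Polynomial.eval_map] at h4
    exact h4
  have h6 := minpoly.eq_of_irreducible_of_monic hQ h5 (hm.map _)
  have h7 : minpoly ℚ x ∣ X ^ 2 - C (4 * (q : ℚ)) := by
    refine minpoly.dvd ℚ x ?_
    rw [map_sub, map_pow, aeval_X, aeval_C, he]
    simp
  have h8 := Polynomial.natDegree_le_of_dvd h7 (Polynomial.X_pow_sub_C_ne_zero (by norm_num) _)
  rw [← h6, hm.natDegree_map, hd, Polynomial.natDegree_X_pow_sub_C] at h8
  omega

end TI
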