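import Mathlib

/-! LEAF S0 (easy).  Summation over fibers, and the union bound for tuples.

PROOF of `sum_fibers`.  `X` finite.  `ncard A = ∑_{w ∈ f '' X} ncard (A ∩ f⁻¹ w) ≤ ∑_w (a ncard (X ∩ f⁻¹ w) + b) = a ncard X + b ncard (f '' X)` (`Finset.card_eq_sum_card_fiberwise`).
PROOF of `tuples`.  If `t` is in the set, then `t i ∉ G` for some `i`, or all `t i ∈ G` and `t j ∈ Bad (t i)` for some `i ≠ j`.  For fixed `i` the number of `t ∈ Y^r` with `t i ∉ G` is at most `|Y|^(r-1) |X \ G| ≤ |Y|^(r-1) α |X| ≤ 3 α |Y|^r`.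
For fixed `i ≠ j` the number of `t ∈ Y^r` with `t i ∈ G` and `t j ∈ Bad (t i)` is at most `|Y|^(r-2) ∑_{x ∈ Y ∩ G} |Bad x ∩ X| ≤ |Y|^(r-1) β |X| ≤ 3 β |Y|^r`.  Sum over at most `r` values `i` and `r²` pairs. -/

namespace TI

private theorem S0_fib {α β : Type} {X A : Set α} (hX : X.Finite) (hA : A ⊆ X) (f : α → β) :
    A.ncard = ∑ w ∈ (hX.image f).toFinset, (A ∩ f ⁻¹' {w}).ncard := by
  classical
  have hAf : A.Finite := hX.subset hA
  rw [Set.ncard_eq_toFinset_card A hAf,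
    Finset.card_eq_sum_card_fiberwise (f := f) (t := (hX.image f).toFinset)]
  · refine Finset.sum_congr rfl fun w _ => ?_
    rw [← Set.ncard_coe_finset]
    congr 1
    ext x
    simp
  · intro x hx
    have hx' : x ∈ A := by simpa using hx
    simpa using ⟨x, hA hx', rfl⟩

private theorem S0_cnt {α : Type} (Y : Finset α) (r : ℕ) (j : Fin r) (Q : (Fin r → α) → Prop)
    [DecidablePred Q] [hQd : ∀ t : Fin r → α, DecidablePred fun y => Q (Function.update t j y)]
    (c : ℝ) (hc : 0 ≤ c) (h : ∀ t : Fin r → α, (∀ i, t i ∈ Y) → Q t →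
      ((Y.filter fun y => Q (Function.update t j y)).card : ℝ) ≤ c) :
    (((Fintype.piFinset fun _ : Fin r => Y).filter Q).card : ℝ) ≤ c * (Y.card : ℝ) ^ (r - 1) := by
  classical
  set s := (Fintype.piFinset fun _ : Fin r => Y).filter Q with hs
  have h1 : s.card ≤ ⌊c⌋₊ * (s.image fun t => fun k : {k : Fin r // k ≠ j} => t k.1).card := by
    refine Finset.card_le_mul_card_image s _ fun w hw => ?_
    obtain ⟨t, ht, rfl⟩ := Finset.mem_image.mp hw
    rw [hs, Finset.mem_filter, Fintype.mem_piFinset] at ht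
    refine (?_ : _ ≤ (Y.filter fun y => Q (Function.update t j y)).card).trans
      (Nat.le_floor (h t ht.1 ht.2))
    have hup : ∀ x : Fin r → α, (fun k : {k : Fin r // k ≠ j} => x k.1) =
        (fun k : {k : Fin r // k ≠ j} => t k.1) → Function.update t j (x j) = x := by
      intro x hx
      funext k
      by_cases hk : k = j
      · rw [hk, Function.update_self]
      · rw [Function.update_of_ne hk]
        exact (congrFun hx ⟨k, hk⟩).symm
    refine Finset.card_le_card_of_injOn (fun x => x j) ?_ ?_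
    · intro x hx
      obtain ⟨hx1, hx2⟩ := Finset.mem_filter.mp hx
      rw [hs, Finset.mem_filter, Fintype.mem_piFinset] at hx1
      refine Finset.mem_filter.mpr ⟨hx1.1 j, ?_⟩
      rw [hup x hx2]
      exact hx1.2
    · intro x hx x' hx' hxx
      obtain ⟨hx1, hx2⟩ := Finset.mem_filter.mp hx
      obtain ⟨hx3, hx4⟩ := Finset.mem_filter.mp hx'
      have h5 : x j = x' j := hxx
      rw [← hup x hx2, ← hup x' hx4, h5]
  have h2 : (s.image fun t => fun k : {k : Fin r // k ≠ j} => t k.1).card ≤ Y.card ^ (r - 1) := by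
    have h3 : (s.image fun t => fun k : {k : Fin r // k ≠ j} => t k.1) ⊆
        Fintype.piFinset fun _ : {k : Fin r // k ≠ j} => Y := by
      intro w hw
      obtain ⟨t, ht, rfl⟩ := Finset.mem_image.mp hw
      rw [hs, Finset.mem_filter, Fintype.mem_piFinset] at ht
      exact Fintype.mem_piFinset.mpr fun k => ht.1 k.1
    have h4 := Finset.card_le_card h3
    rw [Fintype.card_piFinset, Finset.prod_const, Finset.card_univ, Fintype.card_subtype_compl,
      Fintype.card_fin, Fintype.card_unique] at h4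
    exact h4
  have h3 : (s.card : ℝ) ≤ (⌊c⌋₊ : ℝ) * (Y.card : ℝ) ^ (r - 1) := by
    exact_mod_cast h1.trans (Nat.mul_le_mul_left _ h2)
  exact h3.trans (mul_le_mul_of_nonneg_right (Nat.floor_le hc) (by positivity))

theorem sum_fibers {α β : Type} {X A : Set α} (hX : X.Finite) (hA : A ⊆ X) (f : α → β) {a b : ℝ}
    (h : ∀ w ∈ f '' X, ((A ∩ f ⁻¹' {w}).ncard : ℝ) ≤ a * ((X ∩ f ⁻¹' {w}).ncard : ℝ) + b) :
    (A.ncard : ℝ) ≤ a * (X.ncard : ℝ) + b * ((f '' X).ncard : ℝ) := by
  have h1 : (A.ncard : ℝ) = ∑ w ∈ (hX.image f).toFinset, ((A ∩ f ⁻¹' {w}).ncard : ℝ) := by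
    rw [S0_fib hX hA f]
    push_cast
    rfl
  have h2 : (X.ncard : ℝ) = ∑ w ∈ (hX.image f).toFinset, ((X ∩ f ⁻¹' {w}).ncard : ℝ) := by
    rw [S0_fib hX le_rfl f]
    push_cast
    rfl
  rw [h1, h2, Finset.mul_sum, Set.ncard_eq_toFinset_card (f '' X) (hX.image f)]
  refine (Finset.sum_le_sum fun w hw => h w ((hX.image f).mem_toFinset.mp hw)).trans ?_
  rw [Finset.sum_add_distrib, Finset.sum_const, nsmul_eq_mul, mul_comm b]

theorem tuples {α : Type} {X Y G : Set α} (hX : X.Finite) (hY : Y ⊆ X) (h3 : X.ncard ≤ 3 * Y.ncard)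
    (Bad : α → Set α) {a b : ℝ} (ha : 0 ≤ a) (hb : 0 ≤ b) (hG : ((X \ G).ncard : ℝ) ≤ a * X.ncard)
    (hB : ∀ x ∈ X ∩ G, ((Bad x ∩ X).ncard : ℝ) ≤ b * X.ncard) (r : ℕ) :
    (({t : Fin r → α | (∀ i, t i ∈ Y) ∧ ¬ ((∀ i, t i ∈ G) ∧ ∀ i j, i ≠ j → t j ∉ Bad (t i))}).ncard : ℝ) ≤
      (3 * r * a + 3 * r ^ 2 * b) * (Y.ncard : ℝ) ^ r := by
  classical
  have hYf : Y.Finite := hX.subset hY
  set Z := hYf.toFinset with hZ
  have hZm : ∀ y, y ∈ Z ↔ y ∈ Y := fun y => by rw [hZ, Set.Finite.mem_toFinset]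
  have hcard : Y.ncard = Z.card := Set.ncard_eq_toFinset_card Y hYf
  have h3' : (X.ncard : ℝ) ≤ 3 * Z.card := by
    rw [hcard] at h3
    exact_mod_cast h3
  have hpow : ∀ (_ : Fin r) (c : ℝ), c * Z.card * (Z.card : ℝ) ^ (r - 1) = c * (Z.card : ℝ) ^ r := by
    intro i c
    have hr : r = (r - 1) + 1 := by
      have := i.2
      omega
    conv_rhs => rw [hr]
    rw [pow_succ]
    ring
  have hset : {t : Fin r → α | (∀ i, t i ∈ Y) ∧ ¬ ((∀ i, t i ∈ G) ∧ ∀ i j, i ≠ j → t j ∉ Bad (t i))} =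
      (((Fintype.piFinset fun _ : Fin r => Z).filter fun t =>
        ¬ ((∀ i, t i ∈ G) ∧ ∀ i j, i ≠ j → t j ∉ Bad (t i)) : Finset (Fin r → α)) :
          Set (Fin r → α)) := by
    ext t
    rw [Finset.mem_coe, Finset.mem_filter, Fintype.mem_piFinset]
    simp only [hZm]
    rfl
  rw [hset, Set.ncard_coe_finset, hcard]
  have hA : ∀ i : Fin r, (((Fintype.piFinset fun _ : Fin r => Z).filter fun t => t i ∉ G).card : ℝ) ≤
      3 * a * (Z.card : ℝ) ^ r := by
    intro i
    have h4 := S0_cnt Z r i (fun t => t i ∉ G) (3 * a * Z.card) (by positivity) fun t _ _ => by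
      have h5 : ((Z.filter fun y => Function.update t i y i ∉ G).card : ℝ) ≤ ((X \ G).ncard : ℝ) := by
        rw [← Set.ncard_coe_finset]
        refine Nat.cast_le.mpr (Set.ncard_le_ncard ?_ (hX.subset Set.sdiff_subset))
        intro y hy
        obtain ⟨h6, h7⟩ := Finset.mem_filter.mp (Finset.mem_coe.mp hy)
        rw [Function.update_self] at h7
        exact ⟨hY ((hZm y).mp h6), h7⟩
      have h6 : a * X.ncard ≤ a * (3 * Z.card) := mul_le_mul_of_nonneg_left h3' ha
      linarith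
    rwa [hpow i] at h4
  have hB' : ∀ i j : Fin r, i ≠ j → (((Fintype.piFinset fun _ : Fin r => Z).filter fun t =>
      t i ∈ G ∧ t j ∈ Bad (t i)).card : ℝ) ≤ 3 * b * (Z.card : ℝ) ^ r := by
    intro i j hij
    have h4 := S0_cnt Z r j (fun t => t i ∈ G ∧ t j ∈ Bad (t i)) (3 * b * Z.card) (by positivity)
      fun t ht hQ => by
        have h5 : ((Z.filter fun y => Function.update t j y i ∈ G ∧
            Function.update t j y j ∈ Bad (Function.update t j y i)).card : ℝ) ≤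
            ((Bad (t i) ∩ X).ncard : ℝ) := by
          rw [← Set.ncard_coe_finset]
          refine Nat.cast_le.mpr (Set.ncard_le_ncard ?_ (hX.subset Set.inter_subset_right))
          intro y hy
          obtain ⟨h6, _, h7⟩ := Finset.mem_filter.mp (Finset.mem_coe.mp hy)
          rw [Function.update_self, Function.update_of_ne hij] at h7
          exact ⟨h7, hY ((hZm y).mp h6)⟩
        have h6 := hB (t i) ⟨hY ((hZm _).mp (ht i)), hQ.1⟩
        have h7 : b * X.ncard ≤ b * (3 * Z.card) := mul_le_mul_of_nonneg_left h3' hb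
        linarith
    rwa [hpow i] at h4
  have hsub : ((Fintype.piFinset fun _ : Fin r => Z).filter fun t =>
        ¬ ((∀ i, t i ∈ G) ∧ ∀ i j, i ≠ j → t j ∉ Bad (t i))) ⊆
      (Finset.univ.biUnion fun i : Fin r => (Fintype.piFinset fun _ : Fin r => Z).filter fun t => t i ∉ G) ∪
      ((Finset.univ.filter fun p : Fin r × Fin r => p.1 ≠ p.2).biUnion fun p =>
        (Fintype.piFinset fun _ : Fin r => Z).filter fun t => t p.1 ∈ G ∧ t p.2 ∈ Bad (t p.1)) := by
    intro t ht
    obtain ⟨h4, h5⟩ := Finset.mem_filter.mp ht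
    rw [Finset.mem_union]
    by_cases h6 : ∀ i, t i ∈ G
    · right
      have h7 : ∃ i j, i ≠ j ∧ t j ∈ Bad (t i) := by
        by_contra hcon
        push Not at hcon
        exact h5 ⟨h6, hcon⟩
      obtain ⟨i, j, hij, h8⟩ := h7
      exact Finset.mem_biUnion.mpr ⟨(i, j), Finset.mem_filter.mpr ⟨Finset.mem_univ _, hij⟩,
        Finset.mem_filter.mpr ⟨h4, h6 i, h8⟩⟩
    · left
      push Not at h6
      obtain ⟨i, hi⟩ := h6
      exact Finset.mem_biUnion.mpr ⟨i, Finset.mem_univ _, Finset.mem_filter.mpr ⟨h4, hi⟩⟩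
  have h4 := (Finset.card_le_card hsub).trans ((Finset.card_union_le _ _).trans
    (Nat.add_le_add Finset.card_biUnion_le Finset.card_biUnion_le))
  have h5 : (((Fintype.piFinset fun _ : Fin r => Z).filter fun t =>
        ¬ ((∀ i, t i ∈ G) ∧ ∀ i j, i ≠ j → t j ∉ Bad (t i))).card : ℝ) ≤
      ∑ i : Fin r, (((Fintype.piFinset fun _ : Fin r => Z).filter fun t => t i ∉ G).card : ℝ) +
      ∑ p ∈ Finset.univ.filter fun p : Fin r × Fin r => p.1 ≠ p.2,
        (((Fintype.piFinset fun _ : Fin r => Z).filter fun t =>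
          t p.1 ∈ G ∧ t p.2 ∈ Bad (t p.1)).card : ℝ) := by
    exact_mod_cast h4
  refine h5.trans ?_
  have h6 : ∑ i : Fin r, (((Fintype.piFinset fun _ : Fin r => Z).filter fun t => t i ∉ G).card : ℝ) ≤
      r * (3 * a * (Z.card : ℝ) ^ r) := by
    refine (Finset.sum_le_sum fun i _ => hA i).trans ?_
    rw [Finset.sum_const, Finset.card_univ, Fintype.card_fin, nsmul_eq_mul]
  have h7 : ∑ p ∈ Finset.univ.filter fun p : Fin r × Fin r => p.1 ≠ p.2,
        (((Fintype.piFinset fun _ : Fin r => Z).filter fun t =>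
          t p.1 ∈ G ∧ t p.2 ∈ Bad (t p.1)).card : ℝ) ≤ (r : ℝ) ^ 2 * (3 * b * (Z.card : ℝ) ^ r) := by
    refine (Finset.sum_le_sum fun p hp => hB' p.1 p.2 (Finset.mem_filter.mp hp).2).trans ?_
    rw [Finset.sum_const, nsmul_eq_mul]
    refine mul_le_mul_of_nonneg_right ?_ (by positivity)
    have h8 : (Finset.univ.filter fun p : Fin r × Fin r => p.1 ≠ p.2).card ≤ r ^ 2 := by
      refine (Finset.card_le_univ _).trans ?_
      rw [Fintype.card_prod, Fintype.card_fin, sq]
    exact_mod_cast h8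
  refine (add_le_add h6 h7).trans (le_of_eq ?_)
  ring

end TI
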