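import Pool.Agent.Lib.MP_021685_agTI.L0
import Pool.Agent.Lib.MP_021685_agTI.Fi

/-! LEAF L1 (medium).  The strict members of a line form an interval.

PROOF.  `g ≥ 1`, `s = √q`.  Members `h`, `h'` of `Weil q g` with the same coefficients of `X^(g-1), .., X` differ by a constant, so a member is determined by `c = h.coeff 0`; write `h_c = f + c` (`f` without constant term).
CLAIM: if `h_a`, `h_b` are in `Strict q g` with `a ≤ c ≤ b` (integers), then `h_c ∈ Strict q g`.  Let `x_1 < .. < x_g` be the roots of `h_a`.  By Rolle `f' = h_a'` has a zero `ξ_i ∈ (x_i, x_(i+1))`, `1 ≤ i < g`; these are `g - 1` zeros, all zeros of `f'` (degree `g - 1`), and `h_a` has the strict sign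
`(-1)^(g-i)` at `ξ_i` (it is monic with simple roots; sign of `∏ (ξ_i - x_j)`), sign `+` at `2s` and `(-1)^g` at `-2s` (roots in the open interval).  The same holds for `h_b`: its critical points are the zeros of the same `f'`, so they are the same `ξ_i` (in increasing order), with the same signs at `ξ_i`, `±2s`.
`h_c` at each of the `g + 1` points `-2s < ξ_1 < .. < ξ_(g-1) < 2s` lies between `h_a` and `h_b`, so it has the same strict signs, which alternate: by the intermediate value theorem `h_c` has `g` distinct roots in the open interval, so it is in `Strict q g` (degree `g`: these are all roots, so `h_c ∈ Weil q g`).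
The set of the `c` is finite (`Weil_finite`), and order convex: it is empty (take `lo = 1`, `hi = 0`) or `Icc min max`.
`line_card`: `h ↦ h.coeff 0` is a bijection from `{h ∈ Strict q g | pre g (g-1) h = pre g (g-1) h₀, Q h}` to the filtered interval; inverse `c ↦ h₀ - C (h₀.coeff 0) + C c`. -/

namespace TI

open Polynomial

/-- The sign of a product with the positive factors first and then the negative factors. -/
private theorem L1_sign {n : ℕ} (v : Fin n → ℝ) (k : ℕ) (hk : k ≤ n) (h1 : ∀ j : Fin n, (j : ℕ) < k → 0 < v j)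
    (h2 : ∀ j : Fin n, k ≤ (j : ℕ) → v j < 0) : 0 < (-1) ^ (n - k) * ∏ j, v j := by
  induction n with
  | zero =>
    rw [Nat.zero_sub, pow_zero, one_mul, Finset.univ_eq_empty, Finset.prod_empty]
    exact one_pos
  | succ n ih =>
    rcases Nat.lt_or_ge n k with h | h
    · have hk' : k = n + 1 := by omega
      subst hk'
      rw [Nat.sub_self, pow_zero, one_mul]
      exact Finset.prod_pos fun j _ => h1 j j.2
    · have h3 := ih (fun j => v j.castSucc) h (fun j hj => h1 _ hj) (fun j hj => h2 _ hj)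
      have h4 := h2 (Fin.last n) h
      have h5 := mul_pos h3 (neg_pos.2 h4)
      rw [Fin.prod_univ_castSucc, Nat.succ_sub h, pow_succ]
      linarith

private theorem L1_prod {g : ℕ} (P : ℝ[X]) (hm : P.Monic) (hd : P.natDegree = g) (x : Fin g → ℝ)
    (hx : Function.Injective x) (hr : ∀ i, P.eval (x i) = 0) : P = ∏ i, (X - C (x i)) := by
  have h1 : (∏ i, (X - C (x i))).Monic := monic_prod_of_monic _ _ fun i _ => monic_X_sub_C _
  have h2 : (∏ i, (X - C (x i))).natDegree = g := by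
    rw [natDegree_prod_of_monic _ _ fun i _ => monic_X_sub_C _]
    simp
  refine (eq_of_monic_of_dvd_of_natDegree_le h1 hm ?_ (by rw [h2, hd]))
  refine Finset.prod_dvd_of_coprime ?_ fun i _ => dvd_iff_isRoot.2 (hr i)
  exact fun i _ j _ hij => pairwise_coprime_X_sub_C hx hij

private theorem L1_rolle {m : ℕ} (P : ℝ[X]) (hm : P.Monic) (hd : P.natDegree = m + 1) (x : Fin (m + 1) → ℝ)
    (hx : StrictMono x) (hr : ∀ i, P.eval (x i) = 0) :
    ∃ ξ : Fin m → ℝ, StrictMono ξ ∧ (∀ i, x i.castSucc < ξ i ∧ ξ i < x i.succ) ∧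
      (∀ i, (derivative P).eval (ξ i) = 0) ∧ ∀ i : Fin m, 0 < (-1) ^ (m - (i : ℕ)) * P.eval (ξ i) := by
  have h1 : ∀ i : Fin m, ∃ t, (x i.castSucc < t ∧ t < x i.succ) ∧ (derivative P).eval t = 0 := by
    intro i
    obtain ⟨t, ht, ht'⟩ := exists_hasDerivAt_eq_zero (f := fun y => P.eval y)
      (f' := fun y => (derivative P).eval y) (hx (Fin.castSucc_lt_succ (i := i)))
      P.continuousOn (by rw [hr, hr]) (fun y _ => P.hasDerivAt y)
    exact ⟨t, ht, ht'⟩
  choose ξ hξ hξ' using h1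
  have hmono : StrictMono ξ := by
    intro i j hij
    have h2 : x i.succ ≤ x j.castSucc := hx.monotone (by
      rw [Fin.le_def, Fin.val_succ, Fin.val_castSucc]
      exact hij)
    exact (hξ i).2.trans_le (h2.trans (hξ j).1.le)
  refine ⟨ξ, hmono, hξ, hξ', fun i => ?_⟩
  have h3 := L1_prod P hm hd x hx.injective hr
  have h4 : P.eval (ξ i) = ∏ j, (ξ i - x j) := by
    conv_lhs => rw [h3]
    rw [eval_prod]
    simp
  rw [h4]
  have h5 := L1_sign (fun j => ξ i - x j) ((i : ℕ) + 1) (by omega) (fun j hj => ?_) (fun j hj => ?_)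
  · rwa [Nat.add_sub_add_right] at h5
  · have h6 : x j ≤ x i.castSucc := hx.monotone (by
      rw [Fin.le_def, Fin.val_castSucc]
      omega)
    have := (hξ i).1
    linarith
  · have h6 : x i.succ ≤ x j := hx.monotone (by
      rw [Fin.le_def, Fin.val_succ]
      exact hj)
    have := (hξ i).2
    linarith

private theorem L1_end {m : ℕ} (P : ℝ[X]) (hm : P.Monic) (hd : P.natDegree = m + 1) (x : Fin (m + 1) → ℝ)
    (hx : StrictMono x) (hr : ∀ i, P.eval (x i) = 0) {S : ℝ} (hS : ∀ i, -S < x i ∧ x i < S) :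
    0 < P.eval S ∧ 0 < (-1) ^ (m + 1) * P.eval (-S) := by
  have h3 := L1_prod P hm hd x hx.injective hr
  have h4 : ∀ t, P.eval t = ∏ j, (t - x j) := by
    intro t
    conv_lhs => rw [h3]
    rw [eval_prod]
    simp
  rw [h4, h4]
  constructor
  · exact Finset.prod_pos fun j _ => by linarith [(hS j).2]
  · have h5 := L1_sign (fun j => -S - x j) 0 (Nat.zero_le _) (fun j hj => absurd hj (Nat.not_lt_zero _))
      (fun j _ => by
        have := (hS j).1
        linarith)
    rwa [Nat.sub_zero] at h5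

private theorem L1_uniq {m : ℕ} (D : ℝ[X]) (hD : D ≠ 0) (hd : D.natDegree ≤ m) (ξ ξ' : Fin m → ℝ)
    (h1 : StrictMono ξ) (h1' : StrictMono ξ') (h2 : ∀ i, D.eval (ξ i) = 0) (h2' : ∀ i, D.eval (ξ' i) = 0) :
    ξ = ξ' := by
  classical
  have hin : ∀ ζ : Fin m → ℝ, (∀ i, D.eval (ζ i) = 0) → ∀ i, ζ i ∈ D.roots.toFinset := by
    intro ζ hζ i
    rw [Multiset.mem_toFinset, mem_roots hD]
    exact hζ i
  have hle : D.roots.toFinset.card ≤ m :=
    (Multiset.toFinset_card_le _).trans ((card_roots' D).trans hd)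
  have hge : m ≤ D.roots.toFinset.card := by
    have h3 : (Finset.univ.image ξ).card = m := by
      rw [Finset.card_image_of_injective _ h1.injective, Finset.card_univ, Fintype.card_fin]
    rw [← h3]
    refine Finset.card_le_card fun y hy => ?_
    obtain ⟨i, -, rfl⟩ := Finset.mem_image.1 hy
    exact hin ξ h2 i
  have hcard : D.roots.toFinset.card = m := le_antisymm hle hge
  rw [Finset.orderEmbOfFin_unique hcard (hin ξ h2) h1, Finset.orderEmbOfFin_unique hcard (hin ξ' h2') h1']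

private theorem L1_ivt {m : ℕ} (P : ℝ[X]) (z : ℕ → ℝ) (hz : ∀ j ≤ m, z j < z (j + 1))
    (hs : ∀ j ≤ m + 1, 0 < (-1) ^ (m + 1 - j) * P.eval (z j)) :
    ∃ x : Fin (m + 1) → ℝ, StrictMono x ∧ ∀ i : Fin (m + 1), z i < x i ∧ x i < z (i + 1) ∧ P.eval (x i) = 0 := by
  have hroot : ∀ j : Fin (m + 1), ∃ x : ℝ, z j < x ∧ x < z (j + 1) ∧ P.eval x = 0 := by
    intro j
    have h1 := hs j j.2.le
    have h2 := hs (j + 1) j.2
    have hle : z j ≤ z (j + 1) := (hz j (Nat.lt_succ_iff.1 j.2)).le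
    have hc : ContinuousOn (fun x : ℝ => (-1) ^ (m + 1 - ((j : ℕ) + 1)) * P.eval x)
        (Set.Icc (z j) (z (j + 1))) :=
      (continuous_const.mul P.continuous).continuousOn
    have h3 := intermediate_value_Ioo hle hc
    have hj : m + 1 - (j : ℕ) = (m + 1 - ((j : ℕ) + 1)) + 1 := by
      have := j.2
      omega
    rw [hj, pow_succ] at h1
    obtain ⟨x, ⟨hx1, hx2⟩, hx3⟩ := h3 (show (0 : ℝ) ∈ Set.Ioo _ _ from ⟨by linarith, h2⟩)
    refine ⟨x, hx1, hx2, ?_⟩
    have h5 : ((-1 : ℝ) ^ (m + 1 - ((j : ℕ) + 1))) ≠ 0 := pow_ne_zero _ (by norm_num)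
    exact (mul_eq_zero.1 hx3).resolve_left h5
  choose x hx1 hx2 hx3 using hroot
  have hzm : ∀ i j : ℕ, i ≤ j → j ≤ m + 1 → z i ≤ z j := by
    intro i j hij hj
    induction j with
    | zero =>
      have : i = 0 := by omega
      rw [this]
    | succ j ih =>
      rcases Nat.lt_or_ge i (j + 1) with h | h
      · exact (ih (by omega) (by omega)).trans (hz j (by omega)).le
      · have : i = j + 1 := by omega
        rw [this]
  refine ⟨x, fun i j hij => ?_, fun i => ⟨hx1 i, hx2 i, hx3 i⟩⟩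
  exact (hx2 i).trans_le ((hzm _ _ hij j.2.le).trans (hx1 j).le)

/-- The polynomials `F + c` with all roots simple and in the open interval are convex. -/
private theorem L1_conv {m : ℕ} (F : ℝ[X]) (hd : F.natDegree = m + 1) (hm : F.Monic) {S a b c : ℝ}
    (hac : a ≤ c) (hcb : c ≤ b)
    (ha : ∃ x : Fin (m + 1) → ℝ, StrictMono x ∧ ∀ i, (-S < x i ∧ x i < S) ∧ (F + C a).eval (x i) = 0)
    (hb : ∃ x : Fin (m + 1) → ℝ, StrictMono x ∧ ∀ i, (-S < x i ∧ x i < S) ∧ (F + C b).eval (x i) = 0) :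
    ∃ x : Fin (m + 1) → ℝ, StrictMono x ∧ ∀ i, (-S < x i ∧ x i < S) ∧ (F + C c).eval (x i) = 0 := by
  obtain ⟨x, hx, hxr⟩ := ha
  obtain ⟨y, hy, hyr⟩ := hb
  have hdt : ∀ t : ℝ, (F + C t).natDegree = m + 1 := fun t => by rw [natDegree_add_C, hd]
  have hmt : ∀ t : ℝ, (F + C t).Monic := by
    intro t
    refine hm.add_of_left ?_
    rw [degree_eq_natDegree hm.ne_zero, hd]
    exact degree_C_le.trans_lt (by exact_mod_cast Nat.succ_pos m)
  obtain ⟨ξ, h1, h2, h3, h4⟩ := L1_rolle (F + C a) (hmt a) (hdt a) x hx fun i => (hxr i).2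
  obtain ⟨ξ', h1', h2', h3', h4'⟩ := L1_rolle (F + C b) (hmt b) (hdt b) y hy fun i => (hyr i).2
  obtain ⟨e1, e2⟩ := L1_end (F + C a) (hmt a) (hdt a) x hx (fun i => (hxr i).2) fun i => (hxr i).1
  obtain ⟨e1', e2'⟩ := L1_end (F + C b) (hmt b) (hdt b) y hy (fun i => (hyr i).2) fun i => (hyr i).1
  have hD : ∀ t : ℝ, derivative (F + C t) = derivative F := fun t => by
    rw [derivative_add, derivative_C, add_zero]
  rw [hD] at h3 h3'
  have hD0 : derivative F ≠ 0 := by
    intro h
    have h5 := congrArg (fun p => p.coeff m) h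
    simp only [coeff_derivative, coeff_zero] at h5
    rw [← hd, hm.coeff_natDegree, one_mul] at h5
    have : (0 : ℝ) ≤ m := Nat.cast_nonneg m
    linarith
  have hDd : (derivative F).natDegree ≤ m := by
    have h5 := natDegree_derivative_le F
    rw [hd] at h5
    exact h5
  have hξ : ξ' = ξ := (L1_uniq (derivative F) hD0 hDd ξ ξ' h1 h1' h3 h3').symm
  rw [hξ] at h4'
  have hev : ∀ t u : ℝ, (F + C t).eval u = F.eval u + t := fun t u => by rw [eval_add, eval_C]
  -- the points
  have hSS : -S < S := (hxr 0).1.1.trans (hxr 0).1.2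
  have hξS : ∀ i, -S < ξ i ∧ ξ i < S := fun i =>
    ⟨(hxr i.castSucc).1.1.trans (h2 i).1, (h2 i).2.trans (hxr i.succ).1.2⟩
  obtain ⟨z, hz⟩ : ∃ z : ℕ → ℝ, z = fun j : ℕ => if j = 0 then -S else if h : j - 1 < m then ξ ⟨j - 1, h⟩ else S :=
    ⟨_, rfl⟩
  have hz0 : z 0 = -S := by rw [hz]; exact if_pos rfl
  have hz1 : ∀ i : Fin m, z ((i : ℕ) + 1) = ξ i := by
    intro i
    rw [hz]
    simp only
    rw [if_neg (Nat.succ_ne_zero _), dif_pos (by have := i.2; omega)]
    congr 1
  have hz2 : z (m + 1) = S := by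
    rw [hz]
    simp only
    rw [if_neg (Nat.succ_ne_zero _), dif_neg (by omega)]
  have hzb : ∀ j, -S ≤ z j ∧ z j ≤ S := by
    intro j
    rw [hz]
    simp only
    split_ifs with h5 h6
    · exact ⟨le_rfl, hSS.le⟩
    · exact ⟨(hξS _).1.le, (hξS _).2.le⟩
    · exact ⟨hSS.le, le_rfl⟩
  have hcases : ∀ j ≤ m + 1, j = 0 ∨ (∃ i : Fin m, j = (i : ℕ) + 1) ∨ j = m + 1 := by
    intro j hj
    rcases Nat.eq_zero_or_pos j with h | h
    · exact Or.inl h
    · rcases Nat.lt_or_ge j (m + 1) with h' | h'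
      · exact Or.inr (Or.inl ⟨⟨j - 1, by omega⟩, by simp only; omega⟩)
      · exact Or.inr (Or.inr (by omega))
  have hzmono : ∀ j ≤ m, z j < z (j + 1) := by
    intro j hj
    rcases hcases (j + 1) (by omega) with h | ⟨i, h⟩ | h
    · omega
    · rw [h, hz1]
      rcases hcases j (by omega) with h' | ⟨i', h'⟩ | h'
      · rw [h', hz0]
        exact (hξS i).1
      · rw [h', hz1]
        refine h1 ?_
        rw [Fin.lt_def]
        omega
      · omega
    · rw [h, hz2]
      rcases hcases j (by omega) with h' | ⟨i', h'⟩ | h'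
      · rw [h', hz0]
        exact hSS
      · rw [h', hz1]
        exact (hξS i').2
      · omega
  have hsgn : ∀ (t : ℝ), 0 < (F + C t).eval S → 0 < (-1) ^ (m + 1) * (F + C t).eval (-S) →
      (∀ i : Fin m, 0 < (-1) ^ (m - (i : ℕ)) * (F + C t).eval (ξ i)) →
      ∀ j ≤ m + 1, 0 < (-1) ^ (m + 1 - j) * (F + C t).eval (z j) := by
    intro t g1 g2 g3 j hj
    rcases hcases j hj with h | ⟨i, h⟩ | h
    · rw [h, hz0, Nat.sub_zero]
      exact g2
    · rw [h, hz1, Nat.add_sub_add_right]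
      exact g3 i
    · rw [h, hz2, Nat.sub_self, pow_zero, one_mul]
      exact g1
  have ha' := hsgn a e1 e2 h4
  have hb' := hsgn b e1' e2' h4'
  have hc' : ∀ j ≤ m + 1, 0 < (-1) ^ (m + 1 - j) * (F + C c).eval (z j) := by
    intro j hj
    have g1 := ha' j hj
    have g2 := hb' j hj
    rw [hev] at g1 g2 ⊢
    rcases Nat.even_or_odd (m + 1 - j) with h | h
    · rw [h.neg_one_pow] at g1 g2 ⊢
      linarith
    · rw [h.neg_one_pow] at g1 g2 ⊢
      linarith
  obtain ⟨w, hw, hw'⟩ := L1_ivt (F + C c) z hzmono hc'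
  refine ⟨w, hw, fun i => ⟨⟨?_, ?_⟩, (hw' i).2.2⟩⟩
  · exact (hzb i).1.trans_lt (hw' i).1
  · exact (hw' i).2.1.trans_le (hzb _).2

/-- A monic polynomial with `g` distinct roots in the interval is a Weil polynomial. -/
private theorem L1_weil {q g : ℕ} (f : ℤ[X]) (hmon : f.Monic) (hnd : f.natDegree = g) (x : Fin g → ℝ)
    (hxinj : Function.Injective x) (hx2 : ∀ i, x i ^ 2 < 4 * (q : ℝ))
    (hx3 : ∀ i, (f.map (Int.castRingHom ℝ)).eval (x i) = 0) : f ∈ Weil q g := by
  classical
  refine ⟨hmon, hnd, fun z hz => ?_⟩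
  have hfc : ∀ j : Fin g, aeval ((x j : ℝ) : ℂ) f = 0 := by
    intro j
    have h1 : aeval ((x j : ℝ) : ℂ) f = ((aeval (x j) f : ℝ) : ℂ) := by
      have h6 := Polynomial.hom_eval₂ f (algebraMap ℤ ℝ) Complex.ofRealHom (x j)
      have h7 : Complex.ofRealHom.comp (algebraMap ℤ ℝ) = algebraMap ℤ ℂ := RingHom.ext_int _ _
      rw [h7] at h6
      exact h6.symm
    have h2 : aeval (x j) f = 0 := by
      have h3 := hx3 j
      rw [Polynomial.eval_map] at h3
      rw [Polynomial.aeval_def]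
      have h4 : algebraMap ℤ ℝ = Int.castRingHom ℝ := RingHom.ext_int _ _
      rw [h4]
      exact h3
    rw [h1, h2, Complex.ofReal_zero]
  have hne : f.map (algebraMap ℤ ℂ) ≠ 0 := (hmon.map _).ne_zero
  have hex : ∃ j, ((x j : ℝ) : ℂ) = z := by
    by_contra hno
    push Not at hno
    let s : Finset ℂ := insert z (Finset.univ.image fun j => ((x j : ℝ) : ℂ))
    have hs1 : s.card = g + 1 := by
      rw [Finset.card_insert_of_notMem, Finset.card_image_of_injective _ (fun i j h => hxinj (Complex.ofReal_injective h)),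
        Finset.card_univ, Fintype.card_fin]
      rw [Finset.mem_image]
      rintro ⟨j, -, hj⟩
      exact hno j hj
    have hs2 : s ⊆ (f.map (algebraMap ℤ ℂ)).roots.toFinset := by
      intro w hw
      rw [Multiset.mem_toFinset, Polynomial.mem_roots hne, Polynomial.IsRoot.def, Polynomial.eval_map_algebraMap]
      rcases Finset.mem_insert.1 hw with h | h
      · rw [h]
        exact hz
      · obtain ⟨j, -, hj⟩ := Finset.mem_image.1 h
        rw [← hj]
        exact hfc j
    have h1 := Finset.card_le_card hs2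
    have h2 := Multiset.toFinset_card_le (f.map (algebraMap ℤ ℂ)).roots
    have h3 := Polynomial.card_roots' (f.map (algebraMap ℤ ℂ))
    have h4 : (f.map (algebraMap ℤ ℂ)).natDegree ≤ g := (Polynomial.natDegree_map_le).trans hnd.le
    omega
  obtain ⟨j, hj⟩ := hex
  exact ⟨x j, hj, (hx2 j).le⟩

open Classical in
theorem line_card {q g : ℕ} (hg : 1 ≤ g) {h₀ : ℤ[X]} (h0 : h₀ ∈ Weil q g) :
    ∃ lo hi : ℤ, ∀ Q : ℤ[X] → Prop,
      ({h | h ∈ Strict q g ∧ pre g (g - 1) h = pre g (g - 1) h₀ ∧ Q h} : Set ℤ[X]).ncard =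
        ((Finset.Icc lo hi).filter (fun c : ℤ => Q (h₀ - C (h₀.coeff 0) + C c))).card := by
  obtain ⟨m, rfl⟩ : ∃ m, g = m + 1 := ⟨g - 1, by omega⟩
  obtain ⟨hmon, hnd, -⟩ := h0
  -- the line
  obtain ⟨H, hH⟩ : ∃ H : ℤ → ℤ[X], H = fun c => h₀ - C (h₀.coeff 0) + C c := ⟨_, rfl⟩
  have hHe : ∀ c, H c = h₀ + C (c - h₀.coeff 0) := by
    intro c
    rw [hH]
    simp only
    rw [C_sub]
    ring
  have hHd : ∀ c, (H c).natDegree = m + 1 := fun c => by rw [hHe, natDegree_add_C, hnd]
  have hHm : ∀ c, (H c).Monic := by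
    intro c
    rw [hHe]
    refine hmon.add_of_left ?_
    rw [degree_eq_natDegree hmon.ne_zero, hnd]
    exact degree_C_le.trans_lt (by exact_mod_cast Nat.succ_pos m)
  have hH0 : ∀ c, (H c).coeff 0 = c := by
    intro c
    rw [hHe, coeff_add, coeff_C_zero]
    ring
  have hHi : Function.Injective H := by
    intro c c' h
    rw [← hH0 c, h, hH0]
  have hHc : ∀ c i, i ≠ 0 → (H c).coeff i = h₀.coeff i := by
    intro c i hi
    rw [hHe, coeff_add, coeff_C_of_ne_zero hi, add_zero]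
  have hsq : ∀ x : ℝ, x ^ 2 < 4 * (q : ℝ) ↔ -(2 * Real.sqrt q) < x ∧ x < 2 * Real.sqrt q := by
    intro x
    have h1 : 4 * (q : ℝ) = (2 * Real.sqrt q) ^ 2 := by
      rw [mul_pow, Real.sq_sqrt (Nat.cast_nonneg q)]
      norm_num
    rw [h1, sq_lt_sq, abs_of_nonneg (a := 2 * Real.sqrt q) (by positivity), abs_lt]
  -- real polynomials
  obtain ⟨F, hF⟩ : ∃ F : ℝ[X], F = (h₀ - C (h₀.coeff 0)).map (Int.castRingHom ℝ) := ⟨_, rfl⟩
  have hHF : ∀ c : ℤ, (H c).map (Int.castRingHom ℝ) = F + C (c : ℝ) := by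
    intro c
    rw [hH, hF]
    simp only
    rw [Polynomial.map_add, Polynomial.map_C]
    rfl
  have hF0 : F = (H 0).map (Int.castRingHom ℝ) := by
    rw [hHF, Int.cast_zero, C_0, add_zero]
  have hFm : F.Monic := hF0 ▸ (hHm 0).map _
  have hFd : F.natDegree = m + 1 := by
    rw [hF0, (hHm 0).natDegree_map, hHd]
  have hstrict : ∀ c : ℤ, H c ∈ Strict q (m + 1) ↔ ∃ x : Fin (m + 1) → ℝ, StrictMono x ∧
      ∀ i, (-(2 * Real.sqrt q) < x i ∧ x i < 2 * Real.sqrt q) ∧ (F + C (c : ℝ)).eval (x i) = 0 := by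
    intro c
    constructor
    · rintro ⟨-, x, hx, hx'⟩
      exact ⟨x, hx, fun i => ⟨(hsq _).1 (hx' i).1, by rw [← hHF]; exact (hx' i).2⟩⟩
    · rintro ⟨x, hx, hx'⟩
      have h1 : ∀ i, x i ^ 2 < 4 * (q : ℝ) ∧ ((H c).map (Int.castRingHom ℝ)).eval (x i) = 0 := fun i =>
        ⟨(hsq _).2 (hx' i).1, by rw [hHF]; exact (hx' i).2⟩
      exact ⟨L1_weil (H c) (hHm c) (hHd c) x hx.injective (fun i => (h1 i).1) fun i => (h1 i).2, x, hx, h1⟩
  -- the set of the constants
  have hfin : {c : ℤ | H c ∈ Strict q (m + 1)}.Finite := by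
    refine Set.Finite.of_finite_image ((Weil_finite q (m + 1)).subset ?_) hHi.injOn
    rintro _ ⟨c, hc, rfl⟩
    exact hc.1
  obtain ⟨lo, hi, hlh⟩ : ∃ lo hi : ℤ, ∀ c, H c ∈ Strict q (m + 1) ↔ c ∈ Finset.Icc lo hi := by
    by_cases hne : hfin.toFinset.Nonempty
    · refine ⟨hfin.toFinset.min' hne, hfin.toFinset.max' hne, fun c => ⟨fun hc => ?_, fun hc => ?_⟩⟩
      · rw [Finset.mem_Icc]
        exact ⟨Finset.min'_le _ _ (hfin.mem_toFinset.2 hc), Finset.le_max' _ _ (hfin.mem_toFinset.2 hc)⟩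
      · rw [Finset.mem_Icc] at hc
        have h1 : H (hfin.toFinset.min' hne) ∈ Strict q (m + 1) :=
          hfin.mem_toFinset.1 (Finset.min'_mem _ hne)
        have h2 : H (hfin.toFinset.max' hne) ∈ Strict q (m + 1) :=
          hfin.mem_toFinset.1 (Finset.max'_mem _ hne)
        rw [hstrict] at h1 h2 ⊢
        exact L1_conv F hFd hFm (by exact_mod_cast hc.1) (by exact_mod_cast hc.2) h1 h2
    · refine ⟨1, 0, fun c => ⟨fun hc => ?_, fun hc => ?_⟩⟩
      · exact absurd ⟨c, hfin.mem_toFinset.2 hc⟩ hne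
      · rw [Finset.mem_Icc] at hc
        omega
  refine ⟨lo, hi, fun Q => ?_⟩
  have himg : ({h | h ∈ Strict q (m + 1) ∧ pre (m + 1) (m + 1 - 1) h = pre (m + 1) (m + 1 - 1) h₀ ∧ Q h} : Set ℤ[X]) =
      H '' ((Finset.Icc lo hi).filter (fun c : ℤ => Q (h₀ - C (h₀.coeff 0) + C c)) : Set ℤ) := by
    ext h
    constructor
    · rintro ⟨h1, h2, h3⟩
      have h4 : h = H (h.coeff 0) := by
        ext i
        rcases Nat.eq_zero_or_pos i with rfl | hi0
        · rw [hH0]
        · rw [hHc _ _ hi0.ne']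
          rcases Nat.lt_or_ge i (m + 1) with h5 | h5
          · have h6 := congrFun h2 ⟨m - i, by omega⟩
            unfold pre at h6
            simp only at h6
            have h7 : m + 1 - 1 - (m - i) = i := by omega
            rw [h7] at h6
            exact h6
          · rcases Nat.eq_or_lt_of_le h5 with h6 | h6
            · have e1 := h1.1.1.coeff_natDegree
              rw [h1.1.2.1] at e1
              have e2 := hmon.coeff_natDegree
              rw [hnd] at e2
              rw [← h6, e1, e2]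
            · rw [coeff_eq_zero_of_natDegree_lt (by rw [h1.1.2.1]; exact h6),
                coeff_eq_zero_of_natDegree_lt (by rw [hnd]; exact h6)]
      refine ⟨h.coeff 0, ?_, h4.symm⟩
      rw [Finset.coe_filter]
      refine ⟨(hlh _).1 (h4 ▸ h1), ?_⟩
      have h5 : h₀ - C (h₀.coeff 0) + C (h.coeff 0) = H (h.coeff 0) := by rw [hH]
      rw [h5, ← h4]
      exact h3
    · rintro ⟨c, hc, rfl⟩
      rw [Finset.coe_filter] at hc
      refine ⟨(hlh c).2 hc.1, ?_, ?_⟩
      · funext i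
        unfold pre
        refine hHc c _ ?_
        have := i.2
        omega
      · have h5 : h₀ - C (h₀.coeff 0) + C c = H c := by rw [hH]
        rw [← h5]
        exact hc.2
  rw [himg, Set.ncard_image_of_injective _ hHi, Set.ncard_coe_finset]

end TI
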