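import Pool.Agent.Lib.MP_021685_agTI.D2

/-! LEAF D3 (medium).  Turan's inequality (second moment).

PROOF.  `J = Icc lo hi`, `L = |J|`, `X_ℓ(c) = 1` if `Ex A D ℓ c` and `0` otherwise, `δ_ℓ = delt ℓ`, `σ = ∑_{ℓ ∈ P} δ_ℓ`.  `1/ℓ ≤ δ_ℓ ≤ 2/ℓ` (`ℓ ≥ 2`), so `S ≤ σ`.
`∑_{c ∈ J} (∑_ℓ X_ℓ(c) - σ)² = ∑_{ℓ,ℓ'} ∑_c X_ℓ X_ℓ' - 2σ ∑_ℓ ∑_c X_ℓ + σ² L`.
By `pair` (`ℓ ≠ ℓ'`) and `single`: `∑_{ℓ≠ℓ'} ∑_c X_ℓ X_ℓ' ≤ ∑_{ℓ≠ℓ'} (δ_ℓ δ_ℓ' L + 4 ℓ ℓ') ≤ σ² L + 4 Λ²`, `Λ = ∑_{ℓ ∈ P} ℓ ≤ y²` (distinct natural numbers `≤ y`); diagonal: `∑_ℓ ∑_c X_ℓ² = ∑_ℓ ∑_c X_ℓ ≤ σ L + 2Λ`; `-2σ ∑_ℓ ∑_c X_ℓ ≤ -2σ(σ L - 2Λ)`.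
Total `≤ σ L + 4Λ² + 2Λ + 4σΛ ≤ σ L + 10 y^4` (`σ ≤ ∑ 2/ℓ ≤ |P| ≤ y`, `y ≥ 1` if `P` is nonempty; `P` is nonempty since `S > 0`; `4y^4 + 2y² + 4 y y² ≤ 10 y^4`).
Every `c` with no `X_ℓ(c) = 1` contributes `σ²`, so their number is `≤ (σ L + 10 y^4)/σ² = L/σ + 10 y^4/σ² ≤ L/S + 10 y^4/S²`. -/

namespace TI

private theorem D3_delt {ℓ : ℕ} (h : 2 ≤ ℓ) : 1 / (ℓ : ℝ) ≤ delt ℓ ∧ delt ℓ ≤ 1 := by
  have h2 : (2 : ℝ) ≤ ℓ := by exact_mod_cast h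
  have h0 : (0 : ℝ) < ℓ := by linarith
  unfold delt
  constructor
  · rw [div_le_div_iff₀ h0 (by positivity)]
    nlinarith
  · rw [div_le_one (by positivity)]
    nlinarith [sq_nonneg ((ℓ : ℝ) - 1)]

open Classical in
private theorem D3_abs (J : Finset ℤ) (P : Finset ℕ) (E : ℕ → ℤ → Prop) (d : ℕ → ℝ) (y : ℝ)
    (hy1 : 1 ≤ y) (hPy : (P.card : ℝ) ≤ y) (hly : ∀ ℓ ∈ P, (ℓ : ℝ) ≤ y)
    (hd0 : ∀ ℓ ∈ P, 0 ≤ d ℓ) (hd1 : ∀ ℓ ∈ P, d ℓ ≤ 1)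
    (hs : ∀ ℓ ∈ P, |(((J.filter (fun c : ℤ => E ℓ c)).card : ℕ) : ℝ) - d ℓ * (J.card : ℝ)| ≤ 2 * ℓ)
    (hp : ∀ ℓ ∈ P, ∀ ℓ' ∈ P, ℓ ≠ ℓ' →
      |(((J.filter (fun c : ℤ => E ℓ c ∧ E ℓ' c)).card : ℕ) : ℝ) - d ℓ * d ℓ' * (J.card : ℝ)| ≤
        4 * ℓ * ℓ')
    {S : ℝ} (hS : 0 < S) (hS' : S ≤ ∑ ℓ ∈ P, d ℓ) :
    (((J.filter (fun c : ℤ => ∀ ℓ ∈ P, ¬ E ℓ c)).card : ℕ) : ℝ) ≤
      (J.card : ℝ) / S + 10 * y ^ 4 / S ^ 2 := by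
  set L : ℝ := (J.card : ℝ) with hL
  set σ : ℝ := ∑ ℓ ∈ P, d ℓ with hσ
  set X : ℕ → ℤ → ℝ := fun ℓ c => if E ℓ c then 1 else 0 with hX
  set Λ : ℝ := ∑ ℓ ∈ P, (ℓ : ℝ) with hΛ
  have hσ0 : 0 < σ := lt_of_lt_of_le hS hS'
  have hL0 : 0 ≤ L := by positivity
  have hΛ0 : 0 ≤ Λ := Finset.sum_nonneg (fun ℓ _ => by positivity)
  have hΛy : Λ ≤ y ^ 2 := by
    calc Λ ≤ ∑ ℓ ∈ P, y := Finset.sum_le_sum hly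
      _ = P.card * y := by rw [Finset.sum_const, nsmul_eq_mul]
      _ ≤ y * y := by gcongr
      _ = y ^ 2 := by ring
  have hσy : σ ≤ y := by
    calc σ ≤ ∑ ℓ ∈ P, (1 : ℝ) := Finset.sum_le_sum hd1
      _ = P.card := by simp
      _ ≤ y := hPy
  have hN1 : ∀ ℓ, ∑ c ∈ J, X ℓ c = (((J.filter (fun c : ℤ => E ℓ c)).card : ℕ) : ℝ) := by
    intro ℓ
    simp only [hX]
    rw [Finset.sum_boole]
  have hN2 : ∀ ℓ ℓ', ∑ c ∈ J, X ℓ c * X ℓ' c =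
      (((J.filter (fun c : ℤ => E ℓ c ∧ E ℓ' c)).card : ℕ) : ℝ) := by
    intro ℓ ℓ'
    rw [← Finset.sum_boole]
    apply Finset.sum_congr rfl
    intro c _
    simp only [hX]
    by_cases h1 : E ℓ c <;> by_cases h2 : E ℓ' c <;> simp [h1, h2]
  have hX2 : ∀ ℓ c, X ℓ c * X ℓ c = X ℓ c := by
    intro ℓ c
    simp only [hX]
    by_cases h1 : E ℓ c <;> simp [h1]
  -- the second moment
  have hV : ∑ c ∈ J, (∑ ℓ ∈ P, X ℓ c - σ) ^ 2 =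
      ∑ ℓ ∈ P, ∑ ℓ' ∈ P, ∑ c ∈ J, X ℓ c * X ℓ' c - 2 * σ * ∑ ℓ ∈ P, ∑ c ∈ J, X ℓ c + σ ^ 2 * L := by
    have h1 : ∀ c ∈ J, (∑ ℓ ∈ P, X ℓ c - σ) ^ 2 =
        ∑ ℓ ∈ P, ∑ ℓ' ∈ P, X ℓ c * X ℓ' c - 2 * σ * ∑ ℓ ∈ P, X ℓ c + σ ^ 2 := by
      intro c _
      rw [← Finset.sum_mul_sum]
      ring
    rw [Finset.sum_congr rfl h1, Finset.sum_add_distrib, Finset.sum_sub_distrib, Finset.sum_const,
      nsmul_eq_mul, ← Finset.mul_sum, Finset.sum_comm (s := J) (t := P),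
      Finset.sum_comm (s := J) (t := P)]
    have h2 : ∀ ℓ ∈ P, ∑ c ∈ J, ∑ ℓ' ∈ P, X ℓ c * X ℓ' c = ∑ ℓ' ∈ P, ∑ c ∈ J, X ℓ c * X ℓ' c := by
      intro ℓ _
      exact Finset.sum_comm
    rw [Finset.sum_congr rfl h2]
    ring
  have hA : ∑ ℓ ∈ P, ∑ ℓ' ∈ P, ∑ c ∈ J, X ℓ c * X ℓ' c ≤
      (∑ ℓ ∈ P, ∑ c ∈ J, X ℓ c) + σ ^ 2 * L + 4 * Λ ^ 2 := by
    have h1 : ∀ ℓ ∈ P, ∀ ℓ' ∈ P, ∑ c ∈ J, X ℓ c * X ℓ' c ≤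
        (if ℓ = ℓ' then ∑ c ∈ J, X ℓ c else 0) + d ℓ * d ℓ' * L + 4 * ((ℓ : ℝ) * ℓ') := by
      intro ℓ hℓ ℓ' hℓ'
      by_cases he : ℓ = ℓ'
      · subst he
        rw [if_pos rfl]
        have h3 : ∑ c ∈ J, X ℓ c * X ℓ c = ∑ c ∈ J, X ℓ c :=
          Finset.sum_congr rfl (fun c _ => hX2 ℓ c)
        rw [h3]
        have h4 : 0 ≤ d ℓ * d ℓ * L := mul_nonneg (mul_nonneg (hd0 ℓ hℓ) (hd0 ℓ hℓ)) hL0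
        have h5 : 0 ≤ 4 * ((ℓ : ℝ) * ℓ) := by positivity
        linarith
      · rw [if_neg he, hN2]
        have := (abs_le.1 (hp ℓ hℓ ℓ' hℓ' he)).2
        linarith
    calc _ ≤ ∑ ℓ ∈ P, ∑ ℓ' ∈ P, ((if ℓ = ℓ' then ∑ c ∈ J, X ℓ c else 0) + d ℓ * d ℓ' * L +
          4 * ((ℓ : ℝ) * ℓ')) :=
          Finset.sum_le_sum (fun ℓ hℓ => Finset.sum_le_sum (fun ℓ' hℓ' => h1 ℓ hℓ ℓ' hℓ'))
      _ = (∑ ℓ ∈ P, ∑ c ∈ J, X ℓ c) + σ ^ 2 * L + 4 * Λ ^ 2 := by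
          simp only [Finset.sum_add_distrib]
          congr 1
          · congr 1
            · apply Finset.sum_congr rfl
              intro ℓ hℓ
              rw [Finset.sum_ite_eq, if_pos hℓ]
            · rw [hσ, sq, Finset.sum_mul_sum, Finset.sum_mul]
              apply Finset.sum_congr rfl
              intro ℓ _
              rw [Finset.sum_mul]
          · rw [hΛ, sq, Finset.sum_mul_sum, Finset.mul_sum]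
            apply Finset.sum_congr rfl
            intro ℓ _
            rw [Finset.mul_sum]
  have hB1 : ∑ ℓ ∈ P, ∑ c ∈ J, X ℓ c ≤ σ * L + 2 * Λ := by
    calc _ ≤ ∑ ℓ ∈ P, (d ℓ * L + 2 * (ℓ : ℝ)) := by
          apply Finset.sum_le_sum
          intro ℓ hℓ
          rw [hN1]
          have := (abs_le.1 (hs ℓ hℓ)).2
          linarith
      _ = σ * L + 2 * Λ := by
          rw [Finset.sum_add_distrib, ← Finset.sum_mul, ← Finset.mul_sum]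
  have hB2 : σ * L - 2 * Λ ≤ ∑ ℓ ∈ P, ∑ c ∈ J, X ℓ c := by
    calc σ * L - 2 * Λ = ∑ ℓ ∈ P, (d ℓ * L - 2 * (ℓ : ℝ)) := by
          rw [Finset.sum_sub_distrib, ← Finset.sum_mul, ← Finset.mul_sum]
      _ ≤ _ := by
          apply Finset.sum_le_sum
          intro ℓ hℓ
          rw [hN1]
          have := (abs_le.1 (hs ℓ hℓ)).1
          linarith
  have hVle : ∑ c ∈ J, (∑ ℓ ∈ P, X ℓ c - σ) ^ 2 ≤ σ * L + 10 * y ^ 4 := by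
    rw [hV]
    have h1 : 2 * σ * (σ * L - 2 * Λ) ≤ 2 * σ * ∑ ℓ ∈ P, ∑ c ∈ J, X ℓ c :=
      mul_le_mul_of_nonneg_left hB2 (by positivity)
    have h2 : Λ ^ 2 ≤ y ^ 4 := by
      calc Λ ^ 2 ≤ (y ^ 2) ^ 2 := pow_le_pow_left₀ hΛ0 hΛy 2
        _ = y ^ 4 := by ring
    have h3 : σ * Λ ≤ y ^ 4 := by
      calc σ * Λ ≤ y * y ^ 2 := mul_le_mul hσy hΛy hΛ0 (by linarith)
        _ = y ^ 3 * 1 := by ring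
        _ ≤ y ^ 3 * y := by
          have : 0 ≤ y ^ 3 := by positivity
          exact mul_le_mul_of_nonneg_left hy1 this
        _ = y ^ 4 := by ring
    have h4 : y ^ 2 ≤ y ^ 4 := pow_le_pow_right₀ hy1 (by norm_num)
    nlinarith
  have hlow : σ ^ 2 * (((J.filter (fun c : ℤ => ∀ ℓ ∈ P, ¬ E ℓ c)).card : ℕ) : ℝ) ≤
      ∑ c ∈ J, (∑ ℓ ∈ P, X ℓ c - σ) ^ 2 := by
    calc _ = ∑ c ∈ J.filter (fun c : ℤ => ∀ ℓ ∈ P, ¬ E ℓ c), σ ^ 2 := by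
          rw [Finset.sum_const, nsmul_eq_mul]
          ring
      _ = ∑ c ∈ J.filter (fun c : ℤ => ∀ ℓ ∈ P, ¬ E ℓ c), (∑ ℓ ∈ P, X ℓ c - σ) ^ 2 := by
          apply Finset.sum_congr rfl
          intro c hc
          have hc2 := (Finset.mem_filter.1 hc).2
          have : ∑ ℓ ∈ P, X ℓ c = 0 := by
            apply Finset.sum_eq_zero
            intro ℓ hℓ
            simp only [hX]
            rw [if_neg (hc2 ℓ hℓ)]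
          rw [this]
          ring
      _ ≤ _ := Finset.sum_le_sum_of_subset_of_nonneg (Finset.filter_subset _ _)
          (fun c _ _ => sq_nonneg _)
  set B : ℝ := (((J.filter (fun c : ℤ => ∀ ℓ ∈ P, ¬ E ℓ c)).card : ℕ) : ℝ) with hB
  have hy4 : 0 ≤ 10 * y ^ 4 := by positivity
  have h1 : B ≤ L / σ + 10 * y ^ 4 / σ ^ 2 := by
    have h2 : L / σ + 10 * y ^ 4 / σ ^ 2 = (σ * L + 10 * y ^ 4) / σ ^ 2 := by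
      field_simp
    rw [h2, le_div_iff₀ (by positivity)]
    linarith
  have h3 : L / σ ≤ L / S := div_le_div_of_nonneg_left hL0 hS hS'
  have h4 : 10 * y ^ 4 / σ ^ 2 ≤ 10 * y ^ 4 / S ^ 2 :=
    div_le_div_of_nonneg_left hy4 (by positivity) (pow_le_pow_left₀ hS.le hS' 2)
  linarith

open Classical in
theorem turan (A D : ℤ) (P : Finset ℕ) (y : ℕ) (hP : ∀ ℓ ∈ P, ℓ.Prime ∧ Odd ℓ ∧ ¬ (ℓ : ℤ) ∣ D ∧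
    IsSquare ((D : ℤ) : ZMod ℓ) ∧ ℓ ≤ y) (lo hi : ℤ) {S : ℝ} (hS : 0 < S)
    (hS' : S ≤ ∑ ℓ ∈ P, (1 : ℝ) / ℓ) :
    ((((Finset.Icc lo hi).filter (fun c : ℤ => ∀ ℓ ∈ P, ¬ Ex A D ℓ c)).card : ℕ) : ℝ) ≤
      ((Finset.Icc lo hi).card : ℝ) / S + 10 * (y : ℝ) ^ 4 / S ^ 2 := by
  have hPne : P.Nonempty := by
    by_contra h
    rw [Finset.not_nonempty_iff_eq_empty] at h
    rw [h, Finset.sum_empty] at hS'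
    linarith
  obtain ⟨ℓ₀, hℓ₀⟩ := hPne
  have hy1 : 1 ≤ y := le_trans (hP ℓ₀ hℓ₀).1.one_lt.le (hP ℓ₀ hℓ₀).2.2.2.2
  have hcard : P.card ≤ y := by
    have hsub : P ⊆ Finset.Icc 1 y := by
      intro ℓ hℓ
      exact Finset.mem_Icc.2 ⟨(hP ℓ hℓ).1.one_lt.le, (hP ℓ hℓ).2.2.2.2⟩
    simpa using Finset.card_le_card hsub
  apply D3_abs (Finset.Icc lo hi) P (fun ℓ c => Ex A D ℓ c) delt (y : ℝ)
    (by exact_mod_cast hy1) (by exact_mod_cast hcard)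
    (fun ℓ hℓ => by exact_mod_cast (hP ℓ hℓ).2.2.2.2)
    (fun ℓ hℓ => le_trans (by positivity) (D3_delt (hP ℓ hℓ).1.two_le).1)
    (fun ℓ hℓ => (D3_delt (hP ℓ hℓ).1.two_le).2)
    (fun ℓ hℓ => ?_) (fun ℓ hℓ ℓ' hℓ' hne => ?_) hS
    (hS'.trans (Finset.sum_le_sum (fun ℓ hℓ => (D3_delt (hP ℓ hℓ).1.two_le).1)))
  · obtain ⟨a, b, c, d, -⟩ := hP ℓ hℓ
    exact single A D a b c d lo hi
  · obtain ⟨a, b, c, d, -⟩ := hP ℓ hℓ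
    obtain ⟨a', b', c', d', -⟩ := hP ℓ' hℓ'
    exact pair A D hne a b c d a' b' c' d' lo hi

end TI
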