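import Pool.Agent.Lib.MP_021685_agTI.E1

/-! LEAF E3 (easy+).  The excluded primes of a line.

PROOF.  `s = √q`.  Let `E` be as in `sep_integer` and `B = evB q h ≠ 0`, `Z` = the set of primes dividing `E * B` (`Nat.primeFactors` of the absolute value).  `2^|Z| ≤ ∏_{ℓ ∈ Z} ℓ ≤ |E B|`.  `|E| ≤ (12 s)^(2g²)`.  `4 s B = h(2s) - h(-2s)` (`aeval_eq` over `ℝ`), `|h(±2s)| ≤ (4s)^g` (roots in `[-2s, 2s]`),
so `|B| ≤ 2 (4s)^g/(4s) ≤ (4s)^g ≤ (12 s)^(g²)` (`s ≥ 1`).  So `|Z| log 2 ≤ 3 g² log(12 s)` and `K = 3 log(12 √q)/log 2` works. -/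

namespace TI

open Polynomial

/-- the values at the end points -/
private theorem E3_eval {q g : ℕ} {h : ℤ[X]} (hh : h ∈ Weil q g) (m : ℝ) (hm : |m| ≤ 2 * Real.sqrt q) :
    |aeval m h| ≤ (4 * Real.sqrt q) ^ g := by
  obtain ⟨h1, h2, h3⟩ := hh
  set H : ℂ[X] := h.map (Int.castRingHom ℂ) with hH
  have hHm : H.Monic := h1.map _
  have hs : H.Splits := IsAlgClosed.splits H
  have hcard : Multiset.card H.roots = g := by
    rw [← hs.natDegree_eq_card_roots, hH, h1.natDegree_map, h2]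
  have hroot : ∀ z ∈ H.roots, ‖(m : ℂ) - z‖ ≤ 4 * Real.sqrt q := by
    intro z hz
    have hz1 : aeval z h = 0 := by
      have hz2 := (mem_roots hHm.ne_zero).1 hz
      rw [IsRoot.def, hH, eval_map] at hz2
      rw [aeval_def]
      exact hz2
    obtain ⟨x, hx, hxq⟩ := h3 z hz1
    have h4 : |x| ≤ 2 * Real.sqrt q := by
      have h5 : x ^ 2 ≤ (2 * Real.sqrt q) ^ 2 := by
        rw [mul_pow, Real.sq_sqrt (Nat.cast_nonneg q)]
        linarith
      exact abs_le_of_sq_le_sq h5 (by positivity)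
    rw [← hx, ← Complex.ofReal_sub, Complex.norm_real, Real.norm_eq_abs]
    refine (abs_sub m x).trans ?_
    linarith
  have hev : ((aeval m h : ℝ) : ℂ) = (H.roots.map fun z => (m : ℂ) - z).prod := by
    have h4 : ((aeval m h : ℝ) : ℂ) = H.eval (m : ℂ) := by
      rw [hH, eval_map, aeval_def, ← Complex.ofRealHom_eq_coe, hom_eval₂]
      congr 1
    rw [h4]
    conv_lhs => rw [hs.eq_prod_roots_of_monic hHm]
    rw [eval_multiset_prod, Multiset.map_map]
    congr 1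
    refine Multiset.map_congr rfl fun z _ => ?_
    simp
  have hnorm : |aeval m h| = (H.roots.map fun z => ‖(m : ℂ) - z‖).prod := by
    rw [← Real.norm_eq_abs, ← Complex.norm_real, hev]
    have h4 := map_multiset_prod (normHom : ℂ →*₀ ℝ) (H.roots.map fun z => (m : ℂ) - z)
    rw [Multiset.map_map] at h4
    exact h4
  rw [hnorm]
  have h5 := Multiset.prod_map_le_prod_map₀ (s := H.roots) (fun z => ‖(m : ℂ) - z‖) (fun _ => 4 * Real.sqrt q)
    (fun _ _ => norm_nonneg _) hroot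
  refine h5.trans (le_of_eq ?_)
  rw [Multiset.map_const', Multiset.prod_replicate, hcard]

theorem excluded (q : ℕ) (hq : 1 ≤ q) : ∃ K : ℝ, 0 ≤ K ∧ ∀ g : ℕ, 2 ≤ g → ∀ h ∈ Weil q g, OKline q h →
    ∃ Z : Finset ℕ, (Z.card : ℝ) ≤ K * (g : ℝ) ^ 2 ∧ ∀ ℓ : ℕ, ℓ.Prime → ℓ ∉ Z →
      ¬ (ℓ : ℤ) ∣ evB q h ∧ ∀ c : ℤ, (ℓ : ℤ) ∣ resq q (h + C c) →
        ((h + C c).map (Int.castRingHom (ZMod ℓ))).Separable := by
  have hs1 : 1 ≤ Real.sqrt q := by
    rw [Real.one_le_sqrt]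
    exact_mod_cast hq
  have hs0 : 0 < Real.sqrt q := by linarith
  have hlog2 : 0 < Real.log 2 := Real.log_pos (by norm_num)
  have hlog12 : 0 ≤ Real.log (12 * Real.sqrt q) := Real.log_nonneg (by linarith)
  refine ⟨3 * Real.log (12 * Real.sqrt q) / Real.log 2, by positivity, fun g hg h hh hok => ?_⟩
  obtain ⟨hB, hS1, hS2⟩ := hok
  obtain ⟨E, hE0, hEb, hEs⟩ := sep_integer hq hg hh hS1 hS2
  have hEB : E * evB q h ≠ 0 := mul_ne_zero hE0 hB
  have hEBn : (E * evB q h).natAbs ≠ 0 := Int.natAbs_ne_zero.2 hEB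
  refine ⟨(E * evB q h).natAbs.primeFactors, ?_, ?_⟩
  · -- the bound of `B`
    have hsq : (2 * Real.sqrt q) ^ 2 = 4 * (q : ℝ) := by
      rw [mul_pow, Real.sq_sqrt (Nat.cast_nonneg q)]
      norm_num
    have hsq' : (-(2 * Real.sqrt q)) ^ 2 = 4 * (q : ℝ) := by rw [neg_sq, hsq]
    have e1 := aeval_eq q h (2 * Real.sqrt q) hsq
    have e2 := aeval_eq q h (-(2 * Real.sqrt q)) hsq'
    have e3 := E3_eval hh (2 * Real.sqrt q) (by rw [abs_of_nonneg (by positivity)])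
    have e4 := E3_eval hh (-(2 * Real.sqrt q)) (by rw [abs_neg, abs_of_nonneg (by positivity)])
    have hBb : |((evB q h : ℤ) : ℝ)| ≤ (4 * Real.sqrt q) ^ g := by
      have e5 : 4 * Real.sqrt q * ((evB q h : ℤ) : ℝ) = aeval (2 * Real.sqrt q) h - aeval (-(2 * Real.sqrt q)) h := by
        rw [e1, e2]
        ring
      have e6 : 4 * Real.sqrt q * |((evB q h : ℤ) : ℝ)| ≤ 2 * (4 * Real.sqrt q) ^ g := by
        calc 4 * Real.sqrt q * |((evB q h : ℤ) : ℝ)| = |4 * Real.sqrt q * ((evB q h : ℤ) : ℝ)| := by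
              rw [abs_mul, abs_of_nonneg (by positivity : (0 : ℝ) ≤ 4 * Real.sqrt q)]
          _ ≤ |aeval (2 * Real.sqrt q) h| + |aeval (-(2 * Real.sqrt q)) h| := by
              rw [e5]
              exact abs_sub _ _
          _ ≤ 2 * (4 * Real.sqrt q) ^ g := by linarith
      have e7 : 2 * |((evB q h : ℤ) : ℝ)| ≤ 4 * Real.sqrt q * |((evB q h : ℤ) : ℝ)| :=
        mul_le_mul_of_nonneg_right (by linarith) (abs_nonneg _)
      linarith
    have h12 : (1 : ℝ) ≤ 12 * Real.sqrt q := by linarith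
    have hB2 : |((evB q h : ℤ) : ℝ)| ≤ (12 * Real.sqrt q) ^ (g ^ 2) := by
      refine hBb.trans ((pow_le_pow_left₀ (by positivity) (by linarith) g).trans
        (pow_le_pow_right₀ h12 ?_))
      nlinarith
    have hprod : (((E * evB q h).natAbs : ℕ) : ℝ) ≤ (12 * Real.sqrt q) ^ (3 * g ^ 2) := by
      have e5 : (((E * evB q h).natAbs : ℕ) : ℝ) = |(E : ℝ)| * |((evB q h : ℤ) : ℝ)| := by
        rw [Nat.cast_natAbs, Int.cast_abs, Int.cast_mul, abs_mul]
      rw [e5]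
      calc |(E : ℝ)| * |((evB q h : ℤ) : ℝ)| ≤ (12 * Real.sqrt q) ^ (2 * g ^ 2) * (12 * Real.sqrt q) ^ (g ^ 2) :=
            mul_le_mul hEb hB2 (abs_nonneg _) (by positivity)
        _ = (12 * Real.sqrt q) ^ (3 * g ^ 2) := by
            rw [← pow_add]
            congr 1
            ring
    have h2 : 2 ^ (E * evB q h).natAbs.primeFactors.card ≤ (E * evB q h).natAbs := by
      refine le_trans ?_ (Nat.le_of_dvd (Nat.pos_of_ne_zero hEBn) (Nat.prod_primeFactors_dvd _))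
      exact Finset.pow_card_le_prod _ _ _ fun p hp => (Nat.prime_of_mem_primeFactors hp).two_le
    have h3 : (2 : ℝ) ^ (E * evB q h).natAbs.primeFactors.card ≤ (12 * Real.sqrt q) ^ (3 * g ^ 2) := by
      refine le_trans ?_ hprod
      exact_mod_cast h2
    have h4 := Real.log_le_log (by positivity) h3
    rw [Real.log_pow, Real.log_pow] at h4
    rw [div_mul_eq_mul_div, le_div_iff₀ hlog2]
    refine h4.trans (le_of_eq ?_)
    push_cast
    ring
  · intro ℓ hℓ hZ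
    have h1 : ¬ (ℓ : ℤ) ∣ E * evB q h := by
      intro hd
      exact hZ (Nat.mem_primeFactors.2 ⟨hℓ, Int.natCast_dvd.1 hd, hEBn⟩)
    refine ⟨fun hd => h1 (Dvd.dvd.mul_left hd E), hEs ℓ hℓ fun hd => h1 (Dvd.dvd.mul_right hd _)⟩

end TI
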