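import Pool.Agent.Lib.MP_021685_agTI.TDefs

/-! Definitions for block A: the Levinson recursion.

For a sequence `σ` of real numbers (moments `σ k = ∑ w ^ k` of a finite set of points of the unit circle stable under conjugation)
`lp σ k` is a monic polynomial of degree `k`, `lr σ k` its energy, `li σ k` the inner product of `X * lp σ k` and of the reversed polynomial.
`lp σ (k+1) = X * lp σ k - t * reversed (lp σ k)`, `t = li σ k / lr σ k`, `lr σ (k+1) = lr σ k - (li σ k) ^ 2 / lr σ k`. -/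

namespace TI

open Polynomial

/-- the bilinear expression `∑_{a,b ≤ k} p_a p_b σ(|a + b + 1 - k|)` -/
noncomputable def liOf (σ : ℕ → ℝ) (k : ℕ) (p : ℝ[X]) : ℝ :=
  ∑ a ∈ Finset.range (k + 1), ∑ b ∈ Finset.range (k + 1),
    p.coeff a * p.coeff b * σ (((a : ℤ) + b + 1 - k).natAbs)

/-- the Levinson recursion: polynomial and energy -/
noncomputable def lev (σ : ℕ → ℝ) : ℕ → ℝ[X] × ℝ
  | 0 => (1, σ 0)
  | (k + 1) =>
    (X * (lev σ k).1 - C (liOf σ k (lev σ k).1 / (lev σ k).2) * (lev σ k).1.reflect k,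
      (lev σ k).2 - (liOf σ k (lev σ k).1) ^ 2 / (lev σ k).2)

/-- the polynomial -/
noncomputable def lp (σ : ℕ → ℝ) (k : ℕ) : ℝ[X] := (lev σ k).1

/-- the energy -/
noncomputable def lr (σ : ℕ → ℝ) (k : ℕ) : ℝ := (lev σ k).2

/-- the inner product -/
noncomputable def li (σ : ℕ → ℝ) (k : ℕ) : ℝ := liOf σ k (lp σ k)

/-- the moments of the points `exp(± i θ_j)` -/
noncomputable def mom {g : ℕ} (θ : Fin g → ℝ) (k : ℕ) : ℝ := ∑ j, 2 * Real.cos (k * θ j)

/-- `θ` lists the angles of the roots `2√q cos θ_j` of `h` -/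
def IsAngles (q : ℕ) {g : ℕ} (h : ℤ[X]) (θ : Fin g → ℝ) : Prop :=
  h.map (Int.castRingHom ℝ) = ∏ j, (X - C (2 * Real.sqrt q * Real.cos (θ j)))

end TI
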