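import Pool.Agent.Lib.MP_021685_agTI.A0

/-! LEAF A1 (medium).  Energies are nonnegative and bound the inner products.

PROOF.  Put `w_j = exp(i θ_j)` and consider the finite family of `2g` points: `w_j` and `conj w_j`.  For a real polynomial `p` of degree `≤ k` let `E(p) = ∑_j (|p(w_j)|² + |p(conj w_j)|²) = 2 ∑_j |p(w_j)|²`
(`p` real, so `p(conj w) = conj (p w)`).  CLAIM, by induction on `k`: `p = lp σ k` has `natDegree ≤ k` and `E(p) = lr σ k` (so `lr σ k ≥ 0`).
`k = 0`: `p = 1`, `E = 2g = σ 0` (`cos 0 = 1`).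
STEP.  Let `p = lp σ k`, `r = p.reflect k` (`r_a = p_(k-a)`), `I = li σ k`, `ρ = lr σ k = E(p)`.
(1) for `|w| = 1`: `r(w) = w^k conj(p(w))` (`p` real, `Polynomial.eval` as a sum over `range (k+1)`, `Finset.sum_range_reflect`), so `|r(w)| = |p(w)|` and `E(r) = ρ`; also `E(X p) = ρ`.
(2) `∑_w (w p(w)) conj(r(w)) = ∑_w w p(w) w^(-k) p(w) = ∑_{a,b ≤ k} p_a p_b ∑_w w^(a+b+1-k) = ∑_{a,b} p_a p_b σ(|a+b+1-k|) = I` (sum over the `2g` points `w`; `∑_w w^n = ∑_j 2 cos(n θ_j) = mom θ |n|`, `cos` is even).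
(3) Cauchy-Schwarz: `|I| ≤ √(E(X p) E(r)) = ρ`.
(4) for real `t`: `E(X p - t r) = E(X p) - 2 t I + t² E(r) = ρ - 2 t I + t² ρ` (the cross term is real and equal to `I` by (2)); with `t = I / ρ`: if `ρ ≠ 0` this is `ρ - I²/ρ = lr σ (k+1)`; if `ρ = 0` then `I = 0` by (3),
`t = 0` and both sides are `0` (`x / 0 = 0`).  Degree: `X p` has degree `≤ k+1`, `r` has degree `≤ k`.
The statement is the claim and (3). -/

namespace TI

open Polynomial ComplexConjugate

private noncomputable def A1w (t : ℝ) : ℂ := Complex.exp (t * Complex.I)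

private lemma A1_norm (t : ℝ) : ‖A1w t‖ = 1 := Complex.norm_exp_ofReal_mul_I t

private lemma A1_conj_mul (t : ℝ) : conj (A1w t) * A1w t = 1 := by
  rw [← Complex.normSq_eq_conj_mul_self, Complex.normSq_eq_norm_sq, A1_norm]
  simp

private lemma A1_refl (t : ℝ) (k : ℕ) (p : ℝ[X]) (hp : p.natDegree ≤ k) :
    aeval (A1w t) (p.reflect k) = A1w t ^ k * conj (aeval (A1w t) p) := by
  have h1 : conj (A1w t) ≠ 0 := left_ne_zero_of_mul (a := conj (A1w t)) (b := A1w t) (by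
    rw [A1_conj_mul]
    exact one_ne_zero)
  let _ : Invertible (conj (A1w t)) := invertibleOfNonzero h1
  have h2 := eval₂_reflect_mul_pow (algebraMap ℝ ℂ) (conj (A1w t)) k p hp
  have h3 : ⅟ (conj (A1w t)) = A1w t := by
    rw [invOf_eq_inv]
    exact inv_eq_of_mul_eq_one_right (A1_conj_mul t)
  rw [h3] at h2
  have h4 : A1w t ^ k * conj (A1w t) ^ k = 1 := by
    rw [← mul_pow, mul_comm, A1_conj_mul, one_pow]
  rw [← aeval_conj, aeval_def, aeval_def, ← h2]
  calc eval₂ (algebraMap ℝ ℂ) (A1w t) (reflect k p)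
      = eval₂ (algebraMap ℝ ℂ) (A1w t) (reflect k p) * (A1w t ^ k * conj (A1w t) ^ k) := by
        rw [h4, mul_one]
    _ = _ := by ring

private lemma A1_re (t : ℝ) (n k : ℕ) :
    (A1w t ^ n * conj (A1w t) ^ k).re = Real.cos ((((n : ℤ) - k).natAbs : ℕ) * t) := by
  have h1 : A1w t ^ n * conj (A1w t) ^ k =
      Complex.exp ((((n : ℝ) - k) * t : ℝ) * Complex.I) := by
    unfold A1w
    rw [← Complex.exp_conj, ← Complex.exp_nat_mul, ← Complex.exp_nat_mul, ← Complex.exp_add]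
    refine congrArg Complex.exp ?_
    rw [map_mul, Complex.conj_I, Complex.conj_ofReal]
    push_cast
    ring
  rw [h1, Complex.exp_ofReal_mul_I_re]
  have h2 : ((((n : ℤ) - k).natAbs : ℕ) : ℝ) = |(n : ℝ) - k| := by
    rw [Nat.cast_natAbs]
    push_cast
    rfl
  rw [h2]
  rcases abs_choice ((n : ℝ) - k) with h | h
  · rw [h]
  · rw [h, neg_mul, Real.cos_neg]

private lemma A1_key (k : ℕ) (p : ℝ[X]) (hp : p.natDegree ≤ k) (t : ℝ) :
    ((A1w t * aeval (A1w t) p) * conj (aeval (A1w t) (p.reflect k))).re =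
      ∑ a ∈ Finset.range (k + 1), ∑ b ∈ Finset.range (k + 1),
        p.coeff a * p.coeff b * Real.cos ((((a : ℤ) + b + 1 - k).natAbs : ℕ) * t) := by
  rw [A1_refl t k p hp, map_mul, map_pow, Complex.conj_conj]
  have e : aeval (A1w t) p = ∑ a ∈ Finset.range (k + 1), (p.coeff a : ℂ) * A1w t ^ a := by
    rw [aeval_eq_sum_range' (Nat.lt_succ_of_le hp)]
    simp [Algebra.smul_def]
  have e2 : (A1w t * aeval (A1w t) p) * (conj (A1w t) ^ k * aeval (A1w t) p) =
      ∑ a ∈ Finset.range (k + 1), ∑ b ∈ Finset.range (k + 1),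
        ((p.coeff a * p.coeff b : ℝ) : ℂ) * (A1w t ^ (a + b + 1) * conj (A1w t) ^ k) := by
    have e3 : (A1w t * aeval (A1w t) p) * (conj (A1w t) ^ k * aeval (A1w t) p) =
      (A1w t * conj (A1w t) ^ k) * (aeval (A1w t) p * aeval (A1w t) p) := by ring
    rw [e3, e, Finset.sum_mul_sum, Finset.mul_sum]
    refine Finset.sum_congr rfl fun a _ => ?_
    rw [Finset.mul_sum]
    refine Finset.sum_congr rfl fun b _ => ?_
    push_cast
    ring
  rw [e2, Complex.re_sum]
  refine Finset.sum_congr rfl fun a _ => ?_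
  rw [Complex.re_sum]
  refine Finset.sum_congr rfl fun b _ => ?_
  rw [Complex.re_ofReal_mul, A1_re]
  have h5 : ((a + b + 1 : ℕ) : ℤ) = (a : ℤ) + b + 1 := by push_cast; ring
  rw [h5]

private lemma A1_li {g : ℕ} (θ : Fin g → ℝ) (k : ℕ) (p : ℝ[X]) (hp : p.natDegree ≤ k) :
    liOf (mom θ) k p = ∑ j, 2 * ((A1w (θ j) * aeval (A1w (θ j)) p) *
      conj (aeval (A1w (θ j)) (p.reflect k))).re := by
  unfold liOf mom
  calc _ = ∑ a ∈ Finset.range (k + 1), ∑ b ∈ Finset.range (k + 1), ∑ j : Fin g,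
        2 * (p.coeff a * p.coeff b * Real.cos ((((a : ℤ) + b + 1 - k).natAbs : ℕ) * θ j)) := by
        refine Finset.sum_congr rfl fun a _ => Finset.sum_congr rfl fun b _ => ?_
        rw [Finset.mul_sum]
        refine Finset.sum_congr rfl fun j _ => ?_
        ring
    _ = ∑ a ∈ Finset.range (k + 1), ∑ j : Fin g, ∑ b ∈ Finset.range (k + 1),
        2 * (p.coeff a * p.coeff b * Real.cos ((((a : ℤ) + b + 1 - k).natAbs : ℕ) * θ j)) :=
        Finset.sum_congr rfl fun a _ => Finset.sum_comm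
    _ = ∑ j : Fin g, ∑ a ∈ Finset.range (k + 1), ∑ b ∈ Finset.range (k + 1),
        2 * (p.coeff a * p.coeff b * Real.cos ((((a : ℤ) + b + 1 - k).natAbs : ℕ) * θ j)) :=
        Finset.sum_comm
    _ = _ := by
        refine Finset.sum_congr rfl fun j _ => ?_
        rw [A1_key k p hp, Finset.mul_sum]
        refine Finset.sum_congr rfl fun a _ => ?_
        rw [Finset.mul_sum]

private lemma A1_nr (t : ℝ) (k : ℕ) (p : ℝ[X]) (hp : p.natDegree ≤ k) :
    ‖aeval (A1w t) (p.reflect k)‖ = ‖aeval (A1w t) p‖ := by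
  rw [A1_refl t k p hp, norm_mul, norm_pow, A1_norm, one_pow, one_mul, Complex.norm_conj]

private lemma A1_abs {g : ℕ} (θ : Fin g → ℝ) (k : ℕ) (h1 : (lp (mom θ) k).natDegree ≤ k)
    (h2 : lr (mom θ) k = ∑ j, 2 * ‖aeval (A1w (θ j)) (lp (mom θ) k)‖ ^ 2) :
    |li (mom θ) k| ≤ lr (mom θ) k := by
  unfold li
  rw [A1_li θ k _ h1, h2]
  refine (Finset.abs_sum_le_sum_abs _ _).trans (Finset.sum_le_sum fun j _ => ?_)
  rw [abs_mul, abs_two]
  refine mul_le_mul_of_nonneg_left ?_ zero_le_two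
  refine (Complex.abs_re_le_norm _).trans ?_
  rw [norm_mul, norm_mul, A1_norm, one_mul, Complex.norm_conj, A1_nr _ _ _ h1, sq]

private lemma A1_sq (t : ℝ) (z r : ℂ) :
    ‖z - (t : ℂ) * r‖ ^ 2 = ‖z‖ ^ 2 + t ^ 2 * ‖r‖ ^ 2 - 2 * t * (z * conj r).re := by
  have h1 := Complex.normSq_sub z ((t : ℂ) * r)
  rw [Complex.normSq_eq_norm_sq, Complex.normSq_eq_norm_sq, Complex.normSq_eq_norm_sq, map_mul,
    Complex.conj_ofReal, norm_mul, mul_pow, Complex.norm_real, Real.norm_eq_abs, sq_abs] at h1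
  rw [h1, show z * ((t : ℂ) * conj r) = (t : ℂ) * (z * conj r) by ring, Complex.re_ofReal_mul]
  ring

private lemma A1_main {g : ℕ} (θ : Fin g → ℝ) (k : ℕ) :
    (lp (mom θ) k).natDegree ≤ k ∧
      lr (mom θ) k = ∑ j, 2 * ‖aeval (A1w (θ j)) (lp (mom θ) k)‖ ^ 2 := by
  induction k with
  | zero =>
    constructor
    · show (1 : ℝ[X]).natDegree ≤ 0
      simp
    · show mom θ 0 = ∑ j, 2 * ‖aeval (A1w (θ j)) (1 : ℝ[X])‖ ^ 2
      simp [mom]
  | succ k ih =>
    obtain ⟨ih1, ih2⟩ := ih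
    have hI := A1_abs θ k ih1 ih2
    have hli : li (mom θ) k = ∑ j, 2 * ((A1w (θ j) * aeval (A1w (θ j)) (lp (mom θ) k)) *
        conj (aeval (A1w (θ j)) ((lp (mom θ) k).reflect k))).re := A1_li θ k _ ih1
    have hp : lp (mom θ) (k + 1) = X * lp (mom θ) k -
        C (li (mom θ) k / lr (mom θ) k) * (lp (mom θ) k).reflect k := rfl
    have hr : lr (mom θ) (k + 1) = lr (mom θ) k - (li (mom θ) k) ^ 2 / lr (mom θ) k := rfl
    have hdr : ((lp (mom θ) k).reflect k).natDegree ≤ k := by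
      rw [natDegree_le_iff_coeff_eq_zero]
      intro N hN
      rw [coeff_reflect, revAt_eq_self_of_lt hN]
      exact coeff_eq_zero_of_natDegree_lt (lt_of_le_of_lt ih1 hN)
    obtain ⟨t, ht⟩ : ∃ t, t = li (mom θ) k / lr (mom θ) k := ⟨_, rfl⟩
    rw [← ht] at hp
    constructor
    · rw [hp]
      refine (natDegree_sub_le _ _).trans (max_le ?_ ?_)
      · refine natDegree_mul_le.trans ?_
        rw [natDegree_X]
        omega
      · exact (natDegree_C_mul_le _ _).trans (hdr.trans (Nat.le_succ k))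
    · have hterm : ∀ j, 2 * ‖aeval (A1w (θ j)) (lp (mom θ) (k + 1))‖ ^ 2 =
          (1 + t ^ 2) * (2 * ‖aeval (A1w (θ j)) (lp (mom θ) k)‖ ^ 2) -
          2 * t * (2 * ((A1w (θ j) * aeval (A1w (θ j)) (lp (mom θ) k)) *
            conj (aeval (A1w (θ j)) ((lp (mom θ) k).reflect k))).re) := by
        intro j
        rw [hp, map_sub, map_mul, map_mul, aeval_X, aeval_C, Complex.coe_algebraMap, A1_sq,
          A1_nr _ _ _ ih1, norm_mul, A1_norm, one_mul]
        ring
      have hs1 : ∑ j, (1 + t ^ 2) * (2 * ‖aeval (A1w (θ j)) (lp (mom θ) k)‖ ^ 2) =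
          (1 + t ^ 2) * lr (mom θ) k := by
        rw [ih2, Finset.mul_sum]
      have hs2 : ∑ j, 2 * t * (2 * ((A1w (θ j) * aeval (A1w (θ j)) (lp (mom θ) k)) *
            conj (aeval (A1w (θ j)) ((lp (mom θ) k).reflect k))).re) =
          2 * t * li (mom θ) k := by
        rw [hli, Finset.mul_sum]
      rw [Finset.sum_congr rfl fun j _ => hterm j, Finset.sum_sub_distrib, hs1, hs2, hr, ht]
      by_cases h0 : lr (mom θ) k = 0
      · have h1 : li (mom θ) k = 0 := by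
          rw [h0] at hI
          exact abs_eq_zero.1 (le_antisymm hI (abs_nonneg _))
        rw [h0, h1]
        simp
      · field_simp
        ring

theorem lev_energy {g : ℕ} (θ : Fin g → ℝ) (k : ℕ) :
    0 ≤ lr (mom θ) k ∧ |li (mom θ) k| ≤ lr (mom θ) k := by
  obtain ⟨h1, h2⟩ := A1_main θ k
  have h3 := A1_abs θ k h1 h2
  exact ⟨(abs_nonneg _).trans h3, h3⟩

end TI
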