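import Pool.Agent.Lib.MP_021685_agTI.A0

/-! LEAF A2 (easy).  The recursion uses only the moments seen so far.

PROOF.  (1) `lp σ k` is monic of degree `k` up to this: coefficient `k` is `1` and `natDegree ≤ k` (induction: coefficient `k+1` of `X * lp σ k` is the coefficient `k` of `lp σ k`, the reflected polynomial has degree `≤ k`).
(2) If `σ i = σ' i` for `i ≤ k` then `lev σ k = lev σ' k`: induction on `k`; `liOf σ (k-1) p` involves `σ(|a + b + 1 - (k-1)|)` with `a, b ≤ k - 1`, the argument is `≤ k`: `a + b + 1 - (k-1) ≤ k` and `≥ 1 - (k-1)`.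
(3) In `liOf σ k p` (with `p = lp σ k = lp σ' k`) the term `a = b = k` is `p_k p_k σ (k+1) = σ (k+1)`; all other terms have `a + b ≤ 2k - 1`, so `-(k-1) ≤ a + b + 1 - k ≤ k` and the argument of `σ` is at most `k`: they agree. -/

namespace TI

open Polynomial

private theorem A2_deg (σ : ℕ → ℝ) (k : ℕ) : (lev σ k).1.coeff k = 1 ∧ (lev σ k).1.natDegree ≤ k := by
  induction k with
  | zero =>
    constructor
    · simp [lev]
    · simp [lev]
  | succ k ih =>
    obtain ⟨h1, h2⟩ := ih
    rw [lev]
    constructor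
    · have h3 : (lev σ k).1.coeff (k + 1) = 0 := coeff_eq_zero_of_natDegree_lt (by omega)
      have h4 : ((lev σ k).1.reflect k).coeff (k + 1) = 0 := by
        rw [coeff_reflect, revAt_eq_self_of_lt (by omega), h3]
      rw [coeff_sub, coeff_X_mul, coeff_C_mul, h4, h1]
      ring
    · refine (natDegree_sub_le _ _).trans (max_le ?_ ?_)
      · refine natDegree_mul_le.trans ?_
        have := natDegree_X_le (R := ℝ)
        omega
      · refine (natDegree_C_mul_le _ _).trans ?_
        refine (natDegree_reflect_le ..).trans ?_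
        exact max_le (by omega) (by omega)

private theorem A2_liOf {σ σ' : ℕ → ℝ} {k : ℕ} (h : ∀ i ≤ k + 1, σ i = σ' i) (p : ℝ[X]) :
    liOf σ k p = liOf σ' k p := by
  unfold liOf
  refine Finset.sum_congr rfl fun a ha => Finset.sum_congr rfl fun b hb => ?_
  rw [Finset.mem_range] at ha hb
  rw [h _ (by omega)]

private theorem A2_lev {σ σ' : ℕ → ℝ} {k : ℕ} (h : ∀ i ≤ k, σ i = σ' i) : lev σ k = lev σ' k := by
  induction k with
  | zero =>
    rw [lev, lev, h 0 le_rfl]
  | succ k ih =>
    have h1 := ih fun i hi => h i (by omega)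
    rw [lev, lev, h1, A2_liOf h]

private theorem A2_last {σ σ' : ℕ → ℝ} {k : ℕ} (h : ∀ i ≤ k, σ i = σ' i) (p : ℝ[X]) (hp : p.coeff k = 1) :
    liOf σ k p - liOf σ' k p = σ (k + 1) - σ' (k + 1) := by
  unfold liOf
  rw [← Finset.sum_sub_distrib, Finset.sum_eq_single k]
  · rw [← Finset.sum_sub_distrib, Finset.sum_eq_single k]
    · rw [hp, show ((k : ℤ) + k + 1 - k).natAbs = k + 1 by omega]
      ring
    · intro b hb hbk
      rw [Finset.mem_range] at hb
      rw [h _ (by omega), sub_self]
    · intro h1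
      exact absurd (Finset.mem_range.2 (Nat.lt_succ_self k)) h1
  · intro a ha hak
    rw [← Finset.sum_sub_distrib]
    refine Finset.sum_eq_zero fun b hb => ?_
    rw [Finset.mem_range] at ha hb
    rw [h _ (by omega), sub_self]
  · intro h1
    exact absurd (Finset.mem_range.2 (Nat.lt_succ_self k)) h1

theorem lev_congr {σ σ' : ℕ → ℝ} {k : ℕ} (h : ∀ i ≤ k, σ i = σ' i) :
    lr σ k = lr σ' k ∧ li σ k - σ (k + 1) = li σ' k - σ' (k + 1) := by
  have h1 := A2_lev h
  constructor
  · rw [lr, lr, h1]
  · have h2 := A2_last h (lp σ' k) (A2_deg σ' k).1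
    have h3 : lp σ k = lp σ' k := by rw [lp, lp, h1]
    rw [li, li, h3]
    linarith

end TI
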