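import Pool.Agent.Lib.MP_021685_agTI.A0

/-! LEAF A3a (easy+).  The angles of a real Weil polynomial.

PROOF.  `h.map (Int.castRingHom ℂ)` splits over `ℂ`; every root is a real number `x` with `x² ≤ 4 q`, so `h.map (Int.castRingHom ℝ)` splits over `ℝ` (all complex roots, with multiplicity, are real: e.g. `Polynomial.splits` over `ℂ` and the
product `∏ (X - C (x_j : ℂ))` is the image of `∏ (X - C x_j)` under the injective map `ℝ[X] → ℂ[X]`).  It is monic of degree `g`, so it is `∏_{j : Fin g} (X - C (x j))` for a list of its `g` roots (multiset of cardinality `g` to a function on `Fin g`).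
With `q ≥ 1`: `|x j| ≤ 2√q`, put `θ j = arccos (x j / (2√q))`: `cos (θ j) = x j / (2√q)` (`Real.cos_arccos`). -/

namespace TI

open Polynomial

private theorem A3a_list {g : ℕ} {l : List ℝ} (hl : l.length = g) :
    ∃ x : Fin g → ℝ, (∀ j, x j ∈ l) ∧ ∏ j, (X - C (x j)) = (l.map fun a => (X - C a : ℝ[X])).prod := by
  subst hl
  refine ⟨fun j => l.get j, fun j => l.get_mem j, ?_⟩
  rw [← List.prod_ofFn]
  have h1 : (List.ofFn fun j : Fin l.length => (X - C (l.get j) : ℝ[X])) =
      (List.ofFn l.get).map fun a => (X - C a : ℝ[X]) := by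
    rw [List.map_ofFn]
    rfl
  exact (congrArg List.prod h1).trans (by rw [List.ofFn_get])

theorem exists_angles {q g : ℕ} (hq : 1 ≤ q) {h : ℤ[X]} (hh : h ∈ Weil q g) :
    ∃ θ : Fin g → ℝ, IsAngles q h θ := by
  obtain ⟨hm, hdeg, hroots⟩ := hh
  have hHm : (h.map (Int.castRingHom ℂ)).Monic := hm.map _
  have hHd : (h.map (Int.castRingHom ℂ)).natDegree = g := by rw [hm.natDegree_map, hdeg]
  have hsp : (h.map (Int.castRingHom ℂ)).Splits := IsAlgClosed.splits _
  have hcard : Multiset.card (h.map (Int.castRingHom ℂ)).roots = g := by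
    rw [← hHd, hsp.natDegree_eq_card_roots]
  have hprod : ((h.map (Int.castRingHom ℂ)).roots.map fun a => (X - C a : ℂ[X])).prod =
      h.map (Int.castRingHom ℂ) := (hsp.eq_prod_roots_of_monic hHm).symm
  have hre : ∀ z ∈ (h.map (Int.castRingHom ℂ)).roots, ((z.re : ℝ) : ℂ) = z ∧
      z.re ^ 2 ≤ 4 * (q : ℝ) := by
    intro z hz
    have h1 : IsRoot (h.map (Int.castRingHom ℂ)) z := (mem_roots'.1 hz).2
    have h2 : aeval z h = 0 := by
      rw [IsRoot, eval_map] at h1
      rw [aeval_def]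
      exact h1
    obtain ⟨x, hx, hx2⟩ := hroots z h2
    have h3 : z.re = x := by rw [← hx, Complex.ofReal_re]
    rw [h3]
    exact ⟨hx, hx2⟩
  obtain ⟨l, hl⟩ : ∃ l : List ℝ, (l : Multiset ℝ) =
      (h.map (Int.castRingHom ℂ)).roots.map Complex.re := ⟨_, Multiset.coe_toList _⟩
  have hlen : l.length = g := by
    have h1 := congrArg Multiset.card hl
    rw [Multiset.coe_card, Multiset.card_map, hcard] at h1
    exact h1
  obtain ⟨x, hxl, hx⟩ := A3a_list hlen
  have hxb : ∀ j, x j ^ 2 ≤ 4 * (q : ℝ) := by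
    intro j
    have h1 : x j ∈ (l : Multiset ℝ) := Multiset.mem_coe.2 (hxl j)
    rw [hl, Multiset.mem_map] at h1
    obtain ⟨z, hz, hzx⟩ := h1
    rw [← hzx]
    exact (hre z hz).2
  have hR : h.map (Int.castRingHom ℝ) = ∏ j, (X - C (x j)) := by
    apply Polynomial.map_injective (algebraMap ℝ ℂ) (algebraMap ℝ ℂ).injective
    have e1 : (h.map (Int.castRingHom ℝ)).map (algebraMap ℝ ℂ) = h.map (Int.castRingHom ℂ) := by
      rw [Polynomial.map_map]
      congr 1
    rw [e1, hx, Polynomial.map_list_prod, List.map_map, ← hprod]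
    have e2 : (h.map (Int.castRingHom ℂ)).roots = (l : Multiset ℝ).map (fun r : ℝ => (r : ℂ)) := by
      rw [hl, Multiset.map_map]
      symm
      conv_rhs => rw [← Multiset.map_id (h.map (Int.castRingHom ℂ)).roots]
      exact Multiset.map_congr rfl fun z hz => (hre z hz).1
    rw [e2, Multiset.map_coe, Multiset.map_coe, Multiset.prod_coe, List.map_map]
    congr 1
    apply List.map_congr_left
    intro a _
    simp
  have hq0 : (0 : ℝ) < q := by exact_mod_cast hq
  have hs : 0 < Real.sqrt q := Real.sqrt_pos.2 hq0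
  refine ⟨fun j => Real.arccos (x j / (2 * Real.sqrt q)), ?_⟩
  unfold IsAngles
  rw [hR]
  refine Finset.prod_congr rfl fun j _ => ?_
  have h1 : (x j / (2 * Real.sqrt q)) ^ 2 ≤ 1 := by
    rw [div_pow, div_le_one (by positivity), mul_pow, Real.sq_sqrt hq0.le]
    have := hxb j
    linarith
  have h2 : -1 ≤ x j / (2 * Real.sqrt q) ∧ x j / (2 * Real.sqrt q) ≤ 1 :=
    abs_le.1 ((sq_le_one_iff_abs_le_one _).1 h1)
  have h3 : 2 * Real.sqrt q * Real.cos (Real.arccos (x j / (2 * Real.sqrt q))) = x j := by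
    rw [Real.cos_arccos h2.1 h2.2]
    field_simp
  show X - C (x j) = X - C (2 * Real.sqrt q * Real.cos (Real.arccos (x j / (2 * Real.sqrt q))))
  rw [h3]

end TI
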