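import Pool.Agent.Lib.MP_021685_agTI.A0

/-! LEAF A3b (medium).  Newton's identities in the variables `σ`.

PROOF.  Let `x_j = 2√q cos θ_j`, `p_n = ∑_j x_j^n`, `a_i = h.coeff (g - i)` (`a_0 = 1`), the same with dashes.  Newton's identity: for `1 ≤ n ≤ g`: `∑_{i=0}^{n-1} a_i p_(n-i) + n a_n = 0`
(Mathlib: `MvPolynomial.mul_esymm_eq_sum` or `MvPolynomial.psum`, evaluated at `x`; `a_i = (-1)^i e_i(x)`: `Multiset.prod_X_sub_C_coeff` / `MvPolynomial.prod_C_add_X...`; or by the derivative `f' = ∑_j f/(X - x_j)`).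
Assume `a_i = a'_i` for all `1 ≤ i ≤ k` (that is the hypothesis, `k < g`).  Then `p_n = p'_n` for `0 ≤ n ≤ k` by strong induction, and for `n = k + 1 ≤ g`: `p_(k+1) - p'_(k+1) = -(k+1)(a_(k+1) - a'_(k+1))`.
There are real polynomials `D_n(x)`, monic of degree `n` for `n ≥ 1`, with `D_n(2√q cos θ) = 2 (√q)^n cos(n θ)`: `D_0 = 2`, `D_1 = X`, `D_(n+2) = X D_(n+1) - q D_n` (`2 cos θ cos((n+1)θ) = cos((n+2)θ) + cos(nθ)`); one may use
`Polynomial.dickson 1 q n`.  So `(√q)^n mom θ n = ∑_j D_n(x_j) = p_n + (a combination of p_0, .., p_(n-1) with coefficients independent of the x_j)`, `p_0 = g`.  Hence `(√q)^n mom θ n = (√q)^n mom θ' n` for `n ≤ k` (then cancel `(√q)^n ≠ 0`)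
and `(√q)^(k+1) (mom θ (k+1) - mom θ' (k+1)) = p_(k+1) - p'_(k+1) = -(k+1)(a_(k+1) - a'_(k+1))`.  Note `a_(k+1) = h.coeff (g - 1 - k)`. -/

namespace TI

open Polynomial

/-- the power sums -/
private noncomputable def A3b_p {g : ℕ} (x : Fin g → ℝ) (n : ℕ) : ℝ := ∑ j, x j ^ n

/-- the signed elementary symmetric functions -/
private noncomputable def A3b_c {g : ℕ} (x : Fin g → ℝ) (i : ℕ) : ℝ :=
  (-1) ^ i * ∑ t ∈ Finset.powersetCard i (Finset.univ : Finset (Fin g)), ∏ j ∈ t, x j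

private theorem A3b_coeff {g : ℕ} (x : Fin g → ℝ) {i : ℕ} (hi : i ≤ g) :
    (∏ j, (X - C (x j))).coeff (g - i) = A3b_c x i := by
  have h1 : (∏ j, (X - C (x j)) : ℝ[X]) = ∏ j ∈ (Finset.univ : Finset (Fin g)), (X + C (-x j)) := by
    refine Finset.prod_congr rfl fun j _ => ?_
    rw [C_neg, sub_eq_add_neg]
  have hc : (Finset.univ : Finset (Fin g)).card = g := by simp
  rw [h1, Finset.prod_X_add_C_coeff _ _ (by rw [hc]; omega), hc, show g - (g - i) = i by omega]
  unfold A3b_c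
  rw [Finset.mul_sum]
  refine Finset.sum_congr rfl fun t ht => ?_
  rw [Finset.prod_neg, (Finset.mem_powersetCard.mp ht).2]

private theorem A3b_newton {g : ℕ} (x : Fin g → ℝ) (m : ℕ) :
    A3b_p x (m + 1) = -((m : ℝ) + 1) * A3b_c x (m + 1) - ∑ i ∈ Finset.range m, A3b_c x (i + 1) * A3b_p x (m - i) := by
  have h0 := congrArg (MvPolynomial.aeval x) (MvPolynomial.mul_esymm_eq_sum (Fin g) ℝ (m + 1))
  have hp : ∀ n, MvPolynomial.aeval x (MvPolynomial.psum (Fin g) ℝ n) = A3b_p x n := by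
    intro n
    simp [MvPolynomial.psum, A3b_p]
  have hE : ∀ n, (-1) ^ n * MvPolynomial.aeval x (MvPolynomial.esymm (Fin g) ℝ n) = A3b_c x n := by
    intro n
    simp [MvPolynomial.esymm, A3b_c]
  have h1 : MvPolynomial.aeval x (MvPolynomial.esymm (Fin g) ℝ (m + 1)) * ((m : ℝ) + 1) =
      (-1) ^ (m + 1 + 1) * ∑ a ∈ (Finset.HasAntidiagonal.antidiagonal (m + 1)).filter (fun a : ℕ × ℕ => a.1 < m + 1),
        A3b_c x a.1 * A3b_p x a.2 := by
    have h2 : MvPolynomial.aeval x (((m + 1 : ℕ) : MvPolynomial (Fin g) ℝ) * MvPolynomial.esymm (Fin g) ℝ (m + 1)) =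
        MvPolynomial.aeval x (MvPolynomial.esymm (Fin g) ℝ (m + 1)) * ((m : ℝ) + 1) := by
      rw [map_mul, map_natCast]
      push_cast
      ring
    rw [← h2, h0, map_mul, map_pow, map_neg, map_one, map_sum]
    congr 1
    refine Finset.sum_congr rfl fun a _ => ?_
    rw [map_mul, map_mul, map_pow, map_neg, map_one, hp, hE]
  have h3 : ∑ a ∈ (Finset.HasAntidiagonal.antidiagonal (m + 1)).filter (fun a : ℕ × ℕ => a.1 < m + 1), A3b_c x a.1 * A3b_p x a.2 =
      ∑ i ∈ Finset.range (m + 1), A3b_c x i * A3b_p x (m + 1 - i) := by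
    rw [Finset.sum_filter, Finset.Nat.sum_antidiagonal_eq_sum_range_succ
      (fun i j => if i < m + 1 then A3b_c x i * A3b_p x j else 0) (m + 1), Finset.sum_range_succ, if_neg (lt_irrefl _),
      add_zero]
    refine Finset.sum_congr rfl fun i hi => ?_
    rw [if_pos (Finset.mem_range.mp hi)]
  rw [h3, Finset.sum_range_succ'] at h1
  have h4 : A3b_c x 0 = 1 := by simp [A3b_c]
  have h5 : ∑ i ∈ Finset.range m, A3b_c x (i + 1) * A3b_p x (m + 1 - (i + 1)) =
      ∑ i ∈ Finset.range m, A3b_c x (i + 1) * A3b_p x (m - i) := by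
    refine Finset.sum_congr rfl fun i _ => ?_
    rw [show m + 1 - (i + 1) = m - i by omega]
  rw [h5, h4, Nat.sub_zero, one_mul] at h1
  have h6 : A3b_c x (m + 1) * ((m : ℝ) + 1) = -(∑ i ∈ Finset.range m, A3b_c x (i + 1) * A3b_p x (m - i) + A3b_p x (m + 1)) := by
    rw [← hE (m + 1), mul_assoc, h1, ← mul_assoc, ← pow_add]
    rw [show (m + 1 + (m + 1 + 1)) = 2 * (m + 1) + 1 by ring, pow_succ, pow_mul]
    norm_num
  linarith

private theorem A3b_eq {g k : ℕ} (x y : Fin g → ℝ) (h : ∀ i < k, A3b_c x (i + 1) = A3b_c y (i + 1)) :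
    ∀ n ≤ k, A3b_p x n = A3b_p y n := by
  intro n
  induction n using Nat.strong_induction_on with
  | _ n ih =>
    intro hn
    rcases n with _ | m
    · simp [A3b_p]
    · rw [A3b_newton, A3b_newton, h m (by omega)]
      congr 1
      refine Finset.sum_congr rfl fun i hi => ?_
      have := Finset.mem_range.mp hi
      rw [h i (by omega), ih (m - i) (by omega) (by omega)]

/-- the polynomials with `D_n(2 s cos t) = 2 s ^ n cos(n t)` -/
private noncomputable def A3b_D (s : ℝ) : ℕ → ℝ[X]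
  | 0 => C 2
  | 1 => X
  | (n + 2) => X * A3b_D s (n + 1) - C (s ^ 2) * A3b_D s n

private theorem A3b_D_eval (s t : ℝ) : ∀ n, (A3b_D s n).eval (2 * s * Real.cos t) = 2 * s ^ n * Real.cos (n * t) ∧
    (A3b_D s (n + 1)).eval (2 * s * Real.cos t) = 2 * s ^ (n + 1) * Real.cos (((n + 1 : ℕ) : ℝ) * t) := by
  intro n
  induction n with
  | zero => simp [A3b_D]
  | succ n ih =>
    refine ⟨ih.2, ?_⟩
    rw [A3b_D, eval_sub, eval_mul, eval_mul, eval_X, eval_C, ih.1, ih.2]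
    have h1 : (((n + 1 + 1 : ℕ) : ℝ) * t) = ((n + 1 : ℕ) : ℝ) * t + t := by push_cast; ring
    have h2 : ((n : ℝ) * t) = ((n + 1 : ℕ) : ℝ) * t - t := by push_cast; ring
    rw [h1, h2, Real.cos_add, Real.cos_sub]
    ring

private theorem A3b_D_deg (s : ℝ) : ∀ n, (A3b_D s n).natDegree ≤ n ∧ (A3b_D s (n + 1)).natDegree ≤ n + 1 := by
  intro n
  induction n with
  | zero =>
    refine ⟨?_, ?_⟩
    · rw [A3b_D]; simp
    · rw [A3b_D]; simp
  | succ n ih =>
    refine ⟨ih.2, ?_⟩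
    rw [A3b_D]
    refine (natDegree_sub_le _ _).trans (max_le ?_ ?_)
    · refine natDegree_mul_le.trans ?_
      have := ih.2
      have h1 : (X : ℝ[X]).natDegree ≤ 1 := natDegree_X_le
      omega
    · refine natDegree_mul_le.trans ?_
      have := ih.1
      have h1 : (C (s ^ 2) : ℝ[X]).natDegree = 0 := natDegree_C _
      omega

private theorem A3b_D_lead (s : ℝ) : ∀ n, (A3b_D s (n + 1)).coeff (n + 1) = 1 := by
  intro n
  induction n with
  | zero => rw [A3b_D]; simp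
  | succ n ih =>
    rw [A3b_D, coeff_sub, coeff_X_mul, ih, coeff_C_mul,
      coeff_eq_zero_of_natDegree_lt (lt_of_le_of_lt (A3b_D_deg s n).1 (by omega)), mul_zero, sub_zero]

private theorem A3b_mom {g : ℕ} (s : ℝ) (θ : Fin g → ℝ) (n : ℕ) :
    s ^ n * mom θ n = ∑ i ∈ Finset.range (n + 1), (A3b_D s n).coeff i * A3b_p (fun j => 2 * s * Real.cos (θ j)) i := by
  unfold mom A3b_p
  simp only [Finset.mul_sum]
  rw [Finset.sum_comm]
  refine Finset.sum_congr rfl fun j _ => ?_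
  rw [← eval_eq_sum_range' (lt_of_le_of_lt (A3b_D_deg s n).1 (by omega)), (A3b_D_eval s (θ j) n).1]
  ring

theorem newton {q g : ℕ} (hq : 1 ≤ q) {h h' : ℤ[X]} {θ θ' : Fin g → ℝ} (hθ : IsAngles q h θ)
    (hθ' : IsAngles q h' θ') {k : ℕ} (hk : k < g)
    (he : ∀ i < k, h.coeff (g - 1 - i) = h'.coeff (g - 1 - i)) :
    (∀ n ≤ k, mom θ n = mom θ' n) ∧
      Real.sqrt q ^ (k + 1) * (mom θ (k + 1) - mom θ' (k + 1)) =
        -((k : ℝ) + 1) * ((h.coeff (g - 1 - k) : ℝ) - (h'.coeff (g - 1 - k) : ℝ)) := by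
  set s : ℝ := Real.sqrt q with hs
  have hs0 : s ≠ 0 := by
    have : (0 : ℝ) < s := Real.sqrt_pos.mpr (by exact_mod_cast hq)
    exact this.ne'
  set x : Fin g → ℝ := fun j => 2 * s * Real.cos (θ j) with hx
  set y : Fin g → ℝ := fun j => 2 * s * Real.cos (θ' j) with hy
  have hcx : ∀ i < g, ((h.coeff (g - 1 - i) : ℤ) : ℝ) = A3b_c x (i + 1) := by
    intro i hi
    rw [← A3b_coeff x (show i + 1 ≤ g by omega), ← hθ, coeff_map, show g - (i + 1) = g - 1 - i by omega]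
    simp
  have hcy : ∀ i < g, ((h'.coeff (g - 1 - i) : ℤ) : ℝ) = A3b_c y (i + 1) := by
    intro i hi
    rw [← A3b_coeff y (show i + 1 ≤ g by omega), ← hθ', coeff_map, show g - (i + 1) = g - 1 - i by omega]
    simp
  have hc : ∀ i < k, A3b_c x (i + 1) = A3b_c y (i + 1) := by
    intro i hi
    rw [← hcx i (by omega), ← hcy i (by omega), he i hi]
  have hp := A3b_eq x y hc
  have hmom : ∀ n ≤ k, mom θ n = mom θ' n := by
    intro n hn
    have h1 : s ^ n * mom θ n = s ^ n * mom θ' n := by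
      rw [A3b_mom s θ n, A3b_mom s θ' n]
      refine Finset.sum_congr rfl fun i hi => ?_
      have := Finset.mem_range.mp hi
      rw [← hx, ← hy, hp i (by omega)]
    exact mul_left_cancel₀ (pow_ne_zero n hs0) h1
  refine ⟨hmom, ?_⟩
  have h2 : s ^ (k + 1) * mom θ (k + 1) - s ^ (k + 1) * mom θ' (k + 1) = A3b_p x (k + 1) - A3b_p y (k + 1) := by
    have hsp : ∀ z : Fin g → ℝ, ∑ i ∈ Finset.range (k + 1 + 1), (A3b_D s (k + 1)).coeff i * A3b_p z i =
        ∑ i ∈ Finset.range (k + 1), (A3b_D s (k + 1)).coeff i * A3b_p z i + A3b_p z (k + 1) := by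
      intro z
      rw [Finset.sum_range_succ, A3b_D_lead, one_mul]
    rw [A3b_mom s θ (k + 1), A3b_mom s θ' (k + 1), ← hx, ← hy, hsp, hsp]
    have h3 : ∑ i ∈ Finset.range (k + 1), (A3b_D s (k + 1)).coeff i * A3b_p x i =
        ∑ i ∈ Finset.range (k + 1), (A3b_D s (k + 1)).coeff i * A3b_p y i := by
      refine Finset.sum_congr rfl fun i hi => ?_
      have := Finset.mem_range.mp hi
      rw [hp i (by omega)]
    rw [h3]
    ring
  have h4 : A3b_p x (k + 1) - A3b_p y (k + 1) = -((k : ℝ) + 1) * (A3b_c x (k + 1) - A3b_c y (k + 1)) := by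
    rw [A3b_newton, A3b_newton]
    have h5 : ∑ i ∈ Finset.range k, A3b_c x (i + 1) * A3b_p x (k - i) =
        ∑ i ∈ Finset.range k, A3b_c y (i + 1) * A3b_p y (k - i) := by
      refine Finset.sum_congr rfl fun i hi => ?_
      have := Finset.mem_range.mp hi
      rw [hc i this, hp (k - i) (by omega)]
    rw [h5]
    ring
  rw [mul_sub, h2, h4, hcx k hk, hcy k hk]

end TI
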