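import Mathlib

/-! LEAF A5a (medium).  The integral `∫ (1 - t²)^m` and sums over arithmetic progressions.

PROOF.  `f(t) = (1 - t²)^m` on `[-1, 1]`.  (1) `β_m = ∫_{-1}^{1} (1 - t²)^m dt ≤ 2 / √(m+1)`: `β_0 = 2`, `β_m = β_(m-1) * 2m/(2m+1)` (integration by parts, or `t = cos x` and `integral_sin_pow_odd` / `integral_sin_pow`), and
`(2m/(2m+1))² ≤ m/(m+1)` because `4m²(m+1) ≤ m(2m+1)²`; induction.
(2) For `η > 0`, real `y`, and a finite set `B` of integers with `|η b - y| ≤ 1` for `b ∈ B`: `∑_{b ∈ B} f(η b - y) ≤ β_m / η + 1`.  Proof: `f` is even, increasing on `[-1, 0]`, decreasing on `[0, 1]`, `0 ≤ f ≤ 1`.  Let `u_b = η b - y`.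
For `b` with `u_b ≤ -η`... : if `u_b + η ≤ 0` then `η f(u_b) ≤ ∫_{u_b}^{u_b+η} f`; if `u_b - η ≥ 0` then `η f(u_b) ≤ ∫_{u_b-η}^{u_b} f`.  There are at most two `b` with `-η < u_b < η`; if exactly one, its term is `≤ 1`; if two, `b` and `b+1`, `-η < u_b ≤ 0 ≤ u_(b+1) < η`:
one of the two has the smaller value `f`, say (if `|u_b| ≥ |u_(b+1)|`) `f(u_b) ≤ f` on `[u_b, u_(b+1)]` (all points there have absolute value `≤ |u_b|`), an interval of length `η`, so `η f(u_b) ≤ ∫_{u_b}^{u_(b+1)} f`, and the other term is `≤ 1`.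
All the intervals used are essentially disjoint and inside `[-1, 1]`.  (A simpler way: let `b_0` be a member of `B` with `|u_b|` minimal, its term is `≤ 1`; for `b > b_0`: `u_b > 0`, `|u_(b-1)| ≤ u_b` so `f ≥ f(u_b)` on `[u_b - η, u_b]`, and for `b < b_0`
symmetrically `f ≥ f(u_b)` on `[u_b, u_b + η]`: indeed for `b > b_0` one has `u_b ≥ |u_(b_0)|`, so `u_b - η ≥ u_(b_0) ≥ -u_b`.  These intervals are `[u_(b-1), u_b]`, `b > b_0`, and `[u_b, u_(b+1)]`, `b < b_0`: disjoint, contained in `[-1, 1]` because `b_0`-side ends are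
inside and `|u_b| ≤ 1`.) -/

namespace TI

open intervalIntegral MeasureTheory

private theorem A5a_cont (m : ℕ) : Continuous fun t : ℝ => (1 - t ^ 2) ^ m := by
  fun_prop

private theorem A5a_int (m : ℕ) (a b : ℝ) :
    IntervalIntegrable (fun t : ℝ => (1 - t ^ 2) ^ m) volume a b :=
  (A5a_cont m).intervalIntegrable a b

private theorem A5a_rec (m : ℕ) : (2 * (m : ℝ) + 3) * ∫ t in (-1 : ℝ)..1, (1 - t ^ 2) ^ (m + 1) =
    (2 * (m : ℝ) + 2) * ∫ t in (-1 : ℝ)..1, (1 - t ^ 2) ^ m := by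
  have hd : ∀ t : ℝ, HasDerivAt (fun t : ℝ => t * (1 - t ^ 2) ^ (m + 1))
      ((2 * (m : ℝ) + 3) * (1 - t ^ 2) ^ (m + 1) - (2 * (m : ℝ) + 2) * (1 - t ^ 2) ^ m) t := by
    intro t
    have h1 : HasDerivAt (fun t : ℝ => 1 - t ^ 2) (-(2 * t)) t := by
      have := (hasDerivAt_pow 2 t).const_sub 1
      simpa using this
    have h2 := (hasDerivAt_id t).mul (h1.pow (m + 1))
    refine h2.congr_deriv ?_
    simp only [id, Nat.add_sub_cancel, Pi.pow_apply]
    push_cast
    ring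
  have h1 := integral_eq_sub_of_hasDerivAt (a := (-1 : ℝ)) (b := 1) (fun t _ => hd t)
    ((((A5a_cont (m + 1)).const_mul _).sub ((A5a_cont m).const_mul _)).intervalIntegrable _ _)
  rw [integral_sub (((A5a_int (m + 1) _ _).const_mul _)) ((A5a_int m _ _).const_mul _),
    intervalIntegral.integral_const_mul, intervalIntegral.integral_const_mul] at h1
  have h2 : (1 : ℝ) * (1 - 1 ^ 2) ^ (m + 1) - (-1) * (1 - (-1 : ℝ) ^ 2) ^ (m + 1) = 0 := by
    norm_num
  rw [h2] at h1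
  linarith

private theorem A5a_nonneg (m : ℕ) : 0 ≤ ∫ t in (-1 : ℝ)..1, (1 - t ^ 2) ^ m := by
  refine integral_nonneg (by norm_num) fun t ht => pow_nonneg ?_ m
  nlinarith [ht.1, ht.2]

private theorem A5a_sq (m : ℕ) :
    (∫ t in (-1 : ℝ)..1, (1 - t ^ 2) ^ m) ^ 2 * ((m : ℝ) + 1) ≤ 4 := by
  induction m with
  | zero => simp; norm_num
  | succ m ih =>
    have h1 := A5a_rec m
    set β := ∫ t in (-1 : ℝ)..1, (1 - t ^ 2) ^ m
    set γ := ∫ t in (-1 : ℝ)..1, (1 - t ^ 2) ^ (m + 1)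
    have hm : (0 : ℝ) ≤ m := Nat.cast_nonneg m
    push_cast
    have h2 : ((2 * (m : ℝ) + 3) * γ) ^ 2 = ((2 * (m : ℝ) + 2) * β) ^ 2 := by rw [h1]
    have h3 : (2 * (m : ℝ) + 3) ^ 2 * (γ ^ 2 * ((m : ℝ) + 1 + 1)) ≤ (2 * (m : ℝ) + 3) ^ 2 * 4 := by
      calc (2 * (m : ℝ) + 3) ^ 2 * (γ ^ 2 * ((m : ℝ) + 1 + 1))
          = ((2 * (m : ℝ) + 3) * γ) ^ 2 * ((m : ℝ) + 2) := by ring
        _ = ((2 * (m : ℝ) + 2) * β) ^ 2 * ((m : ℝ) + 2) := by rw [h2]
        _ = (β ^ 2 * ((m : ℝ) + 1)) * (4 * ((m : ℝ) + 1) * ((m : ℝ) + 2)) := by ring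
        _ ≤ 4 * (4 * ((m : ℝ) + 1) * ((m : ℝ) + 2)) :=
            mul_le_mul_of_nonneg_right ih (by positivity)
        _ ≤ (2 * (m : ℝ) + 3) ^ 2 * 4 := by nlinarith
    exact le_of_mul_le_mul_left h3 (by positivity)

private theorem A5a_beta (m : ℕ) :
    ∫ t in (-1 : ℝ)..1, (1 - t ^ 2) ^ m ≤ 2 / Real.sqrt ((m : ℝ) + 1) := by
  have hm : (0 : ℝ) < (m : ℝ) + 1 := by positivity
  rw [le_div_iff₀ (Real.sqrt_pos.2 hm)]
  refine le_of_sq_le_sq ?_ (by norm_num)
  rw [mul_pow, Real.sq_sqrt hm.le]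
  have := A5a_sq m
  linarith

private theorem A5a_right (m : ℕ) {η u : ℝ} (hη : 0 < η) (hu : -(u + η) ≤ u) (n : ℕ)
    (hn : u + n * η ≤ 1) :
    η * ∑ k ∈ Finset.range n, (1 - (u + ((k : ℝ) + 1) * η) ^ 2) ^ m ≤
      ∫ t in u..(u + n * η), (1 - t ^ 2) ^ m := by
  induction n with
  | zero => simp
  | succ n ih =>
    have hn' : u + n * η ≤ 1 := by
      push_cast at hn
      nlinarith
    have hnn : (0 : ℝ) ≤ n * η := by positivity
    have h1 := ih hn'
    rw [Finset.sum_range_succ, mul_add,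
      ← integral_add_adjacent_intervals (A5a_int m u (u + n * η))
        (A5a_int m (u + n * η) (u + (n + 1 : ℕ) * η))]
    refine add_le_add h1 ?_
    have h2 : η * (1 - (u + ((n : ℝ) + 1) * η) ^ 2) ^ m =
        ∫ _t in (u + n * η)..(u + (n + 1 : ℕ) * η), (1 - (u + ((n : ℝ) + 1) * η) ^ 2) ^ m := by
      rw [intervalIntegral.integral_const, smul_eq_mul]
      push_cast
      ring
    rw [h2]
    refine integral_mono_on (by push_cast; linarith) intervalIntegrable_const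
      (A5a_int m _ _) fun t ht => ?_
    obtain ⟨ht1, ht2⟩ := ht
    push_cast at ht2 hn
    have h3 : t ^ 2 ≤ (u + ((n : ℝ) + 1) * η) ^ 2 := by
      refine sq_le_sq' ?_ ht2
      nlinarith
    have h4 : (u + ((n : ℝ) + 1) * η) ^ 2 ≤ 1 := by
      have h5 : 0 ≤ u + ((n : ℝ) + 1) * η := by nlinarith
      nlinarith
    exact pow_le_pow_left₀ (by linarith) (by linarith) m

private theorem A5a_side (m : ℕ) {η u : ℝ} (hη : 0 < η) (hu : -(u + η) ≤ u) (hm1 : -1 ≤ u) (h1 : u ≤ 1) :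
    η * ∑ k ∈ Finset.range ⌊(1 - u) / η⌋₊, (1 - (u + ((k : ℝ) + 1) * η) ^ 2) ^ m ≤
      ∫ t in u..1, (1 - t ^ 2) ^ m := by
  have h2 : ((⌊(1 - u) / η⌋₊ : ℕ) : ℝ) ≤ (1 - u) / η := Nat.floor_le (div_nonneg (by linarith) hη.le)
  rw [le_div_iff₀ hη] at h2
  have h0 : (0 : ℝ) ≤ ((⌊(1 - u) / η⌋₊ : ℕ) : ℝ) * η := by positivity
  refine (A5a_right m hη hu _ (by linarith)).trans ?_
  rw [← integral_add_adjacent_intervals
    (A5a_int m u (u + ((⌊(1 - u) / η⌋₊ : ℕ) : ℝ) * η)) (A5a_int m _ 1)]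
  have h3 : 0 ≤ ∫ t in (u + ((⌊(1 - u) / η⌋₊ : ℕ) : ℝ) * η)..1, (1 - t ^ 2) ^ m := by
    refine integral_nonneg (by linarith) fun t ht => pow_nonneg ?_ m
    have h4 : t ≤ 1 := ht.2
    have h5 : -1 ≤ t := by
      have := ht.1
      linarith
    nlinarith
  linarith

theorem sum_one_sub_sq_pow_le (m : ℕ) {η : ℝ} (hη : 0 < η) (y : ℝ) (B : Finset ℤ)
    (hB : ∀ b ∈ B, |η * b - y| ≤ 1) :
    ∑ b ∈ B, (1 - (η * b - y) ^ 2) ^ m ≤ 2 / (η * Real.sqrt (m + 1)) + 1 := by
  classical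
  rcases B.eq_empty_or_nonempty with rfl | ⟨b1, hb1⟩
  · rw [Finset.sum_empty]
    positivity
  set b0 : ℤ := round (y / η) with hb0
  set u : ℝ := η * b0 - y with hu
  have hu1 : |u| ≤ η / 2 := by
    have h1 := abs_sub_round (y / η)
    have h2 : u = -(η * (y / η - round (y / η))) := by
      rw [hu, hb0]
      field_simp
      ring
    rw [h2, abs_neg, abs_mul, abs_of_pos hη]
    nlinarith
  have hu2 : |u| ≤ 1 := by
    have h1 := round_le (y / η) b1
    have h2 : u = -(η * (y / η - round (y / η))) := by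
      rw [hu, hb0]
      field_simp
      ring
    have h3 : η * b1 - y = -(η * (y / η - b1)) := by
      field_simp
      ring
    have h4 := hB b1 hb1
    rw [h3, abs_neg, abs_mul, abs_of_pos hη] at h4
    rw [h2, abs_neg, abs_mul, abs_of_pos hη]
    exact (mul_le_mul_of_nonneg_left h1 hη.le).trans h4
  obtain ⟨u3, u4⟩ := abs_le.1 hu1
  obtain ⟨u5, u6⟩ := abs_le.1 hu2
  have hF : ∀ b ∈ B, 0 ≤ (1 - (η * b - y) ^ 2) ^ m := by
    intro b hb
    refine pow_nonneg ?_ m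
    obtain ⟨h1, h2⟩ := abs_le.1 (hB b hb)
    nlinarith
  -- the part to the right
  have hR : ∑ b ∈ B.filter (fun b => b0 < b), (1 - (η * b - y) ^ 2) ^ m ≤
      ∑ k ∈ Finset.range ⌊(1 - u) / η⌋₊, (1 - (u + ((k : ℝ) + 1) * η) ^ 2) ^ m := by
    have e1 : ∑ k ∈ Finset.range ⌊(1 - u) / η⌋₊, (1 - (u + ((k : ℝ) + 1) * η) ^ 2) ^ m =
        ∑ b ∈ (Finset.range ⌊(1 - u) / η⌋₊).image (fun k : ℕ => b0 + ((k : ℤ) + 1)),
          (1 - (η * b - y) ^ 2) ^ m := by
      rw [Finset.sum_image fun a _ c _ h => by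
        have : (a : ℤ) = c := by linarith
        exact_mod_cast this]
      refine Finset.sum_congr rfl fun k _ => ?_
      rw [hu]
      push_cast
      congr 2
      ring
    rw [e1]
    refine Finset.sum_le_sum_of_subset_of_nonneg ?_ ?_
    · intro b hb
      obtain ⟨hbB, hlt⟩ := Finset.mem_filter.1 hb
      rw [Finset.mem_image]
      refine ⟨(b - b0 - 1).toNat, ?_, ?_⟩
      · rw [Finset.mem_range]
        have h1 : ((b - b0 - 1).toNat : ℤ) = b - b0 - 1 := Int.toNat_of_nonneg (by omega)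
        have h2 : ((b - b0 - 1).toNat : ℝ) = (b : ℝ) - b0 - 1 := by
          have := congrArg (fun z : ℤ => (z : ℝ)) h1
          push_cast at this
          exact this
        rw [← Nat.add_one_le_iff, Nat.le_floor_iff (div_nonneg (by linarith) hη.le),
          le_div_iff₀ hη]
        push_cast
        rw [h2, hu]
        have h3 := (abs_le.1 (hB b hbB)).2
        nlinarith
      · have h1 : ((b - b0 - 1).toNat : ℤ) = b - b0 - 1 := Int.toNat_of_nonneg (by omega)
        rw [h1]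
        ring
    · intro b hb _
      rw [Finset.mem_image] at hb
      obtain ⟨k, hk, rfl⟩ := hb
      rw [Finset.mem_range, ← Nat.add_one_le_iff,
        Nat.le_floor_iff (div_nonneg (by linarith) hη.le), le_div_iff₀ hη] at hk
      push_cast at hk ⊢
      have h1 : η * (b0 + ((k : ℝ) + 1)) - y = u + ((k : ℝ) + 1) * η := by
        rw [hu]
        ring
      rw [h1]
      refine pow_nonneg ?_ m
      have h2 : (0 : ℝ) ≤ k * η := by positivity
      have h3 : 0 ≤ u + ((k : ℝ) + 1) * η := by nlinarith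
      nlinarith
  -- the part to the left
  have hL : ∑ b ∈ B.filter (fun b => b < b0), (1 - (η * b - y) ^ 2) ^ m ≤
      ∑ k ∈ Finset.range ⌊(1 - (-u)) / η⌋₊, (1 - (-u + ((k : ℝ) + 1) * η) ^ 2) ^ m := by
    have e1 : ∑ k ∈ Finset.range ⌊(1 - (-u)) / η⌋₊, (1 - (-u + ((k : ℝ) + 1) * η) ^ 2) ^ m =
        ∑ b ∈ (Finset.range ⌊(1 - (-u)) / η⌋₊).image (fun k : ℕ => b0 - ((k : ℤ) + 1)),
          (1 - (η * b - y) ^ 2) ^ m := by
      rw [Finset.sum_image fun a _ c _ h => by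
        have : (a : ℤ) = c := by linarith
        exact_mod_cast this]
      refine Finset.sum_congr rfl fun k _ => ?_
      rw [hu]
      push_cast
      congr 1
      ring
    rw [e1]
    refine Finset.sum_le_sum_of_subset_of_nonneg ?_ ?_
    · intro b hb
      obtain ⟨hbB, hlt⟩ := Finset.mem_filter.1 hb
      rw [Finset.mem_image]
      refine ⟨(b0 - b - 1).toNat, ?_, ?_⟩
      · rw [Finset.mem_range]
        have h1 : ((b0 - b - 1).toNat : ℤ) = b0 - b - 1 := Int.toNat_of_nonneg (by omega)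
        have h2 : ((b0 - b - 1).toNat : ℝ) = (b0 : ℝ) - b - 1 := by
          have := congrArg (fun z : ℤ => (z : ℝ)) h1
          push_cast at this
          exact this
        rw [← Nat.add_one_le_iff, Nat.le_floor_iff (div_nonneg (by linarith) hη.le),
          le_div_iff₀ hη]
        push_cast
        rw [h2, hu]
        have h3 := (abs_le.1 (hB b hbB)).1
        nlinarith
      · have h1 : ((b0 - b - 1).toNat : ℤ) = b0 - b - 1 := Int.toNat_of_nonneg (by omega)
        rw [h1]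
        ring
    · intro b hb _
      rw [Finset.mem_image] at hb
      obtain ⟨k, hk, rfl⟩ := hb
      rw [Finset.mem_range, ← Nat.add_one_le_iff,
        Nat.le_floor_iff (div_nonneg (by linarith) hη.le), le_div_iff₀ hη] at hk
      push_cast at hk ⊢
      have h1 : η * (b0 - ((k : ℝ) + 1)) - y = -(-u + ((k : ℝ) + 1) * η) := by
        rw [hu]
        ring
      rw [h1, neg_sq]
      refine pow_nonneg ?_ m
      have h2 : (0 : ℝ) ≤ k * η := by positivity
      have h3 : 0 ≤ -u + ((k : ℝ) + 1) * η := by nlinarith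
      nlinarith
  have hC : ∑ b ∈ B.filter (fun b => b = b0), (1 - (η * b - y) ^ 2) ^ m ≤ 1 := by
    have h1 : ∑ b ∈ B.filter (fun b => b = b0), (1 - (η * b - y) ^ 2) ^ m ≤
        ∑ b ∈ ({b0} : Finset ℤ), (1 - (η * b - y) ^ 2) ^ m := by
      refine Finset.sum_le_sum_of_subset_of_nonneg ?_ ?_
      · intro b hb
        exact Finset.mem_singleton.2 (Finset.mem_filter.1 hb).2
      · intro b hb _
        rw [Finset.mem_singleton.1 hb, ← hu]
        exact pow_nonneg (by nlinarith) m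
    rw [Finset.sum_singleton, ← hu] at h1
    refine h1.trans (pow_le_one₀ (by nlinarith) (by nlinarith [sq_nonneg u]))
  have hsplit : ∑ b ∈ B, (1 - (η * b - y) ^ 2) ^ m =
      ∑ b ∈ B.filter (fun b => b0 < b), (1 - (η * b - y) ^ 2) ^ m +
      (∑ b ∈ B.filter (fun b => b < b0), (1 - (η * b - y) ^ 2) ^ m +
        ∑ b ∈ B.filter (fun b => b = b0), (1 - (η * b - y) ^ 2) ^ m) := by
    rw [← Finset.sum_filter_add_sum_filter_not B (fun b => b0 < b)]
    congr 1
    rw [← Finset.sum_filter_add_sum_filter_not (B.filter fun b => ¬ b0 < b) (fun b => b < b0),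
      Finset.filter_filter, Finset.filter_filter]
    congr 1
    · refine Finset.sum_congr (Finset.filter_congr fun b _ => ?_) fun _ _ => rfl
      constructor
      · exact fun h => h.2
      · exact fun h => ⟨not_lt.2 h.le, h⟩
    · refine Finset.sum_congr (Finset.filter_congr fun b _ => ?_) fun _ _ => rfl
      constructor
      · exact fun h => le_antisymm (not_lt.1 h.1) (not_lt.1 h.2)
      · rintro rfl
        exact ⟨lt_irrefl _, lt_irrefl _⟩
  have k1 := A5a_side m hη (u := u) (by linarith) u5 u6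
  have k2 := A5a_side m hη (u := -u) (by linarith) (by linarith) (by linarith)
  have k3 : ∫ t in (-u)..1, (1 - t ^ 2) ^ m = ∫ t in (-1)..u, (1 - t ^ 2) ^ m := by
    have h := integral_comp_neg (a := (-1 : ℝ)) (b := u) (fun t : ℝ => (1 - t ^ 2) ^ m)
    rw [neg_neg] at h
    rw [← h]
    refine integral_congr fun t _ => ?_
    simp only [neg_sq]
  have k4 : (∫ t in (-1)..u, (1 - t ^ 2) ^ m) + ∫ t in u..1, (1 - t ^ 2) ^ m =
      ∫ t in (-1 : ℝ)..1, (1 - t ^ 2) ^ m :=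
    integral_add_adjacent_intervals (A5a_int m _ _) (A5a_int m _ _)
  have k5 := A5a_beta m
  have k6 : η * (∑ b ∈ B.filter (fun b => b0 < b), (1 - (η * b - y) ^ 2) ^ m +
      ∑ b ∈ B.filter (fun b => b < b0), (1 - (η * b - y) ^ 2) ^ m) ≤
      2 / Real.sqrt ((m : ℝ) + 1) := by
    have h1 := mul_le_mul_of_nonneg_left hR hη.le
    have h2 := mul_le_mul_of_nonneg_left hL hη.le
    rw [mul_add]
    linarith
  have k7 : 2 / (η * Real.sqrt (m + 1)) = 2 / Real.sqrt ((m : ℝ) + 1) / η := by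
    rw [div_div, mul_comm]
  have k8 : ∑ b ∈ B.filter (fun b => b0 < b), (1 - (η * b - y) ^ 2) ^ m +
      ∑ b ∈ B.filter (fun b => b < b0), (1 - (η * b - y) ^ 2) ^ m ≤
      2 / (η * Real.sqrt (m + 1)) := by
    rw [k7, le_div_iff₀ hη, mul_comm]
    exact k6
  rw [hsplit]
  linarith

end TI
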