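import Pool.Agent.Lib.MP_021685_agTI.A1
import Pool.Agent.Lib.MP_021685_agTI.A2
import Pool.Agent.Lib.MP_021685_agTI.A3a
import Pool.Agent.Lib.MP_021685_agTI.A3b
import Pool.Agent.Lib.MP_021685_agTI.A6
import Pool.Agent.Lib.MP_021685_agTI.Fi

/-! LEAF A7 (medium).  The number of prefixes, and the number of elements of a line.

PROOF of `pre_card_le`.  `S = (Weil_finite q g).toFinset`.  For `h ∈ S` choose `θ_h` (`exists_angles`).  Apply `chain` with `n = k`, `a i h = h.coeff (g - 1 - i)`, `ρ i h = lr (mom θ_h) i`, `I i h = li (mom θ_h) i`, `c = 2g` (`lr σ 0 = σ 0 = mom θ 0 = 2 g`),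
`δ = √g`, `w i = (i+1)/(√q)^(i+1)`.  `hρ`, `hI`: `lev_energy`.  `hstep`: equality, the definition of `lev`.  `hloc` for `i < k ≤ g`: if the coefficients `0, .., i-1` of the prefix agree, `newton` (with `k := i`) gives `mom θ n = mom θ' n` for `n ≤ i`
and `(√q)^(i+1)(mom θ (i+1) - mom θ' (i+1)) = -(i+1)(a_i - a'_i)`; `lev_congr` gives `lr` equal and `li - mom (i+1)` equal, so `li θ i + w i a_i = li θ' i + w i a'_i`.
The image of `Weil q g` under `pre g k` is the image in `chain` (`pre g k h i = h.coeff (g-1-i)`); `Set.ncard` of the image of a finite set.  Finally `2/(w j √(k-j)) = 2 (√q)^(j+1)/((j+1) √(k-j))`.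
PROOF of `fiber_card_le`.  If `h, h' ∈ Weil q g` have the same first `g-1` coefficients, then with `k = g-1` above: `li θ k + w a = li θ' k + w a'`, `w = g/(√q)^g`, `a = h.coeff 0`; `|li| ≤ lr ≤ 2g` (`lr` is nonincreasing in `k`, `lr 0 = 2g`), so `|a - a'| ≤ 4g/w = 4 (√q)^g`.
So the integers `h.coeff 0` lie in an interval of length `4(√q)^g` (if the fiber is nonempty take its smallest member), at most `4 (√q)^g + 1` of them, and `h` is determined by its prefix and `h.coeff 0` (monic of degree `g`, `g ≥ 1`). -/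

namespace TI

open Polynomial

private theorem A7_zero {g : ℕ} (θ : Fin g → ℝ) : lr (mom θ) 0 = 2 * (g : ℝ) := by
  have h1 : lr (mom θ) 0 = mom θ 0 := rfl
  rw [h1, mom]
  simp [mul_comm]

private theorem A7_step (σ : ℕ → ℝ) (k : ℕ) : lr σ (k + 1) = lr σ k - li σ k ^ 2 / lr σ k := rfl

private theorem A7_le {g : ℕ} (θ : Fin g → ℝ) (k : ℕ) : lr (mom θ) k ≤ 2 * (g : ℝ) := by
  induction k with
  | zero => exact (A7_zero θ).le
  | succ k ih =>
    rw [A7_step]
    have h1 := (lev_energy θ k).1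
    have h2 : 0 ≤ li (mom θ) k ^ 2 / lr (mom θ) k := div_nonneg (sq_nonneg _) h1
    linarith

private theorem A7_loc {q g : ℕ} (hq : 1 ≤ q) {h h' : ℤ[X]} {θ θ' : Fin g → ℝ} (hθ : IsAngles q h θ)
    (hθ' : IsAngles q h' θ') {i : ℕ} (hi : i < g) (he : ∀ j < i, h.coeff (g - 1 - j) = h'.coeff (g - 1 - j)) :
    lr (mom θ) i = lr (mom θ') i ∧
      li (mom θ) i + ((i : ℝ) + 1) / Real.sqrt q ^ (i + 1) * (h.coeff (g - 1 - i) : ℝ) =
        li (mom θ') i + ((i : ℝ) + 1) / Real.sqrt q ^ (i + 1) * (h'.coeff (g - 1 - i) : ℝ) := by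
  obtain ⟨hm, hn⟩ := newton hq hθ hθ' hi he
  obtain ⟨h1, h2⟩ := lev_congr hm
  refine ⟨h1, ?_⟩
  have hs : 0 < Real.sqrt q ^ (i + 1) := by
    have h3 : (0 : ℝ) < q := by exact_mod_cast hq
    positivity
  generalize Real.sqrt q ^ (i + 1) = s at hn hs ⊢
  have h4 : mom θ (i + 1) - mom θ' (i + 1) = -(((i : ℝ) + 1) / s * ((h.coeff (g - 1 - i) : ℝ) - (h'.coeff (g - 1 - i) : ℝ))) := by
    rw [div_mul_eq_mul_div, ← neg_div, eq_div_iff hs.ne', mul_comm, hn]
    ring
  rw [mul_sub] at h4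
  linarith

theorem pre_card_le {q g k : ℕ} (hq : 1 ≤ q) (hg : 1 ≤ g) (hk : k ≤ g) :
    (((pre g k) '' Weil q g).ncard : ℝ) ≤ (2 * (g : ℝ) + Real.sqrt g) ^ k *
      ∏ j ∈ Finset.range k,
        (2 * Real.sqrt q ^ (j + 1) / (((j : ℝ) + 1) * Real.sqrt ((k : ℝ) - j)) + 1 / Real.sqrt g) := by
  classical
  have hang : ∀ h : ℤ[X], ∃ θ : Fin g → ℝ, h ∈ Weil q g → IsAngles q h θ := by
    intro h
    by_cases hh : h ∈ Weil q g
    · obtain ⟨θ, hθ⟩ := exists_angles hq hh
      exact ⟨θ, fun _ => hθ⟩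
    · exact ⟨0, fun h1 => absurd h1 hh⟩
  choose θ hθ using hang
  have hg0 : (0 : ℝ) < g := by exact_mod_cast hg
  have hq0 : (0 : ℝ) < q := by exact_mod_cast hq
  have hmem : ∀ h, h ∈ (Weil_finite q g).toFinset → h ∈ Weil q g := fun h hh => (Weil_finite q g).mem_toFinset.1 hh
  have key := chain (Weil_finite q g).toFinset k (fun i h => h.coeff (g - 1 - i)) (fun i h => lr (mom (θ h)) i)
    (fun i h => li (mom (θ h)) i) (c := 2 * (g : ℝ)) (δ := Real.sqrt g) (by positivity) (Real.sqrt_pos.2 hg0)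
    (fun i => ((i : ℝ) + 1) / Real.sqrt q ^ (i + 1)) (fun i => by positivity)
    (fun h _ => A7_zero _) (fun i _ h _ => (lev_energy _ _).1) (fun i _ h _ => (lev_energy _ _).2)
    (fun i _ h _ => (A7_step _ _).le)
    (fun i hi s hs t ht he => A7_loc hq (hθ s (hmem s hs)) (hθ t (hmem t ht)) (lt_of_lt_of_le hi hk) he)
  have hcard : (pre g k '' Weil q g).ncard =
      ((Weil_finite q g).toFinset.image (fun s => fun i : Fin k => s.coeff (g - 1 - (i : ℕ)))).card := by
    rw [← Set.ncard_coe_finset, Finset.coe_image, Set.Finite.coe_toFinset]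
    rfl
  rw [hcard]
  refine key.trans (le_of_eq ?_)
  congr 1
  refine Finset.prod_congr rfl fun j _ => ?_
  rw [div_mul_eq_mul_div, div_div_eq_mul_div]

theorem fiber_card_le {q g : ℕ} (hq : 1 ≤ q) (hg : 1 ≤ g) (w : Fin (g - 1) → ℤ) :
    (({h ∈ Weil q g | pre g (g - 1) h = w} : Set ℤ[X]).ncard : ℝ) ≤ 4 * Real.sqrt q ^ g + 1 := by
  classical
  have hfin : ({h ∈ Weil q g | pre g (g - 1) h = w} : Set ℤ[X]).Finite := (Weil_finite q g).subset (Set.sep_subset _ _)
  have hs0 : 0 ≤ 4 * Real.sqrt q ^ g := by positivity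
  rcases ({h ∈ Weil q g | pre g (g - 1) h = w} : Set ℤ[X]).eq_empty_or_nonempty with he | hne
  · rw [he, Set.ncard_empty, Nat.cast_zero]
    linarith
  obtain ⟨h0, hh0, hmin⟩ := Set.exists_min_image _ (fun h : ℤ[X] => h.coeff 0) hfin hne
  have hpre : ∀ h ∈ ({h ∈ Weil q g | pre g (g - 1) h = w} : Set ℤ[X]), ∀ j < g - 1, h.coeff (g - 1 - j) = h0.coeff (g - 1 - j) := by
    intro h hh j hj
    have h1 : pre g (g - 1) h = pre g (g - 1) h0 := hh.2.trans hh0.2.symm
    exact congrFun h1 ⟨j, hj⟩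
  have hq0 : (0 : ℝ) < q := by exact_mod_cast hq
  have hg0 : (0 : ℝ) < g := by exact_mod_cast hg
  have hs : 0 < Real.sqrt q ^ g := by positivity
  have hbd : ∀ h ∈ ({h ∈ Weil q g | pre g (g - 1) h = w} : Set ℤ[X]), ((h.coeff 0 - h0.coeff 0 : ℤ) : ℝ) ≤ 4 * Real.sqrt q ^ g := by
    intro h hh
    obtain ⟨θ, hθ⟩ := exists_angles hq hh.1
    obtain ⟨θ', hθ'⟩ := exists_angles hq hh0.1
    have h1 := (A7_loc hq hθ hθ' (i := g - 1) (by omega) (hpre h hh)).2
    have h2 : g - 1 + 1 = g := by omega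
    have h3 : ((g - 1 : ℕ) : ℝ) + 1 = g := by exact_mod_cast h2
    rw [h2, h3, Nat.sub_self] at h1
    have h4 := (abs_le.1 ((lev_energy θ (g - 1)).2.trans (A7_le θ (g - 1)))).1
    have h5 := (abs_le.1 ((lev_energy θ' (g - 1)).2.trans (A7_le θ' (g - 1)))).2
    have h6 : (g : ℝ) / Real.sqrt q ^ g * ((h.coeff 0 : ℝ) - (h0.coeff 0 : ℝ)) ≤ 4 * g := by
      rw [mul_sub]
      linarith
    rw [div_mul_eq_mul_div, div_le_iff₀ hs] at h6
    have h7 : (g : ℝ) * ((h.coeff 0 : ℝ) - (h0.coeff 0 : ℝ)) ≤ g * (4 * Real.sqrt q ^ g) := by linarith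
    have h8 := le_of_mul_le_mul_left h7 hg0
    push_cast
    exact h8
  have hnn : ∀ h ∈ ({h ∈ Weil q g | pre g (g - 1) h = w} : Set ℤ[X]), 0 ≤ h.coeff 0 - h0.coeff 0 := by
    intro h hh
    have := hmin h hh
    simpa using this
  have hle : ({h ∈ Weil q g | pre g (g - 1) h = w} : Set ℤ[X]).ncard ≤
      (↑(Finset.range (⌊4 * Real.sqrt q ^ g⌋₊ + 1)) : Set ℕ).ncard := by
    refine Set.ncard_le_ncard_of_injOn (fun h : ℤ[X] => (h.coeff 0 - h0.coeff 0).toNat) ?_ ?_ (Finset.finite_toSet _)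
    · intro h hh
      rw [Finset.mem_coe, Finset.mem_range, Nat.lt_succ_iff, Nat.le_floor_iff hs0]
      have h1 := hbd h hh
      have h2 := Int.toNat_of_nonneg (hnn h hh)
      have h3 : (((h.coeff 0 - h0.coeff 0).toNat : ℕ) : ℝ) = ((h.coeff 0 - h0.coeff 0 : ℤ) : ℝ) := by exact_mod_cast congrArg (Int.cast : ℤ → ℝ) h2
      simp only [h3]
      exact h1
    · intro h hh h' hh' hE
      have h1 := Int.toNat_of_nonneg (hnn h hh)
      have h2 := Int.toNat_of_nonneg (hnn h' hh')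
      simp only at hE
      rw [hE, h2] at h1
      have h3 : h.coeff 0 = h'.coeff 0 := by omega
      ext n
      rcases Nat.lt_or_ge n g with hn | hn
      · by_cases hn0 : n = 0
        · rw [hn0]
          exact h3
        · have h4 := hpre h hh (g - 1 - n) (by omega)
          have h5 := hpre h' hh' (g - 1 - n) (by omega)
          have h6 : g - 1 - (g - 1 - n) = n := by omega
          rw [h6] at h4 h5
          rw [h4, h5]
      · rcases Nat.eq_or_lt_of_le hn with hn | hn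
        · have h4 : h.coeff n = 1 := by
            have := hh.1.1.coeff_natDegree
            rwa [hh.1.2.1, hn] at this
          have h5 : h'.coeff n = 1 := by
            have := hh'.1.1.coeff_natDegree
            rwa [hh'.1.2.1, hn] at this
          rw [h4, h5]
        · rw [Polynomial.coeff_eq_zero_of_natDegree_lt (by rw [hh.1.2.1]; exact hn),
            Polynomial.coeff_eq_zero_of_natDegree_lt (by rw [hh'.1.2.1]; exact hn)]
  rw [Set.ncard_coe_finset, Finset.card_range] at hle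
  have h9 : (({h ∈ Weil q g | pre g (g - 1) h = w} : Set ℤ[X]).ncard : ℝ) ≤ ((⌊4 * Real.sqrt q ^ g⌋₊ + 1 : ℕ) : ℝ) := by
    exact_mod_cast hle
  refine h9.trans ?_
  push_cast
  have h10 := Nat.floor_le hs0
  linarith

end TI
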