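import Pool.Agent.Lib.MP_021685_agTI.TDefs

/-! LEAF B0 (easy+).  The Dickson basis.

PROOF.  `dickson 1 a n` satisfies `D_0 = 2` (`3 - 1`), `D_1 = X`, `D_(n+2) = X D_(n+1) - C a D_n` (`Polynomial.dickson_zero`, `dickson_one`, `dickson_add_two`).
(1) monic of degree `n` for `n ≥ 1`: two-step induction; `D_2 = X² - 2a`.  For `i = 0` the basis element is `1`.
(2) values: `D_n(2 s cos θ) = 2 s^n cos (n θ)`, `s = √q`, `s² = q`: two-step induction with `2 cos θ cos((n+1)θ) = cos((n+2)θ) + cos(n θ)`.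
(3) independence: if `∑_{i<g} b_i E_i = ∑_{i<g} b'_i E_i` with `E_i` monic of degree `i`, then `b_i = b'_i` for `i < g`: induction on `g` (coefficient of `X^(g-1)`). -/

namespace TI

open Polynomial

/-- `1`, and for `i ≥ 1` the Dickson polynomial with `E_i(w + q / w) = w ^ i + (q / w) ^ i` -/
noncomputable def bas (q : ℕ) (i : ℕ) : ℤ[X] := if i = 0 then 1 else dickson 1 (q : ℤ) i

private theorem B0_dick (q : ℕ) : ∀ n : ℕ,
    ((dickson 1 (q : ℤ) (n + 1)).Monic ∧ (dickson 1 (q : ℤ) (n + 1)).natDegree = n + 1) ∧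
      (dickson 1 (q : ℤ) (n + 2)).Monic ∧ (dickson 1 (q : ℤ) (n + 2)).natDegree = n + 2 := by
  intro n
  induction n with
  | zero =>
    have h1 : dickson 1 (q : ℤ) (0 + 2) = X ^ 2 - C (2 * (q : ℤ)) := by
      rw [dickson_add_two, dickson_zero, zero_add, dickson_one, C_mul]
      have h2 : (C 2 : ℤ[X]) = 2 := rfl
      rw [h2]
      push_cast
      ring
    refine ⟨⟨?_, ?_⟩, ?_, ?_⟩
    · rw [zero_add, dickson_one]
      exact monic_X
    · rw [zero_add, dickson_one, natDegree_X]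
    · rw [h1]
      exact monic_X_pow_sub_C _ (by norm_num)
    · rw [h1, natDegree_X_pow_sub_C]
  | succ n ih =>
    refine ⟨ih.2, ?_⟩
    obtain ⟨⟨h1, h2⟩, h3, h4⟩ := ih
    have h5 : dickson 1 (q : ℤ) (n + 1 + 2) = X * dickson 1 (q : ℤ) (n + 2) -
        C (q : ℤ) * dickson 1 (q : ℤ) (n + 1) := dickson_add_two 1 (q : ℤ) (n + 1)
    have h6 : (X * dickson 1 (q : ℤ) (n + 2)).Monic := monic_X.mul h3
    have h7 : (X * dickson 1 (q : ℤ) (n + 2)).natDegree = n + 3 := by
      rw [monic_X.natDegree_mul h3, natDegree_X, h4]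
      ring
    have h8 : (C (q : ℤ) * dickson 1 (q : ℤ) (n + 1)).natDegree < n + 3 :=
      lt_of_le_of_lt (natDegree_C_mul_le _ _) (by rw [h2]; omega)
    have h9 : (C (q : ℤ) * dickson 1 (q : ℤ) (n + 1)).degree <
        (X * dickson 1 (q : ℤ) (n + 2)).degree := by
      rw [degree_eq_natDegree h6.ne_zero, h7]
      exact lt_of_le_of_lt degree_le_natDegree (by exact_mod_cast h8)
    rw [h5]
    refine ⟨h6.sub_of_left h9, ?_⟩
    rw [natDegree_sub_eq_left_of_natDegree_lt (by rw [h7]; exact h8), h7]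

theorem bas_monic (q i : ℕ) : (bas q i).Monic ∧ (bas q i).natDegree = i := by
  unfold bas
  rcases i with _ | i
  · rw [if_pos rfl]
    exact ⟨monic_one, natDegree_one⟩
  · rw [if_neg (Nat.succ_ne_zero i)]
    exact (B0_dick q i).1

private theorem B0_eval (q : ℕ) (θ : ℝ) : ∀ n : ℕ,
    ((dickson 1 (q : ℤ) n).map (Int.castRingHom ℝ)).eval (2 * Real.sqrt q * Real.cos θ) =
      2 * Real.sqrt q ^ n * Real.cos (n * θ) ∧
    ((dickson 1 (q : ℤ) (n + 1)).map (Int.castRingHom ℝ)).eval (2 * Real.sqrt q * Real.cos θ) =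
      2 * Real.sqrt q ^ (n + 1) * Real.cos ((n + 1 : ℕ) * θ) := by
  intro n
  induction n with
  | zero =>
    constructor
    · rw [dickson_zero]
      simp
      norm_num
    · rw [zero_add, dickson_one]
      simp
  | succ n ih =>
    refine ⟨ih.2, ?_⟩
    obtain ⟨h1, h2⟩ := ih
    have h5 : dickson 1 (q : ℤ) (n + 1 + 1) = X * dickson 1 (q : ℤ) (n + 1) -
        C (q : ℤ) * dickson 1 (q : ℤ) n := dickson_add_two 1 (q : ℤ) n
    rw [h5, Polynomial.map_sub, Polynomial.map_mul, Polynomial.map_mul, map_X, map_C, eval_sub,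
      eval_mul, eval_mul, eval_X, eval_C, h1, h2]
    have h6 : Real.sqrt q * Real.sqrt q = q := Real.mul_self_sqrt (Nat.cast_nonneg q)
    have h7 : ((Int.castRingHom ℝ) (q : ℤ) : ℝ) = Real.sqrt q * Real.sqrt q := by
      rw [h6]
      simp
    rw [h7]
    have h8 : Real.cos (((n + 1 + 1 : ℕ) : ℝ) * θ) = 2 * Real.cos θ * Real.cos (((n + 1 : ℕ) : ℝ) * θ) -
        Real.cos ((n : ℝ) * θ) := by
      have e1 : ((n + 1 + 1 : ℕ) : ℝ) * θ = ((n + 1 : ℕ) : ℝ) * θ + θ := by
        push_cast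
        ring
      have e2 : (n : ℝ) * θ = ((n + 1 : ℕ) : ℝ) * θ - θ := by
        push_cast
        ring
      rw [e1, e2, Real.cos_add, Real.cos_sub]
      ring
    rw [h8]
    ring

theorem bas_eval (q i : ℕ) (hi : 1 ≤ i) (θ : ℝ) :
    ((bas q i).map (Int.castRingHom ℝ)).eval (2 * Real.sqrt q * Real.cos θ) =
      2 * Real.sqrt q ^ i * Real.cos (i * θ) := by
  unfold bas
  rw [if_neg (by omega)]
  exact (B0_eval q θ i).1

theorem bas_inj (q g : ℕ) (b b' : ℕ → ℤ)
    (h : ∑ i ∈ Finset.range g, C (b i) * bas q i = ∑ i ∈ Finset.range g, C (b' i) * bas q i) :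
    ∀ i < g, b i = b' i := by
  induction g with
  | zero => exact fun i hi => absurd hi (Nat.not_lt_zero i)
  | succ g ih =>
    have hlow : ∀ c : ℕ → ℤ, (∑ i ∈ Finset.range g, C (c i) * bas q i).coeff g = 0 := by
      intro c
      rw [finsetSum_coeff]
      refine Finset.sum_eq_zero fun i hi => ?_
      rw [coeff_C_mul, coeff_eq_zero_of_natDegree_lt, mul_zero]
      rw [(bas_monic q i).2]
      exact Finset.mem_range.1 hi
    have htop : (bas q g).coeff g = 1 := by
      have h1 := (bas_monic q g).1.coeff_natDegree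
      rwa [(bas_monic q g).2] at h1
    have h1 : b g = b' g := by
      have h2 := congrArg (fun p : ℤ[X] => p.coeff g) h
      simp only [Finset.sum_range_succ, coeff_add, coeff_C_mul, hlow, htop, zero_add, mul_one] at h2
      exact h2
    rw [Finset.sum_range_succ, Finset.sum_range_succ, h1] at h
    have h3 := ih (add_right_cancel h)
    intro i hi
    rcases Nat.lt_succ_iff_lt_or_eq.1 hi with h4 | h4
    · exact h3 i h4
    · rw [h4]
      exact h1

end TI
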