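import Pool.Agent.Lib.MP_021685_agTI.B0

/-! LEAF B1 (medium).  Perturbations of the Dickson polynomial.

PROOF.  `f = E_g + u` is monic of degree `g` (`deg u < g`).  Put `y_j = 2√q cos(π j / g)`, `0 ≤ j ≤ g`: strictly decreasing from `2√q` to `-2√q`.  `E_g(y_j) = 2(√q)^g cos(π j) = (-1)^j 2(√q)^g` (`bas_eval`), so `f(y_j)` has the strict sign `(-1)^j`
because `|u(y_j)| < 2(√q)^g`.  By the intermediate value theorem there is a root `x_j` in the open interval `(y_(j+1), y_j)` for each `0 ≤ j < g`: `g` distinct real roots in `[-2√q, 2√q]`, so `x_j² ≤ 4q`.  `f` has degree `g`, hence `f = ∏ (X - x_j)` over `ℝ`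
(e.g. `Polynomial.card_roots'`, the multiset of roots contains these `g` distinct ones), and every complex root is one of the `x_j`. -/

namespace TI

open Polynomial

theorem small_mem {q g : ℕ} (hq : 1 ≤ q) (hg : 1 ≤ g) (u : ℤ[X]) (hu : u.degree < (g : WithBot ℕ))
    (hs : ∀ j ≤ g, |(u.map (Int.castRingHom ℝ)).eval (2 * Real.sqrt q * Real.cos (Real.pi * j / g))| <
      2 * Real.sqrt q ^ g) :
    bas q g + u ∈ Weil q g := by
  classical
  have hbm := bas_monic q g
  have hbd : (bas q g).degree = (g : WithBot ℕ) := by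
    rw [Polynomial.degree_eq_natDegree hbm.1.ne_zero, hbm.2]
  have hlt : u.degree < (bas q g).degree := by rw [hbd]; exact hu
  have hmon : (bas q g + u).Monic := hbm.1.add_of_left hlt
  have hnd : (bas q g + u).natDegree = g := by
    rw [Polynomial.natDegree_add_eq_left_of_degree_lt hlt, hbm.2]
  refine ⟨hmon, hnd, ?_⟩
  obtain ⟨f, hf⟩ : ∃ f, f = bas q g + u := ⟨_, rfl⟩
  obtain ⟨y, hy⟩ : ∃ y : ℕ → ℝ, y = fun j : ℕ => 2 * Real.sqrt q * Real.cos (Real.pi * j / g) := ⟨_, rfl⟩
  have hsq : 0 < Real.sqrt q := Real.sqrt_pos.2 (by exact_mod_cast hq)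
  have hg0 : (0 : ℝ) < g := by exact_mod_cast hg
  have hval : ∀ j ≤ g, 0 < (-1) ^ j * (f.map (Int.castRingHom ℝ)).eval (y j) := by
    intro j hj
    have h1 := bas_eval q g hg (Real.pi * j / g)
    have h2 : Real.cos (g * (Real.pi * j / g)) = (-1) ^ j := by
      rw [show (g : ℝ) * (Real.pi * j / g) = j * Real.pi by field_simp]
      exact Real.cos_nat_mul_pi j
    rw [h2] at h1
    have h3 := hs j hj
    rw [hf, Polynomial.map_add, Polynomial.eval_add, hy]
    simp only
    rw [h1, mul_add]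
    rw [abs_lt] at h3
    obtain ⟨h4, h5⟩ := h3
    rcases Nat.even_or_odd j with he | ho
    · rw [he.neg_one_pow]
      linarith
    · rw [ho.neg_one_pow]
      linarith
  have hanti : ∀ i j : ℕ, i < j → j ≤ g → y j < y i := by
    intro i j hij hj
    rw [hy]
    simp only
    refine mul_lt_mul_of_pos_left ?_ (by positivity)
    refine Real.cos_lt_cos_of_nonneg_of_le_pi (by positivity) ?_ ?_
    · rw [div_le_iff₀ hg0]
      exact mul_le_mul_of_nonneg_left (by exact_mod_cast hj) Real.pi_pos.le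
    · refine div_lt_div_of_pos_right ?_ hg0
      exact mul_lt_mul_of_pos_left (by exact_mod_cast hij) Real.pi_pos
  have hanti' : ∀ i j : ℕ, i ≤ j → j ≤ g → y j ≤ y i := by
    intro i j hij hj
    rcases hij.lt_or_eq with h | h
    · exact (hanti i j h hj).le
    · rw [h]
  have hbd2 : ∀ j, |y j| ≤ 2 * Real.sqrt q := by
    intro j
    rw [hy]
    simp only
    rw [abs_mul, abs_of_pos (by positivity : (0 : ℝ) < 2 * Real.sqrt q)]
    exact mul_le_of_le_one_right (by positivity) (Real.abs_cos_le_one _)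
  -- the roots
  have hroot : ∀ j : Fin g, ∃ x : ℝ, y (j + 1) < x ∧ x < y j ∧ (f.map (Int.castRingHom ℝ)).eval x = 0 := by
    intro j
    have h1 := hval j j.2.le
    have h2 := hval (j + 1) j.2
    have hle : y (j + 1) ≤ y j := hanti' _ _ (Nat.le_succ _) j.2
    have hc : ContinuousOn (fun x : ℝ => (-1) ^ (j : ℕ) * (f.map (Int.castRingHom ℝ)).eval x)
        (Set.Icc (y (j + 1)) (y j)) :=
      (continuous_const.mul (Polynomial.continuous _)).continuousOn
    have h3 := intermediate_value_Ioo hle hc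
    have h4 : (0 : ℝ) ∈ Set.Ioo ((-1) ^ (j : ℕ) * (f.map (Int.castRingHom ℝ)).eval (y (j + 1)))
        ((-1) ^ (j : ℕ) * (f.map (Int.castRingHom ℝ)).eval (y j)) := by
      refine ⟨?_, h1⟩
      rw [pow_succ] at h2
      linarith
    obtain ⟨x, ⟨hx1, hx2⟩, hx3⟩ := h3 h4
    refine ⟨x, hx1, hx2, ?_⟩
    have h5 : ((-1 : ℝ) ^ (j : ℕ)) ≠ 0 := pow_ne_zero _ (by norm_num)
    exact (mul_eq_zero.1 hx3).resolve_left h5
  choose x hx1 hx2 hx3 using hroot
  have hxlt : ∀ i j : Fin g, i < j → x j < x i := by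
    intro i j hij
    have h1 : y j ≤ y (i + 1) := hanti' _ _ hij j.2.le
    exact (hx2 j).trans_le (h1.trans (hx1 i).le)
  have hxinj : Function.Injective x := by
    intro i j hij
    rcases lt_trichotomy i j with h | h | h
    · exact absurd hij (hxlt i j h).ne'
    · exact h
    · exact absurd hij (hxlt j i h).ne
  intro z hz
  rw [← hf] at hz hmon hnd
  have hfc : ∀ j : Fin g, aeval ((x j : ℝ) : ℂ) f = 0 := by
    intro j
    have h1 : aeval ((x j : ℝ) : ℂ) f = ((aeval (x j) f : ℝ) : ℂ) := by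
      have h6 := Polynomial.hom_eval₂ f (algebraMap ℤ ℝ) Complex.ofRealHom (x j)
      have h7 : Complex.ofRealHom.comp (algebraMap ℤ ℝ) = algebraMap ℤ ℂ := RingHom.ext_int _ _
      rw [h7] at h6
      exact h6.symm
    have h2 : aeval (x j) f = 0 := by
      have h3 := hx3 j
      rw [Polynomial.eval_map] at h3
      rw [Polynomial.aeval_def]
      have h4 : algebraMap ℤ ℝ = Int.castRingHom ℝ := RingHom.ext_int _ _
      rw [h4]
      exact h3
    rw [h1, h2, Complex.ofReal_zero]
  have hne : f.map (algebraMap ℤ ℂ) ≠ 0 := (hmon.map _).ne_zero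
  have hex : ∃ j, ((x j : ℝ) : ℂ) = z := by
    by_contra hno
    push Not at hno
    let s : Finset ℂ := insert z (Finset.univ.image fun j => ((x j : ℝ) : ℂ))
    have hs1 : s.card = g + 1 := by
      rw [Finset.card_insert_of_notMem, Finset.card_image_of_injective _ (fun i j h => hxinj (Complex.ofReal_injective h)),
        Finset.card_univ, Fintype.card_fin]
      rw [Finset.mem_image]
      rintro ⟨j, -, hj⟩
      exact hno j hj
    have hs2 : s ⊆ (f.map (algebraMap ℤ ℂ)).roots.toFinset := by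
      intro w hw
      rw [Multiset.mem_toFinset, Polynomial.mem_roots hne, Polynomial.IsRoot.def, Polynomial.eval_map_algebraMap]
      rcases Finset.mem_insert.1 hw with h | h
      · rw [h]
        exact hz
      · obtain ⟨j, -, hj⟩ := Finset.mem_image.1 h
        rw [← hj]
        exact hfc j
    have h1 := Finset.card_le_card hs2
    have h2 := Multiset.toFinset_card_le (f.map (algebraMap ℤ ℂ)).roots
    have h3 := Polynomial.card_roots' (f.map (algebraMap ℤ ℂ))
    have h4 : (f.map (algebraMap ℤ ℂ)).natDegree ≤ g := (Polynomial.natDegree_map_le).trans hnd.le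
    omega
  obtain ⟨j, hj⟩ := hex
  refine ⟨x j, hj, ?_⟩
  have h1 := abs_le.1 (hbd2 j)
  have h2 := abs_le.1 (hbd2 (j + 1))
  have h3 : |x j| ≤ 2 * Real.sqrt q := abs_le.2 ⟨h2.1.trans (hx1 j).le, (hx2 j).le.trans h1.2⟩
  have h4 : x j ^ 2 ≤ (2 * Real.sqrt q) ^ 2 := by
    rw [← sq_abs (x j)]
    exact pow_le_pow_left₀ (abs_nonneg _) h3 2
  rw [mul_pow, Real.sq_sqrt (Nat.cast_nonneg q)] at h4
  linarith

end TI
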