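import Mathlib

/-! Definitions for block C: the two bounds. -/

namespace TI

/-- upper bound for the number of prefixes of length `k` -/
noncomputable def up (s : ℝ) (g k : ℕ) : ℝ :=
  2 * (4 * (g : ℝ) + 2 * Real.sqrt g) ^ k * s ^ (k * (k + 1) / 2) / Real.sqrt (k.factorial) ^ 3

/-- lower bound for the number of all -/
noncomputable def low (s : ℝ) (g : ℕ) : ℝ :=
  s ^ (g * (g + 1) / 2) * (2 * Real.sqrt 2 / Real.sqrt g) ^ g /
    (25 * g * (10 / 9) ^ (4 * g) * (187 / 50) ^ g)

end TI
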