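import Pool.Agent.Lib.MP_021685_agTI.C0

/-! LEAF C1 (easy+).  The product of `pre_card_le`.

PROOF.  For `j < k ≤ g`: `√(k - j) ≤ √g`, so `1/√g ≤ 1/√(k-j)` and the factor is `≤ (1/√(k-j)) (2 s^(j+1)/(j+1)) (1 + (j+1)/(2 s^(j+1)))`.  `∏_{j<k} √(k-j) = √(k!)`, `∏_{j<k} 2 s^(j+1)/(j+1) = 2^k s^(k(k+1)/2)/k!`, and
`∏_{j<k} (1 + (j+1)/(2 s^(j+1))) ≤ exp (∑ (j+1)/(2 s^(j+1))) ≤ exp (∑ 2^(j+1)/(2 * 64^(j+1))) ≤ exp (1/2 * (1/31)) ≤ 2` (`j + 1 ≤ 2^(j+1)`, geometric series with ratio `1/32`).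
`k! = √(k!)²`, so the product is at most `2 * 2^k s^(k(k+1)/2)/√(k!)³`, and `(2g + √g)^k 2^k = (4g + 2√g)^k`. -/

namespace TI

private theorem C1_sqrt (k : ℕ) :
    ∏ j ∈ Finset.range k, Real.sqrt ((k : ℝ) - j) = Real.sqrt (k.factorial) := by
  induction k with
  | zero => simp
  | succ k ih =>
    rw [Finset.prod_range_succ']
    have h1 : ∏ j ∈ Finset.range k, Real.sqrt (((k + 1 : ℕ) : ℝ) - ((j + 1 : ℕ) : ℝ)) =
        ∏ j ∈ Finset.range k, Real.sqrt ((k : ℝ) - j) := by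
      apply Finset.prod_congr rfl
      intro j _
      congr 1
      push_cast
      ring
    rw [h1, ih, Nat.factorial_succ]
    push_cast
    rw [sub_zero, mul_comm ((k : ℝ) + 1), Real.sqrt_mul (by positivity)]

private theorem C1_pow (s : ℝ) (k : ℕ) :
    ∏ j ∈ Finset.range k, (2 * s ^ (j + 1) / ((j : ℝ) + 1)) =
      2 ^ k * s ^ (k * (k + 1) / 2) / (k.factorial : ℝ) := by
  induction k with
  | zero => simp
  | succ k ih =>
    rw [Finset.prod_range_succ, ih]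
    have h : (k + 1) * (k + 1 + 1) / 2 = k * (k + 1) / 2 + (k + 1) := by
      have := Nat.triangle_succ (k + 1)
      simp only [Nat.add_sub_cancel] at this
      rw [mul_comm (k + 1) (k + 1 + 1), this, mul_comm (k + 1) k]
    rw [h, Nat.factorial_succ]
    push_cast
    have h1 : (k.factorial : ℝ) ≠ 0 := by positivity
    have h2 : (k : ℝ) + 1 ≠ 0 := by positivity
    rw [pow_add s (k * (k + 1) / 2) (k + 1)]
    field_simp
    ring

private theorem C1_small {s : ℝ} (hs : 64 ≤ s) (k : ℕ) :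
    ∏ j ∈ Finset.range k, (1 + ((j : ℝ) + 1) / (2 * s ^ (j + 1))) ≤ 2 - (1 / 32 : ℝ) ^ k := by
  have hs0 : 0 < s := by linarith
  have hx : ∀ j : ℕ, ((j : ℝ) + 1) / (2 * s ^ (j + 1)) ≤ (1 / 2) * (1 / 32 : ℝ) ^ (j + 1) := by
    intro j
    have h1 : ((j : ℝ) + 1) ≤ 2 ^ (j + 1) := by
      have := (Nat.lt_two_pow_self (n := j + 1)).le
      exact_mod_cast this
    have h2 : (64 : ℝ) ^ (j + 1) ≤ s ^ (j + 1) := pow_le_pow_left₀ (by norm_num) hs _
    have h3 : (0 : ℝ) < 64 ^ (j + 1) := by positivity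
    have h4 : (2 : ℝ) ^ (j + 1) / (2 * 64 ^ (j + 1)) = (1 / 2) * (1 / 32 : ℝ) ^ (j + 1) := by
      have : (64 : ℝ) ^ (j + 1) = 2 ^ (j + 1) * 32 ^ (j + 1) := by
        rw [← mul_pow]; norm_num
      rw [this, one_div_pow]
      field_simp
    rw [← h4]
    gcongr
  induction k with
  | zero => norm_num
  | succ k ih =>
    rw [Finset.prod_range_succ]
    have h0 : (0 : ℝ) < (1 / 32 : ℝ) ^ k := by positivity
    have h1 : (1 / 32 : ℝ) ^ k ≤ 1 := pow_le_one₀ (by norm_num) (by norm_num)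
    have h2 : 0 ≤ 1 + ((k : ℝ) + 1) / (2 * s ^ (k + 1)) := by positivity
    calc _ ≤ (2 - (1 / 32 : ℝ) ^ k) * (1 + ((k : ℝ) + 1) / (2 * s ^ (k + 1))) := by
          gcongr
      _ ≤ (2 - (1 / 32 : ℝ) ^ k) * (1 + (1 / 2) * (1 / 32 : ℝ) ^ (k + 1)) := by
          apply mul_le_mul_of_nonneg_left _ (by linarith)
          linarith [hx k]
      _ ≤ 2 - (1 / 32 : ℝ) ^ (k + 1) := by
          rw [pow_succ]
          nlinarith

theorem prod_le_up {s : ℝ} (hs : 64 ≤ s) {g k : ℕ} (hg : 1 ≤ g) (hk : k ≤ g) :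
    (2 * (g : ℝ) + Real.sqrt g) ^ k *
      ∏ j ∈ Finset.range k,
        (2 * s ^ (j + 1) / (((j : ℝ) + 1) * Real.sqrt ((k : ℝ) - j)) + 1 / Real.sqrt g) ≤
      up s g k := by
  have hs0 : 0 < s := by linarith
  have hf0 : 0 < Real.sqrt (k.factorial) := Real.sqrt_pos.2 (by positivity)
  have hff : Real.sqrt (k.factorial) * Real.sqrt (k.factorial) = (k.factorial : ℝ) :=
    Real.mul_self_sqrt (by positivity)
  have hstep : ∏ j ∈ Finset.range k,
        (2 * s ^ (j + 1) / (((j : ℝ) + 1) * Real.sqrt ((k : ℝ) - j)) + 1 / Real.sqrt g) ≤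
      ∏ j ∈ Finset.range k, ((Real.sqrt ((k : ℝ) - j))⁻¹ * ((2 * s ^ (j + 1) / ((j : ℝ) + 1)) *
        (1 + ((j : ℝ) + 1) / (2 * s ^ (j + 1))))) := by
    apply Finset.prod_le_prod
    · intro j _
      positivity
    · intro j hj
      have hjk : j < k := Finset.mem_range.1 hj
      have hjk' : (j : ℝ) < k := by exact_mod_cast hjk
      have hkg : (k : ℝ) ≤ g := by exact_mod_cast hk
      have hr0 : 0 < Real.sqrt ((k : ℝ) - j) := Real.sqrt_pos.2 (by linarith)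
      have hr1 : Real.sqrt ((k : ℝ) - j) ≤ Real.sqrt g :=
        Real.sqrt_le_sqrt (by have : (0 : ℝ) ≤ j := by positivity
                              linarith)
      have h1 : 1 / Real.sqrt g ≤ 1 / Real.sqrt ((k : ℝ) - j) :=
        one_div_le_one_div_of_le hr0 hr1
      have h2 : (Real.sqrt ((k : ℝ) - j))⁻¹ * ((2 * s ^ (j + 1) / ((j : ℝ) + 1)) *
          (1 + ((j : ℝ) + 1) / (2 * s ^ (j + 1)))) =
          2 * s ^ (j + 1) / (((j : ℝ) + 1) * Real.sqrt ((k : ℝ) - j)) +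
            1 / Real.sqrt ((k : ℝ) - j) := by
        have h3 : s ^ (j + 1) ≠ 0 := by positivity
        have h4 : (j : ℝ) + 1 ≠ 0 := by positivity
        have h5 : Real.sqrt ((k : ℝ) - j) ≠ 0 := hr0.ne'
        field_simp
      rw [h2]
      linarith
  have hprod : ∏ j ∈ Finset.range k, ((Real.sqrt ((k : ℝ) - j))⁻¹ * ((2 * s ^ (j + 1) / ((j : ℝ) + 1)) *
        (1 + ((j : ℝ) + 1) / (2 * s ^ (j + 1))))) ≤
      (Real.sqrt (k.factorial))⁻¹ * ((2 ^ k * s ^ (k * (k + 1) / 2) / (k.factorial : ℝ)) * 2) := by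
    rw [Finset.prod_mul_distrib, Finset.prod_mul_distrib, Finset.prod_inv_distrib, C1_sqrt, C1_pow]
    have h1 := C1_small hs k
    have h2 : (0 : ℝ) < (1 / 32 : ℝ) ^ k := by positivity
    gcongr
    linarith
  have hpos : 0 ≤ (2 * (g : ℝ) + Real.sqrt g) ^ k := by positivity
  calc _ ≤ (2 * (g : ℝ) + Real.sqrt g) ^ k *
        ((Real.sqrt (k.factorial))⁻¹ * ((2 ^ k * s ^ (k * (k + 1) / 2) / (k.factorial : ℝ)) * 2)) :=
        mul_le_mul_of_nonneg_left (hstep.trans hprod) hpos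
    _ = up s g k := by
        unfold up
        have h1 : (4 * (g : ℝ) + 2 * Real.sqrt g) ^ k = 2 ^ k * (2 * (g : ℝ) + Real.sqrt g) ^ k := by
          rw [← mul_pow]
          congr 1
          ring
        rw [h1]
        clear hprod hstep h1
        generalize Real.sqrt (k.factorial : ℝ) = r at hff hf0 ⊢
        rw [← hff]
        have h2 : r ≠ 0 := hf0.ne'
        field_simp

end TI
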