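import Pool.Agent.Lib.MP_021685_agTI.C0

/-! LEAF C2 (medium).  Numerical inequality for the lines.

PROOF.  Quotient: `up s g (g-1) (21/20)^(4g) / ((19/20)^g low s g) = 50 g (4g + 2√g)^(g-1) ((10/9)^4 (187/50))^g √g^g (21/20)^(4g) (20/19)^g / ((2√2)^g √((g-1)!)³ s^g)`
(exponents of `s`: `(g-1)g/2 + g = g(g+1)/2`; both are integers).
Bounds: `(g-1)! = g!/g ≥ (g/e)^g/g` (`g^g/g! ≤ e^g`: `Real.pow_div_factorial_le_exp`), so `√((g-1)!)³ ≥ (g/e)^(3g/2)/g^(3/2)` (as squares: `((g-1)!)³ ≥ (g/e)^(3g)/g³`); `(4g + 2√g)^(g-1) ≤ (4g)^g (1 + 1/(2√g))^g ≤ (4g)^g e^(√g/2)`; `s^g ≥ 64^g`.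
So the quotient is at most `50 g^(5/2) e^(√g/2) X^g` with `X = 4 e^(3/2) (10/9)^4 (187/50) (21/20)^4 (20/19) / (2√2 * 64)`; numerically `e^(3/2) ≤ 4.4817`, `(10/9)^4 (187/50) ≤ 5.7004`, `(21/20)^4 ≤ 1.2156`, so `X ≤ 4*4.4817*5.7004*1.2156*1.0527/(2.8284*64) ≤ 0.73`.
`g^(5/2) e^(√g/2) (0.73)^g` is bounded (`√g/2 ≤ g/16 + 1`, `g^(5/2) ≤ g³ ≤ 6 * 16^3 e^(g/16)`, `e^(1/8) * 0.73 < 1`). -/

namespace TI

private theorem C2_fac (n : ℕ) (a : ℝ) (ha2 : a ^ 2 = ((n + 1 : ℕ) : ℝ)) :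
    (a / Real.exp (1 / 2)) ^ (n + 1) / a ≤ Real.sqrt (n.factorial) := by
  have hE : Real.exp (1 / 2) ^ 2 = Real.exp 1 := by
    rw [← Real.exp_nat_mul]
    norm_num
  have hG : (0 : ℝ) < ((n + 1 : ℕ) : ℝ) := by positivity
  have h1 := Real.pow_div_factorial_le_exp (((n + 1 : ℕ) : ℝ)) hG.le (n + 1)
  have h2 : Real.exp (((n + 1 : ℕ) : ℝ)) = Real.exp 1 ^ (n + 1) := by
    rw [← Real.exp_nat_mul, mul_one]
  have h3 : (((n + 1).factorial : ℕ) : ℝ) = ((n + 1 : ℕ) : ℝ) * (n.factorial : ℝ) := by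
    rw [Nat.factorial_succ, Nat.cast_mul]
  rw [h2, h3, div_le_iff₀ (by positivity)] at h1
  apply Real.le_sqrt_of_sq_le
  have h4 : ((a / Real.exp (1 / 2)) ^ (n + 1) / a) ^ 2 = (((n + 1 : ℕ) : ℝ)) ^ (n + 1) / Real.exp 1 ^ (n + 1) /
      ((n + 1 : ℕ) : ℝ) := by
    rw [div_pow, ← pow_mul, mul_comm (n + 1) 2, pow_mul, div_pow, hE, ha2, div_pow]
  rw [h4, div_le_iff₀ hG, div_le_iff₀ (by positivity)]
  calc (((n + 1 : ℕ) : ℝ)) ^ (n + 1) ≤ Real.exp 1 ^ (n + 1) * (((n + 1 : ℕ) : ℝ) * (n.factorial : ℝ)) := h1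
    _ = (n.factorial : ℝ) * ((n + 1 : ℕ) : ℝ) * Real.exp 1 ^ (n + 1) := by ring

private theorem C2_base (n : ℕ) (a : ℝ) (ha : 1 ≤ a) (ha2 : a ^ 2 = ((n + 1 : ℕ) : ℝ)) :
    (4 * ((n + 1 : ℕ) : ℝ) + 2 * a) ^ n ≤
      (4 * ((n + 1 : ℕ) : ℝ)) ^ (n + 1) * (Real.exp 1 * Real.exp (1 / 16) ^ (n + 1)) := by
  have ha0 : 0 < a := by linarith
  have hG : (0 : ℝ) < ((n + 1 : ℕ) : ℝ) := by positivity
  have h1 : 1 ≤ 4 * ((n + 1 : ℕ) : ℝ) + 2 * a := by linarith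
  have h2 : 4 * ((n + 1 : ℕ) : ℝ) + 2 * a ≤ 4 * ((n + 1 : ℕ) : ℝ) * Real.exp (1 / (2 * a)) := by
    have h3 := Real.add_one_le_exp (1 / (2 * a))
    have h4 : 4 * ((n + 1 : ℕ) : ℝ) + 2 * a = 4 * ((n + 1 : ℕ) : ℝ) * (1 / (2 * a) + 1) := by
      rw [← ha2]
      field_simp
      ring
    rw [h4]
    exact mul_le_mul_of_nonneg_left h3 (by positivity)
  have h5 : Real.exp (1 / (2 * a)) ^ (n + 1) ≤ Real.exp 1 * Real.exp (1 / 16) ^ (n + 1) := by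
    rw [← Real.exp_nat_mul, ← Real.exp_nat_mul, ← Real.exp_add]
    apply Real.exp_le_exp.2
    rw [← ha2]
    have h6 : a ^ 2 * (1 / (2 * a)) = a / 2 := by
      field_simp
    rw [h6]
    nlinarith [sq_nonneg (a / 4 - 1)]
  calc (4 * ((n + 1 : ℕ) : ℝ) + 2 * a) ^ n ≤ (4 * ((n + 1 : ℕ) : ℝ) + 2 * a) ^ (n + 1) :=
        pow_le_pow_right₀ h1 (Nat.le_succ n)
    _ ≤ (4 * ((n + 1 : ℕ) : ℝ) * Real.exp (1 / (2 * a))) ^ (n + 1) :=
        pow_le_pow_left₀ (by linarith) h2 _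
    _ = (4 * ((n + 1 : ℕ) : ℝ)) ^ (n + 1) * Real.exp (1 / (2 * a)) ^ (n + 1) := mul_pow _ _ _
    _ ≤ _ := mul_le_mul_of_nonneg_left h5 (by positivity)

private theorem C2_five (n : ℕ) (a : ℝ) (ha : 1 ≤ a) (ha2 : a ^ 2 = ((n + 1 : ℕ) : ℝ)) :
    a ^ 5 ≤ 24576 * Real.exp (1 / 16) ^ (n + 1) := by
  have h1 := Real.pow_div_factorial_le_exp (((n + 1 : ℕ) : ℝ) / 16) (by positivity) 3
  have h2 : Real.exp (((n + 1 : ℕ) : ℝ) / 16) = Real.exp (1 / 16) ^ (n + 1) := by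
    rw [← Real.exp_nat_mul]
    congr 1
    ring
  rw [h2, ← ha2] at h1
  have h3 : ((a ^ 2 / 16) ^ 3 / ((3 : ℕ).factorial : ℝ)) = a ^ 6 / 24576 := by
    have : ((3 : ℕ).factorial : ℝ) = 6 := by norm_num [Nat.factorial]
    rw [this]
    ring
  rw [h3, div_le_iff₀ (by norm_num)] at h1
  have h4 : a ^ 5 ≤ a ^ 6 := pow_le_pow_right₀ ha (by norm_num)
  linarith

private theorem C2_num : 4 * Real.exp (1 / 16) ^ 2 * ((21 / 20) ^ 4 * (10 / 9) ^ 4 * (187 / 50)) ≤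
    19 / 20 * 64 * (2 * Real.sqrt 2) / Real.exp (1 / 2) ^ 3 := by
  have hE1 : Real.exp (1 / 2) ≤ 165 / 100 := by
    have h1 : Real.exp (1 / 2) ^ 2 = Real.exp 1 := by
      rw [← Real.exp_nat_mul]
      norm_num
    have h2 := Real.exp_one_lt_d9
    by_contra h
    replace h := not_le.1 h
    nlinarith [Real.exp_pos (1 / 2)]
  have ht : Real.exp (1 / 16) ^ 2 ≤ 8 / 7 := by
    have h1 : Real.exp (1 / 16) ^ 2 = Real.exp (1 / 8) := by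
      rw [← Real.exp_nat_mul]
      norm_num
    have h2 := Real.one_sub_le_exp_neg (1 / 8)
    rw [h1]
    have h3 : Real.exp (1 / 8) * Real.exp (-(1 / 8)) = 1 := by
      rw [← Real.exp_add]
      norm_num
    nlinarith [Real.exp_pos (1 / 8)]
  have hs : (1.414 : ℝ) ≤ Real.sqrt 2 := by
    apply Real.le_sqrt_of_sq_le
    norm_num
  rw [le_div_iff₀ (by positivity)]
  have hE3 : Real.exp (1 / 2) ^ 3 ≤ (165 / 100) ^ 3 := pow_le_pow_left₀ (Real.exp_pos _).le hE1 3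
  have hpos : 0 < Real.exp (1 / 2) ^ 3 := by positivity
  have hpos2 : 0 < Real.exp (1 / 16) ^ 2 := by positivity
  calc 4 * Real.exp (1 / 16) ^ 2 * ((21 / 20) ^ 4 * (10 / 9) ^ 4 * (187 / 50)) * Real.exp (1 / 2) ^ 3
      ≤ 4 * (8 / 7) * ((21 / 20) ^ 4 * (10 / 9) ^ 4 * (187 / 50)) * (165 / 100) ^ 3 := by
        gcongr
    _ ≤ 19 / 20 * 64 * (2 * 1.414) := by norm_num
    _ ≤ 19 / 20 * 64 * (2 * Real.sqrt 2) := by gcongr

private theorem C2_core (N k n : ℕ) (s a G E t F r e K : ℝ) (hs : 64 ≤ s) (ha : 1 ≤ a) (ha2 : a ^ 2 = G)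
    (hE : 0 < E) (ht : 0 < t) (hr : 0 < r) (he : 0 < e) (hK : K = (21 / 20) ^ 4 * (10 / 9) ^ 4 * (187 / 50))
    (hB : (4 * G + 2 * a) ^ n ≤ (4 * G) ^ k * (e * t ^ k)) (h5 : a ^ 5 ≤ 24576 * t ^ k)
    (hF : (a / E) ^ k / a ≤ F) (hnum : 4 * t ^ 2 * K ≤ 19 / 20 * 64 * (2 * r) / E ^ 3) :
    2 * (4 * G + 2 * a) ^ n * s ^ N / F ^ 3 * (21 / 20) ^ (4 * k) ≤
      50 * e * 24576 * (19 / 20) ^ k *
        (s ^ (N + k) * (2 * r / a) ^ k / (25 * G * (10 / 9) ^ (4 * k) * (187 / 50) ^ k)) := by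
  have ha0 : 0 < a := by linarith
  have hG : 0 < G := by rw [← ha2]; positivity
  have hs0 : 0 < s := by linarith
  have hF0 : 0 < F := lt_of_lt_of_le (by positivity) hF
  have hK0 : 0 < K := by rw [hK]; positivity
  have hKk : (21 / 20 : ℝ) ^ (4 * k) * (10 / 9) ^ (4 * k) * (187 / 50) ^ k = K ^ k := by
    rw [hK, mul_pow, mul_pow, pow_mul, pow_mul]
  have h1 : 2 * (4 * G + 2 * a) ^ n * s ^ N * (21 / 20) ^ (4 * k) * (25 * G * (10 / 9) ^ (4 * k) * (187 / 50) ^ k) ≤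
      50 * e * s ^ N * (G * (4 * G * t * K) ^ k) := by
    have h2 : 2 * (4 * G + 2 * a) ^ n * s ^ N * (21 / 20) ^ (4 * k) *
        (25 * G * (10 / 9) ^ (4 * k) * (187 / 50) ^ k) =
        (50 * G * s ^ N * K ^ k) * (4 * G + 2 * a) ^ n := by
      rw [← hKk]
      ring
    have h3 : 50 * e * s ^ N * (G * (4 * G * t * K) ^ k) =
        (50 * G * s ^ N * K ^ k) * ((4 * G) ^ k * (e * t ^ k)) := by
      rw [mul_pow (4 * G * t), mul_pow (4 * G)]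
      ring
    rw [h2, h3]
    exact mul_le_mul_of_nonneg_left hB (by positivity)
  have h4 : G * (4 * G * t * K) ^ k ≤ 24576 * ((4 * t ^ 2 * K * G) ^ k / a ^ 3) := by
    rw [← mul_div_assoc, le_div_iff₀ (by positivity)]
    have h6 : G * (4 * G * t * K) ^ k * a ^ 3 = a ^ 5 * (4 * G * t * K) ^ k := by
      rw [← ha2]
      ring
    have h7 : 24576 * (4 * t ^ 2 * K * G) ^ k = 24576 * t ^ k * (4 * G * t * K) ^ k := by
      rw [show 4 * t ^ 2 * K * G = t * (4 * G * t * K) by ring, mul_pow t]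
      ring
    rw [h6, h7]
    exact mul_le_mul_of_nonneg_right h5 (by positivity)
  have h8 : (4 * t ^ 2 * K * G) ^ k / a ^ 3 ≤ (19 / 20) ^ k * (s ^ k * (2 * r / a) ^ k) * F ^ 3 := by
    have h9 : (4 * t ^ 2 * K * G) ^ k ≤ (19 / 20 * 64 * (2 * r) / E ^ 3 * G) ^ k :=
      pow_le_pow_left₀ (by positivity) (mul_le_mul_of_nonneg_right hnum hG.le) k
    have h10 : (19 / 20 * 64 * (2 * r) / E ^ 3 * G) ^ k / a ^ 3 =
        (19 / 20) ^ k * (64 ^ k * (2 * r / a) ^ k) * ((a / E) ^ k / a) ^ 3 := by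
      have h11 : 19 / 20 * 64 * (2 * r) / E ^ 3 * G = 19 / 20 * (64 * (2 * r / a)) * (a / E) ^ 3 := by
        rw [← ha2]
        field_simp
      rw [h11, mul_pow, mul_pow, mul_pow 64, div_pow _ a 3, ← pow_mul, ← pow_mul, mul_comm 3 k]
      ring
    calc (4 * t ^ 2 * K * G) ^ k / a ^ 3 ≤ (19 / 20 * 64 * (2 * r) / E ^ 3 * G) ^ k / a ^ 3 :=
          div_le_div_of_nonneg_right h9 (by positivity)
      _ = (19 / 20) ^ k * (64 ^ k * (2 * r / a) ^ k) * ((a / E) ^ k / a) ^ 3 := h10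
      _ ≤ (19 / 20) ^ k * (s ^ k * (2 * r / a) ^ k) * F ^ 3 := by
          gcongr
  rw [div_mul_eq_mul_div, ← mul_div_assoc, div_le_div_iff₀ (by positivity) (by positivity)]
  calc 2 * (4 * G + 2 * a) ^ n * s ^ N * (21 / 20) ^ (4 * k) * (25 * G * (10 / 9) ^ (4 * k) * (187 / 50) ^ k)
      ≤ 50 * e * s ^ N * (G * (4 * G * t * K) ^ k) := h1
    _ ≤ 50 * e * s ^ N * (24576 * ((4 * t ^ 2 * K * G) ^ k / a ^ 3)) :=
        mul_le_mul_of_nonneg_left h4 (by positivity)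
    _ ≤ 50 * e * s ^ N * (24576 * ((19 / 20) ^ k * (s ^ k * (2 * r / a) ^ k) * F ^ 3)) :=
        mul_le_mul_of_nonneg_left (mul_le_mul_of_nonneg_left h8 (by norm_num)) (by positivity)
    _ = 50 * e * 24576 * (19 / 20) ^ k * (s ^ (N + k) * (2 * r / a) ^ k) * F ^ 3 := by
        rw [pow_add]
        ring

theorem up_low_one : ∃ C : ℝ, 0 ≤ C ∧ ∀ s : ℝ, 64 ≤ s → ∀ g : ℕ, 2 ≤ g →
    up s g (g - 1) * (21 / 20) ^ (4 * g) ≤ C * (19 / 20) ^ g * low s g := by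
  refine ⟨50 * Real.exp 1 * 24576, by positivity, fun s hs g hg => ?_⟩
  obtain ⟨n, rfl⟩ : ∃ n, g = n + 1 := ⟨g - 1, by omega⟩
  have hG : (0 : ℝ) < ((n + 1 : ℕ) : ℝ) := by positivity
  have hG1 : (1 : ℝ) ≤ ((n + 1 : ℕ) : ℝ) := by
    exact_mod_cast Nat.le_add_left 1 n
  have ha2 : Real.sqrt ((n + 1 : ℕ) : ℝ) ^ 2 = ((n + 1 : ℕ) : ℝ) := Real.sq_sqrt hG.le
  have ha : 1 ≤ Real.sqrt ((n + 1 : ℕ) : ℝ) := Real.one_le_sqrt.2 hG1
  have hn : n + 1 - 1 = n := rfl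
  have hex : (n + 1) * (n + 1 + 1) / 2 = n * (n + 1) / 2 + (n + 1) := by
    have h1 : (n + 1) * (n + 1 + 1) = n * (n + 1) + (n + 1) * 2 := by ring
    rw [h1, Nat.add_mul_div_right _ _ (by norm_num)]
  have hF := C2_fac n _ ha2
  have hB := C2_base n _ ha ha2
  have h5 := C2_five n _ ha ha2
  have hnum := C2_num
  rw [up, low, hn, hex]
  exact C2_core _ _ _ s _ _ _ _ _ _ _ _ hs ha ha2 (Real.exp_pos _) (Real.exp_pos _) (by positivity)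
    (Real.exp_pos _) rfl hB h5 hF hnum

end TI
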