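import Pool.Agent.Lib.MP_021685_agTI.C0

/-! LEAF C3 (medium).  Numerical inequality for the bad lines.

PROOF.  As in C2: the quotient `up s g (g-2) (4 s^g + 1)(2g) / ((19/20)^g low s g)` is `2 (4g + 2√g)^(g-2) s^((g-2)(g-1)/2) (4 s^g + 1) (2g) * 25 g ((10/9)^4 (187/50))^g √g^g (20/19)^g / ((2√2)^g √((g-2)!)³ s^(g(g+1)/2))`.
`4 s^g + 1 ≤ 5 s^g`, exponents of `s`: `(g-2)(g-1)/2 + g - g(g+1)/2 = 1 - g`; so the power of `s` is `s / s^g ≤ s/64^g`.  `(g-2)! ≥ g!/g² ≥ (g/e)^g/g²`, `√((g-2)!)³ ≥ (g/e)^(3g/2)/g³`; `(4g + 2√g)^(g-2) ≤ (4g)^g e^(√g/2)`.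
So the quotient is at most `500 g^5 e^(√g/2) s X^g`, `X = 4 e^(3/2) (10/9)^4 (187/50)(20/19)/(2√2 * 64) ≤ 0.6`; bounded by `C s`. -/

namespace TI

private theorem C3_bdd : ∃ C : ℝ, 0 ≤ C ∧ ∀ g : ℕ, (g : ℝ) ^ 5 * (9 / 10) ^ g ≤ C := by
  have h := tendsto_pow_const_mul_const_pow_of_abs_lt_one 5 (r := (9 / 10 : ℝ))
    (by rw [abs_of_pos (by norm_num)]; norm_num)
  obtain ⟨C, hC⟩ := h.bddAbove_range
  refine ⟨C, ?_, fun g => hC ⟨g, rfl⟩⟩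
  have := hC ⟨0, rfl⟩
  simpa using this

private theorem C3_exp : Real.exp (3 / 2) ≤ 9 / 2 := by
  have h1 : Real.exp (3 / 2) ^ 2 = Real.exp 1 ^ 3 := by
    rw [← Real.exp_nat_mul, ← Real.exp_nat_mul]
    norm_num
  have h2 : Real.exp 1 < 2.7182818286 := Real.exp_one_lt_d9
  have h3 : Real.exp 1 ^ 3 ≤ 2.7182818286 ^ 3 := by
    gcongr
  have h4 : (2.7182818286 : ℝ) ^ 3 ≤ (9 / 2) ^ 2 := by norm_num
  exact le_of_sq_le_sq (by rw [h1]; exact h3.trans h4) (by norm_num)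

private theorem C3_num : 6 * Real.exp (3 / 2) ≤
    9 / 10 * (64 * (19 / 20) * (2 * Real.sqrt 2) / ((10 / 9) ^ 4 * (187 / 50))) := by
  have h1 := C3_exp
  have h2 : (1.414 : ℝ) ≤ Real.sqrt 2 := by
    apply Real.le_sqrt_of_sq_le
    norm_num
  have h3 : 9 / 10 * (64 * (19 / 20) * (2 * (1.414 : ℝ)) / ((10 / 9) ^ 4 * (187 / 50))) ≤
      9 / 10 * (64 * (19 / 20) * (2 * Real.sqrt 2) / ((10 / 9) ^ 4 * (187 / 50))) := by
    gcongr
  have h4 : (27 : ℝ) ≤ 9 / 10 * (64 * (19 / 20) * (2 * (1.414 : ℝ)) / ((10 / 9) ^ 4 * (187 / 50))) := by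
    norm_num
  linarith

private theorem C3_fact (m : ℕ) : Real.sqrt ((m + 2 : ℕ) : ℝ) ^ (3 * (m + 2)) ≤
    Real.sqrt (m.factorial : ℝ) ^ 3 * ((m + 2 : ℕ) : ℝ) ^ 3 * Real.exp (3 / 2) ^ (m + 2) := by
  set G : ℝ := ((m + 2 : ℕ) : ℝ) with hG
  have hG0 : 0 < G := by rw [hG]; positivity
  have h1 : G ^ (m + 2) / ((m + 2).factorial : ℝ) ≤ Real.exp G := Real.pow_div_factorial_le_exp G hG0.le (m + 2)
  have hf : (0 : ℝ) < ((m + 2).factorial : ℝ) := by positivity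
  have h2 : G ^ (m + 2) ≤ Real.exp G * ((m + 2).factorial : ℝ) := (div_le_iff₀ hf).1 h1
  have h3 : (((m + 2).factorial : ℕ) : ℝ) ≤ (m.factorial : ℝ) * G ^ 2 := by
    have h4 : (m + 2).factorial = (m + 2) * ((m + 1) * m.factorial) := by
      rw [Nat.factorial_succ, Nat.factorial_succ]
    rw [h4]
    push_cast
    rw [hG]
    push_cast
    have hm : (0 : ℝ) ≤ (m.factorial : ℝ) := by positivity
    have hm2 : (0 : ℝ) ≤ (m : ℝ) := by positivity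
    nlinarith [mul_nonneg hm hm2]
  have h5 : G ^ (m + 2) ≤ Real.exp G * ((m.factorial : ℝ) * G ^ 2) :=
    h2.trans (mul_le_mul_of_nonneg_left h3 (Real.exp_pos G).le)
  have h6 : Real.sqrt (G ^ (m + 2)) ≤ Real.sqrt (Real.exp G * ((m.factorial : ℝ) * G ^ 2)) :=
    Real.sqrt_le_sqrt h5
  have h7 : Real.sqrt (G ^ (m + 2)) = Real.sqrt G ^ (m + 2) := by
    rw [← Real.sqrt_sq (pow_nonneg (Real.sqrt_nonneg G) (m + 2)), ← pow_mul, mul_comm (m + 2) 2, pow_mul,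
      Real.sq_sqrt hG0.le]
  have h8 : Real.sqrt (Real.exp G * ((m.factorial : ℝ) * G ^ 2)) =
      Real.exp (1 / 2) ^ (m + 2) * (Real.sqrt (m.factorial : ℝ) * G) := by
    rw [Real.sqrt_mul (Real.exp_pos G).le, Real.sqrt_mul (by positivity), Real.sqrt_sq hG0.le]
    congr 1
    rw [← Real.exp_nat_mul, ← Real.exp_half]
    congr 1
    rw [← hG]
    ring
  rw [h7, h8] at h6
  have h9 := pow_le_pow_left₀ (pow_nonneg (Real.sqrt_nonneg G) _) h6 3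
  have h10 : Real.exp (1 / 2) ^ 3 = Real.exp (3 / 2) := by
    rw [← Real.exp_nat_mul]
    norm_num
  calc Real.sqrt G ^ (3 * (m + 2)) = (Real.sqrt G ^ (m + 2)) ^ 3 := by rw [← pow_mul, mul_comm]
    _ ≤ (Real.exp (1 / 2) ^ (m + 2) * (Real.sqrt (m.factorial : ℝ) * G)) ^ 3 := h9
    _ = Real.sqrt (m.factorial : ℝ) ^ 3 * G ^ 3 * (Real.exp (1 / 2) ^ 3) ^ (m + 2) := by ring
    _ = _ := by rw [h10]

private theorem C3_main (m : ℕ) (C : ℝ) (hC : ∀ g : ℕ, (g : ℝ) ^ 5 * (9 / 10) ^ g ≤ C) (G : ℝ)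
    (hG : G = ((m + 2 : ℕ) : ℝ)) (q : ℝ) (hq0 : 0 < q) (hq : 6 * Real.exp (3 / 2) ≤ 9 / 10 * q) :
    500 * G ^ 2 * (4 * G + 2 * Real.sqrt G) ^ m * Real.sqrt G ^ (m + 2) ≤
      500 * C * q ^ (m + 2) * Real.sqrt (m.factorial : ℝ) ^ 3 := by
  have hG2 : 2 ≤ G := by rw [hG]; push_cast; linarith [(Nat.cast_nonneg m : (0 : ℝ) ≤ (m : ℝ))]
  have hR : Real.sqrt G ≤ G := by
    rw [Real.sqrt_le_left (by linarith)]
    nlinarith
  have hR0 := Real.sqrt_nonneg G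
  have h1 : (4 * G + 2 * Real.sqrt G) ^ m ≤ (6 * G) ^ (m + 2) :=
    (pow_le_pow_left₀ (by positivity) (by linarith) m).trans
      (pow_le_pow_right₀ (by linarith) (by omega))
  have h2 : (6 * G) ^ (m + 2) * Real.sqrt G ^ (m + 2) = 6 ^ (m + 2) * Real.sqrt G ^ (3 * (m + 2)) := by
    have h3 : G = Real.sqrt G ^ 2 := (Real.sq_sqrt (by linarith)).symm
    calc (6 * G) ^ (m + 2) * Real.sqrt G ^ (m + 2) = (6 * Real.sqrt G ^ 2) ^ (m + 2) * Real.sqrt G ^ (m + 2) := by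
          rw [← h3]
      _ = _ := by ring
  have h4 := C3_fact m
  rw [← hG] at h4
  have h5 : (6 * Real.exp (3 / 2)) ^ (m + 2) ≤ (9 / 10 * q) ^ (m + 2) :=
    pow_le_pow_left₀ (by positivity) hq _
  have h6 := hC (m + 2)
  rw [← hG] at h6
  have hF : 0 ≤ Real.sqrt (m.factorial : ℝ) ^ 3 := by positivity
  calc 500 * G ^ 2 * (4 * G + 2 * Real.sqrt G) ^ m * Real.sqrt G ^ (m + 2)
      ≤ 500 * G ^ 2 * (6 * G) ^ (m + 2) * Real.sqrt G ^ (m + 2) := by gcongr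
    _ = 500 * G ^ 2 * 6 ^ (m + 2) * Real.sqrt G ^ (3 * (m + 2)) := by
        rw [mul_assoc, h2]; ring
    _ ≤ 500 * G ^ 2 * 6 ^ (m + 2) *
        (Real.sqrt (m.factorial : ℝ) ^ 3 * G ^ 3 * Real.exp (3 / 2) ^ (m + 2)) := by gcongr
    _ = 500 * G ^ 5 * (6 * Real.exp (3 / 2)) ^ (m + 2) * Real.sqrt (m.factorial : ℝ) ^ 3 := by ring
    _ ≤ 500 * G ^ 5 * (9 / 10 * q) ^ (m + 2) * Real.sqrt (m.factorial : ℝ) ^ 3 := by gcongr
    _ = 500 * (G ^ 5 * (9 / 10) ^ (m + 2)) * q ^ (m + 2) * Real.sqrt (m.factorial : ℝ) ^ 3 := by ring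
    _ ≤ 500 * C * q ^ (m + 2) * Real.sqrt (m.factorial : ℝ) ^ 3 := by gcongr

theorem up_low_two : ∃ C : ℝ, 0 ≤ C ∧ ∀ s : ℝ, 64 ≤ s → ∀ g : ℕ, 2 ≤ g →
    up s g (g - 2) * (4 * s ^ g + 1) * (2 * g) ≤ C * s * (19 / 20) ^ g * low s g := by
  obtain ⟨C, hC0, hC⟩ := C3_bdd
  refine ⟨500 * C, by positivity, fun s hs g hg => ?_⟩
  obtain ⟨m, rfl⟩ : ∃ m, g = m + 2 := ⟨g - 2, by omega⟩
  rw [Nat.add_sub_cancel]
  have hexp : (m + 2) * (m + 2 + 1) / 2 = m * (m + 1) / 2 + (2 * m + 3) := by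
    have h : (m + 2) * (m + 2 + 1) = m * (m + 1) + (2 * m + 3) * 2 := by ring
    rw [h, Nat.add_mul_div_right _ _ (by norm_num)]
  unfold up low
  rw [hexp]
  set G : ℝ := ((m + 2 : ℕ) : ℝ) with hG
  have hG2 : 2 ≤ G := by rw [hG]; push_cast; linarith [(Nat.cast_nonneg m : (0 : ℝ) ≤ (m : ℝ))]
  have hR : 0 < Real.sqrt G := Real.sqrt_pos.2 (by linarith)
  set F : ℝ := Real.sqrt (m.factorial : ℝ) ^ 3 with hF
  have hF0 : 0 < F := by rw [hF]; positivity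
  have hs0 : 0 < s := by linarith
  set q : ℝ := 64 * (19 / 20) * (2 * Real.sqrt 2) / ((10 / 9) ^ 4 * (187 / 50)) with hq
  have hq0 : 0 < q := by rw [hq]; positivity
  have hmain := C3_main m C hC G hG q hq0 C3_num
  rw [← hF] at hmain
  have h1 : 4 * s ^ (m + 2) + 1 ≤ 5 * s ^ (m + 2) := by
    have : 1 ≤ s ^ (m + 2) := one_le_pow₀ (by linarith)
    linarith
  have h64 : (64 : ℝ) ^ (m + 2) ≤ s ^ (m + 2) := pow_le_pow_left₀ (by norm_num) hs _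
  set A : ℝ := (4 * G + 2 * Real.sqrt G) ^ m with hA
  have hA0 : 0 < A := by rw [hA]; positivity
  set E : ℝ := s ^ (m * (m + 1) / 2) with hE
  have hE0 : 0 < E := by rw [hE]; positivity
  -- the right-hand side
  have hR2 : 500 * C * s * (19 / 20) ^ (m + 2) * (s ^ (m * (m + 1) / 2 + (2 * m + 3)) *
      (2 * Real.sqrt 2 / Real.sqrt G) ^ (m + 2) / (25 * G * (10 / 9) ^ (4 * (m + 2)) * (187 / 50) ^ (m + 2))) =
      E * s ^ (m + 2) * (500 * C * (s ^ (m + 2) * (q / 64) ^ (m + 2)) / (25 * G * Real.sqrt G ^ (m + 2))) := by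
    rw [pow_add s (m * (m + 1) / 2) (2 * m + 3), ← hE, hq]
    have e1 : s * s ^ (2 * m + 3) = s ^ (m + 2) * s ^ (m + 2) := by ring
    have e2 : (64 * (19 / 20) * (2 * Real.sqrt 2) / ((10 / 9) ^ 4 * (187 / 50)) / 64 : ℝ) ^ (m + 2) =
        (19 / 20) ^ (m + 2) * (2 * Real.sqrt 2) ^ (m + 2) / ((10 / 9) ^ (4 * (m + 2)) * (187 / 50) ^ (m + 2)) := by
      rw [pow_mul (10 / 9 : ℝ) 4 (m + 2), ← mul_pow, ← mul_pow, ← div_pow]
      congr 1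
      ring
    rw [e2, div_pow (2 * Real.sqrt 2) (Real.sqrt G) (m + 2)]
    generalize ((19 / 20 : ℝ)) ^ (m + 2) = a
    generalize (2 * Real.sqrt 2) ^ (m + 2) = b
    generalize Real.sqrt G ^ (m + 2) = c
    generalize ((10 / 9 : ℝ)) ^ (4 * (m + 2)) = d
    generalize ((187 / 50 : ℝ)) ^ (m + 2) = e
    generalize s ^ (m + 2) = x at e1 ⊢
    generalize s ^ (2 * m + 3) = y at e1 ⊢
    calc 500 * C * s * a * (E * y * (b / c) / (25 * G * d * e)) =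
        (s * y) * (500 * C * a * E * b * c⁻¹ * (25 * G * d * e)⁻¹) := by ring
      _ = (x * x) * (500 * C * a * E * b * c⁻¹ * (25 * G * d * e)⁻¹) := by rw [e1]
      _ = E * x * (500 * C * (x * (a * b / (d * e))) / (25 * G * c)) := by ring
  rw [hR2]
  have hL : 2 * A * E / F * (4 * s ^ (m + 2) + 1) * (2 * G) ≤ E * s ^ (m + 2) * (20 * G * A / F) := by
    calc 2 * A * E / F * (4 * s ^ (m + 2) + 1) * (2 * G) ≤ 2 * A * E / F * (5 * s ^ (m + 2)) * (2 * G) := by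
          gcongr
      _ = E * s ^ (m + 2) * (20 * G * A / F) := by ring
  refine hL.trans (mul_le_mul_of_nonneg_left ?_ (by positivity))
  rw [div_le_div_iff₀ hF0 (by positivity)]
  calc 20 * G * A * (25 * G * Real.sqrt G ^ (m + 2)) = 500 * G ^ 2 * A * Real.sqrt G ^ (m + 2) := by ring
    _ ≤ 500 * C * q ^ (m + 2) * F := hmain
    _ = 500 * C * (64 ^ (m + 2) * (q / 64) ^ (m + 2)) * F := by
        rw [← mul_pow]
        congr 3
        ring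
    _ ≤ 500 * C * (s ^ (m + 2) * (q / 64) ^ (m + 2)) * F := by gcongr

end TI
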