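import Pool.Agent.Lib.MP_021685_agTI.C0

/-! LEAF C4 (medium).  Numerical inequality for the reducible polynomials.

PROOF.  Let `1 ≤ i < g`, `k = g - i`.  `up s i i = 2 (4i + 2√i)^i s^(i(i+1)/2)/√(i!)³ ≤ 2 e^(√i/2) (4 e^(3/2))^i √i^(-i) s^(i(i+1)/2)`: `(4i + 2√i)^i ≤ (4i)^i e^(√i/2)` and `i! ≥ (i/e)^i`, so `√(i!)³ ≥ (i/e)^(3i/2)` and `i^i / i^(3i/2) = √i^(-i)`.
The quotient of `up s i i * up s k k` by `low s g` is at most `4 e^((√i + √k)/2) (4 e^(3/2))^g √i^(-i) √k^(-k) s^((i(i+1) + k(k+1) - g(g+1))/2) 25 g ((10/9)^4 (187/50))^g √g^g/(2√2)^g`.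
(a) `√i + √k ≤ √(2g) ≤ 2√g`.  (b) exponent of `s`: `i(i+1)/2 + k(k+1)/2 - g(g+1)/2 = -ik` and `ik ≥ g - 1`: the power is `≤ s^(1-g) ≤ s/64^g`.
(c) `i^i k^k ≥ (g/2)^g` (convexity of `x log x`, or weighted AM-GM: `(1/i)^(i/g) (1/k)^(k/g) ≤ (i/g)(1/i) + (k/g)(1/k) = 2/g`), so `√g^g √i^(-i) √k^(-k) ≤ √2^g`.
Total: at most `100 g e^(√g) s Y^g`, `Y = 4 e^(3/2) (10/9)^4 (187/50) √2/(2√2 * 64) = 4 e^(3/2) * 5.7004/(2 * 64) ≤ 0.7984`.  There are `g - 1` terms; `g² e^(√g) (0.7984 * 20/19)^g` is bounded (`0.7984 * 20/19 ≤ 0.8405`; `√g ≤ g/16 + 4`,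
`g² ≤ 2 * 16² e^(g/16)`, `e^(1/8) * 0.8405 ≤ 0.953 < 1`). -/

namespace TI

private theorem C4_one (s : ℝ) (hs : 0 < s) (i : ℕ) (hi : 1 ≤ i) :
    up s i i ≤ 2 * Real.exp (Real.sqrt i / 2) * (4 * Real.exp (3 / 2)) ^ i * (1 / Real.sqrt i) ^ i *
      s ^ (i * (i + 1) / 2) := by
  have hi0 : (0 : ℝ) < i := by exact_mod_cast hi
  obtain ⟨r, hr⟩ : ∃ r : ℝ, r = Real.sqrt i := ⟨_, rfl⟩
  have hr0 : 0 < r := by rw [hr]; exact Real.sqrt_pos.2 hi0
  have hr2 : r ^ 2 = i := by rw [hr]; exact Real.sq_sqrt hi0.le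
  obtain ⟨n, hn⟩ : ∃ n : ℕ, n = i * (i + 1) / 2 := ⟨_, rfl⟩
  unfold up
  rw [← hr, ← hn]
  have hf : (0 : ℝ) < i.factorial := by exact_mod_cast i.factorial_pos
  have hsf : 0 < Real.sqrt (i.factorial) := Real.sqrt_pos.2 hf
  rw [div_le_iff₀ (by positivity)]
  have h1 : (4 * (i : ℝ) + 2 * r) ^ i ≤ (4 * r ^ 2) ^ i * Real.exp (r / 2) := by
    have e1 : 4 * (i : ℝ) + 2 * r = 4 * r ^ 2 * (1 / (2 * r) + 1) := by
      rw [← hr2]
      field_simp
      ring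
    have e2 : Real.exp (r / 2) = Real.exp (1 / (2 * r)) ^ i := by
      rw [← Real.exp_nat_mul]
      congr 1
      rw [← hr2]
      field_simp
    rw [e1, mul_pow, e2]
    refine mul_le_mul_of_nonneg_left ?_ (by positivity)
    exact pow_le_pow_left₀ (by positivity) (Real.add_one_le_exp _) i
  have h2 : (r * Real.exp (-(1 / 2))) ^ i ≤ Real.sqrt (i.factorial) := by
    refine Real.le_sqrt_of_sq_le ?_
    have h3 := Real.pow_div_factorial_le_exp (x := (i : ℝ)) hi0.le i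
    rw [div_le_iff₀ hf] at h3
    have e1 : ((r * Real.exp (-(1 / 2))) ^ i) ^ 2 = (i : ℝ) ^ i * Real.exp (-(i : ℝ)) := by
      rw [← hr2, ← pow_mul, mul_comm i 2, pow_mul, mul_pow, mul_pow, ← Real.exp_nat_mul, ← Real.exp_nat_mul]
      congr 2
      rw [← hr2]
      push_cast
      ring
    rw [e1, Real.exp_neg, ← div_eq_mul_inv, div_le_iff₀ (Real.exp_pos _)]
    linarith
  have h3 : ((r * Real.exp (-(1 / 2))) ^ i) ^ 3 ≤ Real.sqrt (i.factorial) ^ 3 :=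
    pow_le_pow_left₀ (by positivity) h2 3
  have e3 : (4 * Real.exp (3 / 2)) ^ i * (1 / r) ^ i * ((r * Real.exp (-(1 / 2))) ^ i) ^ 3 = (4 * r ^ 2) ^ i := by
    rw [← pow_mul, mul_comm i 3, pow_mul, ← mul_pow, ← mul_pow]
    congr 1
    have h4 : Real.exp (3 / 2) * Real.exp (-(1 / 2)) ^ 3 = 1 := by
      rw [← Real.exp_nat_mul, ← Real.exp_add]
      norm_num
    calc 4 * Real.exp (3 / 2) * (1 / r) * (r * Real.exp (-(1 / 2))) ^ 3 =
          4 * (r ^ 3 * (1 / r)) * (Real.exp (3 / 2) * Real.exp (-(1 / 2)) ^ 3) := by ring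
      _ = 4 * (r ^ 3 * (1 / r)) := by rw [h4, mul_one]
      _ = 4 * r ^ 2 := by field_simp
  have h5 : 0 ≤ 2 * Real.exp (r / 2) * (4 * Real.exp (3 / 2)) ^ i * (1 / r) ^ i * s ^ n := by positivity
  have h6 : 0 < s ^ n := pow_pos hs n
  calc 2 * (4 * (i : ℝ) + 2 * r) ^ i * s ^ n ≤ 2 * ((4 * r ^ 2) ^ i * Real.exp (r / 2)) * s ^ n := by
        refine mul_le_mul_of_nonneg_right ?_ h6.le
        linarith
    _ = 2 * Real.exp (r / 2) * s ^ n * ((4 * Real.exp (3 / 2)) ^ i * (1 / r) ^ i *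
          ((r * Real.exp (-(1 / 2))) ^ i) ^ 3) := by
        rw [e3]
        ring
    _ = 2 * Real.exp (r / 2) * (4 * Real.exp (3 / 2)) ^ i * (1 / r) ^ i * s ^ n *
          ((r * Real.exp (-(1 / 2))) ^ i) ^ 3 := by ring
    _ ≤ 2 * Real.exp (r / 2) * (4 * Real.exp (3 / 2)) ^ i * (1 / r) ^ i * s ^ n *
          Real.sqrt (i.factorial) ^ 3 := mul_le_mul_of_nonneg_left h3 h5

private theorem C4_amgm (i k : ℕ) (hi : 1 ≤ i) (hk : 1 ≤ k) :
    (1 / (i : ℝ)) ^ i * (1 / (k : ℝ)) ^ k ≤ (2 / ((i + k : ℕ) : ℝ)) ^ (i + k) := by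
  have hi0 : (0 : ℝ) < i := by exact_mod_cast hi
  have hk0 : (0 : ℝ) < k := by exact_mod_cast hk
  have hg0 : (0 : ℝ) < ((i + k : ℕ) : ℝ) := by
    push_cast
    linarith
  have h1 := Real.geom_mean_le_arith_mean2_weighted (w₁ := (i : ℝ) / ((i + k : ℕ) : ℝ))
    (w₂ := (k : ℝ) / ((i + k : ℕ) : ℝ)) (p₁ := 1 / (i : ℝ)) (p₂ := 1 / (k : ℝ))
    (by positivity) (by positivity) (by positivity) (by positivity) (by
      rw [← add_div]
      push_cast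
      exact div_self (by linarith))
  have e1 : (i : ℝ) / ((i + k : ℕ) : ℝ) * (1 / (i : ℝ)) + (k : ℝ) / ((i + k : ℕ) : ℝ) * (1 / (k : ℝ)) =
      2 / ((i + k : ℕ) : ℝ) := by
    field_simp
    ring
  rw [e1] at h1
  have h2 := pow_le_pow_left₀ (by positivity) h1 (i + k)
  refine le_trans (le_of_eq ?_) h2
  rw [mul_pow]
  congr 1
  · rw [← Real.rpow_natCast (_ ^ _) (i + k), ← Real.rpow_mul (by positivity), div_mul_cancel₀ _ hg0.ne',
      Real.rpow_natCast]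
  · rw [← Real.rpow_natCast (_ ^ _) (i + k), ← Real.rpow_mul (by positivity), div_mul_cancel₀ _ hg0.ne',
      Real.rpow_natCast]

private theorem C4_sqrt (i k : ℕ) (hi : 1 ≤ i) (hk : 1 ≤ k) :
    (1 / Real.sqrt i) ^ i * (1 / Real.sqrt k) ^ k ≤ (Real.sqrt 2 / Real.sqrt ((i + k : ℕ) : ℝ)) ^ (i + k) := by
  have hi0 : (0 : ℝ) < i := by exact_mod_cast hi
  have hk0 : (0 : ℝ) < k := by exact_mod_cast hk
  have hg0 : (0 : ℝ) < ((i + k : ℕ) : ℝ) := by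
    push_cast
    linarith
  have hsi : 0 < Real.sqrt i := Real.sqrt_pos.2 hi0
  have hsk : 0 < Real.sqrt k := Real.sqrt_pos.2 hk0
  have hsg : 0 < Real.sqrt ((i + k : ℕ) : ℝ) := Real.sqrt_pos.2 hg0
  have hs2 : (0 : ℝ) < Real.sqrt 2 := Real.sqrt_pos.2 (by norm_num)
  refine (pow_le_pow_iff_left₀ (by positivity) (by positivity) two_ne_zero).1 ?_
  have h1 := C4_amgm i k hi hk
  have e1 : ((1 / Real.sqrt i) ^ i * (1 / Real.sqrt k) ^ k) ^ 2 = (1 / (i : ℝ)) ^ i * (1 / (k : ℝ)) ^ k := by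
    rw [mul_pow, ← pow_mul, ← pow_mul, mul_comm i 2, mul_comm k 2, pow_mul, pow_mul, div_pow 1 (Real.sqrt i) 2,
      div_pow 1 (Real.sqrt k) 2, Real.sq_sqrt hi0.le, Real.sq_sqrt hk0.le, one_pow]
  have e2 : ((Real.sqrt 2 / Real.sqrt ((i + k : ℕ) : ℝ)) ^ (i + k)) ^ 2 = (2 / ((i + k : ℕ) : ℝ)) ^ (i + k) := by
    rw [← pow_mul, mul_comm (i + k) 2, pow_mul, div_pow, Real.sq_sqrt hg0.le, Real.sq_sqrt (by norm_num)]
  rw [e1, e2]
  exact h1

private theorem C4_exp (i k : ℕ) (hi : 1 ≤ i) (hk : 1 ≤ k) (s : ℝ) (hs : 64 ≤ s) :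
    s ^ (i * (i + 1) / 2) * s ^ (k * (k + 1) / 2) ≤ s ^ ((i + k) * (i + k + 1) / 2) * (s / 64 ^ (i + k)) := by
  have hs0 : 0 < s := by linarith
  have hs1 : 1 ≤ s := by linarith
  have h1 : i * (i + 1) / 2 + k * (k + 1) / 2 + i * k = (i + k) * (i + k + 1) / 2 := by
    obtain ⟨a, ha⟩ := Nat.even_mul_succ_self i
    obtain ⟨b, hb⟩ := Nat.even_mul_succ_self k
    have h2 : (i + k) * (i + k + 1) = i * (i + 1) + k * (k + 1) + 2 * (i * k) := by ring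
    rw [h2, ha, hb]
    omega
  have h2 : i + k ≤ i * k + 1 := by
    obtain ⟨a, rfl⟩ := Nat.exists_eq_add_of_le hi
    obtain ⟨b, rfl⟩ := Nat.exists_eq_add_of_le hk
    nlinarith
  have h3 : (64 : ℝ) ^ (i + k) ≤ s ^ (i * k) * s := by
    calc (64 : ℝ) ^ (i + k) ≤ s ^ (i + k) := pow_le_pow_left₀ (by norm_num) hs _
      _ ≤ s ^ (i * k + 1) := pow_le_pow_right₀ hs1 h2
      _ = s ^ (i * k) * s := pow_succ _ _
  rw [← h1, pow_add, pow_add, mul_assoc (s ^ (i * (i + 1) / 2) * s ^ (k * (k + 1) / 2))]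
  refine le_mul_of_one_le_right (by positivity) ?_
  rw [mul_div_assoc', le_div_iff₀ (by positivity), one_mul]
  exact h3

private theorem C4_mul (i k : ℕ) (hi : 1 ≤ i) (hk : 1 ≤ k) (s : ℝ) (hs : 64 ≤ s) :
    up s i i * up s k k ≤ 100 * ((i + k : ℕ) : ℝ) * Real.exp (Real.sqrt ((i + k : ℕ) : ℝ)) * s *
      ((10 / 9) ^ 4 * (187 / 50) * Real.exp (3 / 2) / 32) ^ (i + k) * low s (i + k) := by
  have hs0 : 0 < s := by linarith
  have hi0 : (0 : ℝ) < i := by exact_mod_cast hi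
  have hk0 : (0 : ℝ) < k := by exact_mod_cast hk
  have hg0 : (0 : ℝ) < ((i + k : ℕ) : ℝ) := by
    push_cast
    linarith
  have hsi : 0 < Real.sqrt i := Real.sqrt_pos.2 hi0
  have hsk : 0 < Real.sqrt k := Real.sqrt_pos.2 hk0
  have h1 := C4_one s hs0 i hi
  have h2 := C4_one s hs0 k hk
  have hup : 0 ≤ up s k k := by
    unfold up
    positivity
  have h3 := mul_le_mul h1 h2 hup (by positivity)
  refine h3.trans ?_
  have h4 : Real.exp (Real.sqrt i / 2) * Real.exp (Real.sqrt k / 2) ≤ Real.exp (Real.sqrt ((i + k : ℕ) : ℝ)) := by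
    rw [← Real.exp_add, Real.exp_le_exp]
    have h5 : Real.sqrt i ≤ Real.sqrt ((i + k : ℕ) : ℝ) := Real.sqrt_le_sqrt (by push_cast; linarith)
    have h6 : Real.sqrt k ≤ Real.sqrt ((i + k : ℕ) : ℝ) := Real.sqrt_le_sqrt (by push_cast; linarith)
    linarith
  have h5 := C4_sqrt i k hi hk
  have h6 := C4_exp i k hi hk s hs
  obtain ⟨g, hg⟩ : ∃ g : ℕ, g = i + k := ⟨_, rfl⟩
  rw [← hg] at h4 h5 h6 hg0 ⊢
  obtain ⟨w, hw⟩ : ∃ w : ℝ, w = Real.sqrt (g : ℝ) := ⟨_, rfl⟩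
  have hw0 : 0 < w := by rw [hw]; exact Real.sqrt_pos.2 hg0
  obtain ⟨t, ht⟩ : ∃ t : ℝ, t = Real.sqrt 2 := ⟨_, rfl⟩
  have ht0 : 0 < t := by rw [ht]; exact Real.sqrt_pos.2 (by norm_num)
  unfold low
  rw [← hw] at h4 h5 ⊢
  rw [← ht] at h5 ⊢
  calc 2 * Real.exp (Real.sqrt i / 2) * (4 * Real.exp (3 / 2)) ^ i * (1 / Real.sqrt i) ^ i * s ^ (i * (i + 1) / 2) *
        (2 * Real.exp (Real.sqrt k / 2) * (4 * Real.exp (3 / 2)) ^ k * (1 / Real.sqrt k) ^ k *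
          s ^ (k * (k + 1) / 2)) =
      4 * (4 * Real.exp (3 / 2)) ^ g * ((Real.exp (Real.sqrt i / 2) * Real.exp (Real.sqrt k / 2)) *
        ((1 / Real.sqrt i) ^ i * (1 / Real.sqrt k) ^ k) *
          (s ^ (i * (i + 1) / 2) * s ^ (k * (k + 1) / 2))) := by
        rw [hg, pow_add]
        ring
    _ ≤ 4 * (4 * Real.exp (3 / 2)) ^ g * (Real.exp w * (t / w) ^ g * (s ^ (g * (g + 1) / 2) * (s / 64 ^ g))) := by
        refine mul_le_mul_of_nonneg_left ?_ (by positivity)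
        refine mul_le_mul (mul_le_mul h4 h5 (by positivity) (by positivity)) h6 (by positivity) (by positivity)
    _ = 4 * Real.exp w * s * s ^ (g * (g + 1) / 2) * (4 * Real.exp (3 / 2) * (t / w) / 64) ^ g := by
        rw [div_pow (4 * Real.exp (3 / 2) * (t / w)), mul_pow (4 * Real.exp (3 / 2)) (t / w)]
        ring
    _ = 4 * Real.exp w * s * s ^ (g * (g + 1) / 2) *
          ((10 / 9) ^ 4 * (187 / 50) * Real.exp (3 / 2) / 32 * (2 * t / w) / ((10 / 9) ^ 4 * (187 / 50))) ^ g := by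
        congr 2
        field_simp
        ring
    _ = 100 * g * Real.exp w * s * ((10 / 9) ^ 4 * (187 / 50) * Real.exp (3 / 2) / 32) ^ g *
          (s ^ (g * (g + 1) / 2) * (2 * t / w) ^ g / (25 * g * (10 / 9) ^ (4 * g) * (187 / 50) ^ g)) := by
        rw [div_pow _ ((10 / 9 : ℝ) ^ 4 * (187 / 50)), mul_pow _ (2 * t / w), mul_pow ((10 / 9 : ℝ) ^ 4) (187 / 50),
          ← pow_mul (10 / 9 : ℝ) 4 g]
        field_simp
        ring

theorem up_low_three : ∃ C : ℝ, 0 ≤ C ∧ ∀ s : ℝ, 64 ≤ s → ∀ g : ℕ, 2 ≤ g →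
    ∑ i ∈ Finset.Ico 1 g, up s i i * up s (g - i) (g - i) ≤ C * s * (19 / 20) ^ g * low s g := by
  refine ⟨51200 * Real.exp 4, by positivity, fun s hs g hg => ?_⟩
  have hs0 : 0 < s := by linarith
  have hg0 : (0 : ℝ) < g := by
    have : 0 < g := by omega
    exact_mod_cast this
  obtain ⟨Y, hY⟩ : ∃ Y : ℝ, Y = (10 / 9) ^ 4 * (187 / 50) * Real.exp (3 / 2) / 32 := ⟨_, rfl⟩
  have hY0 : 0 < Y := by rw [hY]; positivity
  have hlow : 0 ≤ low s g := by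
    unfold low
    positivity
  have h1 : ∀ i ∈ Finset.Ico 1 g, up s i i * up s (g - i) (g - i) ≤
      100 * g * Real.exp (Real.sqrt g) * s * Y ^ g * low s g := by
    intro i hi
    obtain ⟨hi1, hi2⟩ := Finset.mem_Ico.1 hi
    have h2 := C4_mul i (g - i) hi1 (by omega) s hs
    have h3 : i + (g - i) = g := by omega
    rw [h3, ← hY] at h2
    exact h2
  have h2 := Finset.sum_le_card_nsmul _ _ _ h1
  refine h2.trans ?_
  rw [nsmul_eq_mul, Nat.card_Ico]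
  have h3 : ((g - 1 : ℕ) : ℝ) ≤ g := by exact_mod_cast Nat.sub_le g 1
  have h4 : 0 ≤ 100 * g * Real.exp (Real.sqrt g) * s * Y ^ g * low s g := by positivity
  refine (mul_le_mul_of_nonneg_right h3 h4).trans ?_
  have h5 : (g : ℝ) ^ 2 ≤ 512 * Real.exp (g / 16) := by
    have h6 := Real.pow_div_factorial_le_exp (x := (g : ℝ) / 16) (by positivity) 2
    norm_num [Nat.factorial] at h6
    nlinarith
  have h6 : Real.exp (Real.sqrt g) ≤ Real.exp (g / 16) * Real.exp 4 := by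
    rw [← Real.exp_add, Real.exp_le_exp]
    have h7 := Real.sq_sqrt hg0.le
    nlinarith [sq_nonneg (Real.sqrt g / 4 - 2)]
  have h7 : Real.exp (g / 16) * Real.exp (g / 16) * Y ^ g ≤ (19 / 20) ^ g := by
    have e1 : Real.exp (g / 16) * Real.exp (g / 16) = Real.exp (1 / 8) ^ g := by
      rw [← Real.exp_add, ← Real.exp_nat_mul]
      congr 1
      ring
    rw [e1, ← mul_pow]
    refine pow_le_pow_left₀ (by positivity) ?_ g
    have h8 : Real.exp (13 / 8) ≤ 5.33 := by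
      refine (pow_le_pow_iff_left₀ (Real.exp_pos _).le (by norm_num) (show (8 : ℕ) ≠ 0 by norm_num)).1 ?_
      have e2 : Real.exp (13 / 8) ^ 8 = Real.exp 1 ^ 13 := by
        rw [← Real.exp_nat_mul, ← Real.exp_nat_mul]
        norm_num
      rw [e2]
      refine (pow_le_pow_left₀ (Real.exp_pos _).le Real.exp_one_lt_d9.le 13).trans ?_
      norm_num
    have e3 : Real.exp (1 / 8) * Y = Real.exp (13 / 8) * ((10 / 9) ^ 4 * (187 / 50) / 32) := by
      rw [hY, show (13 / 8 : ℝ) = 1 / 8 + 3 / 2 by norm_num, Real.exp_add]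
      ring
    rw [e3]
    refine (mul_le_mul_of_nonneg_right h8 (by norm_num)).trans ?_
    norm_num
  have h8 : 0 < Real.exp (g / 16) := Real.exp_pos _
  have h9 : (g : ℝ) ^ 2 * Real.exp (Real.sqrt g) * Y ^ g ≤ 512 * Real.exp 4 * (19 / 20) ^ g := by
    calc (g : ℝ) ^ 2 * Real.exp (Real.sqrt g) * Y ^ g ≤
          (512 * Real.exp (g / 16)) * (Real.exp (g / 16) * Real.exp 4) * Y ^ g := by
          refine mul_le_mul_of_nonneg_right ?_ (by positivity)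
          exact mul_le_mul h5 h6 (by positivity) (by positivity)
      _ = 512 * Real.exp 4 * (Real.exp (g / 16) * Real.exp (g / 16) * Y ^ g) := by ring
      _ ≤ 512 * Real.exp 4 * (19 / 20) ^ g := mul_le_mul_of_nonneg_left h7 (by positivity)
  calc (g : ℝ) * (100 * g * Real.exp (Real.sqrt g) * s * Y ^ g * low s g) =
        100 * ((g : ℝ) ^ 2 * Real.exp (Real.sqrt g) * Y ^ g) * (s * low s g) := by ring
    _ ≤ 100 * (512 * Real.exp 4 * (19 / 20) ^ g) * (s * low s g) := by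
        refine mul_le_mul_of_nonneg_right ?_ (by positivity)
        linarith
    _ = 51200 * Real.exp 4 * s * (19 / 20) ^ g * low s g := by ring

end TI
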