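import Pool.Agent.Lib.MP_021685_agTI.A7
import Pool.Agent.Lib.MP_021685_agTI.B4
import Pool.Agent.Lib.MP_021685_agTI.C1
import Pool.Agent.Lib.MP_021685_agTI.C2
import Pool.Agent.Lib.MP_021685_agTI.C3
import Pool.Agent.Lib.MP_021685_agTI.C4

/-! LEAF C5 (easy+).  The three counting inequalities.

PROOF.  `s = √q ≥ 64`.  `Weil_card_ge` says `low s g ≤ N_g := (Weil q g).ncard` (for `g ≥ 1`; the denominator is positive).  `pre_card_le` and `prod_le_up`: `M_k := (pre g k '' Weil q g).ncard ≤ up s g k` for `k ≤ g`.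
For `k = g` (any `g ≥ 1`): `pre g g` is injective on `Weil q g` (`h` is monic of degree `g`, its coefficients below `g` are the entries of `pre g g h`), so `N_g = M_g ≤ up s g g`.
(1), (2), (3) follow from `up_low_one`, `up_low_two`, `up_low_three` (all factors nonnegative; in (3) apply the last remark to `i` and `g - i`). -/

namespace TI

open Polynomial

private theorem C5_sqrt {q : ℕ} (hq : 4096 ≤ q) : (64 : ℝ) ≤ Real.sqrt q := by
  refine Real.le_sqrt_of_sq_le ?_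
  norm_num
  exact hq

private theorem C5_low {q g : ℕ} (hq : 1 ≤ q) (hg : 1 ≤ g) :
    low (Real.sqrt q) g ≤ ((Weil q g).ncard : ℝ) := by
  have h := Weil_card_ge hq hg
  have hg' : (0 : ℝ) < g := by exact_mod_cast hg
  have hd : (0 : ℝ) < 25 * g * (10 / 9) ^ (4 * g) * (187 / 50) ^ g := by positivity
  unfold low
  rw [div_le_iff₀ hd, mul_comm ((Weil q g).ncard : ℝ)]
  exact h

private theorem C5_up {q g k : ℕ} (hq : 4096 ≤ q) (hg : 1 ≤ g) (hk : k ≤ g) :
    (((pre g k) '' Weil q g).ncard : ℝ) ≤ up (Real.sqrt q) g k :=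
  (pre_card_le (by omega) hg hk).trans (prod_le_up (C5_sqrt hq) hg hk)

private theorem C5_inj (q g : ℕ) : Set.InjOn (pre g g) (Weil q g) := by
  intro h hh h' hh' he
  ext i
  rcases lt_trichotomy i g with hi | hi | hi
  · have h1 := congrFun he ⟨g - 1 - i, by omega⟩
    unfold pre at h1
    have h2 : g - 1 - (g - 1 - i) = i := by omega
    simp only [h2] at h1
    exact h1
  · subst hi
    have h1 : h.coeff i = 1 := by
      have := hh.1.coeff_natDegree
      rwa [hh.2.1] at this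
    have h2 : h'.coeff i = 1 := by
      have := hh'.1.coeff_natDegree
      rwa [hh'.2.1] at this
    rw [h1, h2]
  · rw [coeff_eq_zero_of_natDegree_lt (by rw [hh.2.1]; exact hi),
      coeff_eq_zero_of_natDegree_lt (by rw [hh'.2.1]; exact hi)]

private theorem C5_all {q g : ℕ} (hq : 4096 ≤ q) (hg : 1 ≤ g) :
    ((Weil q g).ncard : ℝ) ≤ up (Real.sqrt q) g g := by
  rw [← (C5_inj q g).ncard_image]
  exact C5_up hq hg le_rfl

theorem count_lines : ∃ C : ℝ, 0 ≤ C ∧ ∀ q : ℕ, 4096 ≤ q → ∀ g : ℕ, 2 ≤ g →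
    ((pre g (g - 1) '' Weil q g).ncard : ℝ) * (21 / 20) ^ (4 * g) ≤
      C * (19 / 20) ^ g * ((Weil q g).ncard : ℝ) := by
  obtain ⟨C, hC, h⟩ := up_low_one
  refine ⟨C, hC, fun q hq g hg => ?_⟩
  calc ((pre g (g - 1) '' Weil q g).ncard : ℝ) * (21 / 20) ^ (4 * g)
      ≤ up (Real.sqrt q) g (g - 1) * (21 / 20) ^ (4 * g) :=
        mul_le_mul_of_nonneg_right (C5_up hq (by omega) (by omega)) (by positivity)
    _ ≤ C * (19 / 20) ^ g * low (Real.sqrt q) g := h _ (C5_sqrt hq) g hg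
    _ ≤ C * (19 / 20) ^ g * ((Weil q g).ncard : ℝ) :=
        mul_le_mul_of_nonneg_left (C5_low (by omega) (by omega)) (by positivity)

theorem count_bad : ∃ C : ℝ, 0 ≤ C ∧ ∀ q : ℕ, 4096 ≤ q → ∀ g : ℕ, 2 ≤ g →
    ((pre g (g - 2) '' Weil q g).ncard : ℝ) * (4 * Real.sqrt q ^ g + 1) * (2 * g) ≤
      C * Real.sqrt q * (19 / 20) ^ g * ((Weil q g).ncard : ℝ) := by
  obtain ⟨C, hC, h⟩ := up_low_two
  refine ⟨C, hC, fun q hq g hg => ?_⟩
  calc ((pre g (g - 2) '' Weil q g).ncard : ℝ) * (4 * Real.sqrt q ^ g + 1) * (2 * g)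
      ≤ up (Real.sqrt q) g (g - 2) * (4 * Real.sqrt q ^ g + 1) * (2 * g) :=
        mul_le_mul_of_nonneg_right (mul_le_mul_of_nonneg_right (C5_up hq (by omega) (by omega))
          (by positivity)) (by positivity)
    _ ≤ C * Real.sqrt q * (19 / 20) ^ g * low (Real.sqrt q) g := h _ (C5_sqrt hq) g hg
    _ ≤ C * Real.sqrt q * (19 / 20) ^ g * ((Weil q g).ncard : ℝ) :=
        mul_le_mul_of_nonneg_left (C5_low (by omega) (by omega)) (by positivity)

theorem count_red : ∃ C : ℝ, 0 ≤ C ∧ ∀ q : ℕ, 4096 ≤ q → ∀ g : ℕ, 2 ≤ g →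
    ∑ i ∈ Finset.Ico 1 g, ((Weil q i).ncard : ℝ) * ((Weil q (g - i)).ncard : ℝ) ≤
      C * Real.sqrt q * (19 / 20) ^ g * ((Weil q g).ncard : ℝ) := by
  obtain ⟨C, hC, h⟩ := up_low_three
  refine ⟨C, hC, fun q hq g hg => ?_⟩
  calc ∑ i ∈ Finset.Ico 1 g, ((Weil q i).ncard : ℝ) * ((Weil q (g - i)).ncard : ℝ)
      ≤ ∑ i ∈ Finset.Ico 1 g, up (Real.sqrt q) i i * up (Real.sqrt q) (g - i) (g - i) := by
        refine Finset.sum_le_sum fun i hi => ?_
        rw [Finset.mem_Ico] at hi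
        have h1 := C5_all hq hi.1
        have h2 := C5_all hq (show 1 ≤ g - i by omega)
        exact mul_le_mul h1 h2 (Nat.cast_nonneg _) ((Nat.cast_nonneg _).trans h1)
    _ ≤ C * Real.sqrt q * (19 / 20) ^ g * low (Real.sqrt q) g := h _ (C5_sqrt hq) g hg
    _ ≤ C * Real.sqrt q * (19 / 20) ^ g * ((Weil q g).ncard : ℝ) :=
        mul_le_mul_of_nonneg_left (C5_low (by omega) (by omega)) (by positivity)

end TI
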