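import Mathlib

/-! LEAF D0 (easy+).  Residue classes in an interval.

PROOF.  Let `L = hi + 1 - lo ≥ 0` be the number of integers in the interval.  For one residue class the number of members is `⌊L/m⌋` or `⌊L/m⌋ + 1`, so it differs from `L/m` by at most `1` (`Int.Ico_filter_modEq_card` / `Int.Ioc_filter_modEq_card`, or split the interval
in blocks of length `m`).  Sum over the classes of `Rs`. -/

namespace TI

private theorem D0_one {m : ℕ} (hm : 0 < m) (v lo hi : ℤ) :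
    |((((Finset.Icc lo hi).filter (fun c : ℤ => ((c : ℤ) : ZMod m) = ((v : ℤ) : ZMod m))).card : ℕ) : ℝ) -
      ((Finset.Icc lo hi).card : ℝ) / m| ≤ 1 := by
  have hm' : (0 : ℤ) < (m : ℤ) := by exact_mod_cast hm
  have hmR : (0 : ℝ) < (m : ℝ) := by exact_mod_cast hm
  have hIcc : Finset.Icc lo hi = Finset.Ioc (lo - 1) hi := by
    ext x
    simp only [Finset.mem_Icc, Finset.mem_Ioc]
    omega
  by_cases hle : lo ≤ hi
  · have hfil : (Finset.Icc lo hi).filter (fun c : ℤ => ((c : ℤ) : ZMod m) = ((v : ℤ) : ZMod m)) =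
        (Finset.Ioc (lo - 1) hi).filter (fun c : ℤ => c ≡ v [ZMOD (m : ℤ)]) := by
      rw [hIcc]
      apply Finset.filter_congr
      intro c _
      exact ZMod.intCast_eq_intCast_iff c v m
    have hcard := Int.Ioc_filter_modEq_card (lo - 1) hi hm' v
    rw [← hfil] at hcard
    have hcardL : ((Finset.Icc lo hi).card : ℝ) = (hi : ℝ) + 1 - lo := by
      have h1 : ((Finset.Icc lo hi).card : ℤ) = hi + 1 - lo := by
        rw [Int.card_Icc]
        omega
      have h2 : (((Finset.Icc lo hi).card : ℤ) : ℝ) = ((hi + 1 - lo : ℤ) : ℝ) := by rw [h1]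
      push_cast at h2
      exact h2
    set A : ℤ := ⌊((hi : ℚ) - v) / ((m : ℤ) : ℚ)⌋ with hA
    set B : ℤ := ⌊(((lo - 1 : ℤ) : ℚ) - v) / ((m : ℤ) : ℚ)⌋ with hB
    have hmQ : (0 : ℚ) < ((m : ℤ) : ℚ) := by exact_mod_cast hm
    have hAB : B ≤ A := by
      apply Int.floor_le_floor
      apply div_le_div_of_nonneg_right _ hmQ.le
      have : ((lo - 1 : ℤ) : ℚ) ≤ (hi : ℚ) := by
        exact_mod_cast (by omega : lo - 1 ≤ hi)
      linarith
    have hcR : ((((Finset.Icc lo hi).filter (fun c : ℤ => ((c : ℤ) : ZMod m) = ((v : ℤ) : ZMod m))).card : ℕ) : ℝ)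
        = (A : ℝ) - B := by
      have h1 : ((((Finset.Icc lo hi).filter (fun c : ℤ => ((c : ℤ) : ZMod m) = ((v : ℤ) : ZMod m))).card : ℕ) : ℤ) = A - B := by
        rw [hcard]
        exact max_eq_left (by omega)
      have h2 : (((((Finset.Icc lo hi).filter (fun c : ℤ => ((c : ℤ) : ZMod m) = ((v : ℤ) : ZMod m))).card : ℕ) : ℤ) : ℝ) = ((A - B : ℤ) : ℝ) := by rw [h1]
      push_cast at h2
      exact h2
    rw [hcR, hcardL]
    have a1 : (A : ℝ) ≤ ((hi : ℝ) - v) / m := by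
      have h := Int.floor_le (((hi : ℚ) - v) / ((m : ℤ) : ℚ))
      rw [← hA] at h
      have h' : (((A : ℤ) : ℚ) : ℝ) ≤ ((((hi : ℚ) - v) / ((m : ℤ) : ℚ) : ℚ) : ℝ) := by exact_mod_cast h
      push_cast at h'
      exact h'
    have a2 : ((hi : ℝ) - v) / m < (A : ℝ) + 1 := by
      have h := Int.lt_floor_add_one (((hi : ℚ) - v) / ((m : ℤ) : ℚ))
      rw [← hA] at h
      have h' : ((((hi : ℚ) - v) / ((m : ℤ) : ℚ) : ℚ) : ℝ) < ((((A : ℤ) : ℚ) + 1 : ℚ) : ℝ) := by exact_mod_cast h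
      push_cast at h'
      exact h'
    have b1 : (B : ℝ) ≤ ((lo : ℝ) - 1 - v) / m := by
      have h := Int.floor_le ((((lo - 1 : ℤ) : ℚ) - v) / ((m : ℤ) : ℚ))
      rw [← hB] at h
      have h' : (((B : ℤ) : ℚ) : ℝ) ≤ (((((lo - 1 : ℤ) : ℚ) - v) / ((m : ℤ) : ℚ) : ℚ) : ℝ) := by exact_mod_cast h
      push_cast at h'
      exact h'
    have b2 : ((lo : ℝ) - 1 - v) / m < (B : ℝ) + 1 := by
      have h := Int.lt_floor_add_one ((((lo - 1 : ℤ) : ℚ) - v) / ((m : ℤ) : ℚ))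
      rw [← hB] at h
      have h' : (((((lo - 1 : ℤ) : ℚ) - v) / ((m : ℤ) : ℚ) : ℚ) : ℝ) < ((((B : ℤ) : ℚ) + 1 : ℚ) : ℝ) := by exact_mod_cast h
      push_cast at h'
      exact h'
    have hid : ((hi : ℝ) + 1 - lo) / m = ((hi : ℝ) - v) / m - ((lo : ℝ) - 1 - v) / m := by
      field_simp
      ring
    rw [hid, abs_le]
    constructor <;> linarith
  · have hempty : Finset.Icc lo hi = ∅ := Finset.Icc_eq_empty hle
    rw [hempty]
    simp

theorem count_residues {m : ℕ} (hm : 0 < m) (Rs : Finset (ZMod m)) (lo hi : ℤ) :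
    |((((Finset.Icc lo hi).filter (fun c : ℤ => ((c : ℤ) : ZMod m) ∈ Rs)).card : ℕ) : ℝ) -
      (Rs.card : ℝ) * ((Finset.Icc lo hi).card : ℝ) / m| ≤ (Rs.card : ℝ) := by
  classical
  have hsum : ((Finset.Icc lo hi).filter (fun c : ℤ => ((c : ℤ) : ZMod m) ∈ Rs)).card =
      ∑ r ∈ Rs, ((Finset.Icc lo hi).filter (fun c : ℤ => ((c : ℤ) : ZMod m) = r)).card := by
    rw [Finset.card_eq_sum_card_fiberwise (f := fun c : ℤ => ((c : ℤ) : ZMod m)) (t := Rs)]
    · apply Finset.sum_congr rfl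
      intro r hr
      congr 1
      ext c
      simp only [Finset.mem_filter]
      constructor
      · rintro ⟨⟨h1, _⟩, h3⟩
        exact ⟨h1, h3⟩
      · rintro ⟨h1, h3⟩
        refine ⟨⟨h1, ?_⟩, h3⟩
        rw [h3]
        exact hr
    · intro c hc
      have hc' := Finset.mem_coe.1 hc
      exact (Finset.mem_filter.1 hc').2
  have hone : ∀ r : ZMod m, |((((Finset.Icc lo hi).filter (fun c : ℤ => ((c : ℤ) : ZMod m) = r)).card : ℕ) : ℝ) -
      ((Finset.Icc lo hi).card : ℝ) / m| ≤ 1 := by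
    intro r
    obtain ⟨v, hv⟩ := ZMod.intCast_surjective r
    rw [← hv]
    exact D0_one hm v lo hi
  rw [hsum]
  push_cast
  have hrw : (∑ r ∈ Rs, ((((Finset.Icc lo hi).filter (fun c : ℤ => ((c : ℤ) : ZMod m) = r)).card : ℕ) : ℝ)) -
      (Rs.card : ℝ) * ((Finset.Icc lo hi).card : ℝ) / m =
      ∑ r ∈ Rs, (((((Finset.Icc lo hi).filter (fun c : ℤ => ((c : ℤ) : ZMod m) = r)).card : ℕ) : ℝ) -
        ((Finset.Icc lo hi).card : ℝ) / m) := by
    rw [Finset.sum_sub_distrib, Finset.sum_const, nsmul_eq_mul, mul_div_assoc]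
  rw [hrw]
  calc |∑ r ∈ Rs, (((((Finset.Icc lo hi).filter (fun c : ℤ => ((c : ℤ) : ZMod m) = r)).card : ℕ) : ℝ) -
        ((Finset.Icc lo hi).card : ℝ) / m)|
      ≤ ∑ r ∈ Rs, |((((Finset.Icc lo hi).filter (fun c : ℤ => ((c : ℤ) : ZMod m) = r)).card : ℕ) : ℝ) -
        ((Finset.Icc lo hi).card : ℝ) / m| := Finset.abs_sum_le_sum_abs _ _
    _ ≤ ∑ r ∈ Rs, (1 : ℝ) := Finset.sum_le_sum fun r _ => hone r
    _ = (Rs.card : ℝ) := by simp

end TI
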