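import Pool.Agent.Lib.MP_021685_agTI.D0

/-! LEAF D2 (medium).  Exact divisibility of a quadratic polynomial, one and two primes.

PROOF.  Let `ℓ` be an odd prime, `ℓ ∤ D`, `D` a square mod `ℓ`.  Then `D` is a square modulo `ℓ²`: there is an integer `m` with `m² ≡ D (mod ℓ²)` (Hensel: if `m_0² = D + ℓ k` take `m = m_0 - ℓ k (2 m_0)^(-1)`), `ℓ ∤ m`.  For an integer `x`: `x² - D ≡ (x - m)(x + m) (mod ℓ²)`; the two factors
are not both divisible by `ℓ` (`ℓ ∤ 2m`).  So `ℓ ∣ x² - D` iff `x ≡ ±m (mod ℓ)`, and `ℓ² ∣ x² - D` iff `x ≡ ±m (mod ℓ²)`.  Hence the set `T_ℓ` of the residues `c` mod `ℓ²` with `ℓ ∣ (c+A)² - D`, `ℓ² ∤ (c+A)² - D` (well defined mod `ℓ²`) has exactly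
`2ℓ - 2 = 2(ℓ-1)` elements.  (`single`) by `count_residues` with modulus `ℓ²`: `|N - 2(ℓ-1)/ℓ² * L| ≤ 2(ℓ-1) ≤ 2ℓ`.
(`pair`) for two different primes the set of residues mod `(ℓ ℓ')²` is by the Chinese remainder theorem (`ZMod.chineseRemainder`) `T_ℓ × T_ℓ'`, `4(ℓ-1)(ℓ'-1)` elements; `count_residues` again.  `delt ℓ = 2(ℓ-1)/ℓ²`. -/

namespace TI

/-- `ℓ` divides `(c + A)² - D` exactly once -/
def Ex (A D : ℤ) (ℓ : ℕ) (c : ℤ) : Prop :=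
  (ℓ : ℤ) ∣ (c + A) ^ 2 - D ∧ ¬ (ℓ : ℤ) ^ 2 ∣ (c + A) ^ 2 - D

/-- density -/
noncomputable def delt (ℓ : ℕ) : ℝ := 2 * ((ℓ : ℝ) - 1) / (ℓ : ℝ) ^ 2

section D2

variable {ℓ : ℕ}

/-- The reduction modulo `ℓ`. -/
private abbrev D2_pi (ℓ : ℕ) : ZMod (ℓ ^ 2) →+* ZMod ℓ := ZMod.castHom (dvd_pow_self ℓ two_ne_zero) (ZMod ℓ)

private theorem D2_surj (ℓ : ℕ) : Function.Surjective (D2_pi ℓ) :=
  ZMod.castHom_surjective (dvd_pow_self ℓ two_ne_zero)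

private theorem D2_unit [Fact ℓ.Prime] (x : ZMod (ℓ ^ 2)) (h : D2_pi ℓ x ≠ 0) : IsUnit x := by
  have hℓ := Fact.out (p := ℓ.Prime)
  have : NeZero ℓ := ⟨hℓ.ne_zero⟩
  have h1 : ((x.val : ℕ) : ZMod (ℓ ^ 2)) = x := ZMod.natCast_zmod_val x
  rw [← h1, ZMod.isUnit_iff_coprime]
  refine Nat.Coprime.pow_right 2 ?_
  rw [Nat.coprime_comm, hℓ.coprime_iff_not_dvd]
  intro h2
  apply h
  rw [← h1, map_natCast]
  exact (ZMod.natCast_eq_zero_iff _ _).mpr h2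

private theorem D2_ker [NeZero ℓ] (x : ZMod (ℓ ^ 2)) (h : D2_pi ℓ x = 0) :
    ∃ k : ZMod (ℓ ^ 2), x = (ℓ : ZMod (ℓ ^ 2)) * k := by
  have h1 : ((x.val : ℕ) : ZMod (ℓ ^ 2)) = x := ZMod.natCast_zmod_val x
  rw [← h1, map_natCast] at h
  obtain ⟨k, hk⟩ := (ZMod.natCast_eq_zero_iff _ _).mp h
  refine ⟨(k : ZMod (ℓ ^ 2)), ?_⟩
  rw [← h1, hk, Nat.cast_mul]

private theorem D2_mul [NeZero ℓ] (x y : ZMod (ℓ ^ 2)) (hx : D2_pi ℓ x = 0) (hy : D2_pi ℓ y = 0) :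
    x * y = 0 := by
  obtain ⟨k, rfl⟩ := D2_ker x hx
  obtain ⟨k', rfl⟩ := D2_ker y hy
  have h1 : (ℓ : ZMod (ℓ ^ 2)) * (ℓ : ZMod (ℓ ^ 2)) = 0 := by
    rw [← Nat.cast_mul, ← sq]
    exact (ZMod.natCast_eq_zero_iff _ _).mpr dvd_rfl
  linear_combination (k * k') * h1

private theorem D2_fib [NeZero ℓ] (y : ZMod ℓ) :
    (Finset.univ.filter fun z : ZMod (ℓ ^ 2) => D2_pi ℓ z = y).card = ℓ := by
  classical
  have h1 : ∀ y' : ZMod ℓ, (Finset.univ.filter fun z : ZMod (ℓ ^ 2) => D2_pi ℓ z = y').card =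
      (Finset.univ.filter fun z : ZMod (ℓ ^ 2) => D2_pi ℓ z = y).card := by
    intro y'
    exact AddMonoidHom.card_fiber_eq_of_mem_range (D2_pi ℓ).toAddMonoidHom (D2_surj ℓ y') (D2_surj ℓ y)
  have h2 := Finset.card_eq_sum_card_fiberwise (f := D2_pi ℓ) (s := (Finset.univ : Finset (ZMod (ℓ ^ 2))))
    (t := (Finset.univ : Finset (ZMod ℓ))) (fun _ _ => Finset.mem_coe.mpr (Finset.mem_univ _))
  rw [Finset.sum_congr rfl fun y' _ => h1 y', Finset.sum_const, Finset.card_univ, Finset.card_univ,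
    ZMod.card, ZMod.card, smul_eq_mul] at h2
  exact (Nat.eq_of_mul_eq_mul_left (NeZero.pos ℓ) ((sq ℓ).symm.trans h2)).symm

/-- The residues `z` with `ℓ` dividing `(z + A)² - D` exactly once. -/
private noncomputable def D2_T (A D : ℤ) (ℓ : ℕ) [NeZero ℓ] : Finset (ZMod (ℓ ^ 2)) :=
  Finset.univ.filter fun z => (D2_pi ℓ z + (A : ZMod ℓ)) ^ 2 = (D : ZMod ℓ) ∧
    ¬ (z + (A : ZMod (ℓ ^ 2))) ^ 2 = (D : ZMod (ℓ ^ 2))

private theorem D2_mem (A D : ℤ) [NeZero ℓ] (c : ℤ) : (c : ZMod (ℓ ^ 2)) ∈ D2_T A D ℓ ↔ Ex A D ℓ c := by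
  unfold D2_T Ex
  rw [Finset.mem_filter, map_intCast]
  have h1 : (ℓ : ℤ) ∣ (c + A) ^ 2 - D ↔ ((c : ZMod ℓ) + (A : ZMod ℓ)) ^ 2 = (D : ZMod ℓ) := by
    rw [← ZMod.intCast_zmod_eq_zero_iff_dvd]
    push_cast
    exact sub_eq_zero
  have h2 : (ℓ : ℤ) ^ 2 ∣ (c + A) ^ 2 - D ↔
      ((c : ZMod (ℓ ^ 2)) + (A : ZMod (ℓ ^ 2))) ^ 2 = (D : ZMod (ℓ ^ 2)) := by
    rw [← Nat.cast_pow, ← ZMod.intCast_zmod_eq_zero_iff_dvd]
    push_cast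
    exact sub_eq_zero
  rw [h1, h2]
  simp

private theorem D2_card (A D : ℤ) (hℓ : ℓ.Prime) [NeZero ℓ] (ho : Odd ℓ) (hD : ¬ (ℓ : ℤ) ∣ D)
    (hs : IsSquare ((D : ℤ) : ZMod ℓ)) : (D2_T A D ℓ).card = 2 * (ℓ - 1) := by
  classical
  have hF : Fact ℓ.Prime := ⟨hℓ⟩
  obtain ⟨μ, hμ⟩ := hs
  have hD0 : (D : ZMod ℓ) ≠ 0 := fun h => hD ((ZMod.intCast_zmod_eq_zero_iff_dvd _ _).mp h)
  have hμ0 : μ ≠ 0 := by
    rintro rfl
    rw [mul_zero] at hμ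
    exact hD0 hμ
  have h2 : (2 : ZMod ℓ) ≠ 0 := by
    have h3 : ((2 : ℕ) : ZMod ℓ) ≠ 0 := by
      intro h
      have h4 := (ZMod.natCast_eq_zero_iff _ _).mp h
      have h5 : ℓ = 2 := (Nat.prime_dvd_prime_iff_eq hℓ Nat.prime_two).mp h4
      rw [h5] at ho
      exact absurd ho (by decide)
    exact_mod_cast h3
  have h2μ : 2 * μ ≠ 0 := mul_ne_zero h2 hμ0
  -- a square root modulo `ℓ ^ 2`
  obtain ⟨m, hm, hmμ⟩ : ∃ m : ZMod (ℓ ^ 2), m ^ 2 = (D : ZMod (ℓ ^ 2)) ∧ D2_pi ℓ m = μ := by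
    obtain ⟨m₀, hm₀⟩ := D2_surj ℓ μ
    obtain ⟨u, hu⟩ := D2_unit (2 * m₀) (by rw [map_mul, hm₀, map_ofNat]; exact h2μ)
    have he : D2_pi ℓ (m₀ ^ 2 - (D : ZMod (ℓ ^ 2))) = 0 := by
      rw [map_sub, map_pow, map_intCast, hm₀, hμ]
      ring
    set e := m₀ ^ 2 - (D : ZMod (ℓ ^ 2)) with hedef
    have hee : e * e = 0 := D2_mul e e he he
    have huv : (2 * m₀) * (↑u⁻¹ : ZMod (ℓ ^ 2)) = 1 := by
      rw [← hu]
      exact Units.mul_inv u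
    refine ⟨m₀ - e * (↑u⁻¹ : ZMod (ℓ ^ 2)), ?_, ?_⟩
    · have h5 : (D : ZMod (ℓ ^ 2)) = m₀ ^ 2 - e := by
        rw [hedef]
        ring
      rw [h5]
      linear_combination (-e) * huv + (↑u⁻¹ : ZMod (ℓ ^ 2)) ^ 2 * hee
    · rw [map_sub, map_mul, he, zero_mul, sub_zero, hm₀]
  set a : ZMod (ℓ ^ 2) := (A : ZMod (ℓ ^ 2)) with ha
  have hπa : D2_pi ℓ a = (A : ZMod ℓ) := by
    rw [ha, map_intCast]
  set F1 := Finset.univ.filter fun z : ZMod (ℓ ^ 2) => D2_pi ℓ z = μ - (A : ZMod ℓ) with hF1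
  set F2 := Finset.univ.filter fun z : ZMod (ℓ ^ 2) => D2_pi ℓ z = -μ - (A : ZMod ℓ) with hF2
  have e1 : ∀ z, D2_pi ℓ z = μ - (A : ZMod ℓ) → ((z + a) ^ 2 = (D : ZMod (ℓ ^ 2)) ↔ z = m - a) := by
    intro z hz
    constructor
    · intro h
      have hu : IsUnit (z + a + m) := by
        refine D2_unit _ ?_
        rw [map_add, map_add, hz, hπa, hmμ]
        have : μ - (A : ZMod ℓ) + (A : ZMod ℓ) + μ = 2 * μ := by ring
        rw [this]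
        exact h2μ
      have h0 : (z + a + m) * (z + a - m) = 0 := by
        rw [← hm] at h
        linear_combination h
      have h1 := (hu.mul_right_eq_zero).mp h0
      linear_combination h1
    · rintro rfl
      rw [← hm]
      ring
  have e2 : ∀ z, D2_pi ℓ z = -μ - (A : ZMod ℓ) → ((z + a) ^ 2 = (D : ZMod (ℓ ^ 2)) ↔ z = -m - a) := by
    intro z hz
    constructor
    · intro h
      have hu : IsUnit (z + a - m) := by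
        refine D2_unit _ ?_
        rw [map_sub, map_add, hz, hπa, hmμ]
        have : -μ - (A : ZMod ℓ) + (A : ZMod ℓ) - μ = -(2 * μ) := by ring
        rw [this]
        exact neg_ne_zero.mpr h2μ
      have h0 : (z + a - m) * (z + a + m) = 0 := by
        rw [← hm] at h
        linear_combination h
      have h1 := (hu.mul_right_eq_zero).mp h0
      linear_combination h1
    · rintro rfl
      rw [← hm]
      ring
  have hT : D2_T A D ℓ = F1.erase (m - a) ∪ F2.erase (-m - a) := by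
    ext z
    unfold D2_T
    rw [Finset.mem_filter, Finset.mem_union, Finset.mem_erase, Finset.mem_erase, hF1, hF2,
      Finset.mem_filter, Finset.mem_filter]
    have h3 : (D2_pi ℓ z + (A : ZMod ℓ)) ^ 2 = (D : ZMod ℓ) ↔
        D2_pi ℓ z = μ - (A : ZMod ℓ) ∨ D2_pi ℓ z = -μ - (A : ZMod ℓ) := by
      rw [hμ, ← sq, sq_eq_sq_iff_eq_or_eq_neg]
      refine or_congr ?_ ?_
      · exact eq_sub_iff_add_eq.symm
      · exact eq_sub_iff_add_eq.symm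
    rw [h3]
    constructor
    · rintro ⟨-, h | h, h4⟩
      · exact Or.inl ⟨fun h5 => h4 ((e1 z h).mpr h5), Finset.mem_univ _, h⟩
      · exact Or.inr ⟨fun h5 => h4 ((e2 z h).mpr h5), Finset.mem_univ _, h⟩
    · rintro (⟨h4, -, h⟩ | ⟨h4, -, h⟩)
      · exact ⟨Finset.mem_univ _, Or.inl h, fun h5 => h4 ((e1 z h).mp h5)⟩
      · exact ⟨Finset.mem_univ _, Or.inr h, fun h5 => h4 ((e2 z h).mp h5)⟩
  have hdis : Disjoint (F1.erase (m - a)) (F2.erase (-m - a)) := by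
    rw [Finset.disjoint_left]
    intro z hz1 hz2
    have h3 := (Finset.mem_filter.mp (Finset.mem_of_mem_erase hz1)).2
    have h4 := (Finset.mem_filter.mp (Finset.mem_of_mem_erase hz2)).2
    apply h2μ
    rw [h3] at h4
    linear_combination h4
  have hm1 : m - a ∈ F1 := by
    rw [hF1, Finset.mem_filter]
    exact ⟨Finset.mem_univ _, by rw [map_sub, hmμ, hπa]⟩
  have hm2 : -m - a ∈ F2 := by
    rw [hF2, Finset.mem_filter]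
    exact ⟨Finset.mem_univ _, by rw [map_sub, map_neg, hmμ, hπa]⟩
  rw [hT, Finset.card_union_of_disjoint hdis, Finset.card_erase_of_mem hm1, Finset.card_erase_of_mem hm2,
    D2_fib, D2_fib]
  ring

private theorem D2_cast (hℓ : ℓ.Prime) {n : ℕ} (h : n = 2 * (ℓ - 1)) : (n : ℝ) = 2 * ((ℓ : ℝ) - 1) := by
  rw [h]
  push_cast [Nat.cast_sub hℓ.one_lt.le]
  ring

end D2

open Classical in
theorem single (A D : ℤ) {ℓ : ℕ} (hℓ : ℓ.Prime) (ho : Odd ℓ) (hD : ¬ (ℓ : ℤ) ∣ D)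
    (hs : IsSquare ((D : ℤ) : ZMod ℓ)) (lo hi : ℤ) :
    |((((Finset.Icc lo hi).filter (fun c : ℤ => Ex A D ℓ c)).card : ℕ) : ℝ) -
      delt ℓ * ((Finset.Icc lo hi).card : ℝ)| ≤ 2 * ℓ := by
  have : NeZero ℓ := ⟨hℓ.ne_zero⟩
  have hc := D2_cast hℓ (D2_card A D hℓ ho hD hs)
  have h := count_residues (m := ℓ ^ 2) (pow_pos hℓ.pos 2) (D2_T A D ℓ) lo hi
  have h1 : ((Finset.Icc lo hi).filter (fun c : ℤ => Ex A D ℓ c)).card =
      ((Finset.Icc lo hi).filter (fun c : ℤ => ((c : ℤ) : ZMod (ℓ ^ 2)) ∈ D2_T A D ℓ)).card := by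
    congr 1
    ext c
    rw [Finset.mem_filter, Finset.mem_filter, D2_mem]
  rw [h1]
  have h2 : ((D2_T A D ℓ).card : ℝ) * ((Finset.Icc lo hi).card : ℝ) / ((ℓ ^ 2 : ℕ) : ℝ) =
      delt ℓ * ((Finset.Icc lo hi).card : ℝ) := by
    rw [hc, delt, Nat.cast_pow]
    ring
  rw [h2] at h
  refine h.trans ?_
  rw [hc]
  linarith

open Classical in
theorem pair (A D : ℤ) {ℓ ℓ' : ℕ} (hne : ℓ ≠ ℓ') (hℓ : ℓ.Prime) (ho : Odd ℓ) (hD : ¬ (ℓ : ℤ) ∣ D)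
    (hs : IsSquare ((D : ℤ) : ZMod ℓ)) (hℓ' : ℓ'.Prime) (ho' : Odd ℓ') (hD' : ¬ (ℓ' : ℤ) ∣ D)
    (hs' : IsSquare ((D : ℤ) : ZMod ℓ')) (lo hi : ℤ) :
    |((((Finset.Icc lo hi).filter (fun c : ℤ => Ex A D ℓ c ∧ Ex A D ℓ' c)).card : ℕ) : ℝ) -
      delt ℓ * delt ℓ' * ((Finset.Icc lo hi).card : ℝ)| ≤ 4 * ℓ * ℓ' := by
  have : NeZero ℓ := ⟨hℓ.ne_zero⟩
  have : NeZero ℓ' := ⟨hℓ'.ne_zero⟩
  have hc := D2_cast hℓ (D2_card A D hℓ ho hD hs)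
  have hc' := D2_cast hℓ' (D2_card A D hℓ' ho' hD' hs')
  have hcop : Nat.Coprime (ℓ ^ 2) (ℓ' ^ 2) :=
    Nat.Coprime.pow 2 2 ((Nat.coprime_primes hℓ hℓ').mpr hne)
  let χ := ZMod.chineseRemainder hcop
  let Rs : Finset (ZMod (ℓ ^ 2 * ℓ' ^ 2)) := (D2_T A D ℓ ×ˢ D2_T A D ℓ').map χ.symm.toEquiv.toEmbedding
  have hRs : ∀ z, z ∈ Rs ↔ χ z ∈ D2_T A D ℓ ×ˢ D2_T A D ℓ' := by
    intro z
    exact Finset.mem_map_equiv
  have hcard : (Rs.card : ℝ) = (2 * ((ℓ : ℝ) - 1)) * (2 * ((ℓ' : ℝ) - 1)) := by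
    rw [Finset.card_map, Finset.card_product, Nat.cast_mul, hc, hc']
  have h := count_residues (m := ℓ ^ 2 * ℓ' ^ 2) (mul_pos (pow_pos hℓ.pos 2) (pow_pos hℓ'.pos 2)) Rs lo hi
  have h1 : ((Finset.Icc lo hi).filter (fun c : ℤ => Ex A D ℓ c ∧ Ex A D ℓ' c)).card =
      ((Finset.Icc lo hi).filter (fun c : ℤ => ((c : ℤ) : ZMod (ℓ ^ 2 * ℓ' ^ 2)) ∈ Rs)).card := by
    congr 1
    ext c
    rw [Finset.mem_filter, Finset.mem_filter, hRs, Finset.mem_product]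
    have h3 : χ (c : ZMod (ℓ ^ 2 * ℓ' ^ 2)) = ((c : ZMod (ℓ ^ 2)), (c : ZMod (ℓ' ^ 2))) := by
      rw [map_intCast]
      rfl
    rw [h3, D2_mem, D2_mem]
  rw [h1]
  have hl0 : (0 : ℝ) < (ℓ : ℝ) := by exact_mod_cast hℓ.pos
  have hl0' : (0 : ℝ) < (ℓ' : ℝ) := by exact_mod_cast hℓ'.pos
  have h2 : (Rs.card : ℝ) * ((Finset.Icc lo hi).card : ℝ) / ((ℓ ^ 2 * ℓ' ^ 2 : ℕ) : ℝ) =
      delt ℓ * delt ℓ' * ((Finset.Icc lo hi).card : ℝ) := by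
    rw [hcard, delt, delt, Nat.cast_mul, Nat.cast_pow, Nat.cast_pow]
    field_simp
  rw [h2] at h
  refine h.trans ?_
  rw [hcard]
  have hl1 : (1 : ℝ) ≤ (ℓ : ℝ) := by exact_mod_cast hℓ.one_lt.le
  have hl1' : (1 : ℝ) ≤ (ℓ' : ℝ) := by exact_mod_cast hℓ'.one_lt.le
  nlinarith

end TI
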