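import Pool.Agent.Lib.MP_021685_agTI.TDefs

/-! LEAF E0 (easy).  Even and odd part.

PROOF.  (1) `aeval m h = ∑_{i ≤ n} h_i m^i`; for even `i`: `m^i = (m²)^(i/2) = (4q)^(i/2)`, for odd `i`: `m^i = m (4q)^(i/2)`.  (2) `(A + mB)(A - mB) = A² - m² B²`.  (3) for `natDegree h ≥ 1` the polynomial `h + C c` has the same natDegree and only its coefficient
`0` changes, by `c`: it is a term of `evA`. -/

namespace TI

open Polynomial

theorem aeval_eq {S : Type} [CommRing S] (q : ℕ) (h : ℤ[X]) (m : S) (hm : m ^ 2 = 4 * (q : S)) :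
    aeval m h = (evA q h : S) + m * (evB q h : S) := by
  rw [aeval_eq_sum_range]
  unfold evA evB
  rw [Int.cast_sum, Int.cast_sum, Finset.mul_sum, ← Finset.sum_add_distrib]
  refine Finset.sum_congr rfl fun i _ => ?_
  by_cases hi : Even i
  · rw [if_pos hi, if_pos hi, Int.cast_zero, mul_zero, add_zero]
    obtain ⟨k, rfl⟩ := hi
    have h2 : (k + k) / 2 = k := by omega
    rw [h2, ← two_mul, pow_mul, hm, zsmul_eq_mul]
    push_cast
    ring
  · rw [if_neg hi, if_neg hi, Int.cast_zero, zero_add]
    rw [Nat.not_even_iff_odd] at hi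
    obtain ⟨k, rfl⟩ := hi
    have h2 : (2 * k + 1) / 2 = k := by omega
    rw [h2, pow_succ, pow_mul, hm, zsmul_eq_mul]
    push_cast
    ring

theorem resq_cast {S : Type} [CommRing S] (q : ℕ) (h : ℤ[X]) (m : S) (hm : m ^ 2 = 4 * (q : S)) :
    (resq q h : S) = aeval m h * aeval (-m) h := by
  have hm' : (-m) ^ 2 = 4 * (q : S) := by
    rw [neg_sq, hm]
  rw [aeval_eq q h m hm, aeval_eq q h (-m) hm']
  unfold resq
  push_cast
  linear_combination ((evB q h : S) ^ 2) * hm

theorem ev_add_C (q : ℕ) (h : ℤ[X]) (hn : 1 ≤ h.natDegree) (c : ℤ) :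
    evA q (h + C c) = c + evA q h ∧ evB q (h + C c) = evB q h := by
  have h1 : (h + C c).natDegree = h.natDegree := natDegree_add_C
  have h2 : ∀ i, (h + C c).coeff i = h.coeff i + if i = 0 then c else 0 := by
    intro i
    rw [coeff_add, coeff_C]
  constructor
  · unfold evA
    rw [h1]
    have h3 : ∀ i ∈ Finset.range (h.natDegree + 1),
        (if Even i then (h + C c).coeff i * (4 * (q : ℤ)) ^ (i / 2) else 0) =
        (if i = 0 then c else 0) + (if Even i then h.coeff i * (4 * (q : ℤ)) ^ (i / 2) else 0) := by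
      intro i _
      rw [h2]
      by_cases hi : i = 0
      · subst hi
        simp
        ring
      · simp only [if_neg hi, add_zero, zero_add]
    rw [Finset.sum_congr rfl h3, Finset.sum_add_distrib, Finset.sum_ite_eq', if_pos]
    rw [Finset.mem_range]
    omega
  · unfold evB
    rw [h1]
    refine Finset.sum_congr rfl fun i _ => ?_
    rw [h2]
    by_cases hi : i = 0
    · subst hi
      simp
    · rw [if_neg hi, add_zero]

end TI
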