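import Pool.Agent.Lib.MP_021685_agTI.E0

/-! LEAF E1 (medium+).  The separability integer.

PROOF.  `s = √q`, `f_± = h - h(±2s)` over `ℝ`.  Let `Z = Zsqrtd (4 q)` (`ℤ√(4q)`, a commutative ring with norm `(a + b√)(a - b√)`), `ω = √(4q) ∈ Z`, and `f = h - C(h(ω)) ∈ Z[X]`, monic of degree `g`.  `e = resultant f f' g (g-1) ∈ Z` (`Polynomial.resultant`, formal degrees `g`, `g-1`),
`E = Norm e = e * star e` (an integer; `Zsqrtd.norm_eq_mul_conj`).  The ring homomorphisms `φ_±: Z → ℝ`, `ω ↦ ±2s` (`Zsqrtd.lift`) map `f` to `f_±` and `e` to `resultant f_± f_±'` (`resultant_map_map`), and `φ_+(star e) = φ_-(e)`, so `(E : ℝ) = Res(f_+, f_+') Res(f_-, f_-')`.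
(1) `f_±` are separable, i.e. coprime to their derivatives, so both resultants are nonzero (`resultant_ne_zero`, `resultant_eq_zero_iff`): `E ≠ 0`.
(2) Over `ℂ`: `f_±` has roots `y_1..y_g` and `Res(f, f') = ± ∏_i f'(y_i) = ± ∏_i ∏_{j ≠ i} (y_i - y_j)` (`resultant_eq_prod_eval`).  All `|y_i| ≤ 6s`: the roots of `h` are in `[-2s, 2s]`, `|h(±2s)| ≤ (4s)^g`, and for `|y| > 6s`: `|h(y)| ≥ (|y| - 2s)^g > (4s)^g`.
So `|y_i - y_j| ≤ 12 s` and `|E| ≤ (12 s)^(2 g (g-1)) ≤ (12 s)^(2 g²)` (`12 s ≥ 1`).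
(3) Let `ℓ` be a prime, `ℓ ∤ E`, `k` an algebraic closure of `ZMod ℓ`, `c` an integer with `ℓ ∣ resq q (h + C c)`.  Take `m ∈ k` with `m² = 4q`.  By `resq_cast`: `(h + c)(m) (h + c)(-m) = 0` in `k`; replacing `m` by `-m` we may assume `(h + c)(m) = 0`, i.e. `c = -h(m)` in `k`.
The ring homomorphism `ψ: Z → k`, `ω ↦ m`, maps `f` to `h - h(m) = h + c` (image in `k[X]`), `E` to `ψ(e) ψ(star e)`, which is nonzero because `ℓ ∤ E`; so `ψ(e) = resultant (h+c) (h+c)' g (g-1) ≠ 0` in `k`, and `h + c` (monic of degree `g`) is coprime to its derivative over `k`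
(if they had a common root `y`, `resultant_eq_prod_eval` gives `∏ (h+c)'(roots) = 0`).  So the image of `h + c` in `k[X]` is separable and hence also in `(ZMod ℓ)[X]` (`Polynomial.separable_map`). -/

namespace TI

open Polynomial

/-- `h - h(m)` is separable -/
def SepAt (h : ℤ[X]) (m : ℝ) : Prop :=
  (h.map (Int.castRingHom ℝ) - C ((h.map (Int.castRingHom ℝ)).eval m)).Separable

/-- the condition on a line -/
def OKline (q : ℕ) (h : ℤ[X]) : Prop :=
  evB q h ≠ 0 ∧ SepAt h (2 * Real.sqrt q) ∧ SepAt h (-(2 * Real.sqrt q))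

/-- `h - h(m)` over a commutative ring. -/
private noncomputable def E1_F (S : Type) [CommRing S] (h : ℤ[X]) (m : S) : S[X] :=
  h.map (Int.castRingHom S) - C ((h.map (Int.castRingHom S)).eval m)

/-- The resultant of `h - h(m)` and its derivative, formal degrees `g` and `g - 1`. -/
private noncomputable def E1_R (S : Type) [CommRing S] (h : ℤ[X]) (g : ℕ) (m : S) : S :=
  resultant (E1_F S h m) (derivative (E1_F S h m)) g (g - 1)

private theorem E1_F_map {S T : Type} [CommRing S] [CommRing T] (φ : S →+* T) (h : ℤ[X]) (m : S) :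
    (E1_F S h m).map φ = E1_F T h (φ m) := by
  have h1 : φ.comp (Int.castRingHom S) = Int.castRingHom T := RingHom.ext_int _ _
  unfold E1_F
  rw [Polynomial.map_sub, Polynomial.map_map, map_C, eval_map, hom_eval₂, eval_map, h1]

private theorem E1_R_map {S T : Type} [CommRing S] [CommRing T] (φ : S →+* T) (h : ℤ[X]) (g : ℕ) (m : S) :
    φ (E1_R S h g m) = E1_R T h g (φ m) := by
  unfold E1_R
  rw [← resultant_map_map, ← derivative_map, E1_F_map]

/-- The norm of the resultant. -/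
private theorem E1_norm (q : ℕ) (h : ℤ[X]) (g : ℕ) {S : Type} [CommRing S] (m : S)
    (hm : m * m = ((4 * (q : ℤ) : ℤ) : S)) :
    ((Zsqrtd.norm (E1_R (ℤ√(4 * (q : ℤ))) h g Zsqrtd.sqrtd) : ℤ) : S) = E1_R S h g m * E1_R S h g (-m) := by
  have hm' : (-m) * (-m) = ((4 * (q : ℤ) : ℤ) : S) := by rw [neg_mul_neg, hm]
  have h1 := congrArg (Zsqrtd.lift ⟨m, hm⟩) (Zsqrtd.norm_eq_mul_conj (E1_R (ℤ√(4 * (q : ℤ))) h g Zsqrtd.sqrtd))
  have h2 : ∀ z : ℤ√(4 * (q : ℤ)), Zsqrtd.lift ⟨m, hm⟩ (star z) = Zsqrtd.lift ⟨-m, hm'⟩ z := by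
    intro z
    simp [Zsqrtd.lift]
  have h3 : Zsqrtd.lift ⟨m, hm⟩ (Zsqrtd.sqrtd : ℤ√(4 * (q : ℤ))) = m := by
    simp [Zsqrtd.lift]
  have h4 : Zsqrtd.lift ⟨-m, hm'⟩ (Zsqrtd.sqrtd : ℤ√(4 * (q : ℤ))) = -m := by
    simp [Zsqrtd.lift]
  rw [map_mul, h2, E1_R_map, E1_R_map, h3, h4, map_intCast] at h1
  exact h1

private theorem E1_monic {S : Type} [CommRing S] [Nontrivial S] {h : ℤ[X]} {g : ℕ} (hg : 2 ≤ g) (hm : h.Monic)
    (hd : h.natDegree = g) (m : S) : (E1_F S h m).Monic ∧ (E1_F S h m).natDegree = g := by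
  have h1 : (h.map (Int.castRingHom S)).Monic := hm.map _
  have h2 : (h.map (Int.castRingHom S)).natDegree = g := by rw [hm.natDegree_map, hd]
  have h3 : (C ((h.map (Int.castRingHom S)).eval m)).degree < (h.map (Int.castRingHom S)).degree := by
    refine lt_of_le_of_lt degree_C_le ?_
    rw [degree_eq_natDegree h1.ne_zero, h2]
    exact_mod_cast (by omega : 0 < g)
  exact ⟨h1.sub_of_left h3, by rw [E1_F, natDegree_sub_C, h2]⟩

private theorem E1_deriv_deg {S : Type} [CommRing S] {f : S[X]} {g : ℕ} (hd : f.natDegree = g) :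
    (derivative f).natDegree ≤ g - 1 := by
  rw [← hd]
  exact natDegree_derivative_le f

/-- If the resultant is a nonzero element of a field, the polynomial is separable. -/
private theorem E1_sep {K : Type} [Field K] {h : ℤ[X]} {g : ℕ} (hg : 2 ≤ g) (hm : h.Monic) (hd : h.natDegree = g)
    (m : K) (hR : E1_R K h g m ≠ 0) : (E1_F K h m).Separable := by
  obtain ⟨_, hF2⟩ := E1_monic hg hm hd m
  obtain ⟨a, b, _, _, e⟩ := exists_mul_add_mul_eq_C_resultant (E1_F K h m) (derivative (E1_F K h m))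
    (m := g) (n := g - 1) hF2.le (E1_deriv_deg hF2) (Or.inl (by omega))
  refine ⟨C (E1_R K h g m)⁻¹ * a, C (E1_R K h g m)⁻¹ * b, ?_⟩
  have h1 : C (E1_R K h g m)⁻¹ * a * E1_F K h m + C (E1_R K h g m)⁻¹ * b * derivative (E1_F K h m) =
      C (E1_R K h g m)⁻¹ * (E1_F K h m * a + derivative (E1_F K h m) * b) := by ring
  rw [h1, e, ← C_mul]
  show C ((E1_R K h g m)⁻¹ * E1_R K h g m) = 1
  rw [inv_mul_cancel₀ hR, C_1]

/-- The product formula over the complex numbers. -/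
private theorem E1_prod {h : ℤ[X]} {g : ℕ} (hg : 2 ≤ g) (hm : h.Monic) (hd : h.natDegree = g) (m : ℂ) :
    E1_R ℂ h g m = ((E1_F ℂ h m).roots.map (derivative (E1_F ℂ h m)).eval).prod := by
  obtain ⟨hF1, hF2⟩ := E1_monic hg hm hd m
  have h1 := resultant_eq_prod_eval (E1_F ℂ h m) (derivative (E1_F ℂ h m)) (g - 1) (E1_deriv_deg hF2)
    (IsAlgClosed.splits _)
  rw [hF2, hF1.leadingCoeff, one_pow, one_mul] at h1
  exact h1

private theorem E1_ne {h : ℤ[X]} {g : ℕ} (hg : 2 ≤ g) (hm : h.Monic) (hd : h.natDegree = g) (m : ℂ)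
    (hs : (E1_F ℂ h m).Separable) : E1_R ℂ h g m ≠ 0 := by
  rw [E1_prod hg hm hd]
  intro h0
  obtain ⟨y, hy, hy0⟩ := Multiset.mem_map.1 (Multiset.prod_eq_zero_iff.1 h0)
  have hy1 : eval y (E1_F ℂ h m) = 0 := (mem_roots'.1 hy).2
  obtain ⟨a, b, e⟩ := hs
  have h1 := congrArg (eval y) e
  rw [eval_add, eval_mul, eval_mul, hy1, hy0, mul_zero, mul_zero, add_zero, eval_one] at h1
  exact zero_ne_one h1

/-- A product of at most `D` factors. -/
private theorem E1_prod_le (s : Multiset ℂ) (D : ℝ) (hs : ∀ z ∈ s, ‖z‖ ≤ D) : ‖s.prod‖ ≤ D ^ (Multiset.card s) := by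
  induction s using Multiset.induction with
  | empty => simp
  | cons a s ih =>
    rw [Multiset.prod_cons, Multiset.card_cons, norm_mul, pow_succ']
    have h1 := ih fun z hz => hs z (Multiset.mem_cons_of_mem hz)
    have h2 := hs a (Multiset.mem_cons_self a s)
    exact mul_le_mul h2 h1 (norm_nonneg _) ((norm_nonneg _).trans h2)

private theorem E1_le_prod (s : Multiset ℂ) (D : ℝ) (hD : 0 ≤ D) (hs : ∀ z ∈ s, D ≤ ‖z‖) :
    D ^ (Multiset.card s) ≤ ‖s.prod‖ := by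
  induction s using Multiset.induction with
  | empty => simp
  | cons a s ih =>
    rw [Multiset.prod_cons, Multiset.card_cons, norm_mul, pow_succ']
    have h1 := ih fun z hz => hs z (Multiset.mem_cons_of_mem hz)
    have h2 := hs a (Multiset.mem_cons_self a s)
    exact mul_le_mul h2 h1 (pow_nonneg hD _) (norm_nonneg _)

/-- The roots of `h - h(m)`, `|m| ≤ 2 √q`, have absolute value at most `6 √q`. -/
private theorem E1_roots {q g : ℕ} (hq : 1 ≤ q) (hg : 2 ≤ g) {h : ℤ[X]} (hh : h ∈ Weil q g) (m : ℂ)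
    (hm : ‖m‖ ≤ 2 * Real.sqrt q) (y : ℂ) (hy : y ∈ (E1_F ℂ h m).roots) : ‖y‖ ≤ 6 * Real.sqrt q := by
  obtain ⟨hmon, hdeg, hroot⟩ := hh
  have hs : 0 < Real.sqrt q := Real.sqrt_pos.2 (by exact_mod_cast hq)
  have hss : Real.sqrt q ^ 2 = q := Real.sq_sqrt (Nat.cast_nonneg q)
  set H : ℂ[X] := h.map (Int.castRingHom ℂ) with hH
  have hHm : H.Monic := hmon.map _
  have hHd : H.natDegree = g := by rw [hH, hmon.natDegree_map, hdeg]
  have hHs : H.Splits := IsAlgClosed.splits H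
  have hev : ∀ z : ℂ, eval z H = (H.roots.map fun a => z - a).prod := fun z => hHs.eval_eq_prod_roots_of_monic hHm z
  have hcard : Multiset.card H.roots = g := by rw [← hHs.natDegree_eq_card_roots, hHd]
  have hx : ∀ x ∈ H.roots, ‖x‖ ≤ 2 * Real.sqrt q := by
    intro x hx
    have h1 : aeval x h = 0 := by
      have h2 : eval x H = 0 := (mem_roots'.1 hx).2
      rw [hH, eval_map] at h2
      exact h2
    obtain ⟨r, hr, hr2⟩ := hroot x h1
    rw [← hr, Complex.norm_real, Real.norm_eq_abs]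
    refine abs_le_of_sq_le_sq ?_ (by positivity)
    rw [mul_pow, hss]
    linarith
  have hym : eval y H = eval m H := by
    have h1 : eval y (E1_F ℂ h m) = 0 := (mem_roots'.1 hy).2
    rw [E1_F, eval_sub, eval_C] at h1
    exact sub_eq_zero.1 h1
  by_contra hlt
  have hlt' : 6 * Real.sqrt q < ‖y‖ := not_le.1 hlt
  have h1 : (‖y‖ - 2 * Real.sqrt q) ^ g ≤ ‖eval y H‖ := by
    rw [hev y, ← hcard, ← Multiset.card_map (fun a => y - a) H.roots]
    refine E1_le_prod _ _ (by linarith) ?_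
    intro z hz
    obtain ⟨x, hxm, rfl⟩ := Multiset.mem_map.1 hz
    have h2 := hx x hxm
    have h3 := norm_sub_norm_le y x
    linarith
  have h2 : ‖eval m H‖ ≤ (4 * Real.sqrt q) ^ g := by
    rw [hev m, ← hcard, ← Multiset.card_map (fun a => m - a) H.roots]
    refine E1_prod_le _ _ ?_
    intro z hz
    obtain ⟨x, hxm, rfl⟩ := Multiset.mem_map.1 hz
    have h3 := hx x hxm
    have h4 := norm_sub_le m x
    linarith
  have h3 : (4 * Real.sqrt q) ^ g < (‖y‖ - 2 * Real.sqrt q) ^ g :=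
    pow_lt_pow_left₀ (by linarith) (by positivity) (by omega)
  rw [hym] at h1
  linarith

private theorem E1_bound {q g : ℕ} (hq : 1 ≤ q) (hg : 2 ≤ g) {h : ℤ[X]} (hh : h ∈ Weil q g) (m : ℂ)
    (hm : ‖m‖ ≤ 2 * Real.sqrt q) : ‖E1_R ℂ h g m‖ ≤ (12 * Real.sqrt q) ^ (g ^ 2) := by
  classical
  obtain ⟨hF1, hF2⟩ := E1_monic hg hh.1 hh.2.1 m
  have hFs : (E1_F ℂ h m).Splits := IsAlgClosed.splits _
  have hcard : Multiset.card (E1_F ℂ h m).roots = g := by rw [← hFs.natDegree_eq_card_roots, hF2]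
  have hs : 1 ≤ Real.sqrt q := Real.one_le_sqrt.2 (by exact_mod_cast hq)
  rw [E1_prod hg hh.1 hh.2.1]
  have h1 : ∀ y ∈ (E1_F ℂ h m).roots, ‖eval y (derivative (E1_F ℂ h m))‖ ≤ (12 * Real.sqrt q) ^ g := by
    intro y hy
    rw [hFs.eval_root_derivative hF1 hy]
    have h2 : ‖(((E1_F ℂ h m).roots.erase y).map fun a => y - a).prod‖ ≤
        (12 * Real.sqrt q) ^ (Multiset.card (((E1_F ℂ h m).roots.erase y).map fun a => y - a)) := by
      refine E1_prod_le _ _ ?_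
      intro z hz
      obtain ⟨x, hxm, rfl⟩ := Multiset.mem_map.1 hz
      have h3 := E1_roots hq hg hh m hm y hy
      have h4 := E1_roots hq hg hh m hm x (Multiset.mem_of_mem_erase hxm)
      have h5 := norm_sub_le y x
      linarith
    refine h2.trans (pow_le_pow_right₀ (by linarith) ?_)
    rw [Multiset.card_map, ← hcard]
    exact Multiset.card_le_card (Multiset.erase_le _ _)
  have h2 := E1_prod_le ((E1_F ℂ h m).roots.map (derivative (E1_F ℂ h m)).eval) ((12 * Real.sqrt q) ^ g) (by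
    intro z hz
    obtain ⟨y, hy, rfl⟩ := Multiset.mem_map.1 hz
    exact h1 y hy)
  rw [Multiset.card_map, hcard, ← pow_mul, ← sq] at h2
  exact h2

/-- The primes which do not divide the norm. -/
private theorem E1_prime {q g : ℕ} (hg : 2 ≤ g) {h : ℤ[X]} (hmon : h.Monic) (hdeg : h.natDegree = g) {ℓ : ℕ}
    [Fact ℓ.Prime] (hE : ¬ (ℓ : ℤ) ∣ Zsqrtd.norm (E1_R (ℤ√(4 * (q : ℤ))) h g Zsqrtd.sqrtd)) {K : Type} [Field K]
    [IsAlgClosed K] (φ : ZMod ℓ →+* K) (c : ℤ) (hc : (ℓ : ℤ) ∣ resq q (h + C c)) :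
    ((h + C c).map (Int.castRingHom (ZMod ℓ))).Separable := by
  have hk : ∀ n : ℤ, (n : K) = 0 ↔ (ℓ : ℤ) ∣ n := by
    intro n
    rw [← ZMod.intCast_zmod_eq_zero_iff_dvd n ℓ, ← map_intCast φ n]
    exact map_eq_zero_iff _ φ.injective
  obtain ⟨m₀, hm₀⟩ := IsAlgClosed.exists_pow_nat_eq (4 * (q : K)) (n := 2) (by norm_num)
  have hres : aeval m₀ (h + C c) * aeval (-m₀) (h + C c) = 0 := by
    rw [← resq_cast q (h + C c) m₀ hm₀]
    exact (hk _).2 hc
  obtain ⟨m₁, hm₁, hm₁0⟩ : ∃ m₁ : K, m₁ * m₁ = ((4 * (q : ℤ) : ℤ) : K) ∧ aeval m₁ (h + C c) = 0 := by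
    have h3 : m₀ * m₀ = ((4 * (q : ℤ) : ℤ) : K) := by
      rw [← sq, hm₀]
      push_cast
      rfl
    rcases mul_eq_zero.1 hres with h4 | h4
    · exact ⟨m₀, h3, h4⟩
    · exact ⟨-m₀, by rw [neg_mul_neg, h3], h4⟩
  have hER := E1_norm q h g m₁ hm₁
  have hR : E1_R K h g m₁ ≠ 0 := by
    intro h0
    rw [h0, zero_mul] at hER
    exact hE ((hk _).1 hER)
  have hsep := E1_sep hg hmon hdeg m₁ hR
  have hF : E1_F K h m₁ = ((h + C c).map (Int.castRingHom (ZMod ℓ))).map φ := by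
    have h5 : φ.comp (Int.castRingHom (ZMod ℓ)) = Int.castRingHom K := RingHom.ext_int _ _
    rw [Polynomial.map_map, h5, Polynomial.map_add, map_C, E1_F, sub_eq_add_neg, ← C_neg]
    congr 2
    have h6 : eval m₁ (h.map (Int.castRingHom K)) + (c : K) = 0 := by
      rw [map_add, aeval_C] at hm₁0
      rw [eval_map]
      exact hm₁0
    exact neg_eq_of_add_eq_zero_right h6
  rw [hF] at hsep
  exact (Polynomial.separable_map φ).1 hsep

theorem sep_integer {q g : ℕ} (hq : 1 ≤ q) (hg : 2 ≤ g) {h : ℤ[X]} (hh : h ∈ Weil q g)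
    (h1 : SepAt h (2 * Real.sqrt q)) (h2 : SepAt h (-(2 * Real.sqrt q))) :
    ∃ E : ℤ, E ≠ 0 ∧ |(E : ℝ)| ≤ (12 * Real.sqrt q) ^ (2 * g ^ 2) ∧
      ∀ ℓ : ℕ, ℓ.Prime → ¬ (ℓ : ℤ) ∣ E → ∀ c : ℤ, (ℓ : ℤ) ∣ resq q (h + C c) →
        ((h + C c).map (Int.castRingHom (ZMod ℓ))).Separable := by
  have hmon := hh.1
  have hdeg := hh.2.1
  have hss : Real.sqrt q ^ 2 = q := Real.sq_sqrt (Nat.cast_nonneg q)
  have hs1 : 1 ≤ Real.sqrt q := Real.one_le_sqrt.2 (by exact_mod_cast hq)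
  set m : ℂ := ((2 * Real.sqrt q : ℝ) : ℂ) with hmdef
  have hmm : m * m = ((4 * (q : ℤ) : ℤ) : ℂ) := by
    rw [hmdef, ← Complex.ofReal_mul]
    have h3 : 2 * Real.sqrt q * (2 * Real.sqrt q) = 4 * q := by
      linear_combination 4 * hss
    rw [h3]
    push_cast
    rfl
  have hmn : ‖m‖ ≤ 2 * Real.sqrt q := by
    rw [hmdef, Complex.norm_real, Real.norm_of_nonneg (by positivity)]
  have hmn' : ‖-m‖ ≤ 2 * Real.sqrt q := by rwa [norm_neg]
  have hsepC : ∀ x : ℝ, SepAt h x → (E1_F ℂ h (x : ℂ)).Separable := by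
    intro x hx
    have h3 : (E1_F ℝ h x).Separable := hx
    have h4 : E1_F ℂ h (x : ℂ) = (E1_F ℝ h x).map (algebraMap ℝ ℂ) := (E1_F_map (algebraMap ℝ ℂ) h x).symm
    rw [h4]
    exact h3.map
  have hn1 : E1_R ℂ h g m ≠ 0 := E1_ne hg hmon hdeg m (hsepC _ h1)
  have hn2 : E1_R ℂ h g (-m) ≠ 0 := by
    refine E1_ne hg hmon hdeg (-m) ?_
    have h3 := hsepC _ h2
    rwa [Complex.ofReal_neg] at h3
  set E : ℤ := Zsqrtd.norm (E1_R (ℤ√(4 * (q : ℤ))) h g Zsqrtd.sqrtd) with hE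
  have hEC : (E : ℂ) = E1_R ℂ h g m * E1_R ℂ h g (-m) := E1_norm q h g m hmm
  refine ⟨E, ?_, ?_, ?_⟩
  · intro h0
    rw [h0, Int.cast_zero] at hEC
    exact mul_ne_zero hn1 hn2 hEC.symm
  · have h3 : |(E : ℝ)| = ‖(E : ℂ)‖ := by
      rw [Complex.norm_intCast]
    rw [h3, hEC, norm_mul, two_mul, pow_add]
    exact mul_le_mul (E1_bound hq hg hh m hmn) (E1_bound hq hg hh (-m) hmn') (norm_nonneg _) (by positivity)
  · intro ℓ hℓ hE c hc
    have : Fact ℓ.Prime := ⟨hℓ⟩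
    exact E1_prime hg hmon hdeg hE (algebraMap (ZMod ℓ) (AlgebraicClosure (ZMod ℓ))) c hc

end TI
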