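import Pool.Agent.Lib.MP_021685_agTI.TDefs

/-! T-INF, block F, file F0: the local data at a prime `l`. -/

namespace TI

open Polynomial

/-- A ring `W` with a map `res` to a field `k`, kernel `(l)`, with simple roots liftable: it will be the ring of Witt
vectors of an algebraic closure of the field with `l` elements. -/
structure Loc (l : ℕ) (W k : Type) [CommRing W] [Field k] where
  res : W →+* k
  ker : ∀ w : W, res w = 0 ↔ (l : W) ∣ w
  unit : ∀ w : W, ¬ (l : W) ∣ w → IsUnit w
  lift : ∀ (f : W[X]) (a : k), f.Monic → (f.map res).eval a = 0 → (f.map res).derivative.eval a ≠ 0 →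
    ∃ w : W, f.eval w = 0 ∧ res w = a

variable {l : ℕ} {W k : Type} [CommRing W] [Field k]

theorem Loc.prime [CharZero W] (D : Loc l W k) (hl : l ≠ 0) : Prime (l : W) := by
  refine ⟨Nat.cast_ne_zero.2 hl, fun hu => ?_, fun a b h => ?_⟩
  · have h1 : D.res (l : W) = 0 := (D.ker _).2 dvd_rfl
    exact (hu.map D.res).ne_zero h1
  · have h1 := (D.ker _).2 h
    rw [map_mul, mul_eq_zero] at h1
    exact h1.imp (D.ker _).1 (D.ker _).1

theorem Loc.int_dvd [CharP k l] (D : Loc l W k) (r : ℤ) : (l : W) ∣ (r : W) ↔ (l : ℤ) ∣ r := by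
  rw [← D.ker, map_intCast, CharP.intCast_eq_zero_iff k l]

theorem Loc.nat_dvd [CharP k l] (D : Loc l W k) (r : ℕ) : (l : W) ∣ (r : W) ↔ l ∣ r := by
  rw [← D.ker, map_natCast, CharP.cast_eq_zero_iff k l]

end TI
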