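import Mathlib

/-! T-INF, block F, leaf FC: the recursion `c_(n+1) = (2 + η) c_n - c_(n-1)`. -/

namespace TI

/-- PROOF. By induction on `n`, for `n` and `n + 1` together: there is `t : W` with
`U ^ n + (U⁻¹) ^ n = ι (2 + n ^ 2 η + η ^ 2 t)`. Start: `n = 0` gives `2`, `n = 1` is the hypothesis. Step:
`U ^ (n+2) + U⁻¹ ^ (n+2) = (U + U⁻¹)(U ^ (n+1) + U⁻¹ ^ (n+1)) - (U ^ n + U⁻¹ ^ n)` and
`(2 + η)(2 + (n+1)^2 η + η^2 t) - (2 + n^2 η + η^2 t') = 2 + (n+2)^2 η + η^2 ((n+1)^2 + 2 t + η t - t')`.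
If `U ^ n = 1` the left side is `2`, so (injectivity) `n ^ 2 η + η ^ 2 t = 0`, and `n ^ 2 = - η t` as `η ≠ 0`. -/
theorem cheb {W Om : Type} [CommRing W] [IsDomain W] [Field Om] (ι : W →+* Om) (hι : Function.Injective ι)
    (U : Om) (hU : U ≠ 0) (η : W) (hη : η ≠ 0) (h : U + U⁻¹ = ι (2 + η)) (n : ℕ) (hn : U ^ n = 1) :
    η ∣ (n : W) ^ 2 := by
  have key : ∀ m : ℕ, (∃ t : W, U ^ m + U⁻¹ ^ m = ι (2 + (m : W) ^ 2 * η + η ^ 2 * t)) ∧
      ∃ t : W, U ^ (m + 1) + U⁻¹ ^ (m + 1) = ι (2 + ((m : W) + 1) ^ 2 * η + η ^ 2 * t) := by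
    intro m
    induction m with
    | zero =>
      refine ⟨⟨0, ?_⟩, 0, ?_⟩
      · simp only [pow_zero, Nat.cast_zero, mul_zero, add_zero, ne_eq, OfNat.ofNat_ne_zero,
          not_false_eq_true, zero_pow, zero_mul]
        rw [map_ofNat]
        norm_num
      · rw [zero_add, pow_one, pow_one, h]
        congr 1
        push_cast
        ring
    | succ m ih =>
      obtain ⟨⟨t', h1⟩, t, h2⟩ := ih
      refine ⟨⟨t, ?_⟩, ((m : W) + 1) ^ 2 + 2 * t + η * t - t', ?_⟩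
      · rw [h2]
        congr 1
        push_cast
        ring
      · have h3 : U ^ (m + 1 + 1) + U⁻¹ ^ (m + 1 + 1) =
            (U + U⁻¹) * (U ^ (m + 1) + U⁻¹ ^ (m + 1)) - (U ^ m + U⁻¹ ^ m) := by
          have h4 : U * U⁻¹ = 1 := mul_inv_cancel₀ hU
          have h5 : U * U⁻¹ ^ (m + 1) = U⁻¹ ^ m := by
            rw [pow_succ', ← mul_assoc, h4, one_mul]
          have h6 : U⁻¹ * U ^ (m + 1) = U ^ m := by
            rw [pow_succ', ← mul_assoc, mul_comm U⁻¹ U, h4, one_mul]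
          rw [add_mul, mul_add, mul_add, h5, h6, ← pow_succ', ← pow_succ']
          ring
        rw [h3, h, h1, h2, ← map_mul, ← map_sub]
        congr 1
        push_cast
        ring
  obtain ⟨⟨t, h1⟩, -⟩ := key n
  rw [inv_pow, hn, inv_one] at h1
  have h2 : ι (2 + (n : W) ^ 2 * η + η ^ 2 * t) = ι 2 := by
    rw [← h1, map_ofNat]
    norm_num
  have h3 := hι h2
  have h4 : η * ((n : W) ^ 2 + η * t) = 0 := by linear_combination h3
  have h5 : (n : W) ^ 2 + η * t = 0 := (mul_eq_zero.1 h4).resolve_left hη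
  exact ⟨-t, by linear_combination h5⟩

end TI
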