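import Mathlib

/-! T-INF, block F, leaf FE: an embedding with a prescribed value. -/

namespace TI

open Polynomial

/-- PROOF. `h` is irreducible over the rationals (Gauss: Polynomial.Monic.irreducible_iff_irreducible_map_fraction_map, or
IsPrimitive.Int.irreducible_iff_irreducible_map_cast), so it is the minimal polynomial of `x`
(minpoly.eq_of_irreducible_of_monic), and IntermediateField.exists_algHom_of_splits_of_aeval (`Om` is algebraically
closed, so all minimal polynomials split) gives `ψ : E →ₐ[ℚ] Om` with `ψ x = y`. -/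
theorem emb (h : ℤ[X]) (hm : h.Monic) (hi : Irreducible h) {E Om : Type} [Field E] [Algebra ℚ E]
    [Algebra.IsAlgebraic ℚ E] [Field Om] [IsAlgClosed Om] [CharZero Om] (x : E) (hx : aeval x h = 0) (y : Om)
    (hy : aeval y h = 0) : ∃ ψ : E →+* Om, ψ x = y := by
  have hirr : Irreducible (h.map (algebraMap ℤ ℚ)) :=
    (Monic.irreducible_iff_irreducible_map_fraction_map (K := ℚ) hm).1 hi
  have hmon : (h.map (algebraMap ℤ ℚ)).Monic := hm.map _
  have hx' : aeval x (h.map (algebraMap ℤ ℚ)) = 0 := by
    rw [aeval_map_algebraMap]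
    exact hx
  have hy' : aeval y (h.map (algebraMap ℤ ℚ)) = 0 := by
    rw [aeval_map_algebraMap]
    exact hy
  have hmin : h.map (algebraMap ℤ ℚ) = minpoly ℚ x := minpoly.eq_of_irreducible_of_monic hirr hx' hmon
  rw [hmin] at hy'
  obtain ⟨φ, hφ⟩ := IntermediateField.exists_algHom_of_splits_of_aeval (F := ℚ) (E := E) (K := Om)
    (fun s => ⟨(Algebra.IsAlgebraic.isAlgebraic s).isIntegral, IsAlgClosed.splits _⟩) hy'
  exact ⟨φ.toRingHom, hφ⟩

end TI
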