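import Mathlib

/-! T-INF, block F, leaf FK: roots of quadratic polynomials over a discrete valuation ring. -/

namespace TI

open Polynomial

variable {W K Om : Type} [CommRing W] [Field K] [Algebra W K] [Field Om] [Algebra K Om]

private theorem FK_sq (q : ℕ) (w v : W) (hv : v ^ 2 = w ^ 2 - 4 * (q : W)) (y : Om)
    (hy : y ^ 2 - algebraMap K Om (algebraMap W K w) * y + (q : Om) = 0) :
    (2 * y - algebraMap K Om (algebraMap W K w)) ^ 2 = (algebraMap K Om (algebraMap W K v)) ^ 2 := by
  have h1 : (algebraMap K Om (algebraMap W K v)) ^ 2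
      = (algebraMap K Om (algebraMap W K w)) ^ 2 - 4 * (q : Om) := by
    rw [← map_pow, ← map_pow, hv, map_sub, map_sub, map_mul, map_mul, map_pow, map_pow]
    simp only [map_ofNat, map_natCast]
  rw [h1]
  linear_combination 4 * hy

/-- PROOF. In `Om`, `(2 y - w) ^ 2 = w ^ 2 - 4 q = v ^ 2`, so `2 y - w = v` or `2 y - w = -v`, and `y` is the image of
`(w + v) / 2` or of `(w - v) / 2` in `K`. -/
theorem root_mem [CharZero K] (q : ℕ) (w v : W) (hv : v ^ 2 = w ^ 2 - 4 * (q : W)) (y : Om)
    (hy : y ^ 2 - algebraMap K Om (algebraMap W K w) * y + (q : Om) = 0) :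
    ∃ c : K, algebraMap K Om c = y := by
  have h2 : (2 : Om) ≠ 0 := by
    have h : algebraMap K Om 2 ≠ 0 := by
      rw [Ne, map_eq_zero]
      exact two_ne_zero
    rwa [map_ofNat] at h
  rcases sq_eq_sq_iff_eq_or_eq_neg.mp (FK_sq q w v hv y hy) with h | h
  · refine ⟨(algebraMap W K w + algebraMap W K v) / 2, ?_⟩
    rw [map_div₀, map_add, map_ofNat]
    field_simp
    linear_combination -h
  · refine ⟨(algebraMap W K w - algebraMap W K v) / 2, ?_⟩
    rw [map_div₀, map_sub, map_ofNat]
    field_simp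
    linear_combination -h

/-- PROOF. If `y` is the image of `c` then `c' = 2 c - w` in `K` satisfies `c' ^ 2 = l e` (injectivity of `K → Om`).
`W` is integrally closed (a discrete valuation ring is a principal ideal domain), so `c'` is the image of some
`b : W` (IsIntegrallyClosed.isIntegral_iff or IsIntegrallyClosed.exists_algebraMap_eq_of_isIntegral_pow),
`b ^ 2 = l e` in `W`, `l ∣ b` (prime), `b = l b'`, `l b' ^ 2 = e`: contradiction. -/
theorem root_not_mem [IsDomain W] [IsDiscreteValuationRing W] [IsFractionRing W K] (l : W) (hl : Prime l) (q : ℕ)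
    (w e : W) (he : w ^ 2 - 4 * (q : W) = l * e) (hle : ¬ l ∣ e) (y : Om)
    (hy : y ^ 2 - algebraMap K Om (algebraMap W K w) * y + (q : Om) = 0) :
    ¬ ∃ c : K, algebraMap K Om c = y := by
  rintro ⟨c, rfl⟩
  have h1 : c ^ 2 - algebraMap W K w * c + (q : K) = 0 := by
    apply (algebraMap K Om).injective
    rw [map_zero, ← hy]
    simp
  have h2 : (2 * c - algebraMap W K w) ^ 2 = algebraMap W K (l * e) := by
    rw [← he, map_sub, map_pow, map_mul]
    simp only [map_ofNat, map_natCast]
    linear_combination 4 * h1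
  obtain ⟨b, hb⟩ : ∃ b : W, algebraMap W K b = 2 * c - algebraMap W K w := by
    have hi : IsIntegral W ((2 * c - algebraMap W K w) ^ 2) := by
      rw [h2]
      exact isIntegral_algebraMap
    have hi2 : IsIntegral W (2 * c - algebraMap W K w) := hi.of_pow (by norm_num)
    exact IsIntegrallyClosed.isIntegral_iff.mp hi2
  have h3 : b ^ 2 = l * e := by
    apply IsFractionRing.injective W K
    rw [map_pow, hb, h2]
  have h4 : l ∣ b := hl.dvd_of_dvd_pow (Dvd.intro e h3.symm)
  obtain ⟨b', rfl⟩ := h4
  apply hle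
  refine ⟨b' ^ 2, ?_⟩
  have h5 : l * (l * b' ^ 2) = l * e := by rw [← h3]; ring
  exact (mul_left_cancel₀ hl.ne_zero h5).symm

end TI
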