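import Mathlib

/-! T-INF, block F, leaf FP: powers of conjugate elements. -/

namespace TI

/-- PROOF. By induction on `M` there are `α β : K` with `y ^ M = α + β y` and `y' ^ M = α + β y'` (because
`y ^ 2 = a y - b` and `y' ^ 2 = a y' - b`). If `y ^ M` is the image of `c` then `β y = c - α`, so `β = 0` (else
`y = (c - α) / β` is in the image of `K`), and `y ^ M = α = y' ^ M`. -/
theorem pow_conj {K Om : Type} [Field K] [Field Om] [Algebra K Om] (a b : K) (y y' : Om)
    (h1 : y + y' = algebraMap K Om a) (h2 : y * y' = algebraMap K Om b)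
    (hy : ¬ ∃ c : K, algebraMap K Om c = y) (M : ℕ) (hM : ∃ c : K, algebraMap K Om c = y ^ M) :
    y ^ M = y' ^ M := by
  have hq : y ^ 2 = algebraMap K Om a * y - algebraMap K Om b := by
    rw [← h1, ← h2]
    ring
  have hq' : y' ^ 2 = algebraMap K Om a * y' - algebraMap K Om b := by
    rw [← h1, ← h2]
    ring
  have key : ∀ n : ℕ, ∃ α β : K, y ^ n = algebraMap K Om α + algebraMap K Om β * y ∧
      y' ^ n = algebraMap K Om α + algebraMap K Om β * y' := by
    intro n
    induction n with
    | zero => exact ⟨1, 0, by simp, by simp⟩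
    | succ n ih =>
      obtain ⟨α, β, h3, h4⟩ := ih
      refine ⟨-(β * b), α + β * a, ?_, ?_⟩
      · rw [pow_succ, h3, map_neg, map_mul, map_add, map_mul]
        linear_combination algebraMap K Om β * hq
      · rw [pow_succ, h4, map_neg, map_mul, map_add, map_mul]
        linear_combination algebraMap K Om β * hq'
  obtain ⟨α, β, h3, h4⟩ := key M
  obtain ⟨c, hc⟩ := hM
  have hβ : β = 0 := by
    by_contra hβ
    apply hy
    refine ⟨(c - α) / β, ?_⟩
    have h5 : algebraMap K Om β ≠ 0 := by
      rw [Ne, FaithfulSMul.algebraMap_eq_zero_iff]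
      exact hβ
    rw [map_div₀, map_sub, div_eq_iff h5]
    linear_combination hc + h3
  rw [h3, h4, hβ, map_zero, zero_mul, zero_mul]

end TI
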