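import Pool.Agent.Lib.MP_021685_agTI.F0
import Pool.Agent.Lib.MP_021685_agTI.FK
import Pool.Agent.Lib.MP_021685_agTI.FP
import Pool.Agent.Lib.MP_021685_agTI.FC

/-! T-INF, block F, leaf FL1: a power in the small field forces a root of unity of order divisible by `l`. -/

namespace TI

/-- PROOF. `z z' = q` and `z + z' = w` give `z ^ 2 - w z + q = 0`, so `z` is not in the image of `K` (root_not_mem,
`D.prime`). By pow_conj (`a = w`, `b = q`) `z ^ M = z' ^ M`, and `z z' = q`, so `(z ^ 2) ^ M = q ^ M` and `U = z ^ 2 / q`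
has `U ^ M = 1`. Let `n = orderOf U` (positive: isOfFinOrder), `IsPrimitiveRoot.orderOf U`. `q` is a unit of `W`
(`D.unit`, D.nat_dvd): `q q' = 1`. With `η = (l e) q'` (not zero): `U + U⁻¹ = (z ^ 2 + z' ^ 2) / q = (w ^ 2 - 2 q) / q = 2 + η`
(as `U⁻¹ = z' ^ 2 / q`). cheb with `ι` the composite `W → K → Om` gives `η ∣ n ^ 2` in `W`, so `l ∣ n ^ 2`
in `W`, so `l ∣ n` (D.nat_dvd, `l` prime). -/
theorem core {l q : ℕ} {W k K Om : Type} [CommRing W] [IsDomain W] [IsDiscreteValuationRing W] [CharZero W]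
    [Field k] [CharP k l] [Field K] [Algebra W K] [IsFractionRing W K] [Field Om] [Algebra K Om]
    (D : Loc l W k) (hl : l.Prime) (hlq : ¬ l ∣ q) (w e : W) (he : w ^ 2 - 4 * (q : W) = (l : W) * e)
    (hle : ¬ (l : W) ∣ e) (z z' : Om) (h1 : z + z' = algebraMap K Om (algebraMap W K w))
    (h2 : z * z' = (q : Om)) (M : ℕ) (hM : 0 < M) (hz : ∃ c : K, algebraMap K Om c = z ^ M) :
    ∃ n : ℕ, 0 < n ∧ IsPrimitiveRoot (z ^ 2 / (q : Om)) n ∧ l ∣ n := by
  have hlp : Prime (l : W) := D.prime hl.ne_zero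
  set ι : W →+* Om := (algebraMap K Om).comp (algebraMap W K) with hιdef
  have hι : Function.Injective ι := by
    intro a b hab
    exact IsFractionRing.injective W K ((algebraMap K Om).injective hab)
  have hιw : algebraMap K Om (algebraMap W K w) = ι w := rfl
  have hq0 : q ≠ 0 := fun h => hlq (h ▸ dvd_zero l)
  have hqW : (q : W) ≠ 0 := Nat.cast_ne_zero.2 hq0
  have hqO : (q : Om) ≠ 0 := by
    intro h
    apply hqW
    apply hι
    rw [map_natCast, map_zero, h]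
  have hz0 : z ≠ 0 := by
    rintro rfl
    exact hqO (by rw [← h2, zero_mul])
  have hquad : z ^ 2 - algebraMap K Om (algebraMap W K w) * z + (q : Om) = 0 := by
    rw [← h1, ← h2]; ring
  have hnot := root_not_mem (K := K) (l : W) hlp q w e he hle z hquad
  have hpc : z ^ M = z' ^ M := pow_conj (algebraMap W K w) (q : K) z z' h1
    (by rw [h2, map_natCast]) hnot M hz
  have hUM : (z ^ 2 / (q : Om)) ^ M = 1 := by
    rw [div_pow, div_eq_one_iff_eq (pow_ne_zero _ hqO), ← h2, mul_pow, ← hpc]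
    ring
  obtain ⟨q', hq'⟩ := (D.unit (q : W) (fun h => hlq ((D.nat_dvd q).1 h))).exists_right_inv
  have hq'0 : q' ≠ 0 := by
    rintro rfl
    rw [mul_zero] at hq'
    exact zero_ne_one hq'
  have hιq' : ι q' = (q : Om)⁻¹ := by
    have h := congrArg ι hq'
    rw [map_mul, map_natCast, map_one] at h
    exact eq_inv_of_mul_eq_one_right h
  have he0 : e ≠ 0 := by
    rintro rfl
    exact hle (dvd_zero _)
  have hη : (l : W) * e * q' ≠ 0 := mul_ne_zero (mul_ne_zero hlp.ne_zero he0) hq'0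
  have hUinv : (z ^ 2 / (q : Om))⁻¹ = z' ^ 2 / (q : Om) := by
    rw [inv_div, div_eq_div_iff (pow_ne_zero 2 hz0) hqO, ← h2]
    ring
  have hsum : z ^ 2 / (q : Om) + (z ^ 2 / (q : Om))⁻¹ = ι (2 + (l : W) * e * q') := by
    rw [hUinv, map_add, map_mul ι ((l : W) * e) q', hιq', ← he, map_sub, map_pow, ← hιw, ← h1]
    have e2 : ι (2 : W) = 2 := map_ofNat ι 2
    have e4 : ι (4 * (q : W)) = 4 * (q : Om) := by
      rw [map_mul, map_natCast, map_ofNat]
    rw [e2, e4]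
    field_simp
    linear_combination (-2 : Om) * h2
  have hU0 : z ^ 2 / (q : Om) ≠ 0 := div_ne_zero (pow_ne_zero 2 hz0) hqO
  have hdvd : (l : W) * e * q' ∣ ((orderOf (z ^ 2 / (q : Om)) : ℕ) : W) ^ 2 :=
    cheb ι hι _ hU0 _ hη hsum _ (pow_orderOf_eq_one _)
  have hpos : 0 < orderOf (z ^ 2 / (q : Om)) :=
    orderOf_pos_iff.2 (isOfFinOrder_iff_pow_eq_one.2 ⟨M, hM, hUM⟩)
  refine ⟨orderOf (z ^ 2 / (q : Om)), hpos, IsPrimitiveRoot.orderOf _, ?_⟩
  have hl2 : (l : W) ∣ ((orderOf (z ^ 2 / (q : Om)) : ℕ) : W) ^ 2 :=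
    dvd_trans (Dvd.intro _ (mul_assoc (l : W) e q').symm) hdvd
  exact (D.nat_dvd _).1 (hlp.dvd_of_dvd_pow hl2)

end TI
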