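import Mathlib

/-! T-INF, block F, leaf FL2: a relation gives a power in the small field. -/

namespace TI

private theorem FL2_pow {K Om : Type} [Field K] [Field Om] [Algebra K Om] (z z' : Om) (c0 : K) (hc0 : c0 ≠ 0)
    (hzz : z * z' = algebraMap K Om c0) (m n N : ℕ) (h : n ≤ m) (D : K)
    (hD : (z ^ m * z' ^ n) ^ N = algebraMap K Om D) : ∃ c : K, algebraMap K Om c = z ^ (N * (m - n)) := by
  refine ⟨D / (c0 ^ n) ^ N, ?_⟩
  have hinj := (algebraMap K Om).injective
  have h0 : algebraMap K Om ((c0 ^ n) ^ N) ≠ 0 := by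
    intro h1
    exact pow_ne_zero N (pow_ne_zero n hc0) (hinj (by rw [h1, map_zero]))
  rw [map_div₀, div_eq_iff h0, ← hD, map_pow, map_pow, ← hzz]
  obtain ⟨k, rfl⟩ := Nat.exists_eq_add_of_le h
  rw [Nat.add_sub_cancel_left]
  ring

private theorem FL2_prod {K Om : Type} [Field K] [Field Om] [Algebra K Om] {k : ℕ} (y : Fin k → Om)
    (S : Finset (Fin k)) (hS : ∀ a ∈ S, ∃ c : K, algebraMap K Om c = y a) :
    ∃ C : K, algebraMap K Om C = ∏ a ∈ S, y a := by
  choose! f hf using hS
  refine ⟨∏ a ∈ S, f a, ?_⟩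
  rw [map_prod]
  exact Finset.prod_congr rfl hf

/-- PROOF. All `y a ≠ 0` (the product to a positive power is `Q ≠ 0`), `z z' = c0 ≠ 0`. `∏ y a = z ^ n₊ z' ^ n₋ ∏ (the others)`,
`n₊`, `n₋` the two cardinals (`z ≠ z'`; Finset.prod_fiberwise or filter, or induction), the product of the others is the image of a
non-zero element of `K`. So `(z ^ n₊ z' ^ n₋) ^ N` is in the image of `K`. If `n₊ > n₋`:
`z ^ n₊ z' ^ n₋ = z ^ (n₊ - n₋) c0 ^ n₋`, so `z ^ (N (n₊ - n₋))` is in the image of `K`; if `n₋ > n₊` the same with `z'`. -/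
theorem rel_pow {K Om : Type} [Field K] [Field Om] [DecidableEq Om] [Algebra K Om] {k : ℕ} (y : Fin k → Om) (z z' : Om)
    (hne : z ≠ z') (c0 : K) (hc0 : c0 ≠ 0) (hzz : z * z' = algebraMap K Om c0)
    (hy : ∀ a, y a = z ∨ y a = z' ∨ ∃ c : K, algebraMap K Om c = y a) (N : ℕ) (hN : 0 < N) (Q : K) (hQ : Q ≠ 0)
    (hrel : (∏ a, y a) ^ N = algebraMap K Om Q)
    (hcard : (Finset.univ.filter fun a => y a = z).card ≠ (Finset.univ.filter fun a => y a = z').card) :
    ∃ M : ℕ, 0 < M ∧ ((∃ c : K, algebraMap K Om c = z ^ M) ∨ ∃ c : K, algebraMap K Om c = z' ^ M) := by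
  have hinj := (algebraMap K Om).injective
  have hQ' : algebraMap K Om Q ≠ 0 := fun h => hQ (hinj (by rw [h, map_zero]))
  set m := (Finset.univ.filter fun a => y a = z).card with hm
  set n := (Finset.univ.filter fun a => y a = z').card with hn
  set R := Finset.univ.filter fun a => ¬ y a = z ∧ ¬ y a = z' with hR
  obtain ⟨C, hC⟩ := FL2_prod (K := K) y R (by
    intro a ha
    rw [hR, Finset.mem_filter] at ha
    rcases hy a with h | h | h
    · exact absurd h ha.2.1
    · exact absurd h ha.2.2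
    · exact h)
  have hsplit : ∏ a, y a = z ^ m * z' ^ n * algebraMap K Om C := by
    rw [← Finset.prod_filter_mul_prod_filter_not Finset.univ (fun a => y a = z) y,
      ← Finset.prod_filter_mul_prod_filter_not (Finset.univ.filter fun a => ¬ y a = z) (fun a => y a = z') y,
      Finset.filter_filter, Finset.filter_filter, ← hR, ← hC]
    have h1 : ∏ a ∈ Finset.univ.filter (fun a => y a = z), y a = z ^ m := by
      rw [Finset.prod_congr rfl (fun a ha => (Finset.mem_filter.1 ha).2), Finset.prod_const]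
    have h2 : (Finset.univ.filter fun a => ¬ y a = z ∧ y a = z') = Finset.univ.filter fun a => y a = z' := by
      refine Finset.filter_congr fun a _ => ?_
      constructor
      · exact fun h => h.2
      · exact fun h => ⟨fun h' => hne (h'.symm.trans h), h⟩
    have h3 : ∏ a ∈ Finset.univ.filter (fun a => y a = z'), y a = z' ^ n := by
      rw [Finset.prod_congr rfl (fun a ha => (Finset.mem_filter.1 ha).2), Finset.prod_const]
    rw [h1, h2, h3, mul_assoc]
  have hC0 : algebraMap K Om C ≠ 0 := by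
    intro h
    rw [hsplit, h, mul_zero, zero_pow hN.ne'] at hrel
    exact hQ' hrel.symm
  have hD : (z ^ m * z' ^ n) ^ N = algebraMap K Om (Q / C ^ N) := by
    rw [map_div₀, map_pow, eq_div_iff (pow_ne_zero N hC0), ← hrel, hsplit]
    ring
  rcases lt_or_gt_of_ne hcard with h | h
  · refine ⟨N * (n - m), Nat.mul_pos hN (Nat.sub_pos_of_lt h), Or.inr ?_⟩
    exact FL2_pow z' z c0 hc0 (by rw [mul_comm, hzz]) n m N h.le _ (by rw [mul_comm, hD])
  · refine ⟨N * (m - n), Nat.mul_pos hN (Nat.sub_pos_of_lt h), Or.inl ?_⟩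
    exact FL2_pow z z' c0 hc0 hzz m n N h.le _ hD

end TI
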