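import Pool.Agent.Lib.MP_021685_agTI.F0

/-! T-INF, block F, leaf FO: exactly one factor of a product is divisible by `l`. -/

namespace TI

open Polynomial

variable {l : ℕ} {W k : Type} [CommRing W] [Field k]

/-- PROOF. `l` divides `(r : W)` (D.int_dvd), is prime in `W` (D.prime), so it divides a factor (Prime.dvd_multiset_prod or
induction): `s = w ::ₘ t`, `w ^ 2 - 4 q = l e`. With `r = l r'` (in the integers), `l (r' : W) = l e P`, `P` the product over `t`,
so `(r' : W) = e P` (`W` is a domain and `(l : W) ≠ 0`); if `l` divides `e` or a factor of `P` it divides `(r' : W)`, so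
`l ∣ r'` (D.int_dvd) and `l ^ 2 ∣ r`, contradiction. -/
theorem one_root [IsDomain W] [CharZero W] [CharP k l] (D : Loc l W k) (hl : l.Prime) (q : ℕ) (r : ℤ)
    (s : Multiset W) (hr : (r : W) = (s.map fun w => w ^ 2 - 4 * (q : W)).prod) (h1 : (l : ℤ) ∣ r)
    (h2 : ¬ (l : ℤ) ^ 2 ∣ r) :
    ∃ (w : W) (t : Multiset W) (e : W), s = w ::ₘ t ∧ w ^ 2 - 4 * (q : W) = (l : W) * e ∧ ¬ (l : W) ∣ e ∧
      ∀ y ∈ t, ¬ (l : W) ∣ y ^ 2 - 4 * (q : W) := by
  have hp := D.prime hl.ne_zero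
  have h3 : (l : W) ∣ (s.map fun w => w ^ 2 - 4 * (q : W)).prod := by
    rw [← hr]
    exact (D.int_dvd r).mpr h1
  obtain ⟨w, hw, e, he⟩ := hp.exists_mem_multiset_map_dvd h3
  obtain ⟨t, rfl⟩ := Multiset.exists_cons_of_mem hw
  obtain ⟨r', rfl⟩ := h1
  rw [Multiset.map_cons, Multiset.prod_cons, he, Int.cast_mul, Int.cast_natCast, mul_assoc] at hr
  have h4 : (r' : W) = e * (t.map fun w => w ^ 2 - 4 * (q : W)).prod :=
    mul_left_cancel₀ hp.ne_zero hr
  have h5 : ¬ (l : W) ∣ (r' : W) := by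
    intro h
    obtain ⟨c, hc⟩ := (D.int_dvd r').mp h
    exact h2 ⟨c, by rw [hc]; ring⟩
  rw [h4] at h5
  refine ⟨w, t, e, rfl, he, fun h => h5 (h.mul_right _), fun y hy h => h5 ?_⟩
  exact (h.trans (Multiset.dvd_prod (Multiset.mem_map_of_mem (fun w => w ^ 2 - 4 * (q : W)) hy))).mul_left e

/-- PROOF. A factor divides the product (Multiset.dvd_prod), so `l` would divide `(r : W)`; use `D.int_dvd`. -/
theorem no_root [CharP k l] (D : Loc l W k) (q : ℕ) (r : ℤ)
    (s : Multiset W) (hr : (r : W) = (s.map fun w => w ^ 2 - 4 * (q : W)).prod) (h1 : ¬ (l : ℤ) ∣ r) :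
    ∀ y ∈ s, ¬ (l : W) ∣ y ^ 2 - 4 * (q : W) := by
  intro y hy h
  refine h1 ((D.int_dvd r).mp ?_)
  rw [hr]
  exact h.trans (Multiset.dvd_prod (Multiset.mem_map_of_mem (fun w => w ^ 2 - 4 * (q : W)) hy))

end TI
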