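import Pool.Agent.Lib.MP_021685_agTI.TDefs

/-! T-INF, block F, leaf FR: the number `resq` and the roots. -/

namespace TI

open Polynomial

/-- PROOF. `eval₂ _ m h = ∑ h_i m ^ i` over `range (natDegree + 1)` (Polynomial.eval₂_eq_sum_range); for even `i`,
`m ^ i = (m ^ 2) ^ (i / 2) = (4 q) ^ (i / 2)`; for odd `i`, `m ^ i = m (4 q) ^ (i / 2)`. -/
theorem eval_eq {S : Type} [CommRing S] (q : ℕ) (h : ℤ[X]) (m : S) (hm : m ^ 2 = 4 * (q : S)) :
    h.eval₂ (Int.castRingHom S) m = (evA q h : S) + m * (evB q h : S) := by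
  rw [eval₂_eq_sum_range]
  unfold evA evB
  rw [Int.cast_sum, Int.cast_sum, Finset.mul_sum, ← Finset.sum_add_distrib]
  refine Finset.sum_congr rfl fun i _ => ?_
  rcases Nat.even_or_odd i with hi | hi
  · rw [if_pos hi, if_pos hi, Int.cast_zero, mul_zero, add_zero]
    push_cast
    obtain ⟨j, rfl⟩ := hi
    rw [eq_intCast, ← two_mul, Nat.mul_div_cancel_left j two_pos, pow_mul, hm]
  · have hn := Nat.not_even_iff_odd.2 hi
    rw [if_neg hn, if_neg hn, Int.cast_zero, zero_add]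
    push_cast
    obtain ⟨j, rfl⟩ := hi
    have h2 : (2 * j + 1) / 2 = j := by omega
    rw [eq_intCast, h2, pow_succ, pow_mul, hm]
    ring

/-- PROOF. `resq = A ^ 2 - 4 q B ^ 2 = (A + m B)(A - m B) = h(m) h(-m)` (eval_eq for `m` and for `-m`), and
`h(m) h(-m) = ∏ (m - w)(-m - w) = ∏ (w ^ 2 - m ^ 2)` (Polynomial.eval_multiset_prod or induction on `s`; use
`h.eval₂ _ m = (h.map _).eval m`). -/
theorem resq_eq_prod {S : Type} [CommRing S] (q : ℕ) (h : ℤ[X]) (s : Multiset S)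
    (hs : h.map (Int.castRingHom S) = (s.map fun w => X - C w).prod) (m : S) (hm : m ^ 2 = 4 * (q : S)) :
    ((resq q h : ℤ) : S) = (s.map fun w => w ^ 2 - 4 * (q : S)).prod := by
  have h1 : ∀ t : S, h.eval₂ (Int.castRingHom S) t = (s.map fun w => t - w).prod := by
    intro t
    rw [← eval_map, hs, eval_multiset_prod, Multiset.map_map]
    congr 1
    refine Multiset.map_congr rfl fun w _ => ?_
    rw [Function.comp_apply, eval_sub, eval_X, eval_C]
  have h2 : ((evA q h : ℤ) : S) + m * (evB q h : S) = (s.map fun w => m - w).prod := by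
    rw [← eval_eq q h m hm, h1]
  have h3 : ((evA q h : ℤ) : S) + -m * (evB q h : S) = (s.map fun w => -m - w).prod := by
    rw [← eval_eq q h (-m) (by rw [neg_sq]; exact hm), h1]
  have h4 : ((resq q h : ℤ) : S) =
      (((evA q h : ℤ) : S) + m * (evB q h : S)) * (((evA q h : ℤ) : S) + -m * (evB q h : S)) := by
    unfold resq
    push_cast
    linear_combination ((evB q h : ℤ) : S) ^ 2 * hm
  rw [h4, h2, h3, ← Multiset.prod_map_mul]
  congr 1
  refine Multiset.map_congr rfl fun w _ => ?_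
  linear_combination -hm

/-- PROOF. If `z ^ 2 = q` then `x z = 2 q = 2 z ^ 2`, `z ≠ 0`, `x = 2 z`, `x ^ 2 = 4 q`, so `A + x B = h(x) = 0`
(eval_eq) and `resq = A ^ 2 - x ^ 2 B ^ 2 = (A - x B)(A + x B) = 0`. -/
theorem sq_ne (q : ℕ) (hq : 0 < q) (h : ℤ[X]) (hr : resq q h ≠ 0) (x z : ℂ) (hx : aeval x h = 0)
    (hz : z ^ 2 - x * z + (q : ℂ) = 0) : z ^ 2 ≠ (q : ℂ) := by
  intro hzq
  have hq0 : (q : ℂ) ≠ 0 := Nat.cast_ne_zero.2 hq.ne'
  have hz0 : z ≠ 0 := by
    rintro rfl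
    refine hq0 ?_
    rw [← hzq]
    ring
  have hx2 : x = 2 * z := by
    refine mul_right_cancel₀ hz0 ?_
    linear_combination -hz - hzq
  have hxx : x ^ 2 = 4 * (q : ℂ) := by
    rw [hx2]
    linear_combination 4 * hzq
  have h1 : ((evA q h : ℤ) : ℂ) + x * (evB q h : ℂ) = 0 := by
    rw [← eval_eq q h x hxx]
    exact hx
  refine hr ?_
  have h2 : ((resq q h : ℤ) : ℂ) = 0 := by
    unfold resq
    push_cast
    linear_combination (((evA q h : ℤ) : ℂ) - x * (evB q h : ℂ)) * h1 + ((evB q h : ℤ) : ℂ) ^ 2 * hxx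
  exact_mod_cast h2

end TI
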