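import Pool.Agent.Lib.MP_021685_agTI.F0

/-! T-INF, block F, leaf FS: a polynomial with separable reduction splits over `W`. -/

namespace TI

open Polynomial

variable {l : ℕ} {W k : Type} [CommRing W] [Field k]

/-- PROOF. `F = f.map (Int.castRingHom W)` is monic; `F.map D.res = (f.map (Int.castRingHom (ZMod l))).map (ZMod.castHom _ k)`
(both are `f.map (Int.castRingHom k)`: RingHom.ext_int / Polynomial.map_map) is separable (Separable.map) and splits over
the algebraically closed field `k`, so it has `natDegree` many distinct roots `a`; each has non-zero derivative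
(Separable: eval of the Bezout identity) and lifts by `D.lift` to a root `w a` of `F` with `D.res (w a) = a`, so
`w` is injective and `F` has at least `natDegree F` distinct roots in the domain `W`: `Finset` of the `w a`, contained in
`F.roots`; so `card F.roots = natDegree F` and `F = (F.roots.map fun w => X - C w).prod`
(Polynomial.prod_multiset_X_sub_C_of_monic_of_roots_card_eq). -/
theorem splits_W [IsDomain W] [IsAlgClosed k] [CharP k l] (D : Loc l W k) (f : ℤ[X]) (hf : f.Monic)
    (hs : (f.map (Int.castRingHom (ZMod l))).Separable) :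
    ∃ s : Multiset W, f.map (Int.castRingHom W) = (s.map fun w => X - C w).prod := by
  classical
  have hF : (f.map (Int.castRingHom W)).Monic := hf.map _
  have hmap : (f.map (Int.castRingHom W)).map D.res = (f.map (Int.castRingHom (ZMod l))).map
      (ZMod.castHom (dvd_refl l) k) := by
    rw [Polynomial.map_map, Polynomial.map_map]
    congr 1
    exact RingHom.ext_int _ _
  have hsep : ((f.map (Int.castRingHom W)).map D.res).Separable := by
    rw [hmap]
    exact hs.map
  have hex : ∀ a : k, ∃ w : W, a ∈ ((f.map (Int.castRingHom W)).map D.res).roots →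
      (f.map (Int.castRingHom W)).eval w = 0 ∧ D.res w = a := by
    intro a
    by_cases ha : a ∈ ((f.map (Int.castRingHom W)).map D.res).roots
    · have h1 : ((f.map (Int.castRingHom W)).map D.res).eval a = 0 := (Polynomial.mem_roots'.1 ha).2
      have h2 : ((f.map (Int.castRingHom W)).map D.res).derivative.eval a ≠ 0 :=
        hsep.eval₂_derivative_ne_zero (RingHom.id k) h1
      obtain ⟨w, hw⟩ := D.lift _ a hF h1 h2
      exact ⟨w, fun _ => hw⟩
    · exact ⟨0, fun h => absurd h ha⟩
  choose g hg using hex
  have hnd : (((f.map (Int.castRingHom W)).map D.res).roots.map g).Nodup := by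
    refine Multiset.Nodup.map_on (fun a ha b hb h => ?_) (nodup_roots hsep)
    rw [← (hg a ha).2, ← (hg b hb).2, h]
  have hle : ((f.map (Int.castRingHom W)).map D.res).roots.map g ≤ (f.map (Int.castRingHom W)).roots := by
    rw [Multiset.le_iff_subset hnd]
    intro w hw
    obtain ⟨a, ha, rfl⟩ := Multiset.mem_map.1 hw
    exact (Polynomial.mem_roots hF.ne_zero).2 (hg a ha).1
  have hcard : (f.map (Int.castRingHom W)).roots.card = (f.map (Int.castRingHom W)).natDegree := by
    refine le_antisymm (Polynomial.card_roots' _) ?_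
    have h1 := Multiset.card_le_card hle
    rw [Multiset.card_map, IsAlgClosed.card_roots_eq_natDegree, hF.natDegree_map] at h1
    exact h1
  exact ⟨(f.map (Int.castRingHom W)).roots,
    (Polynomial.prod_multiset_X_sub_C_of_monic_of_roots_card_eq hF hcard).symm⟩

/-- PROOF. `X ^ 2 - C w` is monic; over `k` it has a root `a`, `a ^ 2 = D.res w`, not zero by `D.ker`; the derivative
at `a` is `2 a`, not zero because the characteristic `l` of `k` is not two. -/
theorem sq_W [IsAlgClosed k] [CharP k l] (D : Loc l W k) (hl : l.Prime) (h2 : l ≠ 2) (w : W)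
    (hw : ¬ (l : W) ∣ w) : ∃ v : W, v ^ 2 = w := by
  obtain ⟨a, ha⟩ := IsAlgClosed.exists_pow_nat_eq (D.res w) (n := 2) (by norm_num)
  have hw0 : D.res w ≠ 0 := fun h => hw ((D.ker w).1 h)
  have ha0 : a ≠ 0 := fun h => hw0 (by rw [← ha, h]; ring)
  have h20 : (2 : k) ≠ 0 := by
    intro h
    have h1 : ((2 : ℕ) : k) = 0 := by exact_mod_cast h
    rw [CharP.cast_eq_zero_iff k l] at h1
    exact h2 ((Nat.prime_dvd_prime_iff_eq hl Nat.prime_two).1 h1)
  have hmon : (X ^ 2 - C w : W[X]).Monic := monic_X_pow_sub_C w two_ne_zero
  obtain ⟨v, hv, -⟩ := D.lift (X ^ 2 - C w) a hmon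
    (by simp [ha]) (by
      have h3 : ((X ^ 2 - C w : W[X]).map D.res).derivative.eval a = 2 * a := by
        simp
        exact Or.inl one_add_one_eq_two
      rw [h3]
      exact mul_ne_zero h20 ha0)
  refine ⟨v, ?_⟩
  rw [eval_sub, eval_pow, eval_X, eval_C] at hv
  exact sub_eq_zero.1 hv

end TI
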