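import Mathlib

/-! T-INF, block F, leaf FY: the degree of a root of unity. -/

namespace TI

open Polynomial

/-- PROOF. `Polynomial.cyclotomic_eq_minpoly_rat`: the minimal polynomial of `u` over the rationals is the cyclotomic
polynomial, of degree `φ(n)`; `u` lies in the field generated by `z` (IntermediateField.adjoin ℚ {z}), of degree
`natDegree (minpoly ℚ z) ≤ p.natDegree`; so `φ(n) ≤ p.natDegree` (minpoly.natDegree_le, IntermediateField.adjoin.finrank,
minpoly.natDegree_le_of_ne_zero or natDegree_le_of_dvd). And `l ∣ n` gives `l - 1 = φ(l) ≤ φ(n)` (Nat.totient_dvd_of_dvd,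
Nat.totient_prime, `φ(n) > 0`). -/
theorem cyc (z u : ℂ) (q : ℕ) (hu : u = z ^ 2 / (q : ℂ)) (p : ℚ[X]) (hp : p ≠ 0) (hz : aeval z p = 0) (n : ℕ)
    (hn0 : 0 < n) (hn : IsPrimitiveRoot u n) (l : ℕ) (hl : l.Prime) (hln : l ∣ n) :
    l ≤ p.natDegree + 1 := by
  have halg : IsAlgebraic ℚ z := ⟨p, hp, hz⟩
  have hint : IsIntegral ℚ z := halg.isIntegral
  have h1 : (minpoly ℚ z).natDegree ≤ p.natDegree := natDegree_le_of_dvd (minpoly.dvd ℚ z hz) hp
  have h2 : Module.finrank ℚ (IntermediateField.adjoin ℚ {z}) = (minpoly ℚ z).natDegree :=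
    IntermediateField.adjoin.finrank hint
  have hfin : FiniteDimensional ℚ (IntermediateField.adjoin ℚ {z}) :=
    IntermediateField.adjoin.finiteDimensional hint
  have hzm : z ∈ IntermediateField.adjoin ℚ {z} := IntermediateField.mem_adjoin_simple_self ℚ z
  have hum : u ∈ IntermediateField.adjoin ℚ {z} := by
    rw [hu]
    exact div_mem (pow_mem hzm 2) (natCast_mem _ q)
  have h3 : (minpoly ℚ u).natDegree ≤ Module.finrank ℚ (IntermediateField.adjoin ℚ {z}) := by
    have h4 : minpoly ℚ (⟨u, hum⟩ : IntermediateField.adjoin ℚ {z}) = minpoly ℚ u := by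
      rw [← minpoly.algebraMap_eq (B' := ℂ) (algebraMap (IntermediateField.adjoin ℚ {z}) ℂ).injective]
      rfl
    rw [← h4]
    exact minpoly.natDegree_le _
  have h5 : (minpoly ℚ u).natDegree = n.totient := by
    rw [← cyclotomic_eq_minpoly_rat hn hn0, natDegree_cyclotomic]
  have h6 : l - 1 ≤ n.totient := by
    rw [← Nat.totient_prime hl]
    exact Nat.le_of_dvd (Nat.totient_pos.2 hn0) (Nat.totient_dvd_of_dvd hln)
  omega

end TI
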