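import Pool.Agent.Lib.MP_021685_agTI.FW
import Pool.Agent.Lib.MP_021685_agTI.FS
import Pool.Agent.Lib.MP_021685_agTI.FR
import Pool.Agent.Lib.MP_021685_agTI.FO
import Pool.Agent.Lib.MP_021685_agTI.FY
import Pool.Agent.Lib.MP_021685_agTI.FE
import Pool.Agent.Lib.MP_021685_agTI.FB
import Pool.Agent.Lib.MP_021685_agTI.FL1
import Pool.Agent.Lib.MP_021685_agTI.FL2

/-! T-INF, block F, leaf FL: in a relation, an eigenvalue and its conjugate occur equally often. -/

namespace TI

open Polynomial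

private theorem FL_alg {q r : ℕ} (hq : 0 < q) (h : Fin r → ℤ[X]) (hm : ∀ i, (h i).Monic) (z : ℂ)
    (hz : ∃ (j : Fin r) (x : ℂ), aeval x (h j) = 0 ∧ z ^ 2 - x * z + (q : ℂ) = 0) : IsAlgebraic ℚ z := by
  obtain ⟨j, x, hx, hx'⟩ := hz
  have h1 := frob_root' q hq (h j) x z hx hx'
  refine ⟨(frobPoly q (h j)).map (Int.castRingHom ℚ), ?_, ?_⟩
  · rw [Ne, Polynomial.map_eq_zero_iff (RingHom.injective_int _)]
    exact (frob_deg q (h j) (hm j)).2
  · rw [← h1, aeval_def, aeval_def, eval₂_map]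
    exact congrArg (fun f => eval₂ f z (frobPoly q (h j))) (RingHom.ext_int _ _)

private theorem FL_root {W Om : Type} [CommRing W] [Field Om] (ι : W →+* Om) (h : ℤ[X]) (s : Multiset W)
    (hs : h.map (Int.castRingHom W) = (s.map fun w => X - C w).prod) (y : Om) (hy : aeval y h = 0) :
    ∃ v ∈ s, ι v = y := by
  have h1 : h.map (Int.castRingHom Om) = (s.map fun w => X - C (ι w)).prod := by
    have h2 : h.map (Int.castRingHom Om) = (h.map (Int.castRingHom W)).map ι := by
      rw [Polynomial.map_map]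
      exact congrArg (fun f => h.map f) (RingHom.ext_int _ _)
    rw [h2, hs, Polynomial.map_multiset_prod, Multiset.map_map]
    refine congrArg _ (Multiset.map_congr rfl fun w _ => ?_)
    simp
  have h3 : (h.map (Int.castRingHom Om)).eval y = 0 := by
    rw [← hy, aeval_def, eval_map]
    exact congrArg (fun f => eval₂ f y h) (RingHom.ext_int _ _)
  rw [h1, eval_multiset_prod, Multiset.map_map, Multiset.prod_eq_zero_iff, Multiset.mem_map] at h3
  obtain ⟨v, hv, hv'⟩ := h3
  refine ⟨v, hv, ?_⟩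
  have h4 : y - ι v = 0 := by simpa using hv'
  exact (sub_eq_zero.1 h4).symm

private theorem FL_quad {F : Type} [Field F] (q z z0 x : F) (hz : z ^ 2 - x * z + q = 0)
    (hz0 : z0 ^ 2 - x * z0 + q = 0) (h0 : z0 ≠ 0) : z = z0 ∨ z = q / z0 := by
  have h1 : (z - z0) * (z * z0 - q) = 0 := by
    linear_combination z0 * hz - z * hz0
  rcases mul_eq_zero.1 h1 with h2 | h2
  · exact Or.inl (sub_eq_zero.1 h2)
  · right
    rw [eq_div_iff h0]
    exact sub_eq_zero.1 h2

private theorem FL_aux {q g r : ℕ} (hq : 0 < q) (h : Fin r → ℤ[X]) (hm : ∀ i, (h i).Monic)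
    (hg : ∀ i, (h i).natDegree = g) (hi : ∀ i, Irreducible (h i)) (i : Fin r) (l : ℕ) (hl : l.Prime)
    (hlg : 2 * g + 1 < l) (hlq : ¬ l ∣ q) (h1 : (l : ℤ) ∣ resq q (h i)) (h2 : ¬ (l : ℤ) ^ 2 ∣ resq q (h i))
    (hsep : ∀ j, ((h j).map (Int.castRingHom (ZMod l))).Separable)
    (hj : ∀ j, j ≠ i → ¬ (l : ℤ) ∣ resq q (h j)) (k d : ℕ) (hd : 0 < d) (z : Fin k → ℂ)
    (hz : ∀ a, ∃ (j : Fin r) (x : ℂ), aeval x (h j) = 0 ∧ z a ^ 2 - x * z a + (q : ℂ) = 0)
    (hrel : (∏ a, z a) ^ (2 * d) = (q : ℂ) ^ (d * k)) (z0 x0 : ℂ) (hx0 : aeval x0 (h i) = 0)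
    (hz0 : z0 ^ 2 - x0 * z0 + (q : ℂ) = 0)
    {W k' K Om : Type} [CommRing W] [IsDomain W] [IsDiscreteValuationRing W] [CharZero W] [Field k']
    [IsAlgClosed k'] [CharP k' l] (D : Loc l W k') [Field K] [Algebra W K] [IsFractionRing W K] [Field Om]
    [Algebra K Om] [IsAlgClosed Om] :
    (Finset.univ.filter fun a => z a = z0).card = (Finset.univ.filter fun a => z a = (q : ℂ) / z0).card := by
  classical
  by_contra hcard
  have hKz : CharZero K := charZero_of_injective_algebraMap (IsFractionRing.injective W K)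
  have hOz : CharZero Om := charZero_of_injective_algebraMap (algebraMap K Om).injective
  have hg0 : 0 < g := by
    rcases Nat.eq_zero_or_pos g with h0 | h0
    · exfalso
      have h3 := (hm i).natDegree_eq_zero.1 ((hg i).trans h0)
      exact (hi i).not_isUnit (by rw [h3]; exact isUnit_one)
    · exact h0
  have hl2 : l ≠ 2 := by omega
  have hqC : (q : ℂ) ≠ 0 := Nat.cast_ne_zero.2 hq.ne'
  set ι : W →+* Om := (algebraMap K Om).comp (algebraMap W K) with hι
  have hιi : Function.Injective ι := (algebraMap K Om).injective.comp (IsFractionRing.injective W K)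
  obtain ⟨m, hm'⟩ := sq_W D hl hl2 (4 * (q : W)) (by
    intro h0
    have h3 : (l : W) ∣ ((4 * q : ℕ) : W) := by
      push_cast
      exact h0
    rw [D.nat_dvd] at h3
    rcases (hl.dvd_mul).1 h3 with h4 | h4
    · have h5 : l ∣ 2 ^ 2 := h4
      exact hl2 ((Nat.prime_dvd_prime_iff_eq hl Nat.prime_two).1 (hl.dvd_of_dvd_pow h5))
    · exact hlq h4)
  choose s hs using fun j => splits_W D (h j) (hm j) (hsep j)
  have hres : ∀ j, ((resq q (h j) : ℤ) : W) = ((s j).map fun w => w ^ 2 - 4 * (q : W)).prod :=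
    fun j => resq_eq_prod q (h j) (s j) (hs j) m hm'
  obtain ⟨w, t, e, hst, hwe, hle, ht⟩ := one_root D hl q (resq q (h i)) (s i) (hres i) h1 h2
  have hw_s : w ∈ s i := by rw [hst]; exact Multiset.mem_cons_self _ _
  have good : ∀ j v, v ∈ s j → (j = i → v ≠ w) → ¬ (l : W) ∣ v ^ 2 - 4 * (q : W) := by
    intro j v hv hne
    by_cases hji : j = i
    · subst hji
      rw [hst, Multiset.mem_cons] at hv
      exact ht v (hv.resolve_left (hne rfl))
    · exact no_root D q (resq q (h j)) (s j) (hres j) (hj j hji) v hv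
  have halg : ∀ a, IsAlgebraic ℚ (z a) := fun a => FL_alg hq h hm (z a) (hz a)
  have halg0 : IsAlgebraic ℚ z0 := FL_alg hq h hm z0 ⟨i, x0, hx0, hz0⟩
  have hz00 : z0 ≠ 0 := by
    intro h0
    rw [h0] at hz0
    apply hqC
    simpa using hz0
  have hx0z : x0 = z0 + (q : ℂ) / z0 := by
    field_simp
    linear_combination -hz0
  -- the field of algebraic numbers
  let E := algebraicClosure ℚ ℂ
  have hEalg : Algebra.IsAlgebraic ℚ E := algebraicClosure.isAlgebraic ℚ ℂ
  let zE : Fin k → E := fun a => ⟨z a, (mem_algebraicClosure_iff).2 (halg a)⟩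
  let z0E : E := ⟨z0, (mem_algebraicClosure_iff).2 halg0⟩
  have hz0E : z0E ≠ 0 := fun h0 => hz00 (congrArg (algebraMap E ℂ) h0)
  let x0E : E := z0E + (q : E) / z0E
  have hEinj : Function.Injective (algebraMap E ℂ) := (algebraMap E ℂ).injective
  have vz : ∀ a, algebraMap E ℂ (zE a) = z a := fun a => rfl
  have vz0 : algebraMap E ℂ z0E = z0 := rfl
  have vx0 : algebraMap E ℂ x0E = x0 := by
    rw [hx0z, map_add, map_div₀, map_natCast, vz0]
  have hx0E : aeval x0E (h i) = 0 := by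
    apply hEinj
    rw [map_zero, ← hx0, ← vx0, ← aeval_algebraMap_apply]
  have hιw : aeval (ι w) (h i) = 0 := by
    have h3 : ((h i).map (Int.castRingHom Om)).eval (ι w) = aeval (ι w) (h i) := by
      rw [aeval_def, eval_map]
      exact congrArg (fun f => eval₂ f (ι w) (h i)) (RingHom.ext_int _ _)
    have h4 : (h i).map (Int.castRingHom Om) = ((h i).map (Int.castRingHom W)).map ι := by
      rw [Polynomial.map_map]
      exact congrArg (fun f => (h i).map f) (RingHom.ext_int _ _)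
    rw [← h3, h4, eval_map, eval₂_at_apply, hs i]
    have h5 : eval w ((s i).map fun w => X - C w).prod = 0 := by
      rw [eval_multiset_prod, Multiset.map_map, Multiset.prod_eq_zero_iff, Multiset.mem_map]
      exact ⟨w, hw_s, by simp⟩
    rw [h5, map_zero]
  obtain ⟨ψ, hψ⟩ := emb (h i) (hm i) (hi i) (E := E) (Om := Om) x0E hx0E (ι w) hιw
  have hψi : Function.Injective ψ := ψ.injective
  have hqE : (q : E) ≠ 0 := Nat.cast_ne_zero.2 hq.ne'
  have hqO : (q : Om) ≠ 0 := Nat.cast_ne_zero.2 hq.ne'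
  have hqK : (q : K) ≠ 0 := Nat.cast_ne_zero.2 hq.ne'
  have hsum : ψ z0E + ψ ((q : E) / z0E) = algebraMap K Om (algebraMap W K w) := by
    rw [← map_add]
    exact hψ
  have hprod : ψ z0E * ψ ((q : E) / z0E) = (q : Om) := by
    rw [← map_mul, mul_div_cancel₀ _ hz0E, map_natCast]
  have hZne : ψ z0E ≠ ψ ((q : E) / z0E) := by
    intro h0
    have h3 : ι (w ^ 2 - 4 * (q : W)) = 0 := by
      rw [map_sub, map_pow, map_mul, map_ofNat, map_natCast]
      have h4 : ι w = ψ z0E + ψ ((q : E) / z0E) := hsum.symm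
      rw [h4, ← hprod, ← h0]
      ring
    rw [hwe, ← map_zero ι] at h3
    have h4 := hιi h3
    rcases mul_eq_zero.1 h4 with h5 | h5
    · exact (D.prime hl.ne_zero).ne_zero h5
    · exact hle (by rw [h5]; exact dvd_zero _)
  have hy : ∀ a, ψ (zE a) = ψ z0E ∨ ψ (zE a) = ψ ((q : E) / z0E) ∨ ∃ c : K, algebraMap K Om c = ψ (zE a) := by
    intro a
    by_cases e1 : z a = z0
    · left
      exact congrArg ψ (hEinj (by rw [vz, vz0, e1]))
    by_cases e2 : z a = (q : ℂ) / z0
    · right; left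
      exact congrArg ψ (hEinj (by rw [vz, map_div₀, map_natCast, vz0, e2]))
    right; right
    obtain ⟨j, x, hx, hx'⟩ := hz a
    have hza0 : z a ≠ 0 := by
      intro h0
      rw [h0] at hx'
      apply hqC
      simpa using hx'
    have hzaE : zE a ≠ 0 := fun h0 => hza0 (congrArg (algebraMap E ℂ) h0)
    have hxz : x = z a + (q : ℂ) / z a := by
      field_simp
      linear_combination -hx'
    let xE : E := zE a + (q : E) / zE a
    have vx : algebraMap E ℂ xE = x := by
      rw [hxz, map_add, map_div₀, map_natCast, vz]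
    have hxE : aeval xE (h j) = 0 := by
      apply hEinj
      rw [map_zero, ← hx, ← vx, ← aeval_algebraMap_apply]
    have hψx : aeval (ψ xE) (h j) = 0 := by
      have h3 : ψ (aeval xE (h j)) = aeval (ψ xE) (h j) := by
        rw [aeval_def, aeval_def, hom_eval₂]
        exact congrArg (fun f => eval₂ f (ψ xE) (h j)) (RingHom.ext_int _ _)
      rw [← h3, hxE, map_zero]
    obtain ⟨v, hv, hv'⟩ := FL_root ι (h j) (s j) (hs j) (ψ xE) hψx
    have hg' : ¬ (l : W) ∣ v ^ 2 - 4 * (q : W) := by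
      refine good j v hv fun hji h0 => ?_
      have h3 : ψ xE = ψ x0E := by rw [← hv', h0, hψ]
      have h4 : x = x0 := by rw [← vx, ← vx0, hψi h3]
      rw [h4] at hx'
      rcases FL_quad (q : ℂ) (z a) z0 x0 hx' hz0 hz00 with h5 | h5
      · exact e1 h5
      · exact e2 h5
    obtain ⟨u, hu⟩ := sq_W D hl hl2 _ hg'
    refine root_mem q v u hu (ψ (zE a)) ?_
    have h3 : algebraMap K Om (algebraMap W K v) = ψ xE := hv'
    rw [h3, ← map_natCast ψ q, ← map_pow, ← map_mul, ← map_sub, ← map_add, ← map_zero ψ]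
    congr 1
    show zE a ^ 2 - (zE a + (q : E) / zE a) * zE a + (q : E) = 0
    field_simp
    ring
  have hrelE : (∏ a, zE a) ^ (2 * d) = (q : E) ^ (d * k) := by
    apply hEinj
    rw [map_pow, map_prod, map_pow, map_natCast]
    exact hrel
  have hrelO : (∏ a, ψ (zE a)) ^ (2 * d) = algebraMap K Om ((q : K) ^ (d * k)) := by
    rw [map_pow, map_natCast, ← map_natCast ψ q, ← map_pow, ← hrelE, map_pow, map_prod]
  have hcardO : (Finset.univ.filter fun a => ψ (zE a) = ψ z0E).card ≠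
      (Finset.univ.filter fun a => ψ (zE a) = ψ ((q : E) / z0E)).card := by
    intro h0
    apply hcard
    have f1 : (Finset.univ.filter fun a => ψ (zE a) = ψ z0E) = Finset.univ.filter fun a => z a = z0 := by
      refine Finset.filter_congr fun a _ => ⟨fun h3 => ?_, fun h3 => ?_⟩
      · rw [← vz, ← vz0, hψi h3]
      · exact congrArg ψ (hEinj (by rw [vz, vz0, h3]))
    have f2 : (Finset.univ.filter fun a => ψ (zE a) = ψ ((q : E) / z0E)) =
        Finset.univ.filter fun a => z a = (q : ℂ) / z0 := by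
      refine Finset.filter_congr fun a _ => ⟨fun h3 => ?_, fun h3 => ?_⟩
      · rw [← vz, hψi h3, map_div₀, map_natCast, vz0]
      · exact congrArg ψ (hEinj (by rw [vz, map_div₀, map_natCast, vz0, h3]))
    rw [f1, f2] at h0
    exact h0
  have hp0 : (frobPoly q (h i)).map (Int.castRingHom ℚ) ≠ 0 := by
    rw [Ne, Polynomial.map_eq_zero_iff (RingHom.injective_int _)]
    exact (frob_deg q (h i) (hm i)).2
  have hpd : ((frobPoly q (h i)).map (Int.castRingHom ℚ)).natDegree ≤ 2 * g := by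
    refine natDegree_map_le.trans ?_
    rw [← hg i]
    exact (frob_deg q (h i) (hm i)).1
  have hpz : ∀ y : ℂ, y ^ 2 - x0 * y + (q : ℂ) = 0 →
      aeval y ((frobPoly q (h i)).map (Int.castRingHom ℚ)) = 0 := by
    intro y hy'
    have h3 := frob_root' q hq (h i) x0 y hx0 hy'
    rw [← h3, aeval_def, aeval_def, eval₂_map]
    exact congrArg (fun f => eval₂ f y (frobPoly q (h i))) (RingHom.ext_int _ _)
  -- the end
  have fin : ∀ yE : E, (algebraMap E ℂ yE) ^ 2 - x0 * (algebraMap E ℂ yE) + (q : ℂ) = 0 →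
      ∀ n : ℕ, 0 < n → IsPrimitiveRoot ((ψ yE) ^ 2 / (q : Om)) n → l ∣ n → False := by
    intro yE hyE n hn0 hn hln
    have h3 : ψ (yE ^ 2 / (q : E)) = (ψ yE) ^ 2 / (q : Om) := by
      rw [map_div₀, map_pow, map_natCast]
    rw [← h3] at hn
    have h4 := (hn.of_map_of_injective hψi).map_of_injective hEinj
    rw [map_div₀, map_pow, map_natCast] at h4
    have h5 := cyc (algebraMap E ℂ yE) _ q rfl _ hp0 (hpz _ hyE) n hn0 h4 l hl hln
    omega
  obtain ⟨M, hM, h3 | h3⟩ := rel_pow (fun a => ψ (zE a)) (ψ z0E) (ψ ((q : E) / z0E)) hZne (q : K) hqK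
    (by rw [hprod, map_natCast]) hy (2 * d) (by omega) ((q : K) ^ (d * k)) (pow_ne_zero _ hqK) hrelO hcardO
  · obtain ⟨n, hn0, hn, hln⟩ := core D hl hlq w e hwe hle _ _ hsum hprod M hM h3
    exact fin z0E hz0 n hn0 hn hln
  · obtain ⟨n, hn0, hn, hln⟩ := core D hl hlq w e hwe hle _ _ ((add_comm _ _).trans hsum)
      ((mul_comm _ _).trans hprod) M hM h3
    refine fin ((q : E) / z0E) ?_ n hn0 hn hln
    rw [map_div₀, map_natCast, vz0, hx0z]
    field_simp
    ring

/-- PROOF. `exists_loc` gives `W`, `k`, `D`; `K = FractionRing W`, `Om = AlgebraicClosure K`. `m : W` with `m ^ 2 = 4 q` (sq_W;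
`l > 2` does not divide `4 q`). For every `j` splits_W gives the multiset `s j` of roots, and resq_eq_prod the product formula.
one_root for `i`: the root `w`, `w ^ 2 - 4 q = l e`, and all other roots `v` of all `h j` (no_root for `j ≠ i`) have
`v ^ 2 - 4 q` not divisible by `l`, so a square of `W` (sq_W). `E = algebraicClosure ℚ ℂ`: all `z a`, `x0`, `z0` lie in `E`
(algebraic). `emb` gives `ψ : E →+* Om` with `ψ x0 = w`. Put `Z = ψ z0`, `Z' = ψ (q / z0) = q / Z` (`z0 ≠ 0` as `q > 0`),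
`Z + Z' = w`. For `a` with `z a` not `z0`, not `q / z0`: `x = z a + q / z a` is a root of `h j`; `ψ x` is a root of `h j` in `Om`, so it is
the image of some `v ∈ s j`; it is not `w` if `j = i` (else `x = x0`, and `z a` is a root of `X ^ 2 - x0 X + q`,
that is `z0` or `q / z0`): if `w` occurs in the rest `t` of `s i = w ::ₘ t` then `l ∤ w ^ 2 - 4 q`, contradiction, so `v ∈ s i`,
`v ≠ w` gives `v ∈ t`; so root_mem applies: `ψ (z a)` is in the image of `K`. `Z ≠ Z'`: else `w ^ 2 = 4 q`,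
`l e = 0`. If the two cardinals differ, rel_pow (with `y a = ψ (z a)`, `N = 2 d`, `Q = q ^ (d k)`, `c0 = q`; injectivity of `ψ`
for the cardinals) gives `M` with `Z ^ M` or `Z' ^ M` in the image of `K`; `core` (for the pair or the swapped pair)
gives `n > 0`, `l ∣ n`, with `ψ (z0 ^ 2 / q)` or `ψ ((q / z0) ^ 2 / q)` a primitive `n`-th root of unity; so is
`z0 ^ 2 / q` resp. `(q / z0) ^ 2 / q` in `ℂ` (IsPrimitiveRoot.of_map_of_injective, map_of_injective). `cyc` with `p =` (frobPoly q (h i)) over the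
rationals, of degree `2 g`, or any non-zero polynomial of degree `≤ 2 g` with roots `z0` and `q / z0` (frob_deg, frob_root in FB)
gives `l ≤ 2 g + 1`: contradiction. -/
theorem rel_one {q g r : ℕ} (hq : 0 < q) (h : Fin r → ℤ[X]) (hm : ∀ i, (h i).Monic)
    (hg : ∀ i, (h i).natDegree = g) (hi : ∀ i, Irreducible (h i)) (i : Fin r) (l : ℕ) (hl : l.Prime)
    (hlg : 2 * g + 1 < l) (hlq : ¬ l ∣ q) (h1 : (l : ℤ) ∣ resq q (h i)) (h2 : ¬ (l : ℤ) ^ 2 ∣ resq q (h i))
    (hsep : ∀ j, ((h j).map (Int.castRingHom (ZMod l))).Separable)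
    (hj : ∀ j, j ≠ i → ¬ (l : ℤ) ∣ resq q (h j)) (k d : ℕ) (hd : 0 < d) (z : Fin k → ℂ)
    (hz : ∀ a, ∃ (j : Fin r) (x : ℂ), aeval x (h j) = 0 ∧ z a ^ 2 - x * z a + (q : ℂ) = 0)
    (hrel : (∏ a, z a) ^ (2 * d) = (q : ℂ) ^ (d * k)) (z0 x0 : ℂ) (hx0 : aeval x0 (h i) = 0)
    (hz0 : z0 ^ 2 - x0 * z0 + (q : ℂ) = 0) :
    (Finset.univ.filter fun a => z a = z0).card = (Finset.univ.filter fun a => z a = (q : ℂ) / z0).card := by
  obtain ⟨W, k', i1, i2, i3, i4, i5, i6, i7, ⟨D⟩⟩ := exists_loc l hl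
  exact FL_aux hq h hm hg hi i l hl hlg hlq h1 h2 hsep hj k d hd z hz hrel z0 x0 hx0 hz0 (K := FractionRing W)
    (Om := AlgebraicClosure (FractionRing W)) D


end TI
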