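import Mathlib

/-! T-INF, block F, leaf FQ1: the radical of an integer polynomial. -/

namespace TI

open Polynomial

/-- PROOF. `Q' = ∏ p` over the finite set `S` of the `minpoly ℤ z`, `z` a complex root of `Q` (`(Q.aroots ℂ).toFinset.image`);
each is monic (`z` is integral), and mapped to the rationals it is `minpoly ℚ z`
(minpoly.isIntegrallyClosed_eq_field_fractions'), irreducible, so separable (characteristic 0); different ones are coprime
(monic irreducible, not associated); so the product is separable (Polynomial.separable_prod). -/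
theorem rad (Q : ℤ[X]) (hQ : Q.Monic) : ∃ Q' : ℤ[X], Q'.Monic ∧
    (∀ z : ℂ, aeval z Q = 0 → aeval z Q' = 0) ∧ (Q'.map (Int.castRingHom ℚ)).Separable := by
  classical
  have hne : Q ≠ 0 := hQ.ne_zero
  have hint : ∀ z : ℂ, aeval z Q = 0 → IsIntegral ℤ z := fun z hz => ⟨Q, hQ, by rwa [← aeval_def]⟩
  set S : Finset ℤ[X] := (Q.aroots ℂ).toFinset.image fun z => minpoly ℤ z with hS
  have hSmem : ∀ q ∈ S, ∃ z : ℂ, IsIntegral ℤ z ∧ q = minpoly ℤ z := by
    intro q hq
    rw [hS, Finset.mem_image] at hq
    obtain ⟨z, hz, rfl⟩ := hq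
    rw [Multiset.mem_toFinset, mem_aroots] at hz
    exact ⟨z, hint z hz.2, rfl⟩
  have hmon : ∀ q ∈ S, q.Monic := by
    intro q hq
    obtain ⟨z, hz, rfl⟩ := hSmem q hq
    exact minpoly.monic hz
  have hirr : ∀ q ∈ S, Irreducible (q.map (Int.castRingHom ℚ)) := by
    intro q hq
    obtain ⟨z, hz, rfl⟩ := hSmem q hq
    have h1 : (minpoly ℤ z).map (Int.castRingHom ℚ) = minpoly ℚ z :=
      (minpoly.isIntegrallyClosed_eq_field_fractions' ℚ hz).symm
    rw [h1]
    exact minpoly.irreducible (hz.tower_top (A := ℚ))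
  refine ⟨∏ q ∈ S, q, monic_prod_of_monic S (fun q => q) hmon, ?_, ?_⟩
  · intro z hz
    rw [map_prod]
    refine Finset.prod_eq_zero (i := minpoly ℤ z) ?_ (minpoly.aeval ℤ z)
    rw [hS, Finset.mem_image]
    exact ⟨z, by rw [Multiset.mem_toFinset, mem_aroots]; exact ⟨hne, hz⟩, rfl⟩
  · rw [Polynomial.map_prod]
    refine separable_prod' ?_ fun q hq => (hirr q hq).separable
    intro q hq q' hq' hqq
    rcases (hirr q hq).isCoprime_or_dvd (q'.map (Int.castRingHom ℚ)) with h | h
    · exact h
    · exfalso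
      apply hqq
      have h1 := (hirr q hq).associated_of_dvd (hirr q' hq') h
      have h2 := eq_of_monic_of_associated ((hmon q hq).map _) ((hmon q' hq').map _) h1
      exact map_injective (Int.castRingHom ℚ) (RingHom.injective_int _) h2

end TI
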