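import Mathlib

/-! T-INF, block F, leaf FQ2: separable reduction for all large primes. -/

namespace TI

open Polynomial

private theorem FQ2_clear (p : ℚ[X]) : ∃ (p' : ℤ[X]) (m : ℤ), m ≠ 0 ∧
    p'.map (Int.castRingHom ℚ) = C (m : ℚ) * p := by
  obtain ⟨b, hbm, hb⟩ := IsLocalization.integerNormalization_spec (nonZeroDivisors ℤ) p
  refine ⟨IsLocalization.integerNormalization (nonZeroDivisors ℤ) p, b, nonZeroDivisors.ne_zero hbm, ?_⟩
  have h1 : (algebraMap ℤ ℚ) = Int.castRingHom ℚ := rfl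
  rw [h1] at hb
  rw [hb]
  ext i
  rw [Polynomial.coeff_smul, Polynomial.coeff_C_mul, zsmul_eq_mul]

/-- PROOF. `a R + b R' = 1` over the rationals; clear denominators: `a' R + b' R' = N` over the integers with an integer `N ≠ 0`
(IsLocalization.integerNormalization or a common denominator of the finitely many coefficients). If `l` is a prime
`> |N|` then `N` is a unit modulo `l`: divide. `C = N.natAbs`. -/
theorem sep_large (R : ℤ[X]) (hR : (R.map (Int.castRingHom ℚ)).Separable) :
    ∃ C : ℕ, ∀ l : ℕ, l.Prime → C < l → (R.map (Int.castRingHom (ZMod l))).Separable := by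
  obtain ⟨a, b, hab⟩ := hR
  obtain ⟨a', m, hm, ha⟩ := FQ2_clear a
  obtain ⟨b', n, hn, hb⟩ := FQ2_clear b
  have hZ : C n * a' * R + C m * b' * derivative R = C (m * n) := by
    apply Polynomial.map_injective (Int.castRingHom ℚ) (RingHom.injective_int _)
    rw [Polynomial.map_add, Polynomial.map_mul, Polynomial.map_mul, Polynomial.map_mul, Polynomial.map_mul,
      Polynomial.map_C, Polynomial.map_C, Polynomial.map_C, ha, hb, ← Polynomial.derivative_map, map_mul,
      map_mul]
    simp only [eq_intCast]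
    linear_combination (C (m : ℚ) * C (n : ℚ)) * hab
  refine ⟨(m * n).natAbs, fun l hl hlt => ?_⟩
  have : Fact l.Prime := ⟨hl⟩
  have hN : ((m * n : ℤ) : ZMod l) ≠ 0 := by
    rw [Ne, ZMod.intCast_zmod_eq_zero_iff_dvd]
    intro hd
    have h1 : l ≤ (m * n).natAbs := Nat.le_of_dvd (Int.natAbs_pos.2 (mul_ne_zero hm hn)) (Int.natCast_dvd.1 hd)
    omega
  have hl2 := congrArg (Polynomial.map (Int.castRingHom (ZMod l))) hZ
  rw [Polynomial.map_add, Polynomial.map_mul, Polynomial.map_mul, Polynomial.map_mul, Polynomial.map_mul,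
      Polynomial.map_C, Polynomial.map_C, Polynomial.map_C, ← Polynomial.derivative_map] at hl2
  refine ⟨C (((m * n : ℤ) : ZMod l)⁻¹) * (C ((Int.castRingHom (ZMod l)) n) * a'.map (Int.castRingHom (ZMod l))),
    C (((m * n : ℤ) : ZMod l)⁻¹) * (C ((Int.castRingHom (ZMod l)) m) * b'.map (Int.castRingHom (ZMod l))), ?_⟩
  have h1 : C (((m * n : ℤ) : ZMod l)⁻¹) * C (((m * n : ℤ) : ZMod l)) = 1 := by
    rw [← Polynomial.C_mul, inv_mul_cancel₀ hN, Polynomial.C_1]
  have h2 : (Int.castRingHom (ZMod l)) (m * n) = ((m * n : ℤ) : ZMod l) := rfl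
  rw [h2] at hl2
  linear_combination (C (((m * n : ℤ) : ZMod l)⁻¹)) * hl2 + h1

end TI
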