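import Pool.Agent.Lib.MP_021685_agTI.F0

/-! T-INF, block F, leaf FW: the Witt vectors. -/

namespace TI

open Polynomial

private theorem FW_dvd_iff {l : ℕ} [Fact l.Prime] {k : Type} [Field k] [CharP k l] [PerfectRing k l]
    (w : WittVector l k) : WittVector.constantCoeff w = 0 ↔ (l : WittVector l k) ∣ w := by
  rw [← RingHom.mem_ker, WittVector.ker_constantCoeff, Ideal.mem_span_singleton]

private theorem FW_charZero (l : ℕ) [hl : Fact l.Prime] (k : Type) [Field k] [CharP k l]
    [PerfectRing k l] : CharZero (WittVector l k) := by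
  refine charZero_of_inj_zero ?_
  intro n hn
  by_contra hne
  obtain ⟨a, m, hm, rfl⟩ := Nat.exists_eq_pow_mul_and_not_dvd hne l hl.out.ne_one
  rw [Nat.cast_mul, Nat.cast_pow, mul_eq_zero] at hn
  rcases hn with h | h
  · exact WittVector.p_nonzero l k (eq_zero_of_pow_eq_zero h)
  · have h1 : WittVector.constantCoeff (m : WittVector l k) = 0 := by rw [h, map_zero]
    rw [map_natCast, CharP.cast_eq_zero_iff k l] at h1
    exact hm h1

/-- PROOF. `k = AlgebraicClosure (ZMod l)`, `W = WittVector l k` (instances isDiscreteValuationRing, instIsDomain;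
`CharZero W`: if `(n : W) = 0` with `n = l ^ a m`, `m` prime to `l`, then `(l : W) ^ a (m : W) = 0`, `(l : W)` is not zero
(WittVector.p_nonzero) and `(m : W)` has non-zero image in `k`); `res` = WittVector.constantCoeff; `ker` from
WittVector.ker_constantCoeff and Ideal.mem_span_singleton; `unit` from WittVector.isUnit_of_coeff_zero_ne_zero;
`lift` from HenselianRing.is_henselian for the ideal `span {l}` (instances WittVector.isAdicCompleteIdealSpanP and
IsAdicComplete.henselianRing), where `a₀ : W` is any lift of `a` (`constantCoeff` is surjective: Teichmueller) and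
`IsUnit (Ideal.Quotient.mk I (f.derivative.eval a₀))` because `f.derivative.eval a₀` is a unit of `W` by `unit`. -/
theorem exists_loc (l : ℕ) (hl : l.Prime) :
    ∃ (W k : Type) (_ : CommRing W) (_ : IsDomain W) (_ : IsDiscreteValuationRing W) (_ : CharZero W)
      (_ : Field k) (_ : IsAlgClosed k) (_ : CharP k l), Nonempty (Loc l W k) := by
  have hf : Fact l.Prime := ⟨hl⟩
  have hchar : CharP (AlgebraicClosure (ZMod l)) l :=
    charP_of_injective_algebraMap (algebraMap (ZMod l) (AlgebraicClosure (ZMod l))).injective l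
  have := hchar
  have hunit : ∀ w : WittVector l (AlgebraicClosure (ZMod l)),
      ¬ (l : WittVector l (AlgebraicClosure (ZMod l))) ∣ w → IsUnit w := by
    intro w hw
    rw [← FW_dvd_iff, WittVector.constantCoeff_apply] at hw
    exact WittVector.isUnit_of_coeff_zero_ne_zero w hw
  refine ⟨WittVector l (AlgebraicClosure (ZMod l)), AlgebraicClosure (ZMod l), inferInstance,
    inferInstance, WittVector.isDiscreteValuationRing, FW_charZero l _, inferInstance, inferInstance,
    hchar, ⟨⟨WittVector.constantCoeff, FW_dvd_iff, hunit, ?_⟩⟩⟩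
  intro f a hf ha hd
  obtain ⟨a₀, rfl⟩ := WittVector.constantCoeff_surjective l a
  have : HenselianRing (WittVector l (AlgebraicClosure (ZMod l)))
      (Ideal.span {(l : WittVector l (AlgebraicClosure (ZMod l)))}) :=
    IsAdicComplete.henselianRing _ _
  rw [eval_map, eval₂_hom] at ha
  rw [derivative_map, eval_map, eval₂_hom] at hd
  obtain ⟨w, hw, hwa⟩ := HenselianRing.is_henselian
    (I := Ideal.span {(l : WittVector l (AlgebraicClosure (ZMod l)))}) f hf a₀
    (by rw [Ideal.mem_span_singleton, ← FW_dvd_iff]; exact ha)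
    (by
      refine IsUnit.map _ (hunit _ ?_)
      rw [← FW_dvd_iff]
      exact hd)
  refine ⟨w, hw, ?_⟩
  rw [Ideal.mem_span_singleton, ← FW_dvd_iff, map_sub, sub_eq_zero] at hwa
  exact hwa

end TI
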