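import Pool.Agent.Lib.MP_021685_agTI.L3
import Pool.Agent.Lib.MP_021685_agTI.L2
import Pool.Agent.Lib.MP_021685_agTI.E2
import Pool.Agent.Lib.MP_021685_agTI.R1
import Pool.Agent.Lib.MP_021685_agTI.S0
import Pool.Agent.Lib.MP_021685_agTI.C5

/-! LEAF G1 (medium).  Almost all members are irreducible and good.

PROOF.  `N = ncard (Weil q g)`, `M_k = ncard (pre g k '' Weil q g)`.  For `g ≥ max(3, g₀)` the set of the members that are not (irreducible and good) is contained in the union of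
(a) the reducible ones: `≤ ∑ N_i N_(g-i) ≤ C √q (19/20)^g N` (`red_count`, `count_red`);
(b) the members with `¬ OKline q h`: the condition depends only on `pre g (g-1) h` (by `ev_add_C`; `h - h(m)` is unchanged when a constant is added), each fiber has at most `4√q^g + 1` elements (`fiber_card_le`), the number of fibers is at most `2g M_(g-2)` (`bad_lines`): `≤ C √q (19/20)^g N` (`count_bad`);
(c) the set `A` of `h ∈ Strict q g` (irreducible members are strict: `irreducible_strict`) with `OKline q h` and `¬ GoodR q g h`: `sum_fibers` with `X = Weil q g`, `f = pre g (g-1)`, `a = 1/(c log g)`, `b = 10 (21/20)^(4g)` (`line_sieve` for the fibers which contain an `h₀` with `OKline`, the others are empty;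
`Strict ⊆ Weil`): `≤ N/(c log g) + 10 (21/20)^(4g) M_(g-1) ≤ N/(c log g) + 10 C (19/20)^g N` (`count_lines`).
Finally `(19/20)^g ≤ C'/log g`. -/

namespace TI

open Polynomial

theorem pow_le_div_log {g : ℕ} (hg : 3 ≤ g) : ((19 : ℝ) / 20) ^ g ≤ 19 / Real.log g := by
  have hg3 : (3 : ℝ) ≤ (g : ℝ) := by exact_mod_cast hg
  have hg0 : (0 : ℝ) < (g : ℝ) := by linarith
  have hlog : 0 < Real.log g := Real.log_pos (by linarith)
  have hlog2 : Real.log g ≤ g := Real.log_le_self hg0.le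
  have h1 : 1 + (g : ℝ) * (1 / 19) ≤ (1 + 1 / 19 : ℝ) ^ g :=
    one_add_mul_le_pow (by norm_num) g
  have h2 : ((19 : ℝ) / 20) ^ g * (1 + 1 / 19 : ℝ) ^ g = 1 := by
    rw [← mul_pow]; norm_num
  have h3 : 0 < ((19 : ℝ) / 20) ^ g := by positivity
  rw [le_div_iff₀ hlog]
  have h4 : ((19 : ℝ) / 20) ^ g * ((g : ℝ) * (1 / 19)) ≤ 1 := by
    calc ((19 : ℝ) / 20) ^ g * ((g : ℝ) * (1 / 19))
        ≤ ((19 : ℝ) / 20) ^ g * (1 + 1 / 19 : ℝ) ^ g := by
          apply mul_le_mul_of_nonneg_left _ h3.le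
          linarith
      _ = 1 := h2
  have h5 : ((19 : ℝ) / 20) ^ g * Real.log g ≤ ((19 : ℝ) / 20) ^ g * g :=
    mul_le_mul_of_nonneg_left hlog2 h3.le
  linarith

theorem main_count (q : ℕ) (hq : 4096 ≤ q) : ∃ C : ℝ, 0 ≤ C ∧ ∃ g₀ : ℕ, 3 ≤ g₀ ∧ ∀ g : ℕ, g₀ ≤ g →
    (({h | h ∈ Weil q g ∧ ¬ (Irreducible h ∧ GoodR q g h)} : Set ℤ[X]).ncard : ℝ) ≤
      C / Real.log g * ((Weil q g).ncard : ℝ) := by
  obtain ⟨c, hc, g₁, hg₁, hsieve⟩ := line_sieve q (by omega)
  obtain ⟨CL, hCL, hlines⟩ := count_lines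
  obtain ⟨CB, hCB, hbad⟩ := count_bad
  obtain ⟨CR, hCR, hred⟩ := count_red
  have hsq : 0 ≤ Real.sqrt q := Real.sqrt_nonneg _
  refine ⟨19 * (CR * Real.sqrt q + CB * Real.sqrt q + 10 * CL) + 1 / c, by positivity,
    max g₁ 3, le_max_right _ _, ?_⟩
  intro g hg
  have hg1 : g₁ ≤ g := le_trans (le_max_left _ _) hg
  have hg3 : 3 ≤ g := le_trans (le_max_right _ _) hg
  have hg3' : (3 : ℝ) ≤ (g : ℝ) := by exact_mod_cast hg3
  have hlog : 0 < Real.log g := Real.log_pos (by linarith)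
  have hfin : (Weil q g).Finite := Weil_finite q g
  have hN0 : (0 : ℝ) ≤ ((Weil q g).ncard : ℝ) := Nat.cast_nonneg _
  -- the three sets
  have hRsub : ({h | h ∈ Weil q g ∧ ¬ Irreducible h} : Set ℤ[X]) ⊆ Weil q g := fun h hh => hh.1
  have hBsub : ({h ∈ Weil q g | ¬ OKline q h} : Set ℤ[X]) ⊆ Weil q g := fun h hh => hh.1
  have hAsub : ({h | h ∈ Strict q g ∧ OKline q h ∧ ¬ GoodR q g h} : Set ℤ[X]) ⊆ Weil q g :=
    fun h hh => hh.1.1
  have hRfin := hfin.subset hRsub
  have hBfin := hfin.subset hBsub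
  have hAfin := hfin.subset hAsub
  have hcov : ({h | h ∈ Weil q g ∧ ¬ (Irreducible h ∧ GoodR q g h)} : Set ℤ[X]) ⊆
      ({h | h ∈ Weil q g ∧ ¬ Irreducible h} : Set ℤ[X]) ∪
        (({h ∈ Weil q g | ¬ OKline q h} : Set ℤ[X]) ∪
          ({h | h ∈ Strict q g ∧ OKline q h ∧ ¬ GoodR q g h} : Set ℤ[X])) := by
    intro h hh
    obtain ⟨hW, hn⟩ := hh
    by_cases hi : Irreducible h
    · right
      by_cases hok : OKline q h
      · right
        exact ⟨irreducible_strict hg3 hW hi, hok, fun hgood => hn ⟨hi, hgood⟩⟩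
      · left
        exact ⟨hW, hok⟩
    · left
      exact ⟨hW, hi⟩
  have hcard : ({h | h ∈ Weil q g ∧ ¬ (Irreducible h ∧ GoodR q g h)} : Set ℤ[X]).ncard ≤
      ({h | h ∈ Weil q g ∧ ¬ Irreducible h} : Set ℤ[X]).ncard +
        (({h ∈ Weil q g | ¬ OKline q h} : Set ℤ[X]).ncard +
          ({h | h ∈ Strict q g ∧ OKline q h ∧ ¬ GoodR q g h} : Set ℤ[X]).ncard) := by
    refine le_trans (Set.ncard_le_ncard hcov (hRfin.union (hBfin.union hAfin))) ?_
    refine le_trans (Set.ncard_union_le _ _) ?_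
    exact Nat.add_le_add_left (Set.ncard_union_le _ _) _
  -- the reducible ones
  have hR : (({h | h ∈ Weil q g ∧ ¬ Irreducible h} : Set ℤ[X]).ncard : ℝ) ≤
      CR * Real.sqrt q * (19 / 20) ^ g * ((Weil q g).ncard : ℝ) := by
    refine le_trans ?_ (hred q hq g (by omega))
    have h1 := red_count (q := q) (g := g) (by omega)
    have h2 : (({h | h ∈ Weil q g ∧ ¬ Irreducible h} : Set ℤ[X]).ncard : ℝ) ≤
        ((∑ i ∈ Finset.Ico 1 g, (Weil q i).ncard * (Weil q (g - i)).ncard : ℕ) : ℝ) := by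
      exact_mod_cast h1
    refine le_trans h2 (le_of_eq ?_)
    push_cast
    rfl
  -- the members of bad lines
  have hB : (({h ∈ Weil q g | ¬ OKline q h} : Set ℤ[X]).ncard : ℝ) ≤
      CB * Real.sqrt q * (19 / 20) ^ g * ((Weil q g).ncard : ℝ) := by
    refine le_trans ?_ (hbad q hq g (by omega))
    have h1 := sum_fibers (X := ({h ∈ Weil q g | ¬ OKline q h} : Set ℤ[X]))
      (A := ({h ∈ Weil q g | ¬ OKline q h} : Set ℤ[X])) hBfin (Set.Subset.refl _)
      (pre g (g - 1)) (a := 0) (b := 4 * Real.sqrt q ^ g + 1) (by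
        intro w _
        have h2 := fiber_card_le (q := q) (g := g) (by omega) (by omega) w
        have h3 : (({h ∈ Weil q g | ¬ OKline q h} : Set ℤ[X]) ∩ (pre g (g - 1)) ⁻¹' {w}).ncard ≤
            ({h ∈ Weil q g | pre g (g - 1) h = w} : Set ℤ[X]).ncard := by
          apply Set.ncard_le_ncard
          · intro h hh
            exact ⟨hh.1.1, hh.2⟩
          · exact hfin.subset (fun h hh => hh.1)
        have h4 : ((({h ∈ Weil q g | ¬ OKline q h} : Set ℤ[X]) ∩ (pre g (g - 1)) ⁻¹' {w}).ncard : ℝ) ≤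
            (({h ∈ Weil q g | pre g (g - 1) h = w} : Set ℤ[X]).ncard : ℝ) := by
          exact_mod_cast h3
        rw [zero_mul, zero_add]
        exact le_trans h4 h2)
    rw [zero_mul, zero_add] at h1
    have h5 := bad_lines (q := q) (g := g) (by omega) (by omega)
    have h6 : ((pre g (g - 1) '' {h ∈ Weil q g | ¬ OKline q h}).ncard : ℝ) ≤
        2 * (g : ℝ) * ((pre g (g - 2) '' Weil q g).ncard : ℝ) := by
      exact_mod_cast h5
    have hb : 0 ≤ 4 * Real.sqrt q ^ g + 1 := by positivity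
    calc (({h ∈ Weil q g | ¬ OKline q h} : Set ℤ[X]).ncard : ℝ)
        ≤ (4 * Real.sqrt q ^ g + 1) * ((pre g (g - 1) '' {h ∈ Weil q g | ¬ OKline q h}).ncard : ℝ) := h1
      _ ≤ (4 * Real.sqrt q ^ g + 1) * (2 * (g : ℝ) * ((pre g (g - 2) '' Weil q g).ncard : ℝ)) :=
          mul_le_mul_of_nonneg_left h6 hb
      _ = ((pre g (g - 2) '' Weil q g).ncard : ℝ) * (4 * Real.sqrt q ^ g + 1) * (2 * g) := by ring
  -- the members of good lines which the sieve misses
  have hA : (({h | h ∈ Strict q g ∧ OKline q h ∧ ¬ GoodR q g h} : Set ℤ[X]).ncard : ℝ) ≤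
      1 / (c * Real.log g) * ((Weil q g).ncard : ℝ) +
        10 * (21 / 20) ^ (4 * g) * ((pre g (g - 1) '' Weil q g).ncard : ℝ) := by
    apply sum_fibers hfin hAsub (pre g (g - 1))
    intro w _
    rcases Set.eq_empty_or_nonempty
      (({h | h ∈ Strict q g ∧ OKline q h ∧ ¬ GoodR q g h} : Set ℤ[X]) ∩ (pre g (g - 1)) ⁻¹' {w})
      with he | ⟨h₀, hh₀, hw⟩
    · rw [he, Set.ncard_empty]
      push_cast
      positivity
    · have hw' : pre g (g - 1) h₀ = w := hw
      have h1 := hsieve g hg1 h₀ hh₀.1.1 hh₀.2.1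
      have h2 : (({h | h ∈ Strict q g ∧ OKline q h ∧ ¬ GoodR q g h} : Set ℤ[X]) ∩
          (pre g (g - 1)) ⁻¹' {w}).ncard ≤
          ({h | h ∈ Strict q g ∧ pre g (g - 1) h = pre g (g - 1) h₀ ∧ ¬ GoodR q g h} :
            Set ℤ[X]).ncard := by
        apply Set.ncard_le_ncard
        · intro h hh
          have hhw : pre g (g - 1) h = w := hh.2
          exact ⟨hh.1.1, by rw [hhw, hw'], hh.1.2.2⟩
        · exact hfin.subset (fun h hh => hh.1.1)
      have h3 : ({h | h ∈ Strict q g ∧ pre g (g - 1) h = pre g (g - 1) h₀} : Set ℤ[X]).ncard ≤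
          (Weil q g ∩ (pre g (g - 1)) ⁻¹' {w}).ncard := by
        apply Set.ncard_le_ncard
        · intro h hh
          refine ⟨hh.1.1, ?_⟩
          show pre g (g - 1) h = w
          rw [hh.2, hw']
        · exact hfin.subset (fun h hh => hh.1)
      have h2' : ((({h | h ∈ Strict q g ∧ OKline q h ∧ ¬ GoodR q g h} : Set ℤ[X]) ∩
          (pre g (g - 1)) ⁻¹' {w}).ncard : ℝ) ≤
          (({h | h ∈ Strict q g ∧ pre g (g - 1) h = pre g (g - 1) h₀ ∧ ¬ GoodR q g h} :
            Set ℤ[X]).ncard : ℝ) := by exact_mod_cast h2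
      have h3' : (({h | h ∈ Strict q g ∧ pre g (g - 1) h = pre g (g - 1) h₀} : Set ℤ[X]).ncard : ℝ) ≤
          ((Weil q g ∩ (pre g (g - 1)) ⁻¹' {w}).ncard : ℝ) := by exact_mod_cast h3
      have hcl : 0 < c * Real.log g := mul_pos hc hlog
      have h4 : (({h | h ∈ Strict q g ∧ pre g (g - 1) h = pre g (g - 1) h₀} : Set ℤ[X]).ncard : ℝ) /
          (c * Real.log g) ≤
          1 / (c * Real.log g) * ((Weil q g ∩ (pre g (g - 1)) ⁻¹' {w}).ncard : ℝ) := by
        rw [div_eq_mul_one_div, mul_comm]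
        exact mul_le_mul_of_nonneg_left h3' (by positivity)
      linarith
  have hL := hlines q hq g (by omega)
  have hP := pow_le_div_log hg3
  have hcardR : (({h | h ∈ Weil q g ∧ ¬ (Irreducible h ∧ GoodR q g h)} : Set ℤ[X]).ncard : ℝ) ≤
      (({h | h ∈ Weil q g ∧ ¬ Irreducible h} : Set ℤ[X]).ncard : ℝ) +
        ((({h ∈ Weil q g | ¬ OKline q h} : Set ℤ[X]).ncard : ℝ) +
          (({h | h ∈ Strict q g ∧ OKline q h ∧ ¬ GoodR q g h} : Set ℤ[X]).ncard : ℝ)) := by
    exact_mod_cast hcard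
  have hK : 0 ≤ CR * Real.sqrt q + CB * Real.sqrt q + 10 * CL := by positivity
  calc (({h | h ∈ Weil q g ∧ ¬ (Irreducible h ∧ GoodR q g h)} : Set ℤ[X]).ncard : ℝ)
      ≤ CR * Real.sqrt q * (19 / 20) ^ g * ((Weil q g).ncard : ℝ) +
        (CB * Real.sqrt q * (19 / 20) ^ g * ((Weil q g).ncard : ℝ) +
          (1 / (c * Real.log g) * ((Weil q g).ncard : ℝ) +
            10 * (CL * (19 / 20) ^ g * ((Weil q g).ncard : ℝ)))) := by linarith
    _ = ((CR * Real.sqrt q + CB * Real.sqrt q + 10 * CL) * (19 / 20) ^ g +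
          1 / (c * Real.log g)) * ((Weil q g).ncard : ℝ) := by ring
    _ ≤ ((CR * Real.sqrt q + CB * Real.sqrt q + 10 * CL) * (19 / Real.log g) +
          1 / (c * Real.log g)) * ((Weil q g).ncard : ℝ) := by
        apply mul_le_mul_of_nonneg_right _ hN0
        linarith [mul_le_mul_of_nonneg_left hP hK]
    _ = (19 * (CR * Real.sqrt q + CB * Real.sqrt q + 10 * CL) + 1 / c) / Real.log g *
          ((Weil q g).ncard : ℝ) := by
        field_simp

end TI
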