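import Pool.Agent.Lib.MP_021685_agTI.G1
import Pool.Agent.Lib.MP_021685_agTI.G2

/-! Block G: almost all tuples satisfy the hypotheses of the criterion. -/

namespace TI

open Polynomial

/-- the hypotheses of the criterion for the tuple `t`, with primes larger than `g ^ 3` -/
def GoodT (q g : ℕ) {r : ℕ} (t : Fin r → ℤ[X]) : Prop :=
  (∀ i, t i ∈ Weil q g) ∧ (∀ i, Irreducible (t i)) ∧ ∃ l : Fin r → ℕ, (∀ i, (l i).Prime) ∧ (∀ i, g ^ 3 < l i) ∧
    (∀ i, ¬ l i ∣ q) ∧ (∀ i, (l i : ℤ) ∣ resq q (t i)) ∧ (∀ i, ¬ (l i : ℤ) ^ 2 ∣ resq q (t i)) ∧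
    (∀ i j, ((t j).map (Int.castRingHom (ZMod (l i)))).Separable) ∧
    (∀ i j, j ≠ i → ¬ (l i : ℤ) ∣ resq q (t j))

theorem good_tuples (q : ℕ) (hq : 4096 ≤ q) (p : ℕ) (hp : 2 ≤ p) (r : ℕ) : ∃ C : ℝ, ∃ g₀ : ℕ, 3 ≤ g₀ ∧
    ∀ g : ℕ, g₀ ≤ g → ∀ Y : Set ℤ[X], {h | h ∈ Weil q g ∧ ¬ (p : ℤ) ∣ h.coeff 0} ⊆ Y → Y ⊆ Weil q g →
      Y.Finite ∧ Y.Nonempty ∧
        (({t : Fin r → ℤ[X] | (∀ i, t i ∈ Y) ∧ ¬ GoodT q g t}).ncard : ℝ) ≤
          C / Real.log g * (Y.ncard : ℝ) ^ r := by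
  obtain ⟨C₁, hC₁, g₁, hg₁, H₁⟩ := main_count q hq
  obtain ⟨C₂, hC₂, g₂, hg₂, H₂⟩ := mod_count q hq
  obtain ⟨g₃, hg₃, H₃⟩ := ord_count q hq p hp
  refine ⟨3 * r * C₁ + 3 * r ^ 2 * C₂, max g₁ (max g₂ g₃), hg₁.trans (le_max_left _ _), ?_⟩
  intro g hg Y hY1 hY2
  have hgg₁ : g₁ ≤ g := (le_max_left _ _).trans hg
  have hgg₂ : g₂ ≤ g := ((le_max_left _ _).trans (le_max_right _ _)).trans hg
  have hgg₃ : g₃ ≤ g := ((le_max_right _ _).trans (le_max_right _ _)).trans hg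
  have hg3 : 3 ≤ g := hg₁.trans hgg₁
  have hX := Weil_finite q g
  have hYf : Y.Finite := hX.subset hY2
  have h3 : (Weil q g).ncard ≤ 3 * Y.ncard :=
    (H₃ g hgg₃).trans (Nat.mul_le_mul_left 3 (Set.ncard_le_ncard hY1 hYf))
  have hpos : 0 < (Weil q g).ncard := by
    have h1 := Weil_card_ge (q := q) (g := g) (by omega) (by omega)
    have hqs : 0 < Real.sqrt q := Real.sqrt_pos.2 (by exact_mod_cast (by omega : 0 < q))
    have hgs : 0 < Real.sqrt g := Real.sqrt_pos.2 (by exact_mod_cast (by omega : 0 < g))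
    have h2 : 0 < Real.sqrt q ^ (g * (g + 1) / 2) * (2 * Real.sqrt 2 / Real.sqrt g) ^ g := by positivity
    by_contra h4
    have h5 : (Weil q g).ncard = 0 := by omega
    rw [h5] at h1
    simp at h1
    linarith
  have hYc : 0 < Y.ncard := by omega
  have hYne : Y.Nonempty := (Set.ncard_pos hYf).1 hYc
  refine ⟨hYf, hYne, ?_⟩
  have hlog : 0 < Real.log g := Real.log_pos (by exact_mod_cast (by omega : 1 < g))
  have hlogle : Real.log g ≤ g := (Real.log_le_self (by positivity))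
  classical
  have hch : ∀ h : ℤ[X], ∃ l : ℕ, GoodR q g h → (l ∈ Pg q g ∧ (l : ℤ) ∣ resq q h ∧ ¬ (l : ℤ) ^ 2 ∣ resq q h ∧
      (h.map (Int.castRingHom (ZMod l))).Separable) := by
    intro h
    by_cases hh : GoodR q g h
    · obtain ⟨l, h1, h2⟩ := hh
      exact ⟨l, fun _ => ⟨h1, h2⟩⟩
    · exact ⟨0, fun h' => absurd h' hh⟩
  choose ℓ hℓ using hch
  have ht := tuples (X := Weil q g) (Y := Y) (G := {h | Irreducible h ∧ GoodR q g h}) hX hY2 h3
    (fun h => {h' | (ℓ h : ℤ) ∣ resq q h' ∨ ¬ (h'.map (Int.castRingHom (ZMod (ℓ h)))).Separable})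
    (a := C₁ / Real.log g) (b := C₂ / Real.log g) (by positivity) (by positivity) ?_ ?_ r
  · refine le_trans ?_ (ht.trans (le_of_eq ?_))
    · have hsub : {t : Fin r → ℤ[X] | (∀ i, t i ∈ Y) ∧ ¬ GoodT q g t} ⊆
          {t : Fin r → ℤ[X] | (∀ i, t i ∈ Y) ∧ ¬ ((∀ i, t i ∈ {h | Irreducible h ∧ GoodR q g h}) ∧
            ∀ i j, i ≠ j → t j ∉ {h' | (ℓ (t i) : ℤ) ∣ resq q h' ∨
              ¬ (h'.map (Int.castRingHom (ZMod (ℓ (t i))))).Separable})} := by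
        rintro t ⟨hty, hg⟩
        refine ⟨hty, ?_⟩
        rintro ⟨hG, hB⟩
        apply hg
        have hPg : ∀ i, (ℓ (t i)).Prime ∧ g ^ 3 < ℓ (t i) ∧ Odd (ℓ (t i)) ∧ ¬ ℓ (t i) ∣ q ∧
            IsSquare ((q : ℕ) : ZMod (ℓ (t i))) := by
          intro i
          have h1 := (hℓ (t i) (hG i).2).1
          unfold Pg at h1
          exact (Finset.mem_filter.1 h1).2
        refine ⟨fun i => hY2 (hty i), fun i => (hG i).1, fun i => ℓ (t i), fun i => (hPg i).1,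
          fun i => (hPg i).2.1, fun i => (hPg i).2.2.2.1, fun i => (hℓ (t i) (hG i).2).2.1,
          fun i => (hℓ (t i) (hG i).2).2.2.1, ?_, ?_⟩
        · intro i j
          by_cases hij : i = j
          · rw [← hij]
            exact (hℓ (t i) (hG i).2).2.2.2
          · have h1 := hB i j hij
            simp only [Set.mem_ofPred_eq, not_or, not_not] at h1
            exact h1.2
        · intro i j hij
          have h1 := hB i j (Ne.symm hij)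
          simp only [Set.mem_ofPred_eq, not_or, not_not] at h1
          exact h1.1
      have hfin : {t : Fin r → ℤ[X] | (∀ i, t i ∈ Y) ∧ ¬ ((∀ i, t i ∈ {h | Irreducible h ∧ GoodR q g h}) ∧
            ∀ i j, i ≠ j → t j ∉ {h' | (ℓ (t i) : ℤ) ∣ resq q h' ∨
              ¬ (h'.map (Int.castRingHom (ZMod (ℓ (t i))))).Separable})}.Finite := by
        apply Set.Finite.subset (Set.Finite.pi' (fun _ : Fin r => hYf))
        rintro t ⟨hty, -⟩
        exact hty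
      exact_mod_cast Set.ncard_le_ncard hsub hfin
    · ring
  · have h1 := H₁ g hgg₁
    exact h1
  · rintro x ⟨hx1, hx2⟩
    have h1 := H₂ g hgg₂ (ℓ x) (hℓ x hx2.2).1
    have h2 : ({h' | (ℓ x : ℤ) ∣ resq q h' ∨ ¬ (h'.map (Int.castRingHom (ZMod (ℓ x)))).Separable} ∩ Weil q g :
        Set ℤ[X]) = {h | h ∈ Weil q g ∧ ((ℓ x : ℤ) ∣ resq q h ∨
          ¬ (h.map (Int.castRingHom (ZMod (ℓ x)))).Separable)} := by
      ext h
      constructor
      · rintro ⟨h1, h2⟩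
        exact ⟨h2, h1⟩
      · rintro ⟨h1, h2⟩
        exact ⟨h2, h1⟩
    show ((({h' | (ℓ x : ℤ) ∣ resq q h' ∨ ¬ (h'.map (Int.castRingHom (ZMod (ℓ x)))).Separable} ∩ Weil q g :
        Set ℤ[X])).ncard : ℝ) ≤ _
    rw [h2]
    refine h1.trans ?_
    apply mul_le_mul_of_nonneg_right _ (Nat.cast_nonneg _)
    exact div_le_div_of_nonneg_left hC₂ hlog hlogle

end TI
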