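import Pool.Agent.Lib.MP_021685_agTI.E0
import Pool.Agent.Lib.MP_021685_agTI.D1

/-! Definitions for blocks L and G. -/

namespace TI

open Polynomial

/-- the members of `Weil q g` with `g` distinct real roots in the open interval `(-2√q, 2√q)` -/
def Strict (q g : ℕ) : Set ℤ[X] :=
  {h | h ∈ Weil q g ∧ ∃ x : Fin g → ℝ, StrictMono x ∧
    ∀ i, x i ^ 2 < 4 * (q : ℝ) ∧ (h.map (Int.castRingHom ℝ)).eval (x i) = 0}

/-- some prime of the sieve divides `resq q h` exactly once, and `h` is separable modulo this prime -/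
def GoodR (q g : ℕ) (h : ℤ[X]) : Prop :=
  ∃ ℓ ∈ Pg q g, (ℓ : ℤ) ∣ resq q h ∧ ¬ (ℓ : ℤ) ^ 2 ∣ resq q h ∧
    (h.map (Int.castRingHom (ZMod ℓ))).Separable

end TI
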