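import Pool.Agent.Lib.MP_021685_agTI.L1
import Pool.Agent.Lib.MP_021685_agTI.D3
import Pool.Agent.Lib.MP_021685_agTI.E3

/-! LEAF L3 (medium).  The sieve on one line.

PROOF.  `K` from `excluded q`, `c', C'` from `primes_lower q`.  Let `g ≥ g₀`, `h₁ = h₀ - C (h₀.coeff 0)` (natDegree `g ≥ 1`; `h₀ = h₁ + C ..`), `A = evA q h₁`, `B = evB q h₁ = evB q h₀ ≠ 0`, `D = 4 q B²`.  By `ev_add_C`: `resq q (h₁ + C c) = (c + A)² - D`, so `Ex A D ℓ c` says that `ℓ` divides it exactly once.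
`Z` from `excluded` (applied to `h₀`; `h₀ + C c'` runs over the same polynomials as `h₁ + C c`), `P = Pg q g \ Z`.  For `ℓ ∈ P`: prime, odd, `ℓ ∤ q`, `ℓ ∤ B`, so `ℓ ∤ D`; `q` is a square mod `ℓ`, so `D = q (2B)²` is; `ℓ ≤ y = ⌊(21/20)^g⌋₊`.
`∑_{ℓ ∈ P} 1/ℓ ≥ c' log g - C' - |Z|/g³ ≥ c' log g - C' - K/g` (members of `Pg` are `> g³`), which is `≥ S := (c'/2) log g ≥ 1` for `g ≥ g₀`.
`line_card` with `Q h = ¬ GoodR q g h` and with `Q = True`: lower interval `Icc lo hi`.  If `¬ GoodR q g (h₁ + C c)` then `¬ Ex A D ℓ c` for all `ℓ ∈ P` (otherwise `ℓ` divides `resq q (h₁ + C c)`, so the polynomial is separable mod `ℓ` by `excluded`, and it would be good).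
`turan`: the number is `≤ L/S + 10 y^4/S² ≤ L/((c'/2) log g) + 10 (21/20)^(4g)`.  Take `c = c'/2`. -/

namespace TI

open Polynomial

private theorem L3_mem {p : ℤ → Prop} {d : DecidablePred p} {s : Finset ℤ} {c : ℤ} :
    c ∈ @Finset.filter ℤ p d s ↔ c ∈ s ∧ p c := Finset.mem_filter

theorem line_sieve (q : ℕ) (hq : 1 ≤ q) : ∃ c : ℝ, 0 < c ∧ ∃ g₀ : ℕ, 2 ≤ g₀ ∧ ∀ g : ℕ, g₀ ≤ g →
    ∀ h₀ ∈ Weil q g, OKline q h₀ →
      (({h | h ∈ Strict q g ∧ pre g (g - 1) h = pre g (g - 1) h₀ ∧ ¬ GoodR q g h} : Set ℤ[X]).ncard : ℝ) ≤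
        (({h | h ∈ Strict q g ∧ pre g (g - 1) h = pre g (g - 1) h₀} : Set ℤ[X]).ncard : ℝ) /
          (c * Real.log g) + 10 * (21 / 20) ^ (4 * g) := by
  classical
  obtain ⟨K, hK0, hK⟩ := excluded q hq
  obtain ⟨c', C', hc', hP⟩ := primes_lower q hq
  refine ⟨c' / 2, by positivity, max 2 ⌈Real.exp (2 / c' * max (C' + K) 1)⌉₊, le_max_left _ _, ?_⟩
  intro g hg h₀ h0 hOK
  have hg2 : 2 ≤ g := (le_max_left _ _).trans hg
  have hgR : Real.exp (2 / c' * max (C' + K) 1) ≤ (g : ℝ) :=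
    (Nat.le_ceil _).trans (by exact_mod_cast (le_max_right _ _).trans hg)
  have hgpos : (0 : ℝ) < g := by exact_mod_cast (by omega : 0 < g)
  have hlog : 2 / c' * max (C' + K) 1 ≤ Real.log g := (Real.le_log_iff_exp_le hgpos).2 hgR
  have hlog2 : max (C' + K) 1 ≤ c' / 2 * Real.log g := by
    have h1 := mul_le_mul_of_nonneg_left hlog (by positivity : 0 ≤ c' / 2)
    have h2 : c' / 2 * (2 / c' * max (C' + K) 1) = max (C' + K) 1 := by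
      field_simp
    linarith
  have hS1 : 1 ≤ c' / 2 * Real.log g := (le_max_right _ _).trans hlog2
  have hS2 : C' + K ≤ c' / 2 * Real.log g := (le_max_left _ _).trans hlog2
  obtain ⟨Z, hZ, hZ'⟩ := hK g hg2 h₀ h0 hOK
  set h₁ : ℤ[X] := h₀ - C (h₀.coeff 0) with hh₁
  have hd1 : h₁.natDegree = g := by
    rw [hh₁, natDegree_sub_C]
    exact h0.2.1
  have hn1 : 1 ≤ h₁.natDegree := by omega
  have hback : h₀ = h₁ + C (h₀.coeff 0) := by rw [hh₁]; ring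
  have hB : evB q h₀ = evB q h₁ := by
    conv_lhs => rw [hback]
    exact (ev_add_C q h₁ hn1 _).2
  set A : ℤ := evA q h₁ with hA
  set B : ℤ := evB q h₀ with hBdef
  have hres : ∀ c : ℤ, resq q (h₁ + C c) = (c + A) ^ 2 - 4 * (q : ℤ) * B ^ 2 := by
    intro c
    obtain ⟨h1, h2⟩ := ev_add_C q h₁ hn1 c
    unfold resq
    rw [h1, h2, hB]
  have hP' : ∀ ℓ ∈ Pg q g \ Z, ℓ.Prime ∧ Odd ℓ ∧ ¬ (ℓ : ℤ) ∣ 4 * (q : ℤ) * B ^ 2 ∧
      IsSquare ((4 * (q : ℤ) * B ^ 2 : ℤ) : ZMod ℓ) ∧ ℓ ≤ ⌊((21 : ℝ) / 20) ^ g⌋₊ := by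
    intro ℓ hℓ
    obtain ⟨hℓ1, hℓ2⟩ := Finset.mem_sdiff.1 hℓ
    unfold Pg at hℓ1
    obtain ⟨h1, hpr, hg3, hodd, hlq, hsq⟩ := Finset.mem_filter.1 hℓ1
    refine ⟨hpr, hodd, ?_, ?_, (Finset.mem_Icc.1 h1).2⟩
    · intro hdvd
      have hprZ : Prime (ℓ : ℤ) := Nat.prime_iff_prime_int.1 hpr
      rcases hprZ.dvd_or_dvd hdvd with h2 | h2
      · rcases hprZ.dvd_or_dvd h2 with h3 | h3
        · have h4 : ℓ ∣ 2 ^ 2 := by
            have : (ℓ : ℤ) ∣ ((2 ^ 2 : ℕ) : ℤ) := by simpa using h3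
            exact_mod_cast this
          have h5 := hpr.dvd_of_dvd_pow h4
          have h6 := (Nat.prime_dvd_prime_iff_eq hpr Nat.prime_two).1 h5
          rw [h6] at hodd
          exact absurd hodd (by decide)
        · exact hlq (by exact_mod_cast h3)
      · exact (hZ' ℓ hpr hℓ2).1 (hprZ.dvd_of_dvd_pow h2)
    · obtain ⟨r, hr⟩ := hsq
      refine ⟨r * 2 * (B : ZMod ℓ), ?_⟩
      push_cast
      rw [hr]
      ring
  have hsum : c' / 2 * Real.log g ≤ ∑ ℓ ∈ Pg q g \ Z, (1 : ℝ) / ℓ := by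
    have h1 := hP g hg2
    have h2 : ∑ ℓ ∈ Pg q g, (1 : ℝ) / ℓ = ∑ ℓ ∈ Pg q g ∩ Z, (1 : ℝ) / ℓ + ∑ ℓ ∈ Pg q g \ Z, (1 : ℝ) / ℓ :=
      by
        have h20 := Finset.sum_sdiff (f := fun ℓ : ℕ => (1 : ℝ) / ℓ) (Finset.inter_subset_left : Pg q g ∩ Z ⊆ Pg q g)
        rw [Finset.sdiff_inter_self_left] at h20
        linarith
    have h3 : ∑ ℓ ∈ Pg q g ∩ Z, (1 : ℝ) / ℓ ≤ K := by
      have h4 : ∑ ℓ ∈ Pg q g ∩ Z, (1 : ℝ) / ℓ ≤ ∑ _ℓ ∈ Pg q g ∩ Z, 1 / (g : ℝ) ^ 3 := by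
        refine Finset.sum_le_sum fun ℓ hℓ => ?_
        have h5 := (Finset.mem_inter.1 hℓ).1
        unfold Pg at h5
        have h6 := (Finset.mem_filter.1 h5).2.2.1
        have h7 : (g : ℝ) ^ 3 ≤ ℓ := by exact_mod_cast h6.le
        exact one_div_le_one_div_of_le (by positivity) h7
      refine h4.trans ?_
      rw [Finset.sum_const, nsmul_eq_mul]
      have h8 : ((Pg q g ∩ Z).card : ℝ) ≤ K * (g : ℝ) ^ 2 :=
        le_trans (by exact_mod_cast Finset.card_le_card Finset.inter_subset_right) hZ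
      have h9 : ((Pg q g ∩ Z).card : ℝ) * (1 / (g : ℝ) ^ 3) ≤ K * (g : ℝ) ^ 2 * (1 / (g : ℝ) ^ 3) :=
        mul_le_mul_of_nonneg_right h8 (by positivity)
      refine h9.trans ?_
      have h10 : K * (g : ℝ) ^ 2 * (1 / (g : ℝ) ^ 3) = K / g := by
        field_simp
      rw [h10]
      exact div_le_self hK0 (by exact_mod_cast (by omega : 1 ≤ g))
    have h11 : c' * Real.log g = c' / 2 * Real.log g + c' / 2 * Real.log g := by ring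
    linarith
  obtain ⟨lo, hi, H⟩ := line_card (by omega : 1 ≤ g) h0
  classical
  have hT := turan A (4 * (q : ℤ) * B ^ 2) (Pg q g \ Z) ⌊((21 : ℝ) / 20) ^ g⌋₊ hP' lo hi
    (by linarith : 0 < c' / 2 * Real.log g) hsum
  have hH1 := H (fun h => ¬ GoodR q g h)
  have hH2 := H (fun _ => True)
  have hset : ({h | h ∈ Strict q g ∧ pre g (g - 1) h = pre g (g - 1) h₀ ∧ True} : Set ℤ[X]) =
      {h | h ∈ Strict q g ∧ pre g (g - 1) h = pre g (g - 1) h₀} := by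
    ext h
    constructor
    · rintro ⟨h1, h2, -⟩
      exact ⟨h1, h2⟩
    · rintro ⟨h1, h2⟩
      exact ⟨h1, h2, trivial⟩
  rw [hset, Finset.filter_true] at hH2
  rw [hH2, hH1]
  have hy : ((⌊((21 : ℝ) / 20) ^ g⌋₊ : ℕ) : ℝ) ≤ ((21 : ℝ) / 20) ^ g := Nat.floor_le (by positivity)
  have hy4 : ((⌊((21 : ℝ) / 20) ^ g⌋₊ : ℕ) : ℝ) ^ 4 ≤ (21 / 20) ^ (4 * g) := by
    have h1 := pow_le_pow_left₀ (Nat.cast_nonneg _) hy 4
    refine h1.trans (le_of_eq ?_)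
    rw [← pow_mul, mul_comm]
  have hfin : 10 * ((⌊((21 : ℝ) / 20) ^ g⌋₊ : ℕ) : ℝ) ^ 4 / (c' / 2 * Real.log g) ^ 2 ≤
      10 * (21 / 20) ^ (4 * g) := by
    have h1 : 10 * ((⌊((21 : ℝ) / 20) ^ g⌋₊ : ℕ) : ℝ) ^ 4 / (c' / 2 * Real.log g) ^ 2 ≤
        10 * ((⌊((21 : ℝ) / 20) ^ g⌋₊ : ℕ) : ℝ) ^ 4 :=
      div_le_self (by positivity) (one_le_pow₀ hS1)
    linarith
  refine (Nat.cast_le.2 (Finset.card_le_card ?_)).trans (hT.trans (add_le_add_right hfin _))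
  intro c hc
  obtain ⟨hc1, hc2⟩ := L3_mem.1 hc
  refine L3_mem.2 ⟨hc1, fun ℓ hℓ hEx => hc2 ?_⟩
  obtain ⟨hℓ1, hℓ2⟩ := Finset.mem_sdiff.1 hℓ
  have hpr := (hP' ℓ hℓ).1
  obtain ⟨he1, he2⟩ := hEx
  have hres' := hres c
  refine ⟨ℓ, hℓ1, ?_, ?_, ?_⟩
  · rw [hres']; exact he1
  · rw [hres']; exact he2
  · have h3 : h₁ + C c = h₀ + C (c - h₀.coeff 0) := by
      rw [hh₁, C_sub]
      ring
    have h4 := (hZ' ℓ hpr hℓ2).2 (c - h₀.coeff 0) (by rw [← h3, hres']; exact he1)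
    rw [← h3] at h4
    exact h4

end TI
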