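import Pool.Agent.Lib.MP_021685_agTI.L1
import Pool.Agent.Lib.MP_021685_agTI.D0

/-! LEAF L4 (medium).  Classes modulo a prime on one line.

PROOF.  `h₁ = h₀ - C (h₀.coeff 0)`; on the line the polynomials are `h₁ + C c`, `c ∈ Icc lo hi` (`line_card`).
(`line_mod`) `ℓ > g` prime.  (i) `resq q (h₁ + C c) = (c + A)² - 4qB²` (`ev_add_C`) vanishes mod `ℓ` for at most two classes of `c` mod `ℓ`.  (ii) let `k` be an algebraic closure of `ZMod ℓ`.  If `h₁ + c` is not separable mod `ℓ`, it has a double root `y ∈ k`: `h₁'(y) = 0`, `c = -h₁(y)`.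
`h₁' ≠ 0` mod `ℓ` because its leading coefficient is `g`, `0 < g < ℓ`; it has degree `g - 1`, at most `g - 1` roots: at most `g - 1` classes of `c`.  So the set `Rs` of bad classes has at most `g + 1` elements and `count_residues` gives at most `|Rs| L/ℓ + |Rs| ≤ (g+1)(L/ℓ + 1)`.
(`line_ord`) the class `c = 0` mod `p` (`h.coeff 0 = c`): at most `L/p + 1 ≤ L/2 + 1`. -/

namespace TI

open Polynomial

private theorem L4_line {q g : ℕ} (hg : 1 ≤ g) {h₀ : ℤ[X]} (h0 : h₀ ∈ Weil q g) (Q : ℤ[X] → Prop) {m : ℕ} (hm : 0 < m)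
    (Rs : Finset (ZMod m)) (hQ : ∀ c : ℤ, Q (h₀ - C (h₀.coeff 0) + C c) → ((c : ℤ) : ZMod m) ∈ Rs) :
    (({h | h ∈ Strict q g ∧ pre g (g - 1) h = pre g (g - 1) h₀ ∧ Q h} : Set ℤ[X]).ncard : ℝ) ≤
      (Rs.card : ℝ) * ((({h | h ∈ Strict q g ∧ pre g (g - 1) h = pre g (g - 1) h₀} : Set ℤ[X]).ncard : ℝ) / m + 1) := by
  classical
  obtain ⟨lo, hi, hl⟩ := line_card hg h0
  have e1 : ({h | h ∈ Strict q g ∧ pre g (g - 1) h = pre g (g - 1) h₀} : Set ℤ[X]).ncard = (Finset.Icc lo hi).card := by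
    have h1 := hl (fun _ => True)
    simp only [and_true, Finset.filter_true] at h1
    exact h1
  have e2 : (((Finset.Icc lo hi).filter (fun c : ℤ => Q (h₀ - C (h₀.coeff 0) + C c))).card : ℝ) ≤
      (((Finset.Icc lo hi).filter (fun c : ℤ => ((c : ℤ) : ZMod m) ∈ Rs)).card : ℝ) := by
    have h2 : ((Finset.Icc lo hi).filter (fun c : ℤ => Q (h₀ - C (h₀.coeff 0) + C c))) ⊆
        ((Finset.Icc lo hi).filter (fun c : ℤ => ((c : ℤ) : ZMod m) ∈ Rs)) := by
      intro c hc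
      rw [Finset.mem_filter] at hc ⊢
      exact ⟨hc.1, hQ c hc.2⟩
    exact_mod_cast Finset.card_le_card h2
  have e3 := (abs_le.1 (count_residues hm Rs lo hi)).2
  rw [hl Q, e1]
  refine e2.trans ?_
  have e4 : (Rs.card : ℝ) * ((Finset.Icc lo hi).card : ℝ) / m = (Rs.card : ℝ) * (((Finset.Icc lo hi).card : ℝ) / m) := by
    ring
  rw [e4] at e3
  linarith

private theorem L4_sq {F : Type} [Field F] (a d : F) :
    ∃ R : Finset F, R.card ≤ 2 ∧ ∀ c : F, (c + a) ^ 2 - d = 0 → c ∈ R := by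
  classical
  refine ⟨(((X + C a) ^ 2 - C d : F[X])).roots.toFinset, ?_, ?_⟩
  · refine (Multiset.toFinset_card_le _).trans ((card_roots' _).trans ?_)
    rw [natDegree_sub_C]
    refine natDegree_pow_le.trans ?_
    rw [natDegree_X_add_C]
  · intro c hc
    rw [Multiset.mem_toFinset, mem_roots']
    refine ⟨?_, ?_⟩
    · intro h0
      have h1 : ((X + C a) ^ 2 - C d : F[X]).natDegree = 2 := by
        rw [natDegree_sub_C, natDegree_pow, natDegree_X_add_C]
      rw [h0, natDegree_zero] at h1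
      omega
    · rw [IsRoot.def, eval_sub, eval_pow, eval_add, eval_X, eval_C, eval_C]
      exact hc

private theorem L4_sep {F : Type} [Field F] [Fintype F] {g : ℕ} (hg : 1 ≤ g) {f : F[X]} (hf : f.coeff g = 1)
    (hd : f.natDegree = g) (h0 : (g : F) ≠ 0) :
    ∃ R : Finset F, R.card ≤ g - 1 ∧ ∀ c : F, ¬ (f + C c).Separable → c ∈ R := by
  classical
  have hne : derivative f ≠ 0 := by
    intro h
    have h1 : (derivative f).coeff (g - 1) = 0 := by rw [h, coeff_zero]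
    have h2 : g - 1 + 1 = g := by omega
    rw [coeff_derivative, h2, hf, one_mul] at h1
    apply h0
    have h3 : ((g - 1 : ℕ) : F) + 1 = ((g - 1 + 1 : ℕ) : F) := by push_cast; ring
    rw [h3, h2] at h1
    exact h1
  have hdd : ((derivative f).map (algebraMap F (AlgebraicClosure F))).natDegree ≤ g - 1 := by
    rw [natDegree_map, ← hd]
    exact natDegree_derivative_le f
  refine ⟨Finset.univ.filter (fun c : F => algebraMap F (AlgebraicClosure F) c ∈
    ((derivative f).map (algebraMap F (AlgebraicClosure F))).roots.toFinset.image (fun y => - aeval y f)), ?_, ?_⟩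
  · refine le_trans ?_ ((card_roots' ((derivative f).map (algebraMap F (AlgebraicClosure F)))).trans hdd)
    refine le_trans ?_ (Multiset.toFinset_card_le _)
    refine le_trans ?_ (Finset.card_image_le (f := fun y => - aeval y f))
    refine Finset.card_le_card_of_injOn (fun c => algebraMap F (AlgebraicClosure F) c) ?_ ?_
    · intro c hc
      rw [Finset.mem_coe, Finset.mem_filter] at hc
      exact hc.2
    · intro a _ b _ hab
      exact (algebraMap F (AlgebraicClosure F)).injective hab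
  · intro c hc
    rw [Finset.mem_filter]
    refine ⟨Finset.mem_univ c, ?_⟩
    rw [Separable, isCoprime_iff_aeval_ne_zero_of_isAlgClosed F (AlgebraicClosure F)] at hc
    push Not at hc
    obtain ⟨y, hy1, hy2⟩ := hc
    rw [Finset.mem_image]
    refine ⟨y, ?_, ?_⟩
    · rw [Multiset.mem_toFinset, mem_roots', IsRoot.def, eval_map_algebraMap]
      refine ⟨(Polynomial.map_ne_zero_iff (algebraMap F (AlgebraicClosure F)).injective).2 hne, ?_⟩
      rw [derivative_add, derivative_C, add_zero] at hy2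
      exact hy2
    · rw [map_add, aeval_C] at hy1
      exact (eq_neg_of_add_eq_zero_right hy1).symm

theorem line_mod {q g : ℕ} (hg : 1 ≤ g) {h₀ : ℤ[X]} (h0 : h₀ ∈ Weil q g) {ℓ : ℕ} (hℓ : ℓ.Prime)
    (hgl : g < ℓ) :
    (({h | h ∈ Strict q g ∧ pre g (g - 1) h = pre g (g - 1) h₀ ∧
      ((ℓ : ℤ) ∣ resq q h ∨ ¬ (h.map (Int.castRingHom (ZMod ℓ))).Separable)} : Set ℤ[X]).ncard : ℝ) ≤
      ((g : ℝ) + 1) *
        ((({h | h ∈ Strict q g ∧ pre g (g - 1) h = pre g (g - 1) h₀} : Set ℤ[X]).ncard : ℝ) / ℓ + 1) := by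
  classical
  have : Fact ℓ.Prime := ⟨hℓ⟩
  have hdeg : (h₀ - C (h₀.coeff 0)).natDegree = g := by rw [natDegree_sub_C, h0.2.1]
  have hcf : (h₀ - C (h₀.coeff 0)).coeff g = 1 := by
    rw [coeff_sub, coeff_C, if_neg (by omega), sub_zero]
    have h1 := h0.1.coeff_natDegree
    rwa [h0.2.1] at h1
  obtain ⟨R₁, hR₁, hc₁⟩ := L4_sq (F := ZMod ℓ) ((evA q (h₀ - C (h₀.coeff 0)) : ℤ) : ZMod ℓ)
    (((4 * (q : ℤ) * evB q (h₀ - C (h₀.coeff 0)) ^ 2 : ℤ)) : ZMod ℓ)
  have hmc : ((h₀ - C (h₀.coeff 0)).map (Int.castRingHom (ZMod ℓ))).coeff g = 1 := by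
    rw [coeff_map, hcf, map_one]
  have hmd : ((h₀ - C (h₀.coeff 0)).map (Int.castRingHom (ZMod ℓ))).natDegree = g := by
    refine le_antisymm (natDegree_map_le.trans hdeg.le) ?_
    refine le_natDegree_of_ne_zero ?_
    rw [hmc]
    exact one_ne_zero
  have hg0 : ((g : ℕ) : ZMod ℓ) ≠ 0 := by
    intro h
    rw [ZMod.natCast_eq_zero_iff] at h
    exact absurd (Nat.le_of_dvd (by omega) h) (by omega)
  obtain ⟨R₂, hR₂, hc₂⟩ := L4_sep hg hmc hmd hg0
  have hQ : ∀ c : ℤ, ((ℓ : ℤ) ∣ resq q (h₀ - C (h₀.coeff 0) + C c) ∨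
      ¬ ((h₀ - C (h₀.coeff 0) + C c).map (Int.castRingHom (ZMod ℓ))).Separable) → ((c : ℤ) : ZMod ℓ) ∈ R₁ ∪ R₂ := by
    intro c hc
    rw [Finset.mem_union]
    rcases hc with hc | hc
    · left
      apply hc₁
      rw [resq, (ev_add_C q _ (by rw [hdeg]; exact hg) c).1, (ev_add_C q _ (by rw [hdeg]; exact hg) c).2] at hc
      have h1 := (ZMod.intCast_zmod_eq_zero_iff_dvd _ ℓ).2 hc
      push_cast at h1 ⊢
      exact h1
    · right
      apply hc₂
      rw [Polynomial.map_add, map_C] at hc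
      exact hc
  refine (L4_line hg h0 (fun h => (ℓ : ℤ) ∣ resq q h ∨ ¬ (h.map (Int.castRingHom (ZMod ℓ))).Separable) hℓ.pos _ hQ).trans ?_
  refine mul_le_mul_of_nonneg_right ?_ (by positivity)
  have h3 : (R₁ ∪ R₂).card ≤ g + 1 := (Finset.card_union_le _ _).trans (by omega)
  exact_mod_cast h3

theorem line_ord {q g : ℕ} (hg : 1 ≤ g) {h₀ : ℤ[X]} (h0 : h₀ ∈ Weil q g) {p : ℕ} (hp : 2 ≤ p) :
    (({h | h ∈ Strict q g ∧ pre g (g - 1) h = pre g (g - 1) h₀ ∧
      (p : ℤ) ∣ h.coeff 0} : Set ℤ[X]).ncard : ℝ) ≤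
      (({h | h ∈ Strict q g ∧ pre g (g - 1) h = pre g (g - 1) h₀} : Set ℤ[X]).ncard : ℝ) / 2 + 1 := by
  refine (L4_line hg h0 (fun h => (p : ℤ) ∣ h.coeff 0) (by omega : 0 < p) {0} ?_).trans ?_
  · intro c hc
    rw [Finset.mem_singleton, ZMod.intCast_zmod_eq_zero_iff_dvd]
    simpa using hc
  · rw [Finset.card_singleton, Nat.cast_one, one_mul]
    have h2 : (2 : ℝ) ≤ p := by exact_mod_cast hp
    have h3 := div_le_div_of_nonneg_left
      (Nat.cast_nonneg' (α := ℝ) (({h | h ∈ Strict q g ∧ pre g (g - 1) h = pre g (g - 1) h₀} : Set ℤ[X]).ncard)) (by norm_num : (0 : ℝ) < 2) h2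
    linarith

end TI
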