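import Pool.Agent.Lib.MP_021685_agTI.TD

/-! Auxiliary definitions of the project T-INF (MP_021685_ag). -/

namespace TI

open Polynomial

/-- even part of `h` at `4 q` -/
def evA (q : ℕ) (h : ℤ[X]) : ℤ :=
  ∑ i ∈ Finset.range (h.natDegree + 1), if Even i then h.coeff i * (4 * (q : ℤ)) ^ (i / 2) else 0

/-- odd part of `h` at `4 q`: `h(m) = evA + m evB` if `m ^ 2 = 4 q` -/
def evB (q : ℕ) (h : ℤ[X]) : ℤ :=
  ∑ i ∈ Finset.range (h.natDegree + 1), if Even i then 0 else h.coeff i * (4 * (q : ℤ)) ^ (i / 2)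

/-- `h(2√q) h(-2√q)`, an integer -/
def resq (q : ℕ) (h : ℤ[X]) : ℤ := evA q h ^ 2 - 4 * (q : ℤ) * evB q h ^ 2

/-- the coefficients of `X ^ (g - 1), .., X ^ (g - k)` -/
def pre (g k : ℕ) (h : ℤ[X]) : Fin k → ℤ := fun i => h.coeff (g - 1 - (i : ℕ))

end TI
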